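import Pool.Agent.Lib.MP_a17b09_nt.LP.Fourier

/-!
General lemmas (copied from LP/Exc and LP/Core so that the LG files do not depend on them).
-/

set_option autoImplicit false

open Finset

namespace Pool.Agent.Lib.MP_a17b09_nt.LG

open Pool.Agent.Lib.MP_a17b09_nt Pool.Agent.Lib.MP_a17b09_nt.LP

/-- packing -/
lemma packing {ι : Type*} (S : Finset ι) (τ : ι → ℝ) (κ a l : ℝ) (hκ : 0 < κ) (hl : 0 ≤ l)
    (hsep : ∀ i ∈ S, ∀ j ∈ S, i ≠ j → 1 ≤ κ * |τ i - τ j|)
    (hmem : ∀ i ∈ S, a ≤ τ i ∧ τ i ≤ a + l) : (S.card : ℝ) ≤ κ * l + 2 := by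
  have hsub : S.card ≤ (Finset.Icc ⌊κ * a⌋ ⌊κ * (a + l)⌋).card := by
    apply Finset.card_le_card_of_injOn (fun i => ⌊κ * τ i⌋)
    · intro i hi
      rw [Finset.mem_coe, Finset.mem_Icc]
      have := hmem i hi
      exact ⟨Int.floor_le_floor (by nlinarith [this.1]), Int.floor_le_floor (by nlinarith [this.2])⟩
    · intro i hi j hj hij
      by_contra hne
      have h1 := hsep i hi j hj hne
      simp only at hij
      have h2 := Int.abs_sub_lt_one_of_floor_eq_floor hij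
      rw [← mul_sub, abs_mul, abs_of_pos hκ] at h2
      linarith
  rw [Int.card_Icc] at hsub
  have h3 : ⌊κ * a⌋ ≤ ⌊κ * (a + l)⌋ := Int.floor_le_floor (by nlinarith)
  have h4 : (S.card : ℝ) ≤ ((⌊κ * (a + l)⌋ + 1 - ⌊κ * a⌋ : ℤ) : ℝ) := by
    have : (S.card : ℤ) ≤ ⌊κ * (a + l)⌋ + 1 - ⌊κ * a⌋ := by omega
    exact_mod_cast this
  have h5 := Int.floor_le (κ * (a + l))
  have h6 := Int.lt_floor_add_one (κ * a)
  push_cast at h4
  nlinarith

/-- Cauchy–Schwarz over the fibres -/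
lemma card_sq_le_fibres {ι κ : Type*} [DecidableEq κ] (R : Finset ι) (f : ι → κ) (T : Finset κ)
    (hf : ∀ i ∈ R, f i ∈ T) :
    R.card ^ 2 ≤ T.card * ((R ×ˢ R).filter (fun p => f p.1 = f p.2)).card := by
  classical
  have h1 : R.card = ∑ t ∈ T, (R.filter (fun i => f i = t)).card :=
    Finset.card_eq_sum_card_fiberwise hf
  have h2 : ((R ×ˢ R).filter (fun p => f p.1 = f p.2)).card =
      ∑ t ∈ T, (R.filter (fun i => f i = t)).card ^ 2 := by
    rw [Finset.card_eq_sum_card_fiberwise (f := fun p : ι × ι => f p.1) (t := T)]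
    · apply Finset.sum_congr rfl
      intro t _
      rw [sq, ← Finset.card_product]
      congr 1
      ext p
      simp only [Finset.mem_filter, Finset.mem_product]
      constructor
      · rintro ⟨⟨⟨a, b⟩, c⟩, d⟩
        exact ⟨⟨a, d⟩, b, c ▸ d⟩
      · rintro ⟨⟨a, d⟩, b, c⟩
        exact ⟨⟨⟨a, b⟩, d.trans c.symm⟩, d⟩
    · intro p hp
      exact hf _ (Finset.mem_product.1 (Finset.mem_filter.1 hp).1).1
  rw [h2, h1]
  have h3 := sq_sum_le_card_mul_sum_sq (s := T) (f := fun t => ((R.filter (fun i => f i = t)).card : ℝ))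
  exact_mod_cast h3

section

variable {Q Y L : ℕ} [NeZero Q]

lemma norm_mul3_sub_le {x y z a b : ℂ} (hy : ‖y‖ = 1) (hz : ‖z‖ = 1) (ha : ‖a‖ = 1) :
    ‖x * y * z - a * b‖ ≤ ‖x - a‖ + ‖y - b‖ + ‖z - 1‖ := by
  have e : x * y * z - a * b = (x - a) * (y * z) + a * ((y - b)) + a * y * (z - 1) := by ring
  rw [e]
  refine (norm_add_le _ _).trans ?_
  refine (add_le_add (norm_add_le _ _) le_rfl).trans ?_
  rw [norm_mul, norm_mul, norm_mul, norm_mul, norm_mul, hy, hz, ha]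
  simp

/-- small positive multiples -/
lemma ch_mul_le (k : ZMod Q) (δ : ℝ) (J : ℕ) (h : ∀ i ≤ J, ‖ch (k * ((2 ^ i : ℕ) : ZMod Q)) - 1‖ ≤ δ) :
    ∀ y : ℕ, y < 2 ^ J → ‖ch (k * (y : ZMod Q)) - 1‖ ≤ J * δ := by
  have hδ : 0 ≤ δ := (norm_nonneg _).trans (h 0 (Nat.zero_le _))
  have main : ∀ j ≤ J, ∀ y : ℕ, y < 2 ^ j → ‖ch (k * (y : ZMod Q)) - 1‖ ≤ j * δ := by
    intro j
    induction j with
    | zero =>
      intro _ y hy
      have : y = 0 := by simpa using hy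
      rw [this]; simp [ch_zero]
    | succ j ih =>
      intro hj y hy
      have hih := ih (by omega)
      by_cases hy2 : y < 2 ^ j
      · refine (hih y hy2).trans ?_
        push_cast
        linarith
      · push Not at hy2
        have hy3 : y - 2 ^ j < 2 ^ j := by
          rw [pow_succ] at hy; omega
        have h1 := hih (y - 2 ^ j) hy3
        have h2 := h j (by omega)
        have e : (y : ZMod Q) = ((y - 2 ^ j : ℕ) : ZMod Q) + ((2 ^ j : ℕ) : ZMod Q) := by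
          rw [← Nat.cast_add, Nat.sub_add_cancel hy2]
        rw [e, mul_add, ch_add]
        have e2 : ch (k * ((y - 2 ^ j : ℕ) : ZMod Q)) * ch (k * ((2 ^ j : ℕ) : ZMod Q)) - 1 =
            (ch (k * ((y - 2 ^ j : ℕ) : ZMod Q)) - 1) * ch (k * ((2 ^ j : ℕ) : ZMod Q)) +
            (ch (k * ((2 ^ j : ℕ) : ZMod Q)) - 1) := by ring
        rw [e2]
        refine (norm_add_le _ _).trans ?_
        rw [norm_mul, norm_ch, mul_one]
        have hc : (((j + 1 : ℕ) : ℝ)) * δ = (j : ℝ) * δ + δ := by push_cast; ring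
        rw [hc]
        exact add_le_add h1 h2
  exact main J le_rfl

/-- exceptional frequencies are small -/
lemma small_rep (hQ : Q = L * 2 ^ Y) (hL : 0 < L) (k : ZMod Q)
    (h : ∀ i ≤ Y, ‖ch (k * ((2 ^ i : ℕ) : ZMod Q)) - 1‖ < 1) :
    4 * |(k.valMinAbs : ℤ)| < L := by
  by_contra hcon
  push Not at hcon
  set m : ℤ := k.valMinAbs with hm
  have hQ0 : 0 < Q := Nat.pos_of_ne_zero (NeZero.ne Q)
  have hmQ : 2 * |m| ≤ Q := by
    have h1 := ZMod.valMinAbs_mem_Ioc k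
    rw [← hm, Set.mem_Ioc] at h1
    rw [← abs_two, ← abs_mul, mul_comm, abs_le]
    constructor <;> linarith [h1.1, h1.2]
  have hm0 : 0 < |m| := by
    have : (0 : ℤ) < L := by exact_mod_cast hL
    omega
  -- choose the largest `i ≤ Y` with `2^i |m| ≤ Q / 2`
  obtain ⟨i, hi, h1, h2⟩ : ∃ i ≤ Y, 2 * (2 ^ i * |m|) ≤ (Q : ℤ) ∧ (Q : ℤ) ≤ 4 * (2 ^ i * |m|) := by
    have hex : ∃ i, i ≤ Y ∧ (Q : ℤ) ≤ 4 * (2 ^ i * |m|) := by
      refine ⟨Y, le_rfl, ?_⟩
      have : (Q : ℤ) = L * 2 ^ Y := by exact_mod_cast hQ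
      rw [this]
      have : (L : ℤ) * 2 ^ Y ≤ (4 * |m|) * 2 ^ Y := by gcongr
      linarith
    classical
    have hmin := Nat.find_spec hex
    refine ⟨Nat.find hex, hmin.1, ?_, hmin.2⟩
    rcases Nat.eq_zero_or_pos (Nat.find hex) with h0 | h0
    · rw [h0]; simpa using hmQ
    · have hlt := Nat.find_min hex (m := Nat.find hex - 1) (by omega)
      push Not at hlt
      have h3 := hlt (by omega)
      have e : (2 : ℤ) ^ (Nat.find hex) = 2 * 2 ^ (Nat.find hex - 1) := by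
        rw [← pow_succ']; congr 1; omega
      rw [e]
      linarith
  have hk : k = ((m : ℤ) : ZMod Q) := by rw [hm]; exact (ZMod.coe_valMinAbs k).symm
  have h3 := h i hi
  have e1 : k * ((2 ^ i : ℕ) : ZMod Q) = ((m * 2 ^ i : ℤ) : ZMod Q) := by
    rw [hk]; push_cast; ring
  rw [e1, ch_intCast] at h3
  -- the angle
  set φ : ℝ := 2 * Real.pi * ((m * 2 ^ i : ℤ) : ℝ) / Q with hφ
  have e2 : Complex.exp (2 * Real.pi * Complex.I * ((m * 2 ^ i : ℤ) : ℂ) / Q) =
      Complex.exp (φ * Complex.I) := by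
    congr 1; rw [hφ]; push_cast; ring
  have hcos : Real.cos φ ≤ 0 := by
    have hpi := Real.pi_pos
    have hQr : (0 : ℝ) < Q := by exact_mod_cast hQ0
    rw [← Real.cos_abs]
    have habs : |φ| = 2 * Real.pi * (2 ^ i * |m| : ℤ) / Q := by
      rw [hφ, abs_div, abs_mul, abs_of_pos (by positivity : (0 : ℝ) < 2 * Real.pi),
        abs_of_pos hQr]
      congr 2
      push_cast
      rw [abs_mul, abs_of_pos (by positivity : (0 : ℝ) < 2 ^ i)]
      ring
    have a1 : (2 : ℝ) * (2 ^ i * |m| : ℤ) ≤ Q := by exact_mod_cast h1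
    have a2 : (Q : ℝ) ≤ 4 * (2 ^ i * |m| : ℤ) := by exact_mod_cast h2
    apply Real.cos_nonpos_of_pi_div_two_le_of_le
    · rw [habs, le_div_iff₀ hQr]; nlinarith
    · rw [habs, div_le_iff₀ hQr]; nlinarith
  have h4 : (1 : ℝ) ≤ ‖Complex.exp (φ * Complex.I) - 1‖ := by
    have h5 : |(Complex.exp (φ * Complex.I) - 1).re| ≤ ‖Complex.exp (φ * Complex.I) - 1‖ :=
      Complex.abs_re_le_norm _
    have h6 : (Complex.exp (φ * Complex.I) - 1).re = Real.cos φ - 1 := by
      rw [Complex.sub_re, Complex.exp_ofReal_mul_I_re, Complex.one_re]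
    rw [h6] at h5
    have h7 : 1 ≤ |Real.cos φ - 1| := by
      rw [abs_of_nonpos (by linarith)]; linarith
    linarith
  rw [e2] at h3
  linarith

end

end Pool.Agent.Lib.MP_a17b09_nt.LG
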