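import Pool.Agent.Lib.MP_a17b09_nt.LG.ExcG

set_option autoImplicit false

open Finset

namespace Pool.Agent.Lib.MP_a17b09_nt.LG

open Pool.Agent.Lib.MP_a17b09_nt Pool.Agent.Lib.MP_a17b09_nt.LP

section

variable {b c : ℤ} {V : ℤ × ℤ → Prop} {th : ℤ × ℤ → ℝ} {et : ℤ → ℤ × ℤ} {K : ℝ} {Q Y L : ℕ}

lemma th_close4 (hQ : Q = L * Y) (hY : 0 < Y) (hL : 0 < L) {u v u' v' : ℤ × ℤ} {d : ℤ}
    (hd : |d| < Y) (h : (((ps th Q u : ℤ) : ZMod Q) + ((ps th Q v : ℤ) : ZMod Q)) -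
      (((ps th Q u' : ℤ) : ZMod Q) + ((ps th Q v' : ℤ) : ZMod Q)) = (d : ZMod Q)) :
    ∃ n : ℤ, |th u + th v - th u' - th v' - n| ≤ 2 / L := by
  have hYr : (1 : ℝ) ≤ Y := by exact_mod_cast hY
  have hLr : (0 : ℝ) < L := by exact_mod_cast hL
  have hQr : (Q : ℝ) = L * Y := by exact_mod_cast hQ
  have hQ0 : (0 : ℝ) < Q := by rw [hQr]; positivity
  have h1 : ((ps th Q u + ps th Q v - ps th Q u' - ps th Q v' - d : ℤ) : ZMod Q) = 0 := by
    push_cast; rw [← h]; ring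
  rw [ZMod.intCast_zmod_eq_zero_iff_dvd] at h1
  obtain ⟨n, hn⟩ := h1
  refine ⟨n, ?_⟩
  have a1 := Int.floor_le ((Q : ℝ) * th u)
  have a2 := Int.lt_floor_add_one ((Q : ℝ) * th u)
  have b1 := Int.floor_le ((Q : ℝ) * th v)
  have b2 := Int.lt_floor_add_one ((Q : ℝ) * th v)
  have c1 := Int.floor_le ((Q : ℝ) * th u')
  have c2 := Int.lt_floor_add_one ((Q : ℝ) * th u')
  have d1 := Int.floor_le ((Q : ℝ) * th v')
  have d2 := Int.lt_floor_add_one ((Q : ℝ) * th v')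
  have e1 : ((ps th Q u : ℤ) : ℝ) = (⌊(Q : ℝ) * th u⌋ : ℝ) := rfl
  have e2 : ((ps th Q v : ℤ) : ℝ) = (⌊(Q : ℝ) * th v⌋ : ℝ) := rfl
  have e3 : ((ps th Q u' : ℤ) : ℝ) = (⌊(Q : ℝ) * th u'⌋ : ℝ) := rfl
  have e4 : ((ps th Q v' : ℤ) : ℝ) = (⌊(Q : ℝ) * th v'⌋ : ℝ) := rfl
  have h2 : ((ps th Q u : ℤ) : ℝ) + ps th Q v - ps th Q u' - ps th Q v' - d = Q * n := by
    exact_mod_cast hn
  rw [e1, e2, e3, e4] at h2
  have hdr : |(d : ℝ)| ≤ Y - 1 := by
    have : |d| ≤ (Y : ℤ) - 1 := by omega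
    exact_mod_cast this
  rw [abs_le] at hdr
  have e5 : (2 : ℝ) / L = 2 * Y / Q := by rw [hQr]; field_simp
  have key : |(th u + th v - th u' - th v' - n) * Q| ≤ 2 * Y := by
    rw [abs_le]
    constructor <;> nlinarith
  rw [abs_mul, abs_of_pos hQ0] at key
  rw [e5, le_div_iff₀ hQ0]
  exact key

open Classical in
/-- transfer of closeness on the grid to small determinants -/
lemma energy_transfer (S : Sys b c V th et K) (hQ : Q = L * Y) (hY : 0 < Y) (hL : 20 ≤ L) {B : ℕ}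
    (G : Finset (ℤ × ℤ)) (hG : ∀ u ∈ G, V u ∧ |th u| ≤ 1 ∧ nrm b c u ≤ B) (H : ℕ)
    (hH : 2 * K * B ^ 2 ≤ H * L) (En : ℕ)
    (hEn : ∀ n : ℤ, |n| ≤ 4 → (((G ×ˢ G) ×ˢ (G ×ˢ G)).filter (fun p =>
      |det (mulp b c p.1.1 p.1.2) (mulp b c (et n) (mulp b c p.2.1 p.2.2))| ≤ (H : ℤ))).card ≤ En)
    (A : Finset (((ℤ × ℤ) × (ℤ × ℤ)) × ((ℤ × ℤ) × (ℤ × ℤ))))
    (hA : A ⊆ (G ×ˢ G) ×ˢ (G ×ˢ G))
    (hd : ∀ p ∈ A, ∃ d : ℤ, |d| < Y ∧
      (((ps th Q p.1.1 : ℤ) : ZMod Q) + ((ps th Q p.1.2 : ℤ) : ZMod Q)) -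
      (((ps th Q p.2.1 : ℤ) : ZMod Q) + ((ps th Q p.2.2 : ℤ) : ZMod Q)) = (d : ZMod Q)) :
    A.card ≤ 9 * En := by
  classical
  have hLr : (20 : ℝ) ≤ L := by exact_mod_cast hL
  have hLpos : (0 : ℝ) < L := by linarith
  have hinv : (2 : ℝ) / L ≤ 1 / 10 := by
    rw [div_le_div_iff₀ hLpos (by norm_num)]; linarith
  have hsub : A ⊆ (Finset.Icc (-4 : ℤ) 4).biUnion (fun n => ((G ×ˢ G) ×ˢ (G ×ˢ G)).filter (fun p =>
      |det (mulp b c p.1.1 p.1.2) (mulp b c (et n) (mulp b c p.2.1 p.2.2))| ≤ (H : ℤ))) := by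
    rintro ⟨⟨u, v⟩, ⟨u', v'⟩⟩ hp
    obtain ⟨d, hd1, hd2⟩ := hd _ hp
    simp only at hd2
    have hmem := hA hp
    have hmem' := hmem
    rw [Finset.mem_product, Finset.mem_product, Finset.mem_product] at hmem
    obtain ⟨⟨hu, hv⟩, hu', hv'⟩ := hmem
    simp only at hu hv hu' hv'
    obtain ⟨n0, hn0⟩ := th_close4 hQ hY (by omega) hd1 hd2
    obtain ⟨Vu, tu, nu⟩ := hG u hu
    obtain ⟨Vv, tv, nv⟩ := hG v hv
    obtain ⟨Vu', tu', nu'⟩ := hG u' hu'
    obtain ⟨Vv', tv', nv'⟩ := hG v' hv'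
    obtain ⟨n1, hn1⟩ := S.th_mul u v Vu Vv
    obtain ⟨n2, hn2⟩ := S.th_mul u' v' Vu' Vv'
    have hab1 := S.th_mul_abs u v Vu Vv
    have hab2 := S.th_mul_abs u' v' Vu' Vv'
    have hab1' : |th (mulp b c u v)| ≤ 2 := by
      refine hab1.trans (max_le (by norm_num) ?_)
      exact (abs_add_le _ _).trans (by linarith)
    have hab2' : |th (mulp b c u' v')| ≤ 2 := by
      refine hab2.trans (max_le (by norm_num) ?_)
      exact (abs_add_le _ _).trans (by linarith)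
    set n : ℤ := n0 + n1 - n2 with hn
    have hclose : |th (mulp b c u' v') + n - th (mulp b c u v)| ≤ 2 / L := by
      have e : th (mulp b c u' v') + n - th (mulp b c u v) =
          -(th u + th v - th u' - th v' - n0) := by
        rw [hn1, hn2, hn]; push_cast; ring
      rw [e, abs_neg]; exact hn0
    have hnabs : |n| ≤ 4 := by
      have h1 : |(n : ℝ)| < 5 := by
        rw [abs_le] at hclose hab1' hab2'
        rw [abs_lt]
        constructor <;> linarith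
      have h2 : |n| < 5 := by exact_mod_cast h1
      omega
    rw [Finset.mem_biUnion]
    refine ⟨n, ?_, ?_⟩
    · rw [Finset.mem_Icc]
      rw [abs_le] at hnabs
      exact hnabs
    · rw [Finset.mem_filter]
      refine ⟨hmem', ?_⟩
      simp only
      have V1 := S.mul u v Vu Vv
      have V2 := S.mul u' v' Vu' Vv'
      have hs := S.sep _ _ V1 V2 n (hclose.trans (by linarith))
      have hpos : ∀ w, V w → (0 : ℝ) < nrm b c w := by
        intro w hw; exact_mod_cast S.pos w hw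
      have hB0 : ∀ w, nrm b c w ≤ B → (nrm b c w : ℝ) ≤ B := by
        intro w hw; exact_mod_cast hw
      have hK := S.hK
      have hn1' : (nrm b c (mulp b c u v) : ℝ) ≤ (B : ℝ) ^ 2 := by
        rw [nrm_mulp]; push_cast
        have a1 := hB0 u nu
        have a2 := hB0 v nv
        have a3 := hpos u Vu
        have a4 := hpos v Vv
        calc (nrm b c u : ℝ) * nrm b c v ≤ B * B := by gcongr
          _ = (B : ℝ) ^ 2 := by ring
      have hn2' : (nrm b c (mulp b c u' v') : ℝ) ≤ (B : ℝ) ^ 2 := by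
        rw [nrm_mulp]; push_cast
        have a1 := hB0 u' nu'
        have a2 := hB0 v' nv'
        have a3 := hpos u' Vu'
        have a4 := hpos v' Vv'
        calc (nrm b c u' : ℝ) * nrm b c v' ≤ B * B := by gcongr
          _ = (B : ℝ) ^ 2 := by ring
      have hp1 := hpos _ V1
      have hp2 := hpos _ V2
      have hsq : (th (mulp b c u' v') + n - th (mulp b c u v)) ^ 2 ≤ (2 / L) ^ 2 := by
        rw [← sq_abs]
        exact pow_le_pow_left₀ (abs_nonneg _) hclose 2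
      set Δ : ℤ := det (mulp b c u v) (mulp b c (et n) (mulp b c u' v')) with hΔ
      have h3 : (Δ : ℝ) ^ 2 ≤ (H : ℝ) ^ 2 := by
        calc (Δ : ℝ) ^ 2 ≤ K * nrm b c (mulp b c u v) * nrm b c (mulp b c u' v') *
              (th (mulp b c u' v') + n - th (mulp b c u v)) ^ 2 := hs
          _ ≤ K * (B : ℝ) ^ 2 * (B : ℝ) ^ 2 * (2 / L) ^ 2 := by gcongr
          _ = K * (2 * (B : ℝ) ^ 2 / L) ^ 2 := by ring
          _ ≤ K ^ 2 * (2 * (B : ℝ) ^ 2 / L) ^ 2 := by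
              have : K ≤ K ^ 2 := by nlinarith
              gcongr
          _ = (2 * K * (B : ℝ) ^ 2 / L) ^ 2 := by ring
          _ ≤ (H : ℝ) ^ 2 := by
              apply pow_le_pow_left₀ (by positivity)
              rw [div_le_iff₀ hLpos]
              exact hH
      have h4 : |(Δ : ℝ)| ≤ H := abs_le_of_sq_le_sq h3 (by positivity)
      exact_mod_cast h4
  refine (Finset.card_le_card hsub).trans ?_
  refine Finset.card_biUnion_le.trans ?_
  have h1 : ∀ n ∈ Finset.Icc (-4 : ℤ) 4, (((G ×ˢ G) ×ˢ (G ×ˢ G)).filter (fun p =>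
      |det (mulp b c p.1.1 p.1.2) (mulp b c (et n) (mulp b c p.2.1 p.2.2))| ≤ (H : ℤ))).card ≤ En := by
    intro n hn
    rw [Finset.mem_Icc] at hn
    exact hEn n (abs_le.2 hn)
  have h2 := Finset.sum_le_card_nsmul (Finset.Icc (-4 : ℤ) 4) _ En h1
  have h3 : (Finset.Icc (-4 : ℤ) 4).card = 9 := by decide
  rw [h3, smul_eq_mul] at h2
  exact h2

end

end Pool.Agent.Lib.MP_a17b09_nt.LG
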