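import Pool.Agent.Lib.MP_a17b09_nt.LP.DivSum
import Pool.Agent.Lib.MP_a17b09_nt.Q.Tau

set_option autoImplicit false

open Finset

namespace Pool.Agent.Lib.MP_a17b09_nt.LG

open Pool.Agent.Lib.MP_a17b09_nt Pool.Agent.Lib.MP_a17b09_nt.LP

/-- the polynomial -/
def fq (b c : ℤ) (t : ℕ) : ℤ := (t : ℤ) ^ 2 + b * t + c

lemma fq_ne_zero {b c : ℤ} (hD : ¬ IsSquare (b ^ 2 - 4 * c)) (t : ℕ) : fq b c t ≠ 0 := by
  intro h
  apply hD
  unfold fq at h
  refine ⟨2 * t + b, ?_⟩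
  linear_combination (-4 : ℤ) * h

lemma abs_fq_le {b c : ℤ} {t N : ℕ} (h1 : 1 ≤ t) (h2 : t ≤ N) :
    |fq b c t| ≤ (1 + |b| + |c|) * (N : ℤ) ^ 2 := by
  have ht : (1 : ℤ) ≤ t := by exact_mod_cast h1
  have hN : (t : ℤ) ≤ N := by exact_mod_cast h2
  have hN2 : (t : ℤ) ^ 2 ≤ (N : ℤ) ^ 2 := by nlinarith
  have htN : (t : ℤ) ≤ (N : ℤ) ^ 2 := by nlinarith
  have h1N : (1 : ℤ) ≤ (N : ℤ) ^ 2 := by nlinarith
  unfold fq
  have a1 : |(t : ℤ) ^ 2| ≤ (N : ℤ) ^ 2 := by rw [abs_of_nonneg (by positivity)]; exact hN2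
  have a2 : |b * t| ≤ |b| * (N : ℤ) ^ 2 := by
    rw [abs_mul, abs_of_nonneg (by positivity : (0 : ℤ) ≤ t)]
    gcongr
  have a3 : |c| ≤ |c| * (N : ℤ) ^ 2 := by
    have := abs_nonneg c
    nlinarith
  calc |(t : ℤ) ^ 2 + b * t + c| ≤ |(t : ℤ) ^ 2 + b * t| + |c| := abs_add_le _ _
    _ ≤ |(t : ℤ) ^ 2| + |b * t| + |c| := by gcongr; exact abs_add_le _ _
    _ ≤ (1 + |b| + |c|) * (N : ℤ) ^ 2 := by linarith

theorem second_momentG {b c : ℤ} (hD : ¬ IsSquare (b ^ 2 - 4 * c)) :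
    ∃ C : ℕ, ∀ N : ℕ, 1 ≤ N →
      ∑ t ∈ Icc 1 N, (dv (fq b c t).natAbs : ℝ) ^ 2 ≤ C * N * (1 + Real.log N) ^ 32 := by
  classical
  obtain ⟨F, hF⟩ : ∃ F : ℕ, (F : ℤ) = 1 + |b| + |c| := Int.eq_ofNat_of_zero_le (by positivity) |>.imp
    (fun _ h => h.symm)
  have hF1 : 1 ≤ F := by
    have := abs_nonneg b
    have := abs_nonneg c
    omega
  have hFr : (1 : ℝ) ≤ F := by exact_mod_cast hF1
  set E : ℕ := (b ^ 2 - 4 * c).natAbs with hE
  have hD0 : b ^ 2 - 4 * c ≠ 0 := by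
    intro h; apply hD; rw [h]; exact ⟨0, by ring⟩
  have hlogF : 0 ≤ Real.log F := Real.log_nonneg hFr
  obtain ⟨C, hC⟩ := exists_nat_ge (4 * (E : ℝ) * (1 + F) * (1 + Real.log F) ^ 32)
  refine ⟨C, fun N hN => ?_⟩
  have hNr : (1 : ℝ) ≤ N := by exact_mod_cast hN
  have hlogN : 0 ≤ Real.log N := Real.log_nonneg hNr
  have h1 : ∀ t ∈ Icc 1 N, (dv (fq b c t).natAbs : ℝ) ^ 2 ≤
      ∑ q ∈ Icc 1 (F * N), if (q : ℤ) ∣ fq b c t then 4 * (dv q : ℝ) ^ 4 else 0 := by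
    intro t ht
    rw [Finset.mem_Icc] at ht
    have hpos : 0 < (fq b c t).natAbs := Int.natAbs_pos.2 (fq_ne_zero hD t)
    obtain ⟨q, hq1, hq2, hq3⟩ := exists_small_divisor hpos
    have hq0 : 0 < q := Nat.pos_of_dvd_of_pos hq1 hpos
    have hqN : q ≤ F * N := by
      by_contra hcon
      push Not at hcon
      have h4 := abs_fq_le (b := b) (c := c) ht.1 ht.2
      rw [← hF] at h4
      have h5 : (fq b c t).natAbs ≤ F * N ^ 2 := by
        have : ((fq b c t).natAbs : ℤ) ≤ ((F * N ^ 2 : ℕ) : ℤ) := by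
          rw [Int.natCast_natAbs]; push_cast; exact h4
        exact_mod_cast this
      have h6 : F * N ^ 2 ≤ (F * N) ^ 2 := by
        rw [mul_pow]
        exact Nat.mul_le_mul_right _ (Nat.le_self_pow (by norm_num) F)
      have h7 : (F * N) ^ 2 < q ^ 2 := Nat.pow_lt_pow_left hcon (by norm_num)
      omega
    have hq1' : (q : ℤ) ∣ fq b c t := Int.natCast_dvd.2 hq1
    have h2 : (dv (fq b c t).natAbs : ℝ) ^ 2 ≤ 4 * (dv q : ℝ) ^ 4 := by
      have h3 : (dv (fq b c t).natAbs : ℝ) ≤ 2 * (dv q : ℝ) ^ 2 := by exact_mod_cast hq3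
      calc (dv (fq b c t).natAbs : ℝ) ^ 2 ≤ (2 * (dv q : ℝ) ^ 2) ^ 2 := by gcongr
        _ = 4 * (dv q : ℝ) ^ 4 := by ring
    refine h2.trans ?_
    have h3 := Finset.single_le_sum
      (f := fun q : ℕ => if (q : ℤ) ∣ fq b c t then 4 * (dv q : ℝ) ^ 4 else 0) (s := Icc 1 (F * N))
      (by intro i _; split_ifs <;> positivity) (Finset.mem_Icc.2 ⟨hq0, hqN⟩)
    simp only [if_pos hq1'] at h3
    exact h3
  refine (Finset.sum_le_sum h1).trans ?_
  rw [Finset.sum_comm]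
  have h2 : ∀ q ∈ Icc 1 (F * N), ∑ t ∈ Icc 1 N,
      (if (q : ℤ) ∣ fq b c t then 4 * (dv q : ℝ) ^ 4 else 0) ≤
      4 * E * (1 + F) * N * ((dv q : ℝ) ^ 5 / q) := by
    intro q hq
    rw [Finset.mem_Icc] at hq
    have hq0 : 0 < q := by omega
    have hqr : (0 : ℝ) < q := by exact_mod_cast hq0
    rw [← Finset.sum_filter, Finset.sum_const, nsmul_eq_mul]
    have h3 : (((Icc 1 N).filter (fun t : ℕ => (q : ℤ) ∣ fq b c t)).card : ℝ) ≤
        ((1 + F) * (N / q)) * (E * dv q) := by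
      have h4 := count_interval q N hq0 b c
      have h5 := roots_card q hq0 b c E (by
        intro e _ he
        have h6 : e ^ 2 ∣ E := by
          rw [hE]
          have : ((e ^ 2 : ℕ) : ℤ) ∣ b ^ 2 - 4 * c := by push_cast; exact he
          exact Int.natCast_dvd.1 this
        have h7 : 0 < E := Int.natAbs_pos.2 hD0
        have h8 := Nat.le_of_dvd h7 h6
        have h9 : e ≤ e ^ 2 := Nat.le_self_pow (by norm_num) e
        omega)
      have h6 : ((Icc 1 N).filter (fun t : ℕ => (q : ℤ) ∣ fq b c t)).card ≤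
          (N / q + 1) * (E * dv q) := h4.trans (Nat.mul_le_mul_left _ h5)
      have h7 : (((Icc 1 N).filter (fun t : ℕ => (q : ℤ) ∣ fq b c t)).card : ℝ) ≤
          (((N / q : ℕ) : ℝ) + 1) * (E * dv q) := by exact_mod_cast h6
      refine h7.trans ?_
      have h8 : ((N / q : ℕ) : ℝ) ≤ (N : ℝ) / q := Nat.cast_div_le
      have h9 : (1 : ℝ) ≤ F * ((N : ℝ) / q) := by
        rw [← mul_div_assoc, le_div_iff₀ hqr, one_mul]; exact_mod_cast hq.2
      gcongr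
      linarith
    calc (((Icc 1 N).filter (fun t : ℕ => (q : ℤ) ∣ fq b c t)).card : ℝ) * (4 * (dv q : ℝ) ^ 4)
        ≤ (((1 + F) * (N / q)) * (E * dv q)) * (4 * (dv q : ℝ) ^ 4) := by gcongr
      _ = 4 * E * (1 + F) * N * ((dv q : ℝ) ^ 5 / q) := by ring
  refine (Finset.sum_le_sum h2).trans ?_
  rw [← Finset.mul_sum]
  have h3 := sum_dv_pow_div_log (F * N) 5
  norm_num at h3
  have h4 : 1 + Real.log (F * N) ≤ (1 + Real.log F) * (1 + Real.log N) := by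
    rw [Real.log_mul (by positivity) (by positivity)]
    nlinarith [mul_nonneg hlogF hlogN]
  have h0 : 0 ≤ 1 + Real.log (F * N) := by
    rw [Real.log_mul (by positivity) (by positivity)]; positivity
  calc 4 * (E : ℝ) * (1 + F) * N * ∑ q ∈ Icc 1 (F * N), (dv q : ℝ) ^ 5 / q
      ≤ 4 * (E : ℝ) * (1 + F) * N * (1 + Real.log (F * N)) ^ 32 := by gcongr
    _ ≤ 4 * (E : ℝ) * (1 + F) * N * ((1 + Real.log F) * (1 + Real.log N)) ^ 32 := by gcongr
    _ = (4 * (E : ℝ) * (1 + F) * (1 + Real.log F) ^ 32) * N * (1 + Real.log N) ^ 32 := by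
        rw [mul_pow]; ring
    _ ≤ C * N * (1 + Real.log N) ^ 32 := by gcongr

end Pool.Agent.Lib.MP_a17b09_nt.LG
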