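import Pool.Agent.Lib.MP_a17b09_nt.LG.TestsG
import Pool.Agent.Lib.MP_a17b09_nt.LG.MomG

set_option autoImplicit false

open Finset

namespace Pool.Agent.Lib.MP_a17b09_nt.LG

open Pool.Agent.Lib.MP_a17b09_nt Pool.Agent.Lib.MP_a17b09_nt.LP

/-- paths of unimodular pairs in a general cone -/
lemma path_gen (P : Set ℕ) (b c R : ℤ) : ∀ n : ℕ, ∀ u v : ℤ × ℤ, det u v ≤ n → 0 < det u v →
    IsCoprime u.1 u.2 → IsCoprime v.1 v.2 → |u.1| ≤ R → |u.2| ≤ R → |v.1| ≤ R → |v.2| ≤ R →
    col P b c u ≠ col P b c v → ∃ u' v' : ℤ × ℤ, det u' v' = 1 ∧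
      (|u'.1| ≤ R ∧ |u'.2| ≤ R ∧ |v'.1| ≤ R ∧ |v'.2| ≤ R) ∧ col P b c u' ≠ col P b c v' ∧
      (0 ≤ det u u' ∧ 0 ≤ det u' v) ∧ (0 ≤ det u v' ∧ 0 ≤ det v' v) := by
  intro n
  induction n with
  | zero => intro u v h1 h2; simp at h1; omega
  | succ n ih =>
    intro u v hn hpos hcu hcv hu1 hu2 hv1 hv2 hcol
    rcases (by omega : det u v = 1 ∨ 2 ≤ det u v) with h | h
    · refine ⟨u, v, h, ⟨hu1, hu2, hv1, hv2⟩, hcol, ⟨?_, hpos.le⟩, ⟨hpos.le, ?_⟩⟩
      · simp only [det]; linarith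
      · simp only [det]; linarith
    · -- a vector `w0` with `det u w0 = 1`
      obtain ⟨p, q, hpq⟩ := hcu
      set Δ := det u v with hΔ
      have hw0 : det u (-q, p) = 1 := by simp only [det]; linarith
      set s0 : ℤ := det (-q, p) v with hs0
      set k : ℤ := s0 / Δ with hk
      set w : ℤ × ℤ := (-q - k * u.1, p - k * u.2) with hw
      have hdw : det u w = 1 := by
        rw [hw]; simp only [det]
        linear_combination hpq
      set s : ℤ := det w v with hs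
      have hsmod : s = s0 % Δ := by
        have e1 : s = s0 - k * Δ := by
          rw [hs, hw, hs0, hΔ]; simp only [det]; ring
        rw [e1, hk, Int.emod_def]; ring
      have hs1 : 0 ≤ s := by rw [hsmod]; exact Int.emod_nonneg _ (by omega)
      have hs2 : s < Δ := by rw [hsmod]; exact Int.emod_lt_of_pos _ hpos
      have hrel1 : Δ * w.1 = s * u.1 + v.1 := by
        have : Δ * w.1 = s * u.1 + det u w * v.1 := by
          rw [hΔ, hs]; simp only [det]; ring
        rw [this, hdw, one_mul]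
      have hrel2 : Δ * w.2 = s * u.2 + v.2 := by
        have : Δ * w.2 = s * u.2 + det u w * v.2 := by
          rw [hΔ, hs]; simp only [det]; ring
        rw [this, hdw, one_mul]
      have hs0' : s ≠ 0 := by
        intro h0
        rw [h0] at hrel1 hrel2
        have d1 : Δ ∣ v.1 := ⟨w.1, by linarith⟩
        have d2 : Δ ∣ v.2 := ⟨w.2, by linarith⟩
        have := hcv.isUnit_of_dvd' d1 d2
        rw [Int.isUnit_iff] at this
        omega
      have hspos : 0 < s := by omega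
      have hcw : IsCoprime w.1 w.2 := by
        refine ⟨-u.2, u.1, ?_⟩
        have := hdw
        simp only [det] at this
        linarith
      have bound : ∀ x y z : ℤ, Δ * z = s * x + y → |x| ≤ R → |y| ≤ R → |z| ≤ R := by
        intro x y z hz hx hy
        have h1 : Δ * |z| ≤ Δ * R := by
          have e : Δ * |z| = |Δ * z| := by rw [abs_mul, abs_of_pos hpos]
          rw [e, hz]
          have hR : 0 ≤ R := (abs_nonneg _).trans hx
          calc |s * x + y| ≤ |s * x| + |y| := abs_add_le _ _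
            _ = s * |x| + |y| := by rw [abs_mul, abs_of_pos hspos]
            _ ≤ s * R + R := by gcongr
            _ = (s + 1) * R := by ring
            _ ≤ Δ * R := by
                apply mul_le_mul_of_nonneg_right _ hR
                omega
        exact le_of_mul_le_mul_left h1 hpos
      have hw1 : |w.1| ≤ R := bound _ _ _ hrel1 hu1 hv1
      have hw2 : |w.2| ≤ R := bound _ _ _ hrel2 hu2 hv2
      by_cases hc : col P b c w = col P b c u
      · have hcol' : col P b c w ≠ col P b c v := by rw [hc]; exact hcol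
        obtain ⟨u', v', g1, g2, g3, ⟨g4, g5⟩, ⟨g6, g7⟩⟩ :=
          ih w v (by push_cast at hn; omega) hspos hcw hcv hw1 hw2 hv1 hv2 hcol'
        have plu : ∀ z : ℤ × ℤ, 0 ≤ det w z → 0 ≤ det z v → 0 ≤ det u z := by
          intro z hz1 hz2
          have e : s * det u z = det z v * det u w + det w z * Δ := by
            rw [hs, hΔ]; simp only [det]; ring
          rw [hdw] at e
          have h1 : 0 ≤ s * det u z := by
            rw [e]
            have := mul_nonneg hz1 hpos.le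
            linarith
          by_contra hneg
          push Not at hneg
          nlinarith
        exact ⟨u', v', g1, g2, g3, ⟨plu u' g4 g5, g5⟩, ⟨plu v' g6 g7, g7⟩⟩
      · refine ⟨u, w, hdw, ⟨hu1, hu2, hw1, hw2⟩, fun h => hc h.symm, ⟨?_, hpos.le⟩, ⟨?_, hs1⟩⟩
        · simp only [det]; linarith
        · rw [hdw]; norm_num

section

variable {P : Set ℕ} {b c : ℤ} {V : ℤ × ℤ → Prop} {th : ℤ × ℤ → ℝ} {et : ℤ → ℤ × ℤ} {K : ℝ}
  {Q Y L : ℕ}

/-- real form of the grid position -/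
lemma ps_bounds (hQ : Q = L * Y) (hY : 0 < Y) (hL : 0 < L) (k w : ℤ) (u : ℤ × ℤ) (n : ℤ) :
    (k * Y ≤ ps th Q u + n * Q ↔ (k : ℝ) / L ≤ th u + n) ∧
    (ps th Q u + n * Q < w * Y ↔ th u + n < (w : ℝ) / L) := by
  have hYr : (0 : ℝ) < Y := by exact_mod_cast hY
  have hLr : (0 : ℝ) < L := by exact_mod_cast hL
  have hQr : (Q : ℝ) = L * Y := by exact_mod_cast hQ
  have e : ps th Q u + n * Q = ⌊(Q : ℝ) * (th u + n)⌋ := by
    unfold ps
    have : (Q : ℝ) * (th u + n) = (Q : ℝ) * th u + ((n * Q : ℤ) : ℝ) := by push_cast; ring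
    rw [this, Int.floor_add_intCast]
  rw [e]
  constructor
  · rw [Int.le_floor, div_le_iff₀ hLr, hQr]
    push_cast
    constructor
    · intro h
      have h2 : (k : ℝ) * Y ≤ ((th u + n) * L) * Y := by linarith
      exact le_of_mul_le_mul_right h2 hYr
    · intro h
      have h2 : (k : ℝ) * Y ≤ ((th u + n) * L) * Y := by gcongr
      linarith
  · rw [Int.floor_lt, lt_div_iff₀ hLr, hQr]
    push_cast
    constructor
    · intro h
      have h2 : ((th u + n) * L) * Y < (w : ℝ) * Y := by linarith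
      exact lt_of_mul_lt_mul_right h2 hYr.le
    · intro h
      have h2 : ((th u + n) * L) * Y < (w : ℝ) * Y := by gcongr
      linarith

/-- primitive part -/
lemma exists_prim (S : Sys b c V th et K) (P : Set ℕ) {u : ℤ × ℤ} (hu : V u) :
    ∃ u1 : ℤ × ℤ, IsCoprime u1.1 u1.2 ∧ V u1 ∧ th u1 = th u ∧ col P b c u1 = col P b c u ∧
      |u1.1| ≤ |u.1| ∧ |u1.2| ≤ |u.2| := by
  have hne := V_ne_zero S hu
  have hg : 0 < Int.gcd u.1 u.2 := by
    rw [Nat.pos_iff_ne_zero]
    intro h0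
    rw [Int.gcd_eq_zero_iff] at h0
    exact hne (Prod.ext h0.1 h0.2)
  obtain ⟨m', n', hcop, hm, hn⟩ := Int.exists_gcd_one hg
  set g : ℤ := (Int.gcd u.1 u.2 : ℤ) with hgdef
  have hg' : 0 < g := by rw [hgdef]; exact_mod_cast hg
  have hu' : u = (g * m', g * n') := by
    apply Prod.ext
    · simp only; rw [hm]; ring
    · simp only; rw [hn]; ring
  have hs := S.smul g (m', n') hg' (by rw [← hu']; exact hu)
  simp only at hs
  rw [← hu'] at hs
  refine ⟨(m', n'), Int.isCoprime_iff_gcd_eq_one.2 hcop, hs.1, hs.2.symm, ?_, ?_, ?_⟩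
  · have h := col_smul P S.hD hg'.ne' (V_ne_zero S hs.1)
    rw [← h]
    simp only
    rw [← hu']
  · rw [hu']; simp only
    rw [abs_mul, abs_of_pos hg']
    have := abs_nonneg m'
    nlinarith
  · rw [hu']; simp only
    rw [abs_mul, abs_of_pos hg']
    have := abs_nonneg n'
    nlinarith

/-- a bad window contains a bad unimodular pair -/
theorem bad_edge (S : Sys b c V th et K) (hQ : Q = L * Y) (hY : 0 < Y) (hL : 20 ≤ L) {M R : ℤ}
    (hR : K * M ≤ (R : ℝ) ^ 2) (hR0 : 0 ≤ R) {k : ℤ} (hc1 : -(L : ℤ) ≤ 2 * k) (hc2 : 2 * k < L)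
    (hbad : ¬ MonoC P b c V th Q Y M k) :
    ∃ u v : ℤ × ℤ, V u ∧ V v ∧ det u v = 1 ∧ (|u.1| ≤ R ∧ |u.2| ≤ R ∧ |v.1| ≤ R ∧ |v.2| ≤ R) ∧
      col P b c u ≠ col P b c v ∧ (k : ℝ) / L ≤ th u ∧ th u < ((k + 2 : ℤ) : ℝ) / L ∧
      (k : ℝ) / L ≤ th v ∧ th v < ((k + 2 : ℤ) : ℝ) / L := by
  have hLr : (20 : ℝ) ≤ L := by exact_mod_cast hL
  have hLpos : (0 : ℝ) < L := by linarith
  have hc1r : (-(1 : ℝ)) / 2 ≤ (k : ℝ) / L := by
    rw [div_le_div_iff₀ (by norm_num) hLpos]
    have : (-(L : ℝ)) ≤ 2 * k := by exact_mod_cast hc1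
    linarith
  have hc2r : ((k + 2 : ℤ) : ℝ) / L ≤ 3 / 5 := by
    rw [div_le_div_iff₀ hLpos (by norm_num)]
    have : (2 : ℝ) * k < L := by exact_mod_cast hc2
    push_cast
    linarith
  have hlen : ((k + 2 : ℤ) : ℝ) / L - (k : ℝ) / L ≤ 1 / 10 := by
    have : ((k + 2 : ℤ) : ℝ) / L - (k : ℝ) / L = 2 / L := by push_cast; ring
    rw [this, div_le_div_iff₀ hLpos (by norm_num)]
    linarith
  unfold MonoC at hbad
  push Not at hbad
  obtain ⟨u0, v0, hu0, hv0, huM, hvM, hu, hv, hcol⟩ := hbad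
  have norm1 : ∀ w : ℤ × ℤ, V w → nrm b c w ≤ M → InW th Q Y k w →
      ∃ w' : ℤ × ℤ, IsCoprime w'.1 w'.2 ∧ V w' ∧ (|w'.1| ≤ R ∧ |w'.2| ≤ R) ∧ (k : ℝ) / L ≤ th w' ∧
        th w' < ((k + 2 : ℤ) : ℝ) / L ∧ col P b c w' = col P b c w := by
    intro w hw hwM ⟨n, hn1, hn2⟩
    rw [(ps_bounds hQ hY (by omega) k (k + 2) w n).1] at hn1
    rw [(ps_bounds hQ hY (by omega) k (k + 2) w n).2] at hn2
    obtain ⟨w1, hw1, hnrm, hth⟩ := S.lift w hw n (by linarith) (by linarith)
    obtain ⟨w2, hcop, hV2, hth2, hcol2, hx, hy⟩ := exists_prim S P hw1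
    have hbox := S.box w1 hw1 (by rw [hth, abs_le]; constructor <;> linarith)
    have hn : (nrm b c w1 : ℝ) ≤ M := by rw [hnrm]; exact_mod_cast hwM
    have hK := S.hK
    have h1 : (w1.1 : ℝ) ^ 2 + (w1.2 : ℝ) ^ 2 ≤ (R : ℝ) ^ 2 := by
      refine hbox.trans (le_trans ?_ hR)
      gcongr
    have h2 : w1.1 ^ 2 + w1.2 ^ 2 ≤ R ^ 2 := by exact_mod_cast h1
    have h3 : |w1.1| ≤ R := abs_le_of_sq_le_sq (by nlinarith [sq_nonneg w1.2]) hR0
    have h4 : |w1.2| ≤ R := abs_le_of_sq_le_sq (by nlinarith [sq_nonneg w1.1]) hR0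
    refine ⟨w2, hcop, hV2, ⟨hx.trans h3, hy.trans h4⟩, ?_, ?_, ?_⟩
    · rw [hth2, hth]; exact hn1
    · rw [hth2, hth]; exact hn2
    · rw [hcol2]; unfold col; rw [hnrm]
  obtain ⟨u, hucop, hVu, ⟨hu1, hu2⟩, hu3, hu4, hucol⟩ := norm1 u0 hu0 huM hu
  obtain ⟨v, hvcop, hVv, ⟨hv1, hv2⟩, hv3, hv4, hvcol⟩ := norm1 v0 hv0 hvM hv
  have hcol' : col P b c u ≠ col P b c v := by rw [hucol, hvcol]; exact hcol
  have main : ∀ a d : ℤ × ℤ, IsCoprime a.1 a.2 → IsCoprime d.1 d.2 → V a → V d →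
      |a.1| ≤ R → |a.2| ≤ R → |d.1| ≤ R → |d.2| ≤ R →
      (k : ℝ) / L ≤ th a → th a < ((k + 2 : ℤ) : ℝ) / L →
      (k : ℝ) / L ≤ th d → th d < ((k + 2 : ℤ) : ℝ) / L → col P b c a ≠ col P b c d →
      0 < det a d → ∃ u v : ℤ × ℤ, V u ∧ V v ∧ det u v = 1 ∧
      (|u.1| ≤ R ∧ |u.2| ≤ R ∧ |v.1| ≤ R ∧ |v.2| ≤ R) ∧
      col P b c u ≠ col P b c v ∧ (k : ℝ) / L ≤ th u ∧ th u < ((k + 2 : ℤ) : ℝ) / L ∧
      (k : ℝ) / L ≤ th v ∧ th v < ((k + 2 : ℤ) : ℝ) / L := by
    intro a d ha hd hVa hVd ha1 ha2 hd1 hd2 hta hta' htd htd' had hdet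
    obtain ⟨u', v', g1, g2, g3, ⟨g4, g5⟩, ⟨g6, g7⟩⟩ :=
      path_gen P b c R (det a d).toNat a d (by omega) hdet ha hd ha1 ha2 hd1 hd2 had
    have hclose : |th d - th a| ≤ 1 / 4 := by
      rw [abs_le]; constructor <;> linarith
    have hne : ∀ w z : ℤ × ℤ, det w z = 1 → w ≠ 0 ∧ z ≠ 0 := by
      intro w z h
      constructor
      · rintro rfl; simp [det] at h
      · rintro rfl; simp [det] at h
    obtain ⟨hn1, hn2⟩ := hne _ _ g1
    obtain ⟨c1, c2, c3⟩ := S.cone a d hVa hVd hclose hdet u' hn1 g4 g5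
    obtain ⟨c4, c5, c6⟩ := S.cone a d hVa hVd hclose hdet v' hn2 g6 g7
    exact ⟨u', v', c1, c4, g1, g2, g3, hta.trans c2, c3.trans_lt htd', hta.trans c5,
      c6.trans_lt htd'⟩
  rcases lt_trichotomy (det u v) 0 with h | h | h
  · have h' : 0 < det v u := by
      have : det v u = - det u v := by unfold det; ring
      linarith
    exact main v u hvcop hucop hVv hVu hv1 hv2 hu1 hu2 hv3 hv4 hu3 hu4 (Ne.symm hcol') h'
  · exfalso
    apply hcol'
    have hd : u.1 * v.2 = u.2 * v.1 := by unfold det at h; linarith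
    -- `u = ± v`
    obtain ⟨p, q, hpq⟩ := hucop
    obtain ⟨p', q', hpq'⟩ := hvcop
    set s : ℤ := p * v.1 + q * v.2 with hs
    have e1 : v.1 = s * u.1 := by
      rw [hs]; linear_combination (-v.1) * hpq - q * hd
    have e2 : v.2 = s * u.2 := by
      rw [hs]; linear_combination (-v.2) * hpq + p * hd
    have hunit : s * (p' * u.1 + q' * u.2) = 1 := by
      rw [← hpq', e1, e2]; ring
    have hs1 : s = 1 ∨ s = -1 := Int.isUnit_iff.1 (IsUnit.of_mul_eq_one _ hunit)
    have hnn : nrm b c v = nrm b c u := by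
      unfold nrm
      rw [e1, e2]
      rcases hs1 with h | h <;> rw [h] <;> ring
    unfold col
    rw [hnn]
  · exact main u v hucop hvcop hVu hVv hu1 hu2 hv1 hv2 hu3 hu4 hv3 hv4 hcol' h


/-- two unimodular pairs with the same label and the same first norm differ by an element of
norm one -/
lemma same_fibre {u v u' v' : ℤ × ℤ} (hd : det u v = 1) (hd' : det u' v' = 1)
    (hl : lab b c u v = lab b c u' v') (hn : nrm b c u = nrm b c u') (hm : nrm b c u ≠ 0) :
    ∃ A B : ℤ, nrm b c u * A = lab b c u u' ∧ nrm b c u * B = det u u' ∧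
      u' = mulp b c (A, B) u := by
  obtain ⟨x, y⟩ := u
  obtain ⟨a1, b1⟩ := v
  obtain ⟨x', y'⟩ := u'
  obtain ⟨a2, b2⟩ := v'
  have E2 : nrm b c (x, y) * b1 - y * lab b c (x, y) (a1, b1) = x + b * y := by
    have : nrm b c (x, y) * b1 - y * lab b c (x, y) (a1, b1) =
        (x + b * y) * det (x, y) (a1, b1) := by simp only [nrm, lab, det]; ring
    rw [this, hd, mul_one]
  have E2' : nrm b c (x, y) * b2 - y' * lab b c (x, y) (a1, b1) = x' + b * y' := by
    have : nrm b c (x', y') * b2 - y' * lab b c (x', y') (a2, b2) =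
        (x' + b * y') * det (x', y') (a2, b2) := by simp only [nrm, lab, det]; ring
    rw [hn, hl, this, hd', mul_one]
  have E1' : x' * lab b c (x, y) (a1, b1) - nrm b c (x, y) * a2 = c * y' := by
    have : x' * lab b c (x', y') (a2, b2) - nrm b c (x', y') * a2 =
        c * y' * det (x', y') (a2, b2) := by simp only [nrm, lab, det]; ring
    rw [hn, hl, this, hd', mul_one]
  set m := nrm b c (x, y) with hmdef
  set t := lab b c (x, y) (a1, b1) with ht
  have hA : m * (b1 * x' - a2 * y) = lab b c (x, y) (x', y') := by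
    simp only [lab]
    linear_combination x' * E2 + y * E1'
  have hB : m * (b1 * y' - b2 * y) = det (x, y) (x', y') := by
    simp only [det]
    linear_combination y' * E2 - y * E2'
  refine ⟨b1 * x' - a2 * y, b1 * y' - b2 * y, hA, hB, ?_⟩
  have h1 : m * x' = m * ((b1 * x' - a2 * y) * x - c * (b1 * y' - b2 * y) * y) := by
    have e : m * ((b1 * x' - a2 * y) * x - c * (b1 * y' - b2 * y) * y) =
        (m * (b1 * x' - a2 * y)) * x - c * (m * (b1 * y' - b2 * y)) * y := by ring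
    rw [e, hA, hB, hmdef]
    simp only [nrm, lab, det]; ring
  have h2 : m * y' = m * ((b1 * x' - a2 * y) * y + (b1 * y' - b2 * y) * x +
      b * (b1 * y' - b2 * y) * y) := by
    have e : m * ((b1 * x' - a2 * y) * y + (b1 * y' - b2 * y) * x +
      b * (b1 * y' - b2 * y) * y) =
        (m * (b1 * x' - a2 * y)) * y + (m * (b1 * y' - b2 * y)) * x +
          b * (m * (b1 * y' - b2 * y)) * y := by ring
    rw [e, hA, hB, hmdef]
    simp only [nrm, lab, det]; ring
  have h1' := mul_left_cancel₀ hm h1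
  have h2' := mul_left_cancel₀ hm h2
  unfold mulp
  exact Prod.ext h1' h2'

lemma InW_cases (hQ : Q = L * Y) (hY : 0 < Y) {k : ℤ} {u : ℤ × ℤ}
    (h : InW th Q Y k u) : ∃ n : ℤ, k = ps th Q u / Y + n * L ∨ k = ps th Q u / Y - 1 + n * L := by
  obtain ⟨n, h1, h2⟩ := h
  have hYz : (0 : ℤ) < Y := by exact_mod_cast hY
  have hQ' : (Q : ℤ) = L * Y := by exact_mod_cast hQ
  have e : (ps th Q u + n * Q) / Y = ps th Q u / Y + n * L := by
    rw [hQ', ← mul_assoc]
    exact Int.add_mul_ediv_right _ _ hYz.ne'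
  have h3 : k ≤ (ps th Q u + n * Q) / Y := by
    rw [Int.le_ediv_iff_mul_le hYz]; exact h1
  have h4 : (ps th Q u + n * Q) / Y < k + 2 := by
    rw [Int.ediv_lt_iff_lt_mul hYz]; exact h2
  rw [e] at h3 h4
  refine ⟨n, ?_⟩
  omega

/-- lift of a cell index to the central range -/
lemma exists_central {k : ℕ} (hc : k < L) :
    ∃ k' n : ℤ, (k : ℤ) = k' + n * L ∧ -(L : ℤ) ≤ 2 * k' ∧ 2 * k' < L := by
  by_cases h : 2 * (k : ℤ) < L
  · exact ⟨k, 0, by ring, by omega, h⟩
  · exact ⟨k - L, 1, by ring, by omega, by omega⟩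

/-- the set of `1 ≤ t ≤ N` with `f(t) > 0` and negative sign -/
noncomputable def OSG (P : Set ℕ) (b c : ℤ) (N : ℕ) : Finset ℕ := by
  classical
  exact (Icc 1 N).filter (fun t : ℕ => 0 < fq b c t ∧ sgn P (fq b c t) = -1)

lemma mem_OSG {P : Set ℕ} {b c : ℤ} {N t : ℕ} :
    t ∈ OSG P b c N ↔ (1 ≤ t ∧ t ≤ N) ∧ 0 < fq b c t ∧ sgn P (fq b c t) = -1 := by
  unfold OSG
  rw [Finset.mem_filter, Finset.mem_Icc]

lemma abs_mul_le_aux {x y x' y' A : ℝ} (h : x ^ 2 + y ^ 2 ≤ A) (h' : x' ^ 2 + y' ^ 2 ≤ A) :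
    |x * x'| ≤ A := by
  have e1 : 2 * (x * x') ≤ x ^ 2 + x' ^ 2 := by linarith [two_mul_le_add_sq x x', mul_assoc 2 x x']
  have e2 : -(2 * (x * x')) ≤ x ^ 2 + x' ^ 2 := by
    have := two_mul_le_add_sq (-x) x'
    linarith [neg_sq x, mul_assoc 2 (-x) x', neg_mul x x']
  have e3 := sq_nonneg y
  have e4 := sq_nonneg y'
  rw [abs_le]
  constructor <;> linarith

open Classical in
/-- the number of windows that are not monochromatic -/
theorem nonmono_count (S : Sys b c V th et K) : ∃ C : ℕ, 0 < C ∧ ∀ (P : Set ℕ) (Q Y L : ℕ),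
    Q = L * Y → 0 < Y → 20 ≤ L → ∀ M N : ℕ, 1 ≤ M → C * M ≤ N →
    ((range L).filter (fun k : ℕ => ¬ MonoC P b c V th Q Y (M : ℤ) k)).card ≤
      C * (∑ t ∈ OSG P b c N, dv (fq b c t).natAbs + 1) := by
  obtain ⟨K0, hK0⟩ := exists_nat_ge K
  have hK0r : K ≤ (K0 : ℝ) ^ 2 := by
    have : (K0 : ℝ) ≤ (K0 : ℝ) ^ 2 := by
      have : K0 ≤ K0 ^ 2 := Nat.le_self_pow (by norm_num) K0
      exact_mod_cast this
    linarith
  obtain ⟨F, hF⟩ : ∃ F : ℕ, (F : ℤ) = 1 + |b| + |c| :=
    (Int.eq_ofNat_of_zero_le (by positivity)).imp (fun _ h => h.symm)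
  have hF1 : 1 ≤ F := by
    have := abs_nonneg b
    have := abs_nonneg c
    omega
  obtain ⟨β, hβ⟩ : ∃ β : ℕ, (β : ℤ) = |b| :=
    (Int.eq_ofNat_of_zero_le (abs_nonneg b)).imp (fun _ h => h.symm)
  obtain ⟨R1, hR1⟩ := exists_nat_ge (((F : ℝ) + 1) * K)
  set C3 : ℕ := F * (β + 1) ^ 2 with hC3
  set W : ℕ := 2 * (2 * R1 + 1) ^ 2 with hW
  set C : ℕ := W * ((β + 1) * C3 + 1) + F * (4 * K0 ^ 2) with hC
  have hC0 : 0 < C := by
    have : 0 < W := by positivity
    have : 0 < W * ((β + 1) * C3 + 1) := by positivity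
    omega
  refine ⟨C, hC0, ?_⟩
  intro P Q Y L hQ hY hL M N hM hMN
  have hLz : (0 : ℤ) < L := by
    have : 0 < L := by omega
    exact_mod_cast this
  set R : ℤ := K0 * (Nat.sqrt M + 1) with hRdef
  have hR0 : 0 ≤ R := by positivity
  have hsq1 : M < (Nat.sqrt M + 1) * (Nat.sqrt M + 1) := Nat.lt_succ_sqrt M
  have hsq2 : Nat.sqrt M * Nat.sqrt M ≤ M := Nat.sqrt_le M
  have hR : K * ((M : ℤ) : ℝ) ≤ (R : ℝ) ^ 2 := by
    have h1 : (M : ℝ) ≤ ((Nat.sqrt M : ℝ) + 1) ^ 2 := by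
      have : M ≤ (Nat.sqrt M + 1) ^ 2 := by rw [sq]; exact hsq1.le
      exact_mod_cast this
    rw [hRdef]
    push_cast
    rw [mul_pow]
    have hK := S.hK
    gcongr
  have hR2 : R ^ 2 ≤ 4 * K0 ^ 2 * M := by
    have h1 : (Nat.sqrt M + 1) ^ 2 ≤ 4 * M := by
      have h2 : 1 ≤ Nat.sqrt M := by
        rw [Nat.le_sqrt]; omega
      nlinarith
    have h2 : ((Nat.sqrt M : ℤ) + 1) ^ 2 ≤ 4 * M := by exact_mod_cast h1
    rw [hRdef, mul_pow]
    calc (K0 : ℤ) ^ 2 * ((Nat.sqrt M : ℤ) + 1) ^ 2 ≤ (K0 : ℤ) ^ 2 * (4 * M) := by gcongr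
      _ = 4 * (K0 : ℤ) ^ 2 * M := by ring
  set A := (range L).filter (fun k : ℕ => ¬ MonoC P b c V th Q Y (M : ℤ) k) with hA
  have key : ∀ k ∈ A, ∃ u v : ℤ × ℤ, V u ∧ V v ∧ det u v = 1 ∧ |th u| ≤ 1 ∧
      lab b c u v ≤ N ∧ 0 < 2 * lab b c u v + b ∧ col P b c u ≠ col P b c v ∧ InW th Q Y k u := by
    intro k hk
    rw [hA, Finset.mem_filter, Finset.mem_range] at hk
    obtain ⟨k', n, e, h1, h2⟩ := exists_central hk.1
    have hbad : ¬ MonoC P b c V th Q Y (M : ℤ) k' := by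
      rw [← MonoC_add_period hQ (M : ℤ) k' n, ← e]; exact hk.2
    obtain ⟨u, v, hVu, hVv, hd, ⟨r1, r2, r3, r4⟩, hcol, a1, a2, a3, a4⟩ :=
      bad_edge S hQ hY hL hR hR0 h1 h2 hbad
    have hLr : (20 : ℝ) ≤ L := by exact_mod_cast hL
    have hLpos : (0 : ℝ) < L := by linarith
    have hc1r : (-(1 : ℝ)) / 2 ≤ (k' : ℝ) / L := by
      rw [div_le_div_iff₀ (by norm_num) hLpos]
      have : (-(L : ℝ)) ≤ 2 * k' := by exact_mod_cast h1
      linarith
    have hc2r : ((k' + 2 : ℤ) : ℝ) / L ≤ 3 / 5 := by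
      rw [div_le_div_iff₀ hLpos (by norm_num)]
      have : (2 : ℝ) * k' < L := by exact_mod_cast h2
      push_cast
      linarith
    have hlen : ((k' + 2 : ℤ) : ℝ) / L - (k' : ℝ) / L ≤ 1 / 10 := by
      have : ((k' + 2 : ℤ) : ℝ) / L - (k' : ℝ) / L = 2 / L := by push_cast; ring
      rw [this, div_le_div_iff₀ hLpos (by norm_num)]
      linarith
    refine ⟨u, v, hVu, hVv, hd, by rw [abs_le]; constructor <;> linarith, ?_, ?_, hcol, ?_⟩
    · have h5 : lab b c u v ≤ F * R ^ 2 := by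
        have e1 : ∀ x y : ℤ, |x| ≤ R → |y| ≤ R → |x * y| ≤ R ^ 2 := by
          intro x y hx hy
          rw [abs_mul, sq]
          exact mul_le_mul hx hy (abs_nonneg _) hR0
        have e2 := e1 _ _ r1 r3
        have e3 := e1 _ _ r3 r2
        have e4 := e1 _ _ r2 r4
        unfold lab
        rw [hF]
        have f1 : u.1 * v.1 ≤ R ^ 2 := (le_abs_self _).trans e2
        have f2 : b * v.1 * u.2 ≤ |b| * R ^ 2 := by
          calc b * v.1 * u.2 ≤ |b * v.1 * u.2| := le_abs_self _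
            _ = |b| * |v.1 * u.2| := by rw [mul_assoc, abs_mul]
            _ ≤ |b| * R ^ 2 := by gcongr
        have f3 : c * u.2 * v.2 ≤ |c| * R ^ 2 := by
          calc c * u.2 * v.2 ≤ |c * u.2 * v.2| := le_abs_self _
            _ = |c| * |u.2 * v.2| := by rw [mul_assoc, abs_mul]
            _ ≤ |c| * R ^ 2 := by gcongr
        linarith
      have h6 : (F : ℤ) * R ^ 2 ≤ N := by
        have h7 : F * (4 * K0 ^ 2) * M ≤ N := by
          refine le_trans ?_ hMN
          apply Nat.mul_le_mul_right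
          rw [hC]; omega
        have h8 : (F : ℤ) * (4 * K0 ^ 2) * M ≤ N := by exact_mod_cast h7
        calc (F : ℤ) * R ^ 2 ≤ (F : ℤ) * (4 * (K0 : ℤ) ^ 2 * M) := by gcongr
          _ = (F : ℤ) * (4 * (K0 : ℤ) ^ 2) * M := by ring
          _ ≤ N := h8
      exact h5.trans h6
    · have := S.tr_pos u v hVu hVv (by rw [abs_le]; constructor <;> linarith)
      rw [hd, mul_one] at this
      exact this
    · rw [e, InW_add_period hQ]
      refine ⟨0, ?_, ?_⟩
      · rw [(ps_bounds hQ hY (by omega) k' (k' + 2) u 0).1]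
        push_cast; linarith
      · rw [(ps_bounds hQ hY (by omega) k' (k' + 2) u 0).2]
        have : th u + ((0 : ℤ) : ℝ) = th u := by simp
        rw [this]; exact a2
  choose! U Vv h1 h2 h3 h4 h5 h6 h7 h8 using key
  -- the classes
  set T1 : Finset (ℤ × ℤ) := ((OSG P b c N).sigma (fun t => (fq b c t).natAbs.divisors)).image
    (fun p => ((p.1 : ℤ), (p.2 : ℤ))) with hT1
  set T2 : Finset (ℤ × ℤ) := (Finset.Icc (-(β : ℤ)) 0) ×ˢ (Finset.Icc (1 : ℤ) C3) with hT2
  have hT1c : T1.card ≤ ∑ t ∈ OSG P b c N, dv (fq b c t).natAbs := by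
    rw [hT1]
    refine Finset.card_image_le.trans ?_
    rw [Finset.card_sigma]; rfl
  have hT2c : T2.card ≤ (β + 1) * C3 := by
    rw [hT2, Finset.card_product, Int.card_Icc, Int.card_Icc]
    apply le_of_eq
    congr 1
    · omega
    · omega
  have hTc : (T1 ∪ T2).card ≤ ∑ t ∈ OSG P b c N, dv (fq b c t).natAbs + (β + 1) * C3 :=
    (Finset.card_union_le _ _).trans (by omega)
  have hnn : ∀ k ∈ A, nrm b c (U k) * nrm b c (Vv k) =
      (lab b c (U k) (Vv k)) ^ 2 + b * lab b c (U k) (Vv k) + c := by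
    intro k hk
    rw [nrm_mul_nrm, h3 k hk]; ring
  have hmap : ∀ k ∈ A, (lab b c (U k) (Vv k), nrm b c (U k)) ∈ T1 ∪ T2 := by
    intro k hk
    have hp1 := S.pos _ (h1 k hk)
    have hp2 := S.pos _ (h2 k hk)
    have hprod := hnn k hk
    rw [Finset.mem_union]
    by_cases hpos : 0 < lab b c (U k) (Vv k)
    · left
      rw [hT1, Finset.mem_image]
      have e2 : (((lab b c (U k) (Vv k)).toNat : ℕ) : ℤ) = lab b c (U k) (Vv k) :=
        Int.toNat_of_nonneg hpos.le
      have e3 : (((nrm b c (U k)).toNat : ℕ) : ℤ) = nrm b c (U k) := Int.toNat_of_nonneg hp1.le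
      have efq : fq b c (lab b c (U k) (Vv k)).toNat = nrm b c (U k) * nrm b c (Vv k) := by
        unfold fq; rw [e2, hprod]
      refine ⟨⟨(lab b c (U k) (Vv k)).toNat, (nrm b c (U k)).toNat⟩, ?_, ?_⟩
      · rw [Finset.mem_sigma]
        refine ⟨?_, ?_⟩
        · rw [mem_OSG]
          simp only
          rw [efq]
          refine ⟨⟨by omega, ?_⟩, mul_pos hp1 hp2, ?_⟩
          · have : (((lab b c (U k) (Vv k)).toNat : ℕ) : ℤ) ≤ (N : ℤ) := by
              rw [e2]; exact h5 k hk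
            exact_mod_cast this
          · exact sgn_mul_eq_neg_one hp1.ne' hp2.ne' (h7 k hk)
        · simp only
          rw [Nat.mem_divisors, efq]
          refine ⟨?_, by
            rw [Int.natAbs_ne_zero]; exact (mul_pos hp1 hp2).ne'⟩
          have : (((nrm b c (U k)).toNat : ℕ) : ℤ) ∣ nrm b c (U k) * nrm b c (Vv k) := by
            rw [e3]; exact dvd_mul_right _ _
          exact Int.natCast_dvd.1 this
      · simp only
        rw [e2, e3]
    · right
      push Not at hpos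
      have htr := h6 k hk
      have hb := le_abs_self b
      have hlab0 : -(β : ℤ) ≤ lab b c (U k) (Vv k) := by omega
      rw [hT2, Finset.mem_product, Finset.mem_Icc, Finset.mem_Icc]
      refine ⟨⟨hlab0, hpos⟩, by omega, ?_⟩
      have hle1 : nrm b c (U k) ≤ nrm b c (U k) * nrm b c (Vv k) := by nlinarith
      refine hle1.trans ?_
      rw [hprod, hC3]
      push_cast
      rw [hF]
      set t := lab b c (U k) (Vv k) with ht
      have ht1 : |t| ≤ β := by rw [abs_le]; constructor <;> omega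
      have hβ0 : (0 : ℤ) ≤ β := by positivity
      have ht2 : t ^ 2 ≤ ((β : ℤ) + 1) ^ 2 := by
        rw [← sq_abs t]
        exact pow_le_pow_left₀ (abs_nonneg _) (by linarith) 2
      have ht3 : b * t ≤ |b| * ((β : ℤ) + 1) ^ 2 := by
        calc b * t ≤ |b * t| := le_abs_self _
          _ = |b| * |t| := abs_mul _ _
          _ ≤ |b| * ((β : ℤ) + 1) ^ 2 := by
              gcongr
              nlinarith
      have ht4 : c ≤ |c| * ((β : ℤ) + 1) ^ 2 := by
        have h9 : (1 : ℤ) ≤ ((β : ℤ) + 1) ^ 2 := by nlinarith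
        have h10 := le_abs_self c
        have h11 := abs_nonneg c
        nlinarith
      linarith
  have hfib : ∀ p ∈ T1 ∪ T2, (A.filter (fun k =>
      (lab b c (U k) (Vv k), nrm b c (U k)) = p)).card ≤ W := by
    rintro ⟨t, m⟩ _
    rcases (A.filter (fun k => (lab b c (U k) (Vv k), nrm b c (U k)) =
      (t, m))).eq_empty_or_nonempty with hemp | ⟨k0, hk0⟩
    · rw [hemp]; simp
    rw [Finset.mem_filter] at hk0
    set u0 := U k0 with hu0
    have hm0 : 0 < nrm b c u0 := S.pos _ (h1 k0 hk0.1)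
    have hm0r : (0 : ℝ) < nrm b c u0 := by exact_mod_cast hm0
    have hbox0 := S.box u0 (h1 k0 hk0.1) ((h4 k0 hk0.1).trans (by norm_num))
    set I : Finset ℤ := Finset.Icc (-(R1 : ℤ)) R1 with hI
    set D : Finset ((ℤ × ℤ) × ℕ) := (I ×ˢ I) ×ˢ (range 2) with hD
    have hDc : D.card = W := by
      rw [hD, Finset.card_product, Finset.card_product, hI, Int.card_Icc, Finset.card_range, hW]
      have : ((R1 : ℤ) + 1 - -(R1 : ℤ)).toNat = 2 * R1 + 1 := by omega
      rw [this]; ring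
    rw [← hDc]
    have hsub : A.filter (fun k => (lab b c (U k) (Vv k), nrm b c (U k)) = (t, m)) ⊆
        D.image (fun q => ((ps th Q (mulp b c q.1 u0) / Y - (q.2 : ℤ)) % L).toNat) := by
      intro k hk
      rw [Finset.mem_filter] at hk
      have heq := hk.2.trans hk0.2.symm
      simp only [Prod.mk.injEq] at heq
      obtain ⟨A1, B1, e1, e2, e3⟩ := same_fibre (b := b) (c := c) (h3 k0 hk0.1) (h3 k hk.1)
        heq.1.symm heq.2.symm hm0.ne'
      have hboxk := S.box (U k) (h1 k hk.1) ((h4 k hk.1).trans (by norm_num))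
      rw [heq.2] at hboxk
      have hw := h8 k hk.1
      obtain ⟨n, hn⟩ := InW_cases hQ hY hw
      have hkL : k < L := by
        have := hk.1
        rw [hA, Finset.mem_filter, Finset.mem_range] at this
        exact this.1
      -- bounds for the unit
      have bnd : ∀ x y x' y' : ℝ, x ^ 2 + y ^ 2 ≤ K * nrm b c u0 → x' ^ 2 + y' ^ 2 ≤ K * nrm b c u0 →
          |x * x'| ≤ K * nrm b c u0 := fun x y x' y' => abs_mul_le_aux
      have hbox0' : (u0.2 : ℝ) ^ 2 + (u0.1 : ℝ) ^ 2 ≤ K * nrm b c u0 := by linarith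
      have hboxk' : ((U k).2 : ℝ) ^ 2 + ((U k).1 : ℝ) ^ 2 ≤ K * nrm b c u0 := by linarith
      have b11 := bnd _ _ _ _ hbox0 hboxk
      have b12 := bnd _ _ _ _ hbox0 hboxk'
      have b21 := bnd _ _ _ _ hbox0' hboxk
      have b22 := bnd _ _ _ _ hbox0' hboxk'
      have hFr : (F : ℝ) = 1 + |(b : ℝ)| + |(c : ℝ)| := by exact_mod_cast hF
      have hA1 : |(A1 : ℝ)| ≤ R1 := by
        have e1r : (nrm b c u0 : ℝ) * A1 = u0.1 * (U k).1 + b * ((U k).1 * u0.2) +
            c * (u0.2 * (U k).2) := by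
          have := e1
          unfold lab at this
          have h9 : nrm b c u0 * A1 = u0.1 * (U k).1 + b * ((U k).1 * u0.2) +
            c * (u0.2 * (U k).2) := by rw [this]; ring
          exact_mod_cast h9
        have h10 : (nrm b c u0 : ℝ) * |(A1 : ℝ)| ≤ nrm b c u0 * (F * K) := by
          have : (nrm b c u0 : ℝ) * |(A1 : ℝ)| = |(nrm b c u0 : ℝ) * A1| := by
            rw [abs_mul, abs_of_pos hm0r]
          rw [this, e1r]
          have b21' : |((U k).1 : ℝ) * u0.2| ≤ K * nrm b c u0 := by rw [mul_comm]; exact b21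
          calc |(u0.1 : ℝ) * (U k).1 + b * ((U k).1 * u0.2) + c * (u0.2 * (U k).2)|
              ≤ |(u0.1 : ℝ) * (U k).1 + b * ((U k).1 * u0.2)| + |c * (u0.2 * (U k).2 : ℝ)| :=
                abs_add_le _ _
            _ ≤ |(u0.1 : ℝ) * (U k).1| + |b * ((U k).1 * u0.2 : ℝ)| +
                |c * (u0.2 * (U k).2 : ℝ)| := by gcongr; exact abs_add_le _ _
            _ ≤ K * nrm b c u0 + |(b : ℝ)| * (K * nrm b c u0) + |(c : ℝ)| * (K * nrm b c u0) := by
                rw [abs_mul (b : ℝ), abs_mul (c : ℝ)]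
                gcongr
            _ = nrm b c u0 * (F * K) := by rw [hFr]; ring
        have h11 := le_of_mul_le_mul_left h10 hm0r
        have hK := S.hK
        linarith
      have hB1 : |(B1 : ℝ)| ≤ R1 := by
        have e2r : (nrm b c u0 : ℝ) * B1 = u0.1 * (U k).2 - u0.2 * (U k).1 := by
          have := e2
          unfold det at this
          exact_mod_cast this
        have h10 : (nrm b c u0 : ℝ) * |(B1 : ℝ)| ≤ nrm b c u0 * (2 * K) := by
          have : (nrm b c u0 : ℝ) * |(B1 : ℝ)| = |(nrm b c u0 : ℝ) * B1| := by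
            rw [abs_mul, abs_of_pos hm0r]
          rw [this, e2r]
          calc |(u0.1 : ℝ) * (U k).2 - u0.2 * (U k).1| ≤ |(u0.1 : ℝ) * (U k).2| +
                |(u0.2 : ℝ) * (U k).1| := abs_sub _ _
            _ ≤ K * nrm b c u0 + K * nrm b c u0 := by gcongr
            _ = nrm b c u0 * (2 * K) := by ring
        have h11 := le_of_mul_le_mul_left h10 hm0r
        have hK := S.hK
        have hF1r : (1 : ℝ) ≤ F := by exact_mod_cast hF1
        have h12 : K ≤ F * K := le_mul_of_one_le_left (by linarith) hF1r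
        linarith
      have hA1' : |A1| ≤ (R1 : ℤ) := by exact_mod_cast hA1
      have hB1' : |B1| ≤ (R1 : ℤ) := by exact_mod_cast hB1
      rw [abs_le] at hA1' hB1'
      rw [Finset.mem_image]
      have hmemI : ((A1, B1) : ℤ × ℤ) ∈ I ×ˢ I := by
        rw [Finset.mem_product, hI, Finset.mem_Icc, Finset.mem_Icc]
        exact ⟨hA1', hB1'⟩
      rcases hn with hn | hn
      · refine ⟨((A1, B1), 0), ?_, ?_⟩
        · rw [hD, Finset.mem_product]
          exact ⟨hmemI, by simp⟩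
        · simp only
          rw [← e3]
          have h9 : (k : ℤ) % L = (ps th Q (U k) / Y - ((0 : ℕ) : ℤ)) % L := by
            rw [hn, Int.add_mul_emod_self_right]; simp
          rw [Int.emod_eq_of_lt (by positivity) (by exact_mod_cast hkL)] at h9
          omega
      · refine ⟨((A1, B1), 1), ?_, ?_⟩
        · rw [hD, Finset.mem_product]
          exact ⟨hmemI, by simp⟩
        · simp only
          rw [← e3]
          have h9 : (k : ℤ) % L = (ps th Q (U k) / Y - ((1 : ℕ) : ℤ)) % L := by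
            rw [hn, Int.add_mul_emod_self_right]; simp
          rw [Int.emod_eq_of_lt (by positivity) (by exact_mod_cast hkL)] at h9
          omega
    exact (Finset.card_le_card hsub).trans Finset.card_image_le
  have hfinal := Finset.card_le_mul_card_image_of_maps_to hmap W hfib
  refine hfinal.trans ?_
  calc W * (T1 ∪ T2).card ≤ W * (∑ t ∈ OSG P b c N, dv (fq b c t).natAbs + (β + 1) * C3) :=
        Nat.mul_le_mul_left _ hTc
    _ ≤ W * (((β + 1) * C3 + 1) * (∑ t ∈ OSG P b c N, dv (fq b c t).natAbs + 1)) := by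
        apply Nat.mul_le_mul_left
        generalize ∑ t ∈ OSG P b c N, dv (fq b c t).natAbs = x1
        generalize (β + 1) * C3 = x2
        nlinarith
    _ = (W * ((β + 1) * C3 + 1)) * (∑ t ∈ OSG P b c N, dv (fq b c t).natAbs + 1) := by ring
    _ ≤ C * (∑ t ∈ OSG P b c N, dv (fq b c t).natAbs + 1) := by
        apply Nat.mul_le_mul_right
        rw [hC]; omega

end

end Pool.Agent.Lib.MP_a17b09_nt.LG
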