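import Pool.Agent.Lib.MP_a17b09_nt.LG.Sys
import Pool.Agent.Lib.MP_a17b09_nt.Legendre

/-!
Dirichlet's approximation for a real linear form in two variables, and representation of primes.
-/

set_option autoImplicit false

open Finset

namespace Pool.Agent.Lib.MP_a17b09_nt.LG

open Pool.Agent.Lib.MP_a17b09_nt Pool.Agent.Lib.MP_a17b09_nt.LP

lemma dirichlet_lin (p q P : ℝ) (hp : |p| ≤ P) (hq : |q| ≤ P) (n : ℕ) (hn : 0 < n) :
    ∃ x y : ℤ, (x, y) ≠ (0, 0) ∧ |x| ≤ n ∧ |y| ≤ n ∧ |p * x + q * y| * n ≤ P := by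
  have hP : 0 ≤ P := (abs_nonneg p).trans hp
  have hnr : (0 : ℝ) < n := by exact_mod_cast hn
  have main : ∀ a b : ℝ, |a| ≤ P → |b| ≤ |a| → ∃ k j : ℤ, 0 < k ∧ k ≤ n ∧ |j| ≤ n ∧
      |b * k - a * j| * n ≤ P := by
    intro a b ha hb
    by_cases ha0 : a = 0
    · have hb0 : b = 0 := by
        rw [ha0, abs_zero] at hb
        exact abs_eq_zero.1 (le_antisymm hb (abs_nonneg b))
      refine ⟨1, 0, one_pos, by exact_mod_cast hn, by simp, ?_⟩
      rw [ha0, hb0]; simpa using hP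
    obtain ⟨j, k, hk, hkn, hjk⟩ := Real.exists_int_int_abs_mul_sub_le (b / a) hn
    have hξ : |b / a| ≤ 1 := by
      rw [abs_div, div_le_one (abs_pos.2 ha0)]; exact hb
    have hkr : (0 : ℝ) < k := by exact_mod_cast hk
    have hknr : (k : ℝ) ≤ n := by exact_mod_cast hkn
    refine ⟨k, j, hk, hkn, ?_, ?_⟩
    · have h1 : |(j : ℝ)| ≤ n + 1 / (n + 1) := by
        have h2 : (j : ℝ) = k * (b / a) - (k * (b / a) - j) := by ring
        rw [h2]
        refine (abs_sub _ _).trans ?_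
        rw [abs_mul, abs_of_pos hkr]
        have : (k : ℝ) * |b / a| ≤ n * 1 := by gcongr
        linarith
      have h3 : (1 : ℝ) / (n + 1) < 1 := by
        rw [div_lt_one (by positivity)]; linarith
      have h4 : ((|j| : ℤ) : ℝ) < ((n + 1 : ℤ) : ℝ) := by push_cast; linarith
      have h5 : |j| < (n : ℤ) + 1 := by exact_mod_cast h4
      omega
    · have e : b * k - a * j = a * (k * (b / a) - j) := by field_simp
      rw [e, abs_mul]
      have h1 : |(k : ℝ) * (b / a) - j| * n ≤ 1 := by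
        calc |(k : ℝ) * (b / a) - j| * n ≤ 1 / (n + 1) * n := by gcongr
          _ ≤ 1 := by
            rw [div_mul_eq_mul_div, div_le_one (by positivity)]; linarith
      calc |a| * |(k : ℝ) * (b / a) - j| * n = |a| * (|(k : ℝ) * (b / a) - j| * n) := by ring
        _ ≤ P * 1 := by gcongr
        _ = P := mul_one P
  rcases le_total |q| |p| with h | h
  · obtain ⟨k, j, hk, hkn, hjn, h1⟩ := main p q hp h
    refine ⟨-j, k, ?_, by rw [abs_neg]; exact hjn, by rw [abs_of_pos hk]; exact hkn, ?_⟩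
    · intro h2
      have := congrArg Prod.snd h2
      simp at this
      omega
    · have e : p * ((-j : ℤ) : ℝ) + q * k = q * k - p * j := by push_cast; ring
      rw [e]; exact h1
  · obtain ⟨k, j, hk, hkn, hjn, h1⟩ := main q p hq h
    refine ⟨k, -j, ?_, by rw [abs_of_pos hk]; exact hkn, by rw [abs_neg]; exact hjn, ?_⟩
    · intro h2
      have := congrArg Prod.fst h2
      simp at this
      omega
    · have e : p * k + q * ((-j : ℤ) : ℝ) = p * k - q * j := by push_cast; ring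
      rw [e]; exact h1

lemma nrm_neg (b c : ℤ) (u : ℤ × ℤ) : nrm b c (-u) = nrm b c u := by
  simp only [nrm, Prod.fst_neg, Prod.snd_neg]; ring

/-- representation of primes, up to sign of the vector -/
lemma prime_rep {b c : ℤ} (hD : ¬ IsSquare (b ^ 2 - 4 * c)) (V : ℤ × ℤ → Prop)
    (hV : ∀ u, 0 < nrm b c u → V u ∨ V (-u)) : PrimeRep b c V := by
  set D : ℤ := b ^ 2 - 4 * c with hDdef
  have hD0 : D ≠ 0 := by
    intro h; exact hD ⟨0, by rw [h]; rfl⟩
  have hd : 0 < D.natAbs := Int.natAbs_pos.2 hD0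
  refine ⟨4 * D.natAbs, 2 * D.natAbs, by omega, ?_⟩
  intro p hp hpm
  have hp1 : p % (4 * D.natAbs) = 1 := by
    have h1 : 1 % (4 * D.natAbs) = 1 := Nat.mod_eq_of_lt (by omega)
    rw [← h1]; exact hpm
  obtain ⟨x, y, z, hz, h, -, -, hz2⟩ := exists_small_norm_eq D hD p hp hp1
  have hn : nrm b c (x - b * y, 2 * y) = (z.natAbs : ℤ) ^ 2 * p := by
    have e : nrm b c (x - b * y, 2 * y) = x ^ 2 - D * y ^ 2 := by
      rw [hDdef]; simp only [nrm]; ring
    rw [e, h, Int.natAbs_sq]; ring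
  have hpos : 0 < nrm b c (x - b * y, 2 * y) := by
    rw [hn]
    have h1 : 0 < z.natAbs := Int.natAbs_pos.2 hz
    have h2 : (0 : ℤ) < p := by exact_mod_cast hp.pos
    positivity
  have hzz : z.natAbs ≤ 2 * D.natAbs := by
    have : ((z.natAbs : ℕ) : ℤ) ≤ ((2 * D.natAbs : ℕ) : ℤ) := by
      rw [← Int.abs_eq_natAbs]; push_cast; push_cast at hz2; exact hz2
    exact_mod_cast this
  rcases hV _ hpos with h1 | h1
  · exact ⟨_, h1, z.natAbs, Int.natAbs_pos.2 hz, hzz, hn⟩
  · exact ⟨_, h1, z.natAbs, Int.natAbs_pos.2 hz, hzz, by rw [nrm_neg]; exact hn⟩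

end Pool.Agent.Lib.MP_a17b09_nt.LG
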