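import Pool.Agent.Lib.MP_a17b09_nt.LG.Sys
import Pool.Agent.Lib.MP_a17b09_nt.LP.GaussCount
import Pool.Agent.Lib.MP_a17b09_nt.Q.Tau

/-!
Divisors of a rational integer in a quadratic order (no unique factorisation needed).
-/

set_option autoImplicit false

open Finset

namespace Pool.Agent.Lib.MP_a17b09_nt.LG

open Pool.Agent.Lib.MP_a17b09_nt Pool.Agent.Lib.MP_a17b09_nt.LP

variable {b c : ℤ}

/-- Euclidean norm squared -/
def qn (u : ℤ × ℤ) : ℤ := u.1 ^ 2 + u.2 ^ 2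

lemma qn_nonneg (u : ℤ × ℤ) : 0 ≤ qn u := by unfold qn; positivity

/-- the constant used for products -/
def Am (b c : ℤ) : ℤ := 4 + 3 * b ^ 2 + 3 * c ^ 2 + 3 * (2 + b ^ 2)

lemma Am_pos (b c : ℤ) : 1 ≤ Am b c := by unfold Am; nlinarith [sq_nonneg b, sq_nonneg c]

lemma qn_mulp_le (u v : ℤ × ℤ) : qn (mulp b c u v) ≤ Am b c * (qn u * qn v) := by
  obtain ⟨x, y⟩ := u
  obtain ⟨z, w⟩ := v
  simp only [qn, mulp, Am]
  have e : (x ^ 2 + y ^ 2) * (z ^ 2 + w ^ 2) = (x * z) ^ 2 + (y * w) ^ 2 + (x * w) ^ 2 + (y * z) ^ 2 := by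
    ring
  rw [e]
  have e1 : c * y * w = c * (y * w) := by ring
  have e2 : b * y * w = b * (y * w) := by ring
  rw [e1, e2]
  generalize x * z = X
  generalize y * w = Y
  generalize x * w = Z
  generalize y * z = W
  have h1 : (X - c * Y) ^ 2 ≤ 2 * X ^ 2 + 2 * (c ^ 2 * Y ^ 2) := by nlinarith [sq_nonneg (X + c * Y)]
  have h2 : (Z + W + b * Y) ^ 2 ≤ 3 * Z ^ 2 + 3 * W ^ 2 + 3 * (b ^ 2 * Y ^ 2) := by
    nlinarith [sq_nonneg (Z - W), sq_nonneg (Z - b * Y), sq_nonneg (W - b * Y)]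
  have hb := sq_nonneg b
  have hc := sq_nonneg c
  have hX := sq_nonneg X
  have hY := sq_nonneg Y
  have hZ := sq_nonneg Z
  have hW := sq_nonneg W
  have p1 : 0 ≤ b ^ 2 * X ^ 2 := by positivity
  have p2 : 0 ≤ b ^ 2 * Z ^ 2 := by positivity
  have p3 : 0 ≤ b ^ 2 * W ^ 2 := by positivity
  have p4 : 0 ≤ c ^ 2 * X ^ 2 := by positivity
  have p5 : 0 ≤ c ^ 2 * Z ^ 2 := by positivity
  have p6 : 0 ≤ c ^ 2 * W ^ 2 := by positivity
  have p7 : 0 ≤ b ^ 2 * Y ^ 2 := by positivity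
  have p8 : 0 ≤ c ^ 2 * Y ^ 2 := by positivity
  nlinarith

lemma lab_sq_le (u v : ℤ × ℤ) : lab b c u v ^ 2 ≤ Am b c * (qn u * qn v) := by
  obtain ⟨x, y⟩ := u
  obtain ⟨z, w⟩ := v
  simp only [qn, lab, Am]
  have e : (x ^ 2 + y ^ 2) * (z ^ 2 + w ^ 2) = (x * z) ^ 2 + (y * w) ^ 2 + (x * w) ^ 2 + (y * z) ^ 2 := by
    ring
  rw [e]
  have e1 : c * y * w = c * (y * w) := by ring
  have e2 : b * z * y = b * (y * z) := by ring
  rw [e1, e2]
  generalize x * z = X
  generalize y * w = Y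
  generalize x * w = Z
  generalize y * z = W
  have h2 : (X + b * W + c * Y) ^ 2 ≤ 3 * X ^ 2 + 3 * (b ^ 2 * W ^ 2) + 3 * (c ^ 2 * Y ^ 2) := by
    nlinarith [sq_nonneg (X - b * W), sq_nonneg (X - c * Y), sq_nonneg (b * W - c * Y)]
  have p1 : 0 ≤ b ^ 2 * X ^ 2 := by positivity
  have p2 : 0 ≤ b ^ 2 * Z ^ 2 := by positivity
  have p3 : 0 ≤ b ^ 2 * W ^ 2 := by positivity
  have p4 : 0 ≤ c ^ 2 * X ^ 2 := by positivity
  have p5 : 0 ≤ c ^ 2 * Z ^ 2 := by positivity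
  have p6 : 0 ≤ c ^ 2 * W ^ 2 := by positivity
  have p7 : 0 ≤ b ^ 2 * Y ^ 2 := by positivity
  have p8 : 0 ≤ c ^ 2 * Y ^ 2 := by positivity
  have hX := sq_nonneg X
  have hY := sq_nonneg Y
  have hZ := sq_nonneg Z
  have hW := sq_nonneg W
  nlinarith

lemma det_sq_le (u v : ℤ × ℤ) : det u v ^ 2 ≤ Am b c * (qn u * qn v) := by
  obtain ⟨x, y⟩ := u
  obtain ⟨z, w⟩ := v
  simp only [qn, det, Am]
  have e : (x ^ 2 + y ^ 2) * (z ^ 2 + w ^ 2) = (x * z) ^ 2 + (y * w) ^ 2 + (x * w) ^ 2 + (y * z) ^ 2 := by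
    ring
  rw [e]
  generalize x * z = X
  generalize y * w = Y
  generalize x * w = Z
  generalize y * z = W
  have h2 : (Z - W) ^ 2 ≤ 2 * Z ^ 2 + 2 * W ^ 2 := by nlinarith [sq_nonneg (Z + W)]
  have p1 : 0 ≤ b ^ 2 * X ^ 2 := by positivity
  have p2 : 0 ≤ b ^ 2 * Z ^ 2 := by positivity
  have p3 : 0 ≤ b ^ 2 * W ^ 2 := by positivity
  have p4 : 0 ≤ c ^ 2 * X ^ 2 := by positivity
  have p5 : 0 ≤ c ^ 2 * Z ^ 2 := by positivity
  have p6 : 0 ≤ c ^ 2 * W ^ 2 := by positivity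
  have p7 : 0 ≤ b ^ 2 * Y ^ 2 := by positivity
  have p8 : 0 ≤ c ^ 2 * Y ^ 2 := by positivity
  have hX := sq_nonneg X
  have hY := sq_nonneg Y
  have hZ := sq_nonneg Z
  have hW := sq_nonneg W
  nlinarith

lemma nrm_le_qn (u : ℤ × ℤ) : nrm b c u ≤ Am b c * qn u := by
  obtain ⟨x, y⟩ := u
  simp only [nrm, qn, Am]
  have h1 : b * x * y ≤ x ^ 2 + b ^ 2 * y ^ 2 := by
    nlinarith [sq_nonneg (x - b * y), sq_nonneg x, sq_nonneg (b * y)]
  have h2 : c * y ^ 2 ≤ (1 + c ^ 2) * y ^ 2 := by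
    apply mul_le_mul_of_nonneg_right _ (sq_nonneg y)
    nlinarith [sq_nonneg (c - 1)]
  have p1 : 0 ≤ b ^ 2 * x ^ 2 := by positivity
  have p2 : 0 ≤ c ^ 2 * x ^ 2 := by positivity
  have p3 : 0 ≤ b ^ 2 * y ^ 2 := by positivity
  have p4 : 0 ≤ c ^ 2 * y ^ 2 := by positivity
  have hX := sq_nonneg x
  have hY := sq_nonneg y
  nlinarith

/-- two unimodular pairs with the same label and norm differ by an element of norm one -/
theorem fiber1 {u v u' v' : ℤ × ℤ} (hA : 0 < nrm b c u) (hd : det u v = 1) (hd' : det u' v' = 1)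
    (hl : lab b c u v = lab b c u' v') (hn : nrm b c u = nrm b c u') :
    ∃ e : ℤ × ℤ, mulp b c e u = u' ∧ nrm b c u * e.1 = lab b c u u' ∧
      nrm b c u * e.2 = det u u' := by
  set A := nrm b c u with hA'
  set e1 : ℤ := v.2 * u'.1 - u.2 * v'.1 with he1
  set e2 : ℤ := v.2 * u'.2 - u.2 * v'.2 with he2
  set R : ℤ := lab b c u u' with hR
  set T : ℤ := det u u' with hT
  have k1 : R * u.1 - c * T * u.2 = A * u'.1 := by
    rw [hR, hT, hA']; simp only [lab, det, nrm]; ring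
  have k2 : R * u.2 + T * u.1 + b * T * u.2 = A * u'.2 := by
    rw [hR, hT, hA']; simp only [lab, det, nrm]; ring
  have hX1 : v.1 * A = lab b c u v * u.1 - c * u.2 * det u v := by
    rw [hA']; simp only [lab, det, nrm]; ring
  have hX2 : v.2 * A = lab b c u v * u.2 + (u.1 + b * u.2) * det u v := by
    rw [hA']; simp only [lab, det, nrm]; ring
  have hX1' : v'.1 * A = lab b c u' v' * u'.1 - c * u'.2 * det u' v' := by
    rw [hn]; simp only [lab, det, nrm]; ring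
  have hX2' : v'.2 * A = lab b c u' v' * u'.2 + (u'.1 + b * u'.2) * det u' v' := by
    rw [hn]; simp only [lab, det, nrm]; ring
  rw [hd] at hX1 hX2
  rw [hd', ← hl] at hX1' hX2'
  set X := lab b c u v with hX
  have k3 : A * (R * v.1 - c * T * v.2) = A * (A * v'.1) := by
    have e : A * (R * v.1 - c * T * v.2) = R * (v.1 * A) - c * T * (v.2 * A) := by ring
    have e' : A * (A * v'.1) = A * (v'.1 * A) := by ring
    rw [e, e', hX1, hX2, hX1']
    linear_combination X * k1 - c * k2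
  have k4 : A * (R * v.2 + T * v.1 + b * T * v.2) = A * (A * v'.2) := by
    have e : A * (R * v.2 + T * v.1 + b * T * v.2) = (R + b * T) * (v.2 * A) + T * (v.1 * A) := by
      ring
    have e' : A * (A * v'.2) = A * (v'.2 * A) := by ring
    rw [e, e', hX1, hX2, hX2']
    linear_combination (X + b) * k2 + k1
  have k3' := mul_left_cancel₀ hA.ne' k3
  have k4' := mul_left_cancel₀ hA.ne' k4
  have hRe : R = A * e1 := by
    have h1 : det u v = 1 := hd
    simp only [det] at h1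
    rw [he1]
    linear_combination (-R) * h1 + v.2 * k1 - u.2 * k3'
  have hTe : T = A * e2 := by
    have h1 : det u v = 1 := hd
    simp only [det] at h1
    rw [he2]
    linear_combination (-T) * h1 + v.2 * k2 - u.2 * k4'
  refine ⟨(e1, e2), ?_, hRe.symm, hTe.symm⟩
  apply Prod.ext
  · have h1 : A * (mulp b c (e1, e2) u).1 = A * u'.1 := by
      rw [← k1, hRe, hTe]; simp only [mulp]; ring
    exact mul_left_cancel₀ hA.ne' h1
  · have h1 : A * (mulp b c (e1, e2) u).2 = A * u'.2 := by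
      rw [← k2, hRe, hTe]; simp only [mulp]; ring
    exact mul_left_cancel₀ hA.ne' h1

/-- the connecting element is bounded -/
lemma fiber_box {K : ℤ} (hK : 0 ≤ K) {u u' : ℤ × ℤ} (hA : 0 < nrm b c u) (hn : nrm b c u = nrm b c u')
    (hu : qn u ≤ K * nrm b c u) (hu' : qn u' ≤ K * nrm b c u') {e : ℤ × ℤ}
    (h1 : nrm b c u * e.1 = lab b c u u') (h2 : nrm b c u * e.2 = det u u') :
    |e.1| ≤ Am b c * K ∧ |e.2| ≤ Am b c * K := by
  have hAm := Am_pos b c
  rw [← hn] at hu'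
  have hq : qn u * qn u' ≤ (K * nrm b c u) * (K * nrm b c u) :=
    mul_le_mul hu hu' (qn_nonneg _) (by positivity)
  have key : ∀ x L : ℤ, nrm b c u * x = L → L ^ 2 ≤ Am b c * (qn u * qn u') → |x| ≤ Am b c * K := by
    intro x L hx hL
    apply abs_le_of_sq_le_sq _ (by positivity)
    have h3 : (nrm b c u) ^ 2 * x ^ 2 ≤ (nrm b c u) ^ 2 * (Am b c * K) ^ 2 := by
      calc (nrm b c u) ^ 2 * x ^ 2 = L ^ 2 := by rw [← hx]; ring
        _ ≤ Am b c * (qn u * qn u') := hL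
        _ ≤ Am b c * ((K * nrm b c u) * (K * nrm b c u)) := by gcongr
        _ = (nrm b c u) ^ 2 * (Am b c * 1 * K ^ 2) := by ring
        _ ≤ (nrm b c u) ^ 2 * (Am b c * Am b c * K ^ 2) := by gcongr
        _ = (nrm b c u) ^ 2 * (Am b c * K) ^ 2 := by ring
    exact le_of_mul_le_mul_left h3 (by positivity)
  exact ⟨key _ _ h1 (lab_sq_le _ _), key _ _ h2 (det_sq_le (b := b) (c := c) _ _)⟩

/-- normalised completion of a primitive vector -/
lemma prim_root {u : ℤ × ℤ} (hu : IsCoprime u.1 u.2) (hm : 0 < nrm b c u) :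
    ∃ v : ℤ × ℤ, det u v = 1 ∧ 0 ≤ lab b c u v ∧ lab b c u v < nrm b c u := by
  obtain ⟨p, q, hpq⟩ := hu
  set v0 : ℤ × ℤ := (-q, p) with hv0
  set k : ℤ := -(lab b c u v0 / nrm b c u) with hk
  have hdet0 : det u v0 = 1 := by
    rw [hv0]; simp only [det]; linarith
  have hlab : lab b c u (v0.1 + k * u.1, v0.2 + k * u.2) = lab b c u v0 % nrm b c u := by
    have e : lab b c u (v0.1 + k * u.1, v0.2 + k * u.2) = lab b c u v0 + k * nrm b c u := by
      simp only [lab, nrm]; ring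
    rw [e, hk]
    have := Int.emod_add_mul_ediv (lab b c u v0) (nrm b c u)
    linarith
  refine ⟨(v0.1 + k * u.1, v0.2 + k * u.2), ?_, ?_, ?_⟩
  · have : det u (v0.1 + k * u.1, v0.2 + k * u.2) = det u v0 := by simp only [det]; ring
    rw [this, hdet0]
  · rw [hlab]; exact Int.emod_nonneg _ hm.ne'
  · rw [hlab]; exact Int.emod_lt_of_pos _ hm

/-- the box of connecting elements -/
noncomputable def bx (b c : ℤ) (K : ℕ) : Finset (ℤ × ℤ) :=
  Finset.Icc (-(Am b c * K)) (Am b c * K) ×ˢ Finset.Icc (-(Am b c * K)) (Am b c * K)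

/-- primitive vectors of given norm -/
theorem prim_count (hD0 : b ^ 2 - 4 * c ≠ 0) {K : ℕ} {m : ℕ} (hm : 0 < m) (S : Finset (ℤ × ℤ))
    (hS : ∀ u ∈ S, IsCoprime u.1 u.2 ∧ nrm b c u = m ∧ qn u ≤ K * nrm b c u) :
    S.card ≤ (bx b c K).card * ((b ^ 2 - 4 * c).natAbs * m.divisors.card) := by
  classical
  have hmz : (0 : ℤ) < m := by exact_mod_cast hm
  have hex : ∀ u ∈ S, ∃ v : ℤ × ℤ, det u v = 1 ∧ 0 ≤ lab b c u v ∧ lab b c u v < nrm b c u := by
    intro u hu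
    obtain ⟨h1, h2, -⟩ := hS u hu
    exact prim_root h1 (by rw [h2]; exact hmz)
  choose! v hv1 hv2 hv3 using hex
  set R := (range m).filter (fun x : ℕ => (m : ℤ) ∣ (x : ℤ) ^ 2 + b * x + c) with hR
  have hroots : R.card ≤ (b ^ 2 - 4 * c).natAbs * m.divisors.card := by
    apply roots_card m hm b c
    intro e _ he2
    have h1 : ((e : ℤ) ^ 2).natAbs ∣ (b ^ 2 - 4 * c).natAbs := Int.natAbs_dvd_natAbs.2 he2
    have h2 : ((e : ℤ) ^ 2).natAbs = e ^ 2 := by
      rw [Int.natAbs_pow, Int.natAbs_natCast]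
    rw [h2] at h1
    have h3 := Nat.le_of_dvd (Int.natAbs_pos.2 hD0) h1
    nlinarith [Nat.zero_le e]
  refine le_trans ?_ (Nat.mul_le_mul_left _ hroots)
  apply Finset.card_le_mul_card_image_of_maps_to (f := fun u => (lab b c u (v u)).toNat)
  · intro u hu
    obtain ⟨h1, h2, -⟩ := hS u hu
    have e1 : (((lab b c u (v u)).toNat : ℕ) : ℤ) = lab b c u (v u) := Int.toNat_of_nonneg (hv2 u hu)
    rw [hR, Finset.mem_filter, Finset.mem_range]
    constructor
    · have := hv3 u hu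
      rw [h2] at this
      omega
    · rw [e1]
      have h3 := nrm_mul_nrm b c u (v u)
      rw [hv1 u hu, h2] at h3
      refine ⟨nrm b c (v u), ?_⟩
      rw [h3]; ring
  · intro t _
    rcases (S.filter (fun u => (lab b c u (v u)).toNat = t)).eq_empty_or_nonempty with h0 | ⟨u0, hu0⟩
    · rw [h0]; simp
    rw [Finset.mem_filter] at hu0
    have hS0 := hS u0 hu0.1
    have hpos : 0 < nrm b c u0 := by rw [hS0.2.1]; exact hmz
    have key : ∀ u ∈ S.filter (fun u => (lab b c u (v u)).toNat = t), ∃ e : ℤ × ℤ,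
        e ∈ bx b c K ∧ mulp b c e u0 = u := by
      intro u hu
      rw [Finset.mem_filter] at hu
      have hSu := hS u hu.1
      have hlab : lab b c u0 (v u0) = lab b c u (v u) := by
        have h1 := hv2 u hu.1
        have h2 := hv2 u0 hu0.1
        have h3 := hu.2.trans hu0.2.symm
        omega
      obtain ⟨e, he, he1, he2⟩ := fiber1 hpos (hv1 u0 hu0.1) (hv1 u hu.1) hlab
        (hS0.2.1.trans hSu.2.1.symm)
      have hb := fiber_box (by positivity) hpos (hS0.2.1.trans hSu.2.1.symm) hS0.2.2 hSu.2.2 he1 he2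
      refine ⟨e, ?_, he⟩
      unfold bx
      rw [Finset.mem_product, Finset.mem_Icc, Finset.mem_Icc]
      exact ⟨abs_le.1 hb.1, abs_le.1 hb.2⟩
    choose! E hE1 hE2 using key
    apply Finset.card_le_card_of_injOn E
    · intro u hu; exact hE1 u hu
    · intro u hu u' hu' h
      rw [← hE2 u hu, ← hE2 u' hu', h]

/-- all vectors of given norm -/
theorem rep_count (hD0 : b ^ 2 - 4 * c ≠ 0) {K : ℕ} {m : ℕ} (hm : 0 < m) (S : Finset (ℤ × ℤ))
    (hS : ∀ u ∈ S, nrm b c u = m ∧ qn u ≤ K * nrm b c u) :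
    S.card ≤ (bx b c K).card * (b ^ 2 - 4 * c).natAbs * m.divisors.card ^ 2 := by
  classical
  have hmz : (0 : ℤ) < m := by exact_mod_cast hm
  have hg : ∀ u ∈ S, 0 < Int.gcd u.1 u.2 ∧ (Int.gcd u.1 u.2) ^ 2 ∣ m := by
    intro u hu
    obtain ⟨h1, -⟩ := hS u hu
    have hpos : 0 < Int.gcd u.1 u.2 := by
      apply Int.gcd_pos_iff.2
      by_contra hcon
      push Not at hcon
      have : nrm b c u = 0 := by simp [nrm, hcon.1, hcon.2]
      omega
    refine ⟨hpos, ?_⟩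
    have hd1 : ((Int.gcd u.1 u.2 : ℕ) : ℤ) ∣ u.1 := Int.gcd_dvd_left ..
    have hd2 : ((Int.gcd u.1 u.2 : ℕ) : ℤ) ∣ u.2 := Int.gcd_dvd_right ..
    have h3 : ((Int.gcd u.1 u.2 : ℕ) : ℤ) ^ 2 ∣ nrm b c u := by
      unfold nrm
      apply dvd_add
      · apply dvd_add
        · exact pow_dvd_pow_of_dvd hd1 2
        · rw [sq, mul_assoc]
          exact Dvd.dvd.mul_left (mul_dvd_mul hd1 hd2) b
      · exact Dvd.dvd.mul_left (pow_dvd_pow_of_dvd hd2 2) c
    rw [h1] at h3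
    exact_mod_cast h3
  have hmap : ∀ u ∈ S, Int.gcd u.1 u.2 ∈ m.divisors := by
    intro u hu
    rw [Nat.mem_divisors]
    exact ⟨dvd_trans (dvd_pow_self _ (by norm_num)) (hg u hu).2, hm.ne'⟩
  rw [Finset.card_eq_sum_card_fiberwise hmap]
  have hfib : ∀ g ∈ m.divisors, (S.filter (fun u => Int.gcd u.1 u.2 = g)).card ≤
      (bx b c K).card * ((b ^ 2 - 4 * c).natAbs * m.divisors.card) := by
    intro g _
    set F := S.filter (fun u => Int.gcd u.1 u.2 = g) with hF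
    rcases F.eq_empty_or_nonempty with h0 | ⟨u0, hu0⟩
    · rw [h0]; simp
    have hu0' := Finset.mem_filter.1 hu0
    have hg0 := hg u0 hu0'.1
    rw [hu0'.2] at hg0
    obtain ⟨m', hm'⟩ := hg0.2
    have hgz : (0 : ℤ) < g := by exact_mod_cast hg0.1
    have hm'pos : 0 < m' := by
      rcases Nat.eq_zero_or_pos m' with h | h
      · rw [h] at hm'; simp at hm'; omega
      · exact h
    have hdiv : ∀ u ∈ F, (g : ℤ) * (u.1 / g) = u.1 ∧ (g : ℤ) * (u.2 / g) = u.2 := by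
      intro u hu
      have hu' := Finset.mem_filter.1 hu
      rw [← hu'.2]
      exact ⟨Int.mul_ediv_cancel' (Int.gcd_dvd_left ..), Int.mul_ediv_cancel' (Int.gcd_dvd_right ..)⟩
    have hinj : Set.InjOn (fun u : ℤ × ℤ => (u.1 / (g : ℤ), u.2 / (g : ℤ))) F := by
      intro u hu u' hu' h
      simp only [Prod.mk.injEq] at h
      have h1 := hdiv u hu
      have h2 := hdiv u' hu'
      exact Prod.ext (by rw [← h1.1, ← h2.1, h.1]) (by rw [← h1.2, ← h2.2, h.2])
    rw [← Finset.card_image_of_injOn hinj]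
    refine (prim_count (b := b) (c := c) hD0 (K := K) hm'pos _ ?_).trans ?_
    · intro w hw
      rw [Finset.mem_image] at hw
      obtain ⟨u, hu, rfl⟩ := hw
      have hu' := Finset.mem_filter.1 hu
      obtain ⟨e1, e2⟩ := hdiv u hu
      obtain ⟨n1, n2⟩ := hS u hu'.1
      have hnn : nrm b c u = (g : ℤ) ^ 2 * nrm b c (u.1 / (g : ℤ), u.2 / (g : ℤ)) := by
        conv_lhs => rw [show u = ((g : ℤ) * (u.1 / g), (g : ℤ) * (u.2 / g)) from
          Prod.ext e1.symm e2.symm]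
        simp only [nrm]; ring
      have hqq : qn u = (g : ℤ) ^ 2 * qn (u.1 / (g : ℤ), u.2 / (g : ℤ)) := by
        conv_lhs => rw [show u = ((g : ℤ) * (u.1 / g), (g : ℤ) * (u.2 / g)) from
          Prod.ext e1.symm e2.symm]
        simp only [qn]; ring
      refine ⟨?_, ?_, ?_⟩
      · have h5 := Int.isCoprime_iff_gcd_eq_one.2 (Int.gcd_ediv_gcd_ediv_gcd (i := u.1) (j := u.2)
          (by rw [hu'.2]; exact hg0.1))
        rw [hu'.2] at h5
        exact h5
      · have h6 : (g : ℤ) ^ 2 * nrm b c (u.1 / (g : ℤ), u.2 / (g : ℤ)) = (g : ℤ) ^ 2 * m' := by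
          rw [← hnn, n1, hm']; push_cast; ring
        exact mul_left_cancel₀ (by positivity) h6
      · rw [hnn, hqq] at n2
        have h6 : (g : ℤ) ^ 2 * qn (u.1 / (g : ℤ), u.2 / (g : ℤ)) ≤
            (g : ℤ) ^ 2 * (K * nrm b c (u.1 / (g : ℤ), u.2 / (g : ℤ))) := by linarith
        exact le_of_mul_le_mul_left h6 (by positivity)
    · have hmm : m'.divisors.card ≤ m.divisors.card := by
        apply Finset.card_le_card
        exact Nat.divisors_subset_of_dvd hm.ne' ⟨g ^ 2, by rw [hm']; ring⟩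
      exact Nat.mul_le_mul_left _ (Nat.mul_le_mul_left _ hmm)
  refine (Finset.sum_le_sum hfib).trans (le_of_eq ?_)
  rw [Finset.sum_const, smul_eq_mul]; ring

/-- `u` divides the rational integer `n` -/
def Dv (b c : ℤ) (n : ℤ) (u : ℤ × ℤ) : Prop := ∃ v, mulp b c u v = (n, 0)

lemma Dv_neg {n : ℤ} {u : ℤ × ℤ} (h : Dv b c n u) : Dv b c (-n) u := by
  obtain ⟨v, hv⟩ := h
  refine ⟨-v, ?_⟩
  have h1 := congrArg Prod.fst hv
  have h2 := congrArg Prod.snd hv
  simp only [mulp] at h1 h2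
  apply Prod.ext
  · simp only [mulp, Prod.fst_neg, Prod.snd_neg]; linarith
  · simp only [mulp, Prod.fst_neg, Prod.snd_neg]; linarith

open Classical in
/-- the divisors of a rational integer -/
theorem div_count (hD0 : b ^ 2 - 4 * c ≠ 0) {K : ℕ} {n : ℕ} (hn : 0 < n) (S : Finset (ℤ × ℤ))
    (hS : ∀ u ∈ S, 0 < nrm b c u ∧ qn u ≤ K * nrm b c u) :
    (S.filter (fun u => Dv b c n u)).card ≤
      (bx b c K).card * (b ^ 2 - 4 * c).natAbs * n.divisors.card ^ 6 := by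
  set F := S.filter (fun u => Dv b c n u) with hF
  have hmap : ∀ u ∈ F, (nrm b c u).toNat ∈ (n ^ 2).divisors := by
    intro u hu
    obtain ⟨h1, v, hv⟩ := Finset.mem_filter.1 hu
    obtain ⟨h2, -⟩ := hS u h1
    rw [Nat.mem_divisors]
    refine ⟨?_, by positivity⟩
    have h3 := nrm_mulp b c u v
    rw [hv] at h3
    have h4 : nrm b c ((n : ℤ), 0) = (n : ℤ) ^ 2 := by simp [nrm]
    rw [h4] at h3
    have h5 : (((nrm b c u).toNat : ℕ) : ℤ) ∣ ((n ^ 2 : ℕ) : ℤ) := by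
      rw [Int.toNat_of_nonneg h2.le]
      push_cast
      exact ⟨_, h3⟩
    exact_mod_cast h5
  rw [Finset.card_eq_sum_card_fiberwise hmap]
  have hfib : ∀ m ∈ (n ^ 2).divisors, (F.filter (fun u => (nrm b c u).toNat = m)).card ≤
      (bx b c K).card * (b ^ 2 - 4 * c).natAbs * (n ^ 2).divisors.card ^ 2 := by
    intro m hm
    have hmpos : 0 < m := Nat.pos_of_mem_divisors hm
    have hmd := (Nat.mem_divisors.1 hm).1
    refine (rep_count (b := b) (c := c) hD0 (K := K) hmpos _ ?_).trans ?_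
    · intro u hu
      obtain ⟨h1, h2⟩ := Finset.mem_filter.1 hu
      obtain ⟨h3, h4⟩ := hS u (Finset.mem_filter.1 h1).1
      exact ⟨by omega, h4⟩
    · apply Nat.mul_le_mul_left
      apply Nat.pow_le_pow_left
      exact Finset.card_le_card (Nat.divisors_subset_of_dvd (by positivity) hmd)
  refine (Finset.sum_le_sum hfib).trans ?_
  rw [Finset.sum_const, smul_eq_mul]
  have h1 : (n ^ 2).divisors.card ≤ n.divisors.card ^ 2 := by
    rw [sq, sq]; exact card_divisors_mul_le n n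
  calc (n ^ 2).divisors.card * ((bx b c K).card * (b ^ 2 - 4 * c).natAbs * (n ^ 2).divisors.card ^ 2) =
      (bx b c K).card * (b ^ 2 - 4 * c).natAbs * (n ^ 2).divisors.card ^ 3 := by ring
    _ ≤ (bx b c K).card * (b ^ 2 - 4 * c).natAbs * (n.divisors.card ^ 2) ^ 3 := by gcongr
    _ = _ := by ring

end Pool.Agent.Lib.MP_a17b09_nt.LG
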