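import Pool.Agent.Lib.MP_a17b09_nt.LG.EnergyA

/-!
The energy bound for a general quadratic order.
-/

set_option autoImplicit false

open Finset

namespace Pool.Agent.Lib.MP_a17b09_nt.LG

open Pool.Agent.Lib.MP_a17b09_nt Pool.Agent.Lib.MP_a17b09_nt.LP

variable {b c : ℤ}

lemma mulp_comm' (u v : ℤ × ℤ) : mulp b c u v = mulp b c v u := by
  simp only [mulp]; ext <;> ring

lemma mulp_assoc' (u v w : ℤ × ℤ) : mulp b c (mulp b c u v) w = mulp b c u (mulp b c v w) := by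
  simp only [mulp]; ext <;> ring

/-- conjugate -/
def cg (b : ℤ) (u : ℤ × ℤ) : ℤ × ℤ := (u.1 + b * u.2, -u.2)

lemma cg_mul (u v : ℤ × ℤ) : cg b (mulp b c u v) = mulp b c (cg b u) (cg b v) := by
  simp only [cg, mulp]; ext <;> ring

lemma cg_cg (u : ℤ × ℤ) : cg b (cg b u) = u := by
  simp only [cg]; ext <;> ring

lemma mulp_cg (u v : ℤ × ℤ) : mulp b c (cg b u) v = (lab b c u v, det u v) := by
  simp only [cg, mulp, lab, det]; ext <;> ring

lemma mulp_cancel {x u v : ℤ × ℤ} (hx : nrm b c x ≠ 0) (h : mulp b c x u = mulp b c x v) : u = v := by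
  have h1 := congrArg (mulp b c (cg b x)) h
  rw [← mulp_assoc', ← mulp_assoc'] at h1
  have h2 : mulp b c (cg b x) x = (nrm b c x, 0) := by
    rw [mulp_cg]
    ext
    · simp only [lab, nrm]; ring
    · simp only [det]; ring
  rw [h2] at h1
  have h3 := congrArg Prod.fst h1
  have h4 := congrArg Prod.snd h1
  simp only [mulp] at h3 h4
  apply Prod.ext
  · apply mul_left_cancel₀ hx; linarith
  · apply mul_left_cancel₀ hx; linarith

/-- the exponent -/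
lemma zero_fibre {G : Finset (ℤ × ℤ)} {e : ℤ × ℤ} (he : nrm b c e = 1)
    (hG : ∀ u ∈ G, 0 < nrm b c u) {k : ℕ} (hk : 0 < k) :
    open Classical in
    (((G ×ˢ G) ×ˢ (G ×ˢ G)).filter (fun p =>
      det (mulp b c p.1.1 p.1.2) (mulp b c e (mulp b c p.2.1 p.2.2)) = 0 ∧
      (lab b c (mulp b c p.1.1 p.1.2) (mulp b c e (mulp b c p.2.1 p.2.2))).natAbs = k)).card ≤
    2 * (G.filter (fun u => Dv b c k u)).card ^ 3 := by
  classical
  set D := G.filter (fun u => Dv b c k u) with hD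
  have hcard : 2 * D.card ^ 3 = ((Finset.univ : Finset Bool) ×ˢ (D ×ˢ (D ×ˢ D))).card := by
    rw [Finset.card_product, Finset.card_product, Finset.card_product, Finset.card_univ,
      Fintype.card_bool]; ring
  rw [hcard]
  set Lb : ((ℤ × ℤ) × (ℤ × ℤ)) × ((ℤ × ℤ) × (ℤ × ℤ)) → ℤ := fun p =>
    lab b c (mulp b c p.1.1 p.1.2) (mulp b c e (mulp b c p.2.1 p.2.2)) with hLb
  apply Finset.card_le_card_of_injOn (fun p => (decide (Lb p = (k : ℤ)), (p.1.1, (p.1.2, p.2.1))))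
  · intro p hp
    rw [Finset.mem_coe, Finset.mem_filter, Finset.mem_product, Finset.mem_product,
      Finset.mem_product] at hp
    obtain ⟨⟨⟨g1, g2⟩, g3, g4⟩, hdet, hlab⟩ := hp
    have hprod : mulp b c (cg b (mulp b c p.1.1 p.1.2)) (mulp b c e (mulp b c p.2.1 p.2.2)) =
        (Lb p, 0) := by
      rw [mulp_cg, hdet]
    have hDv : ∀ u, Dv b c (Lb p) u → Dv b c k u := by
      intro u hu
      rcases Int.natAbs_eq (Lb p) with h | h
      · rw [h] at hu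
        have : ((Lb p).natAbs : ℤ) = k := by exact_mod_cast hlab
        rwa [this] at hu
      · have h1 := Dv_neg hu
        rw [h, neg_neg] at h1
        have : ((Lb p).natAbs : ℤ) = k := by exact_mod_cast hlab
        rwa [this] at h1
    have d3 : Dv b c (Lb p) p.2.1 := by
      refine ⟨mulp b c (mulp b c (cg b (mulp b c p.1.1 p.1.2)) e) p.2.2, ?_⟩
      rw [← hprod]
      rw [mulp_comm' p.2.1, mulp_assoc', mulp_assoc', mulp_comm' p.2.2 p.2.1]
    have dcg : ∀ u, Dv b c (Lb p) (cg b u) → Dv b c (Lb p) u := by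
      rintro u ⟨v, hv⟩
      refine ⟨cg b v, ?_⟩
      have h1 := congrArg (cg b) hv
      rw [cg_mul, cg_cg] at h1
      rw [h1]; simp [cg]
    have d1 : Dv b c (Lb p) p.1.1 := by
      apply dcg
      refine ⟨mulp b c (cg b p.1.2) (mulp b c e (mulp b c p.2.1 p.2.2)), ?_⟩
      rw [← mulp_assoc', ← cg_mul, hprod]
    have d2 : Dv b c (Lb p) p.1.2 := by
      apply dcg
      refine ⟨mulp b c (cg b p.1.1) (mulp b c e (mulp b c p.2.1 p.2.2)), ?_⟩
      rw [← mulp_assoc', ← cg_mul, mulp_comm' p.1.2, hprod]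
    rw [Finset.mem_coe, Finset.mem_product, Finset.mem_product, Finset.mem_product]
    exact ⟨Finset.mem_univ _, Finset.mem_filter.2 ⟨g1, hDv _ d1⟩,
      Finset.mem_filter.2 ⟨g2, hDv _ d2⟩, Finset.mem_filter.2 ⟨g3, hDv _ d3⟩⟩
  · intro p hp p' hp' heq
    rw [Finset.mem_coe, Finset.mem_filter, Finset.mem_product, Finset.mem_product,
      Finset.mem_product] at hp hp'
    obtain ⟨⟨⟨g1, g2⟩, g3, g4⟩, hdet, hlab⟩ := hp
    obtain ⟨⟨⟨g1', g2'⟩, g3', g4'⟩, hdet', hlab'⟩ := hp'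
    simp only [Prod.mk.injEq] at heq
    obtain ⟨hb, e1, e2, e3⟩ := heq
    rw [decide_eq_decide] at hb
    have hLL : Lb p = Lb p' := by
      have h1 : (Lb p).natAbs = (Lb p').natAbs := hlab.trans hlab'.symm
      have h2 : (Lb p).natAbs = k := hlab
      have h2' : (Lb p').natAbs = k := hlab'
      by_cases h : Lb p = (k : ℤ)
      · rw [h, hb.1 h]
      · have h' : ¬ Lb p' = (k : ℤ) := fun h3 => h (hb.2 h3)
        omega
    have hprod : mulp b c (cg b (mulp b c p.1.1 p.1.2)) (mulp b c e (mulp b c p.2.1 p.2.2)) =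
        (Lb p, 0) := by
      rw [mulp_cg, hdet]
    have hprod' : mulp b c (cg b (mulp b c p'.1.1 p'.1.2)) (mulp b c e (mulp b c p'.2.1 p'.2.2)) =
        (Lb p', 0) := by
      rw [mulp_cg, hdet']
    rw [← hLL, ← hprod, ← e1, ← e2, ← e3] at hprod'
    rw [← mulp_assoc', ← mulp_assoc', ← mulp_assoc', ← mulp_assoc'] at hprod'
    have hnz : nrm b c (mulp b c (mulp b c (cg b (mulp b c p.1.1 p.1.2)) e) p.2.1) ≠ 0 := by
      have hcg : ∀ u, nrm b c (cg b u) = nrm b c u := by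
        intro u; simp only [cg, nrm]; ring
      rw [nrm_mulp, nrm_mulp, hcg, nrm_mulp, he]
      have a1 := hG _ g1
      have a2 := hG _ g2
      have a3 := hG _ g3
      positivity
    have e4 := mulp_cancel hnz hprod'
    exact Prod.ext (Prod.ext e1 e2) (Prod.ext e3 e4.symm)

open Classical in
/-- the quadruples with vanishing determinant -/
theorem zero_count (hD0 : b ^ 2 - 4 * c ≠ 0) (K : ℕ) : ∃ C κ : ℕ, ∀ (e : ℤ × ℤ), nrm b c e = 1 →
    ∀ B : ℕ, 1 ≤ B → ∀ G : Finset (ℤ × ℤ),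
    (∀ u ∈ G, 0 < nrm b c u ∧ qn u ≤ K * nrm b c u ∧ nrm b c u ≤ B) →
    ((((G ×ˢ G) ×ˢ (G ×ˢ G)).filter (fun p =>
      det (mulp b c p.1.1 p.1.2) (mulp b c e (mulp b c p.2.1 p.2.2)) = 0)).card : ℝ) ≤
      C * (B : ℝ) ^ 2 * (1 + Real.log B) ^ κ := by
  obtain ⟨C0, hC0⟩ : ∃ C0 : ℕ, C0 = (bx b c K).card * (b ^ 2 - 4 * c).natAbs := ⟨_, rfl⟩
  obtain ⟨κ, hκ⟩ : ∃ κ : ℕ, κ = 2 ^ 18 := ⟨_, rfl⟩
  refine ⟨2 * C0 ^ 3 * 2 ^ κ, κ, ?_⟩
  intro e he B hB G hG
  set Z := ((G ×ˢ G) ×ˢ (G ×ˢ G)).filter (fun p =>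
      det (mulp b c p.1.1 p.1.2) (mulp b c e (mulp b c p.2.1 p.2.2)) = 0) with hZ
  set Lb : ((ℤ × ℤ) × (ℤ × ℤ)) × ((ℤ × ℤ) × (ℤ × ℤ)) → ℕ := fun p =>
    (lab b c (mulp b c p.1.1 p.1.2) (mulp b c e (mulp b c p.2.1 p.2.2))).natAbs with hLb
  have hBr : (1 : ℝ) ≤ B := by exact_mod_cast hB
  have hmap : ∀ p ∈ Z, Lb p ∈ Finset.Icc 1 (B ^ 2) := by
    intro p hp
    rw [hZ, Finset.mem_filter, Finset.mem_product, Finset.mem_product,
      Finset.mem_product] at hp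
    obtain ⟨⟨⟨g1, g2⟩, g3, g4⟩, hdet⟩ := hp
    have h1 := nrm_mul_nrm b c (mulp b c p.1.1 p.1.2) (mulp b c e (mulp b c p.2.1 p.2.2))
    rw [hdet, nrm_mulp, nrm_mulp, nrm_mulp, he] at h1
    obtain ⟨a1, -, b1⟩ := hG _ g1
    obtain ⟨a2, -, b2⟩ := hG _ g2
    obtain ⟨a3, -, b3⟩ := hG _ g3
    obtain ⟨a4, -, b4⟩ := hG _ g4
    obtain ⟨w, hw⟩ : ∃ w, w = lab b c (mulp b c p.1.1 p.1.2) (mulp b c e (mulp b c p.2.1 p.2.2)) :=
      ⟨_, rfl⟩
    have hLw : Lb p = w.natAbs := by rw [hw]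
    rw [← hw] at h1
    have h2 : w ^ 2 = nrm b c p.1.1 * nrm b c p.1.2 * (1 * (nrm b c p.2.1 * nrm b c p.2.2)) := by
      rw [h1]; ring
    rw [hLw, Finset.mem_Icc]
    constructor
    · have h3 : 0 < w ^ 2 := by rw [h2]; positivity
      have h4 : w ≠ 0 := by
        rintro rfl; simp at h3
      exact Int.natAbs_pos.2 h4
    · have h3 : w ^ 2 ≤ ((B : ℤ) ^ 2) ^ 2 := by
        rw [h2]
        have hB0 : (0 : ℤ) ≤ B := by positivity
        calc nrm b c p.1.1 * nrm b c p.1.2 * (1 * (nrm b c p.2.1 * nrm b c p.2.2)) ≤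
            (B * B) * (1 * (B * B) : ℤ) := by gcongr
          _ = ((B : ℤ) ^ 2) ^ 2 := by ring
      have h4 : |w| ≤ (B : ℤ) ^ 2 := abs_le_of_sq_le_sq h3 (by positivity)
      rw [Int.abs_eq_natAbs] at h4
      exact_mod_cast h4
  have hcard : Z.card ≤ ∑ k ∈ Finset.Icc 1 (B ^ 2), 2 * (C0 * k.divisors.card ^ 6) ^ 3 := by
    rw [Finset.card_eq_sum_card_fiberwise hmap]
    apply Finset.sum_le_sum
    intro k hk
    rw [Finset.mem_Icc] at hk
    have h1 := zero_fibre (G := G) he (fun u hu => (hG u hu).1) (k := k) (by omega)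
    have h2 := div_count (b := b) (c := c) hD0 (K := K) (n := k) (by omega) G
      (fun u hu => ⟨(hG u hu).1, (hG u hu).2.1⟩)
    rw [hZ, Finset.filter_filter]
    refine h1.trans ?_
    apply Nat.mul_le_mul_left
    apply Nat.pow_le_pow_left
    rw [hC0]
    exact h2
  have h1 : (Z.card : ℝ) ≤ 2 * (C0 : ℝ) ^ 3 * ∑ k ∈ Finset.Icc 1 (B ^ 2), (k.divisors.card : ℝ) ^ 18 := by
    rw [Finset.mul_sum]
    have h2 : (Z.card : ℝ) ≤ ((∑ k ∈ Finset.Icc 1 (B ^ 2), 2 * (C0 * k.divisors.card ^ 6) ^ 3 : ℕ) : ℝ) := by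
      exact_mod_cast hcard
    refine h2.trans (le_of_eq ?_)
    push_cast
    apply Finset.sum_congr rfl
    intro k _
    ring
  have h2 := sum_divisors_pow 18 (B ^ 2)
  rw [← hκ] at h2
  push_cast at h2
  rw [Real.log_pow] at h2
  have hlog : 0 ≤ Real.log B := Real.log_nonneg hBr
  have h3 : (1 + ((2 : ℕ) : ℝ) * Real.log B) ^ κ ≤ 2 ^ κ * (1 + Real.log B) ^ κ := by
    rw [← mul_pow]
    apply pow_le_pow_left₀ (by positivity)
    push_cast; linarith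
  calc (Z.card : ℝ) ≤ 2 * (C0 : ℝ) ^ 3 * ((B : ℝ) ^ 2 * (1 + ((2 : ℕ) : ℝ) * Real.log B) ^ κ) := by
        refine h1.trans ?_
        gcongr
    _ ≤ 2 * (C0 : ℝ) ^ 3 * ((B : ℝ) ^ 2 * (2 ^ κ * (1 + Real.log B) ^ κ)) := by gcongr
    _ = _ := by push_cast; ring

/-- lattice points in a thin strip -/
theorem slabG {K B H : ℕ} (ρ : ℤ × ℤ) (hρ0 : ρ ≠ 0) (hρ : (B : ℤ) ^ 2 ≤ K * qn ρ)
    (T : Finset (ℤ × ℤ)) (hT : ∀ w ∈ T, qn w ≤ K * (B : ℤ) ^ 2 ∧
      0 < |det ρ w| ∧ |det ρ w| ≤ H) : T.card ≤ (4 * K + 2) * H := by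
  classical
  obtain ⟨x, y⟩ := ρ
  obtain ⟨d, hd⟩ : ∃ d : ℕ, d = Int.gcd x y := ⟨_, rfl⟩
  have hd0 : 0 < d := by
    rw [hd]
    apply Int.gcd_pos_iff.2
    by_contra hcon
    push Not at hcon
    exact hρ0 (Prod.ext hcon.1 hcon.2)
  have hcx : (d : ℤ) ∣ x := by rw [hd]; exact Int.gcd_dvd_left ..
  have hcy : (d : ℤ) ∣ y := by rw [hd]; exact Int.gcd_dvd_right ..
  obtain ⟨x1, hx1⟩ := hcx
  obtain ⟨y1, hy1⟩ := hcy
  have hcz : (0 : ℤ) < d := by exact_mod_cast hd0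
  obtain ⟨α, β, hab⟩ : ∃ α β : ℤ, α * x1 + β * y1 = 1 := by
    have h1 := Int.gcd_eq_gcd_ab x y
    rw [← hd] at h1
    refine ⟨Int.gcdA x y, Int.gcdB x y, ?_⟩
    generalize Int.gcdA x y = A at *
    generalize Int.gcdB x y = D at *
    have h2 : (d : ℤ) * (A * x1 + D * y1) = d * 1 := by
      rw [mul_one]
      nth_rewrite 2 [h1]
      rw [hx1, hy1]; ring
    exact mul_left_cancel₀ hcz.ne' h2
  obtain ⟨N1, hN1⟩ : ∃ N1 : ℤ, N1 = x1 ^ 2 + y1 ^ 2 := ⟨_, rfl⟩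
  have hNN : qn (x, y) = d ^ 2 * N1 := by
    unfold qn; rw [hN1]; simp only; rw [hx1, hy1]; ring
  have hN1pos : 0 < N1 := by
    rw [hN1]
    by_contra hcon
    push Not at hcon
    have h1 : x1 ^ 2 = 0 := by nlinarith [sq_nonneg x1, sq_nonneg y1]
    have h2 : y1 ^ 2 = 0 := by nlinarith [sq_nonneg x1, sq_nonneg y1]
    have h3 : x1 = 0 := pow_eq_zero_iff (two_ne_zero) |>.1 h1
    have h4 : y1 = 0 := pow_eq_zero_iff (two_ne_zero) |>.1 h2
    rw [h3, h4] at hab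
    simp at hab
  obtain ⟨Hc, hHc⟩ : ∃ Hc : ℕ, Hc = H / d := ⟨_, rfl⟩
  have hHc1 : Hc * d ≤ H := by rw [hHc]; exact Nat.div_mul_le_self H d
  set U : Finset (ℤ × ℤ) := ((Finset.Icc (-(Hc : ℤ)) Hc).erase 0) ×ˢ
    (Finset.Icc (-((K : ℤ) * d)) (K * d)) with hU
  have hUcard : U.card ≤ (4 * K + 2) * H := by
    rw [hU, Finset.card_product, Finset.card_erase_of_mem (by
      rw [Finset.mem_Icc]; constructor <;> omega), Int.card_Icc, Int.card_Icc]
    have e1 : ((Hc : ℤ) + 1 - -(Hc : ℤ)).toNat - 1 = 2 * Hc := by omega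
    have e2 : ((K : ℤ) * d + 1 - -((K : ℤ) * d)).toNat = 2 * (K * d) + 1 := by
      have : ((K : ℤ) * d + 1 - -((K : ℤ) * d)) = ((2 * (K * d) + 1 : ℕ) : ℤ) := by push_cast; ring
      rw [this, Int.toNat_natCast]
    rw [e1, e2]
    calc 2 * Hc * (2 * (K * d) + 1) ≤ 2 * Hc * (2 * (K * d) + d) := by gcongr; omega
      _ = (4 * K + 2) * (Hc * d) := by ring
      _ ≤ (4 * K + 2) * H := Nat.mul_le_mul_left _ hHc1
  refine le_trans ?_ hUcard
  apply Finset.card_le_card_of_injOn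
    (fun u => (x1 * u.2 - y1 * u.1, (x1 * u.1 + y1 * u.2) / N1))
  · intro u hu
    rw [Finset.mem_coe] at hu
    obtain ⟨h1, h2, h3⟩ := hT u hu
    have e : det (x, y) u = d * (x1 * u.2 - y1 * u.1) := by
      unfold det; simp only; rw [hx1, hy1]; ring
    rw [e, abs_mul, abs_of_pos hcz] at h2 h3
    obtain ⟨v, hv⟩ : ∃ v : ℤ, v = x1 * u.2 - y1 * u.1 := ⟨_, rfl⟩
    obtain ⟨w, hw⟩ : ∃ w : ℤ, w = x1 * u.1 + y1 * u.2 := ⟨_, rfl⟩
    rw [← hv] at h2 h3
    rw [Finset.mem_coe, hU, Finset.mem_product, Finset.mem_erase, Finset.mem_Icc, Finset.mem_Icc]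
    simp only
    rw [← hv, ← hw]
    have hv0 : v ≠ 0 := by
      intro h; rw [h] at h2; simp at h2
    have hvH : |v| ≤ Hc := by
      have h4 : d * v.natAbs ≤ H := by
        have : ((d * v.natAbs : ℕ) : ℤ) ≤ H := by push_cast; exact h3
        exact_mod_cast this
      have h5 : v.natAbs ≤ Hc := by
        rw [hHc]
        exact (Nat.le_div_iff_mul_le hd0).2 (by rw [mul_comm]; exact h4)
      rw [Int.abs_eq_natAbs]
      exact_mod_cast h5
    have hw2 : w ^ 2 ≤ (K * d * N1) ^ 2 := by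
      have e3 : w ^ 2 + v ^ 2 = N1 * qn u := by
        rw [hw, hv, hN1]; unfold qn; ring
      have h6 : N1 * qn u ≤ N1 * (K * (K * (d ^ 2 * N1))) := by
        apply mul_le_mul_of_nonneg_left _ hN1pos.le
        rw [← hNN]
        refine h1.trans ?_
        gcongr
      calc w ^ 2 ≤ w ^ 2 + v ^ 2 := by nlinarith [sq_nonneg v]
        _ = N1 * qn u := e3
        _ ≤ N1 * (K * (K * (d ^ 2 * N1))) := h6
        _ = (K * d * N1) ^ 2 := by ring
    have hw3 : |w| ≤ K * d * N1 := abs_le_of_sq_le_sq hw2 (by positivity)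
    rw [abs_le] at hw3 hvH
    refine ⟨⟨hv0, hvH.1, hvH.2⟩, ?_, ?_⟩
    · rw [Int.le_ediv_iff_mul_le hN1pos]; linarith
    · apply Int.le_of_lt_add_one
      rw [Int.ediv_lt_iff_lt_mul hN1pos]; nlinarith
  · intro u hu u' hu' heq
    simp only [Prod.mk.injEq] at heq
    obtain ⟨h1, h2⟩ := heq
    obtain ⟨j, hj⟩ : ∃ j : ℤ, j = α * (u.1 - u'.1) + β * (u.2 - u'.2) := ⟨_, rfl⟩
    have hdx : u.1 - u'.1 = x1 * j := by
      rw [hj]
      linear_combination (-(u.1 - u'.1)) * hab - β * h1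
    have hdy : u.2 - u'.2 = y1 * j := by
      rw [hj]
      linear_combination (-(u.2 - u'.2)) * hab + α * h1
    have hdu : x1 * u.1 + y1 * u.2 = (x1 * u'.1 + y1 * u'.2) + j * N1 := by
      rw [hN1]
      linear_combination x1 * hdx + y1 * hdy
    rw [hdu, Int.add_mul_ediv_right _ _ hN1pos.ne'] at h2
    have hj0 : j = 0 := by linarith
    rw [hj0, mul_zero] at hdx hdy
    exact Prod.ext (by linarith) (by linarith)

/-- symmetrisation -/
theorem sym_sum2 (V : Finset (ℤ × ℤ)) (R : ℤ × ℤ → ℕ) (w : ℤ × ℤ → ℤ × ℤ → ℕ)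
    (K : ℕ) (hK : ∀ u ∈ V, ∑ v ∈ V, w u v ≤ K) (hK' : ∀ v ∈ V, ∑ u ∈ V, w u v ≤ K) :
    ∑ u ∈ V, R u * ∑ v ∈ V, R v * w u v ≤ K * ∑ u ∈ V, R u * R u := by
  have h1 : ∑ u ∈ V, ∑ v ∈ V, 2 * (R u * (R v * w u v)) ≤
      ∑ u ∈ V, ∑ v ∈ V, (R u * R u * w u v + R v * R v * w u v) := by
    apply Finset.sum_le_sum
    intro u _
    apply Finset.sum_le_sum
    intro v _
    have h2 : 2 * (R u * R v) ≤ R u * R u + R v * R v := by
      have := two_mul_le_add_sq (R u) (R v)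
      nlinarith
    calc 2 * (R u * (R v * w u v)) = (2 * (R u * R v)) * w u v := by ring
      _ ≤ (R u * R u + R v * R v) * w u v := Nat.mul_le_mul_right _ h2
      _ = _ := by ring
  have h3 : ∑ u ∈ V, ∑ v ∈ V, R v * R v * w u v ≤ K * ∑ u ∈ V, R u * R u := by
    rw [Finset.sum_comm, Finset.mul_sum]
    apply Finset.sum_le_sum
    intro v hv
    rw [← Finset.mul_sum, mul_comm K]
    exact Nat.mul_le_mul_left _ (hK' v hv)
  have h4 : ∑ u ∈ V, ∑ v ∈ V, R u * R u * w u v ≤ K * ∑ u ∈ V, R u * R u := by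
    rw [Finset.mul_sum]
    apply Finset.sum_le_sum
    intro u hu
    rw [← Finset.mul_sum, mul_comm K]
    exact Nat.mul_le_mul_left _ (hK u hu)
  have h5 : ∑ u ∈ V, ∑ v ∈ V, 2 * (R u * (R v * w u v)) =
      2 * ∑ u ∈ V, R u * ∑ v ∈ V, R v * w u v := by
    rw [Finset.mul_sum]
    apply Finset.sum_congr rfl
    intro u _
    rw [Finset.mul_sum, Finset.mul_sum]
  rw [h5] at h1
  have h6 : ∑ u ∈ V, ∑ v ∈ V, (R u * R u * w u v + R v * R v * w u v) =
      ∑ u ∈ V, ∑ v ∈ V, R u * R u * w u v + ∑ u ∈ V, ∑ v ∈ V, R v * R v * w u v := by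
    rw [← Finset.sum_add_distrib]
    apply Finset.sum_congr rfl
    intro u _
    rw [← Finset.sum_add_distrib]
  rw [h6] at h1
  omega

open Classical in
/-- the quadruples with nonzero determinant -/
theorem pos_count {K K2 B H : ℕ} {e : ℤ × ℤ} (he : nrm b c e = 1)
    (hK2a : (Am b c) ^ 2 * qn e * (K : ℤ) ^ 2 ≤ K2) (hK2b : (Am b c) * (K : ℤ) ^ 2 ≤ K2)
    (G : Finset (ℤ × ℤ)) (hB : 1 ≤ B)
    (hG : ∀ u ∈ G, 0 < nrm b c u ∧ qn u ≤ K * nrm b c u ∧ nrm b c u ≤ B ∧ (B : ℤ) ≤ K * nrm b c u) :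
    (((G ×ˢ G) ×ˢ (G ×ˢ G)).filter (fun p =>
      0 < |det (mulp b c p.1.1 p.1.2) (mulp b c e (mulp b c p.2.1 p.2.2))| ∧
      |det (mulp b c p.1.1 p.1.2) (mulp b c e (mulp b c p.2.1 p.2.2))| ≤ (H:ℤ))).card ≤
    (4 * K2 + 2) * H * (((G ×ˢ G) ×ˢ (G ×ˢ G)).filter (fun p =>
      det (mulp b c p.1.1 p.1.2) (mulp b c (1, 0) (mulp b c p.2.1 p.2.2)) = 0)).card := by
  set P := G ×ˢ G with hP
  set m : (ℤ × ℤ) × (ℤ × ℤ) → ℤ × ℤ := fun p => mulp b c p.1 p.2 with hm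
  set V := P.image m with hV
  set R : ℤ × ℤ → ℕ := fun ρ => (P.filter (fun p => m p = ρ)).card with hR
  set w : ℤ × ℤ → ℤ × ℤ → ℕ := fun u v =>
    if 0 < |det u (mulp b c e v)| ∧ |det u (mulp b c e v)| ≤ (H:ℤ) then 1 else 0 with hw
  have hBz : (1 : ℤ) ≤ B := by exact_mod_cast hB
  have hAm := Am_pos b c
  have hqe : 1 ≤ qn e := by
    have h1 := qn_nonneg e
    by_contra hcon
    push Not at hcon
    have h2 : qn e = 0 := by omega
    unfold qn at h2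
    have h3 : e.1 = 0 := by nlinarith [sq_nonneg e.1, sq_nonneg e.2]
    have h4 : e.2 = 0 := by nlinarith [sq_nonneg e.1, sq_nonneg e.2]
    simp [nrm, h3, h4] at he
  have hVn : ∀ u ∈ V, 0 < nrm b c u ∧ (B : ℤ) ^ 2 ≤ K ^ 2 * nrm b c u ∧
      qn u ≤ Am b c * (K : ℤ) ^ 2 * (B : ℤ) ^ 2 := by
    intro u hu
    rw [hV, Finset.mem_image] at hu
    obtain ⟨p, hp, rfl⟩ := hu
    rw [hP, Finset.mem_product] at hp
    obtain ⟨a1, a2, a3, a4⟩ := hG _ hp.1
    obtain ⟨b1, b2, b3, b4⟩ := hG _ hp.2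
    simp only [hm]
    rw [nrm_mulp]
    refine ⟨mul_pos a1 b1, ?_, ?_⟩
    · calc (B : ℤ) ^ 2 = B * B := by ring
        _ ≤ (K * nrm b c p.1) * (K * nrm b c p.2) := mul_le_mul a4 b4 (by positivity) (by positivity)
        _ = _ := by ring
    · refine (qn_mulp_le _ _).trans ?_
      have h1 : qn p.1 ≤ K * B := a2.trans (by gcongr)
      have h2 : qn p.2 ≤ K * B := b2.trans (by gcongr)
      calc Am b c * (qn p.1 * qn p.2) ≤ Am b c * ((K * B) * (K * B)) := by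
            have := qn_nonneg p.1
            have := qn_nonneg p.2
            gcongr
        _ = _ := by ring
  have hne : ∀ u : ℤ × ℤ, 0 < nrm b c u → u ≠ 0 := by
    rintro u hu rfl; simp [nrm] at hu
  have hA : (((P ×ˢ P)).filter (fun p =>
      0 < |det (mulp b c p.1.1 p.1.2) (mulp b c e (mulp b c p.2.1 p.2.2))| ∧
      |det (mulp b c p.1.1 p.1.2) (mulp b c e (mulp b c p.2.1 p.2.2))| ≤ (H:ℤ))).card =
      ∑ u ∈ V, R u * ∑ v ∈ V, R v * w u v := by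
    rw [Finset.card_filter, Finset.sum_product]
    have e1 : ∀ p1 : (ℤ × ℤ) × (ℤ × ℤ), ∑ p2 ∈ P, w (m p1) (m p2) = ∑ v ∈ V, R v * w (m p1) v := by
      intro p1
      have := Finset.sum_comp (s := P) (fun v => w (m p1) v) m
      simp only [smul_eq_mul] at this
      exact this
    have e2 := Finset.sum_comp (s := P) (fun u => ∑ v ∈ V, R v * w u v) m
    simp only [smul_eq_mul] at e2
    calc _ = ∑ p1 ∈ P, ∑ p2 ∈ P, w (m p1) (m p2) := rfl
      _ = ∑ p1 ∈ P, ∑ v ∈ V, R v * w (m p1) v := Finset.sum_congr rfl (fun p1 _ => e1 p1)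
      _ = _ := e2
  have hE : ∑ u ∈ V, R u * R u ≤ ((P ×ˢ P).filter (fun p =>
      det (mulp b c p.1.1 p.1.2) (mulp b c (1, 0) (mulp b c p.2.1 p.2.2)) = 0)).card := by
    have e2 := Finset.sum_comp (s := P) (fun u => R u) m
    simp only [smul_eq_mul] at e2
    have e3 : ∑ u ∈ V, R u * R u = ((P ×ˢ P).filter (fun p => m p.2 = m p.1)).card := by
      rw [Finset.card_filter, Finset.sum_product]
      rw [show ∑ u ∈ V, R u * R u = ∑ p1 ∈ P, R (m p1) from e2.symm]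
      apply Finset.sum_congr rfl
      intro p1 _
      simp only [hR]
      rw [Finset.card_filter]
    rw [e3]
    apply Finset.card_le_card
    intro p hp
    rw [Finset.mem_filter] at hp ⊢
    refine ⟨hp.1, ?_⟩
    have h1 : mulp b c p.2.1 p.2.2 = mulp b c p.1.1 p.1.2 := hp.2
    rw [h1]
    generalize mulp b c p.1.1 p.1.2 = t
    simp only [det, mulp]; ring
  have hslab : ∀ ρ : ℤ × ℤ, ρ ≠ 0 → (B : ℤ) ^ 2 ≤ K2 * qn ρ → ∀ T : Finset (ℤ × ℤ),
      (∀ t ∈ T, qn t ≤ K2 * (B : ℤ) ^ 2 ∧ 0 < |det ρ t| ∧ |det ρ t| ≤ H) →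
      T.card ≤ (4 * K2 + 2) * H := fun ρ h0 h1 T hT => slabG ρ h0 h1 T hT
  rw [hA]
  refine (sym_sum2 V R w ((4 * K2 + 2) * H) ?_ ?_).trans (Nat.mul_le_mul_left _ hE)
  · intro u hu
    obtain ⟨h1, h2, h3⟩ := hVn u hu
    have e5 : ∑ v ∈ V, w u v =
        (V.filter (fun v => 0 < |det u (mulp b c e v)| ∧ |det u (mulp b c e v)| ≤ (H:ℤ))).card := by
      rw [Finset.card_filter]
    rw [e5]
    have hinj : Set.InjOn (mulp b c e)
        (V.filter (fun v => 0 < |det u (mulp b c e v)| ∧ |det u (mulp b c e v)| ≤ (H:ℤ))) := by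
      intro v _ v' _ h
      exact mulp_cancel (by rw [he]; norm_num) h
    rw [← Finset.card_image_of_injOn hinj]
    apply hslab u (hne u h1)
    · calc (B : ℤ) ^ 2 ≤ K ^ 2 * nrm b c u := h2
        _ ≤ K ^ 2 * (Am b c * qn u) := by
            have := nrm_le_qn (b := b) (c := c) u
            gcongr
        _ = (Am b c * K ^ 2) * qn u := by ring
        _ ≤ K2 * qn u := by
            have := qn_nonneg u
            gcongr
    · intro t ht
      rw [Finset.mem_image] at ht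
      obtain ⟨v, hv, rfl⟩ := ht
      rw [Finset.mem_filter] at hv
      obtain ⟨g1, g2, g3⟩ := hVn v hv.1
      refine ⟨?_, hv.2.1, hv.2.2⟩
      calc qn (mulp b c e v) ≤ Am b c * (qn e * qn v) := qn_mulp_le _ _
        _ ≤ Am b c * (qn e * (Am b c * (K : ℤ) ^ 2 * (B : ℤ) ^ 2)) := by gcongr
        _ = ((Am b c) ^ 2 * qn e * (K : ℤ) ^ 2) * (B : ℤ) ^ 2 := by ring
        _ ≤ K2 * (B : ℤ) ^ 2 := by gcongr
  · intro v hv
    obtain ⟨g1, g2, g3⟩ := hVn v hv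
    have e5 : ∑ u ∈ V, w u v =
        (V.filter (fun u => 0 < |det u (mulp b c e v)| ∧ |det u (mulp b c e v)| ≤ (H:ℤ))).card := by
      rw [Finset.card_filter]
    rw [e5]
    have hpos : 0 < nrm b c (mulp b c e v) := by rw [nrm_mulp, he, one_mul]; exact g1
    apply hslab (mulp b c e v) (hne _ hpos)
    · calc (B : ℤ) ^ 2 ≤ K ^ 2 * nrm b c (mulp b c e v) := by
            rw [nrm_mulp, he, one_mul]; exact g2
        _ ≤ K ^ 2 * (Am b c * qn (mulp b c e v)) := by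
            have := nrm_le_qn (b := b) (c := c) (mulp b c e v)
            gcongr
        _ = (Am b c * K ^ 2) * qn (mulp b c e v) := by ring
        _ ≤ K2 * qn (mulp b c e v) := by
            have := qn_nonneg (mulp b c e v)
            gcongr
    · intro u hu
      rw [Finset.mem_filter] at hu
      obtain ⟨h1, h2, h3⟩ := hVn u hu.1
      have hdd : det (mulp b c e v) u = - det u (mulp b c e v) := by
        generalize mulp b c e v = t
        simp only [det]; ring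
      rw [hdd, abs_neg]
      refine ⟨?_, hu.2.1, hu.2.2⟩
      refine h3.trans ?_
      gcongr

/-- MODULE G': the energy bound for an angle system. -/
theorem energy_bd {V : ℤ × ℤ → Prop} {th : ℤ × ℤ → ℝ} {et : ℤ → ℤ × ℤ} {K0 : ℝ}
    (S : Sys b c V th et K0) : EnergyBd b c V th := by
  classical
  intro K1 e he
  have hD0 : b ^ 2 - 4 * c ≠ 0 := by
    intro h; exact S.hD ⟨0, by rw [h]; rfl⟩
  obtain ⟨K', hK'⟩ : ∃ K' : ℕ, K0 ≤ K' := exists_nat_ge K0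
  obtain ⟨K, hKdef⟩ : ∃ K : ℕ, K = K' + K1 := ⟨_, rfl⟩
  obtain ⟨C0, κ0, h0⟩ := zero_count (b := b) (c := c) hD0 K
  obtain ⟨K2, hK2⟩ : ∃ K2 : ℕ, (K2 : ℤ) = (Am b c) ^ 2 * qn e * (K : ℤ) ^ 2 + (Am b c) * (K : ℤ) ^ 2 := by
    have hAm := Am_pos b c
    have := qn_nonneg e
    exact ⟨((Am b c) ^ 2 * qn e * (K : ℤ) ^ 2 + (Am b c) * (K : ℤ) ^ 2).toNat,
      Int.toNat_of_nonneg (by positivity)⟩
  have hAm := Am_pos b c
  have hqe := qn_nonneg e
  refine ⟨C0 * (4 * K2 + 3), κ0, ?_⟩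
  intro B H hB hH G hG
  have hG' : ∀ u ∈ G, 0 < nrm b c u ∧ qn u ≤ K * nrm b c u ∧ nrm b c u ≤ B ∧
      (B : ℤ) ≤ K * nrm b c u := by
    intro u hu
    obtain ⟨h1, h2, h3, h4⟩ := hG u hu
    have hpos := S.pos u h1
    have hbox := S.box u h1 (by linarith)
    have hposr : (0 : ℝ) < nrm b c u := by exact_mod_cast hpos
    refine ⟨hpos, ?_, h4, ?_⟩
    · have h5 : ((qn u : ℤ) : ℝ) ≤ ((K * nrm b c u : ℤ) : ℝ) := by
        unfold qn
        push_cast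
        refine hbox.trans ?_
        have h6 : K0 ≤ (K : ℝ) := by
          rw [hKdef]; push_cast
          have : (0 : ℝ) ≤ K1 := by positivity
          linarith
        gcongr
      exact_mod_cast h5
    · refine h3.trans ?_
      have h6 : (K1 : ℤ) ≤ K := by rw [hKdef]; push_cast; linarith [Int.natCast_nonneg K']
      gcongr
  have hz := h0 e he B hB G (fun u hu => ⟨(hG' u hu).1, (hG' u hu).2.1, (hG' u hu).2.2.1⟩)
  have hz1 := h0 (1, 0) (by simp [nrm]) B hB G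
    (fun u hu => ⟨(hG' u hu).1, (hG' u hu).2.1, (hG' u hu).2.2.1⟩)
  have hp := pos_count (b := b) (c := c) (K := K) (K2 := K2) (B := B) (H := H) he
    (by rw [hK2]; nlinarith [mul_nonneg (show (0:ℤ) ≤ Am b c by linarith) (sq_nonneg (K : ℤ))])
    (by rw [hK2]
        have : 0 ≤ (Am b c) ^ 2 * qn e * (K : ℤ) ^ 2 := by positivity
        linarith) G hB hG'
  have h2 : (((G ×ˢ G) ×ˢ (G ×ˢ G)).filter (fun p =>
      |det (mulp b c p.1.1 p.1.2) (mulp b c e (mulp b c p.2.1 p.2.2))| ≤ (H : ℤ))).card ≤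
      (((G ×ˢ G) ×ˢ (G ×ˢ G)).filter (fun p =>
        det (mulp b c p.1.1 p.1.2) (mulp b c e (mulp b c p.2.1 p.2.2)) = 0)).card +
      (((G ×ˢ G) ×ˢ (G ×ˢ G)).filter (fun p =>
        0 < |det (mulp b c p.1.1 p.1.2) (mulp b c e (mulp b c p.2.1 p.2.2))| ∧
        |det (mulp b c p.1.1 p.1.2) (mulp b c e (mulp b c p.2.1 p.2.2))| ≤ (H:ℤ))).card := by
    refine le_trans ?_ (Finset.card_union_le _ _)
    apply Finset.card_le_card
    intro p hp
    rw [Finset.mem_filter] at hp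
    rw [Finset.mem_union, Finset.mem_filter, Finset.mem_filter]
    by_cases h : det (mulp b c p.1.1 p.1.2) (mulp b c e (mulp b c p.2.1 p.2.2)) = 0
    · left; exact ⟨hp.1, h⟩
    · right; exact ⟨hp.1, abs_pos.2 h, hp.2⟩
  generalize (((G ×ˢ G) ×ˢ (G ×ˢ G)).filter (fun p =>
      |det (mulp b c p.1.1 p.1.2) (mulp b c e (mulp b c p.2.1 p.2.2))| ≤ (H : ℤ))).card = a at *
  generalize (((G ×ˢ G) ×ˢ (G ×ˢ G)).filter (fun p =>
        det (mulp b c p.1.1 p.1.2) (mulp b c e (mulp b c p.2.1 p.2.2)) = 0)).card = a0 at *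
  generalize (((G ×ˢ G) ×ˢ (G ×ˢ G)).filter (fun p =>
        0 < |det (mulp b c p.1.1 p.1.2) (mulp b c e (mulp b c p.2.1 p.2.2))| ∧
        |det (mulp b c p.1.1 p.1.2) (mulp b c e (mulp b c p.2.1 p.2.2))| ≤ (H:ℤ))).card = a1 at *
  generalize (((G ×ˢ G) ×ˢ (G ×ˢ G)).filter (fun p =>
      det (mulp b c p.1.1 p.1.2) (mulp b c (1, 0) (mulp b c p.2.1 p.2.2)) = 0)).card = a2 at *
  have h2r : (a : ℝ) ≤ a0 + a1 := by exact_mod_cast h2
  have hpr : (a1 : ℝ) ≤ (4 * K2 + 2) * H * a2 := by exact_mod_cast hp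
  have hHr : (1 : ℝ) ≤ H := by exact_mod_cast hH
  set W : ℝ := C0 * (B : ℝ) ^ 2 * (1 + Real.log B) ^ κ0 with hW
  have hW0 : 0 ≤ W := by
    have : 0 ≤ Real.log B := Real.log_nonneg (by exact_mod_cast hB)
    positivity
  calc (a : ℝ) ≤ a0 + a1 := h2r
    _ ≤ W + (4 * K2 + 2) * H * W := by
        refine add_le_add hz (hpr.trans ?_)
        gcongr
    _ ≤ H * W + (4 * K2 + 2) * H * W := by
        have : W ≤ H * W := by nlinarith
        linarith
    _ = _ := by rw [hW]; push_cast; ring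

end Pool.Agent.Lib.MP_a17b09_nt.LG
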