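import Pool.Agent.Lib.MP_a17b09_nt.LG.MomG
import Pool.Agent.Lib.MP_a17b09_nt.LG.EnergyA

/-!
The even sign: for every monic quadratic polynomial with nonsquare discriminant and every set `P`
of primes the number of prime factors in `P` is even for at least `N / (log N)^C` arguments.
-/

set_option autoImplicit false

open Finset

namespace Pool.Agent.Lib.MP_a17b09_nt.LG

open Pool.Agent.Lib.MP_a17b09_nt Pool.Agent.Lib.MP_a17b09_nt.LP

variable {b c : ℤ}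

lemma sum_inv_sq (n : ℕ) (hn : 2 ≤ n) :
    ∑ d ∈ Icc 2 n, (1 : ℝ) / (d : ℝ) ^ 2 ≤ 3 / 4 - 1 / n := by
  induction n, hn using Nat.le_induction with
  | base => norm_num
  | succ n hn ih =>
    rw [← Finset.insert_Icc_right_eq_Icc_add_one (by omega), Finset.sum_insert (by simp)]
    have hn0 : (0 : ℝ) < n := by
      have : 0 < n := by omega
      exact_mod_cast this
    have h1 : (1 : ℝ) / ((n + 1 : ℕ) : ℝ) ^ 2 ≤ 1 / n - 1 / ((n + 1 : ℕ) : ℝ) := by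
      push_cast
      rw [div_sub_div _ _ hn0.ne' (by positivity), div_le_div_iff₀ (by positivity) (by positivity)]
      nlinarith
    linarith

lemma noncoprime_count (X : ℕ) :
    (((Icc 1 X ×ˢ Icc 1 X).filter (fun p : ℕ × ℕ => ¬ Nat.Coprime p.1 p.2)).card : ℝ)
      ≤ 3 / 4 * (X : ℝ) ^ 2 := by
  classical
  rcases lt_or_ge X 2 with hX | hX
  · have h0 : (Icc 1 X ×ˢ Icc 1 X).filter (fun p : ℕ × ℕ => ¬ Nat.Coprime p.1 p.2) = ∅ := by
      rw [Finset.filter_eq_empty_iff]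
      intro p hp
      rw [Finset.mem_product, Finset.mem_Icc, Finset.mem_Icc] at hp
      have h1 : p.1 = 1 := by omega
      rw [h1]
      simp
    rw [h0, Finset.card_empty, Nat.cast_zero]
    positivity
  have hsub : (Icc 1 X ×ˢ Icc 1 X).filter (fun p : ℕ × ℕ => ¬ Nat.Coprime p.1 p.2) ⊆
      (Icc 2 X).biUnion (fun d => ((Icc 1 X).filter (fun x => d ∣ x)) ×ˢ
        ((Icc 1 X).filter (fun x => d ∣ x))) := by
    intro p hp
    rw [Finset.mem_filter, Finset.mem_product, Finset.mem_Icc, Finset.mem_Icc] at hp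
    rw [Finset.mem_biUnion]
    refine ⟨Nat.gcd p.1 p.2, ?_, ?_⟩
    · rw [Finset.mem_Icc]
      have h1 : 0 < Nat.gcd p.1 p.2 := Nat.gcd_pos_of_pos_left _ (by omega)
      have h2 : Nat.gcd p.1 p.2 ≤ p.1 := Nat.gcd_le_left _ (by omega)
      have h3 : Nat.gcd p.1 p.2 ≠ 1 := hp.2
      omega
    · rw [Finset.mem_product, Finset.mem_filter, Finset.mem_filter, Finset.mem_Icc,
        Finset.mem_Icc]
      exact ⟨⟨hp.1.1, Nat.gcd_dvd_left _ _⟩, ⟨hp.1.2, Nat.gcd_dvd_right _ _⟩⟩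
  have hc : ∀ d : ℕ, 1 ≤ d → (((Icc 1 X).filter (fun x => d ∣ x)).card : ℝ) ≤ X / d := by
    intro d hd
    have h1 : ((Icc 1 X).filter (fun x => d ∣ x)).card = X / d := by
      have := Nat.Ioc_filter_dvd_card_eq_div X d
      have e : Icc 1 X = Ioc 0 X := by
        ext x
        rw [Finset.mem_Icc, Finset.mem_Ioc]
        omega
      rw [e, this]
    rw [h1]
    exact Nat.cast_div_le
  have h1 : (((Icc 1 X ×ˢ Icc 1 X).filter (fun p : ℕ × ℕ => ¬ Nat.Coprime p.1 p.2)).card : ℝ)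
      ≤ ∑ d ∈ Icc 2 X, (X : ℝ) ^ 2 * (1 / (d : ℝ) ^ 2) := by
    have h2 := (Finset.card_le_card hsub).trans Finset.card_biUnion_le
    have h3 : (((Icc 1 X ×ˢ Icc 1 X).filter (fun p : ℕ × ℕ => ¬ Nat.Coprime p.1 p.2)).card : ℝ)
        ≤ ∑ d ∈ Icc 2 X, ((((Icc 1 X).filter (fun x => d ∣ x)) ×ˢ
        ((Icc 1 X).filter (fun x => d ∣ x))).card : ℝ) := by exact_mod_cast h2
    refine h3.trans (Finset.sum_le_sum ?_)
    intro d hd
    rw [Finset.mem_Icc] at hd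
    rw [Finset.card_product]
    push_cast
    have h4 := hc d (by omega)
    calc (((Icc 1 X).filter (fun x => d ∣ x)).card : ℝ) * ((Icc 1 X).filter (fun x => d ∣ x)).card
        ≤ (X / d) * (X / d) := mul_le_mul h4 h4 (by positivity) (by positivity)
      _ = (X : ℝ) ^ 2 * (1 / (d : ℝ) ^ 2) := by ring
  rw [← Finset.mul_sum] at h1
  have h2 := sum_inv_sq X hX
  have h3 : (0 : ℝ) ≤ 1 / X := by positivity
  calc _ ≤ _ := h1
    _ ≤ (X : ℝ) ^ 2 * (3 / 4) := mul_le_mul_of_nonneg_left (by linarith) (sq_nonneg _)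
    _ = 3 / 4 * (X : ℝ) ^ 2 := by ring

/-- The base points. -/
def UX (X : ℕ) : Finset (ℕ × ℕ) :=
  (Icc 1 X ×ˢ Icc 1 X).filter (fun p => Nat.Coprime p.1 p.2 ∧ X ≤ 8 * p.1)

lemma card_UX (X : ℕ) : (X : ℝ) ^ 2 / 8 ≤ ((UX X).card : ℝ) := by
  classical
  have h0 := noncoprime_count X
  have hsub : Icc 1 X ×ˢ Icc 1 X ⊆ UX X ∪
      ((Icc 1 X ×ˢ Icc 1 X).filter (fun p : ℕ × ℕ => ¬ Nat.Coprime p.1 p.2) ∪
        (Icc 1 X ×ˢ Icc 1 X).filter (fun p : ℕ × ℕ => 8 * p.1 < X)) := by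
    intro p hp
    rw [Finset.mem_union, Finset.mem_union]
    unfold UX
    rw [Finset.mem_filter, Finset.mem_filter, Finset.mem_filter]
    by_cases h1 : Nat.Coprime p.1 p.2
    · by_cases h2 : X ≤ 8 * p.1
      · exact Or.inl ⟨hp, h1, h2⟩
      · exact Or.inr (Or.inr ⟨hp, by omega⟩)
    · exact Or.inr (Or.inl ⟨hp, h1⟩)
  have h1 := (Finset.card_le_card hsub).trans (Finset.card_union_le _ _)
  have h2 := h1.trans (Nat.add_le_add_left (Finset.card_union_le _ _) _)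
  have h3 : ((Icc 1 X ×ˢ Icc 1 X).filter (fun p : ℕ × ℕ => 8 * p.1 < X)).card ≤ X / 8 * X := by
    have hs : (Icc 1 X ×ˢ Icc 1 X).filter (fun p : ℕ × ℕ => 8 * p.1 < X) ⊆
        Icc 1 (X / 8) ×ˢ Icc 1 X := by
      intro p hp
      rw [Finset.mem_filter, Finset.mem_product, Finset.mem_Icc, Finset.mem_Icc] at hp
      rw [Finset.mem_product, Finset.mem_Icc, Finset.mem_Icc]
      refine ⟨⟨hp.1.1.1, ?_⟩, hp.1.2⟩
      rw [Nat.le_div_iff_mul_le (by norm_num)]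
      omega
    refine (Finset.card_le_card hs).trans ?_
    rw [Finset.card_product, Nat.card_Icc, Nat.card_Icc]
    simp
  have h4 : ((X / 8 * X : ℕ) : ℝ) ≤ X / 8 * X := by
    push_cast
    have := Nat.cast_div_le (α := ℝ) (m := X) (n := 8)
    push_cast at this
    exact mul_le_mul_of_nonneg_right this (Nat.cast_nonneg _)
  have h5 : (Icc 1 X ×ˢ Icc 1 X).card = X * X := by
    rw [Finset.card_product, Nat.card_Icc]
    simp
  rw [h5] at h2
  have h6 : (X : ℝ) * X ≤ (UX X).card +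
      (((Icc 1 X ×ˢ Icc 1 X).filter (fun p : ℕ × ℕ => ¬ Nat.Coprime p.1 p.2)).card +
        ((Icc 1 X ×ˢ Icc 1 X).filter (fun p : ℕ × ℕ => 8 * p.1 < X)).card) := by
    exact_mod_cast h2
  have h7 : (((Icc 1 X ×ˢ Icc 1 X).filter (fun p : ℕ × ℕ => 8 * p.1 < X)).card : ℝ) ≤
      X / 8 * X := le_trans (by exact_mod_cast h3) h4
  nlinarith

/-- The vector attached to a base point. -/
def vc (M : ℤ) (p : ℕ × ℕ) : ℤ × ℤ := ((p.1 : ℤ) + M * p.2, (p.2 : ℤ))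

lemma vc_bounds {M : ℤ} (hM : M = 2 * (|b| + |c| + 1)) {X : ℕ} {p : ℕ × ℕ} (hp : p ∈ UX X) :
    IsCoprime (vc M p).1 (vc M p).2 ∧ 0 < nrm b c (vc M p) ∧
      qn (vc M p) ≤ 4 * nrm b c (vc M p) ∧ (X : ℤ) ^ 2 ≤ 128 * nrm b c (vc M p) ∧
      nrm b c (vc M p) ≤ 2 * (1 + M) ^ 2 * (X : ℤ) ^ 2 := by
  unfold UX at hp
  rw [Finset.mem_filter, Finset.mem_product, Finset.mem_Icc, Finset.mem_Icc] at hp
  obtain ⟨⟨⟨h1, h2⟩, h3, h4⟩, h5, h6⟩ := hp
  obtain ⟨x, hx⟩ : ∃ x : ℤ, x = (p.1 : ℤ) + M * p.2 := ⟨_, rfl⟩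
  obtain ⟨y, hy⟩ : ∃ y : ℤ, y = (p.2 : ℤ) := ⟨_, rfl⟩
  obtain ⟨z, hz⟩ : ∃ z : ℤ, z = (p.1 : ℤ) := ⟨_, rfl⟩
  obtain ⟨Y, hY⟩ : ∃ Y : ℤ, Y = (X : ℤ) := ⟨_, rfl⟩
  have hz1 : 1 ≤ z := by rw [hz]; exact_mod_cast h1
  have hz2 : z ≤ Y := by rw [hz, hY]; exact_mod_cast h2
  have hz3 : Y ≤ 8 * z := by rw [hz, hY]; exact_mod_cast h6
  have hy1 : 1 ≤ y := by rw [hy]; exact_mod_cast h3
  have hy2 : y ≤ Y := by rw [hy, hY]; exact_mod_cast h4
  have hb0 := abs_nonneg b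
  have hc0 := abs_nonneg c
  have hM2 : 2 ≤ M := by rw [hM]; linarith
  have hxz : x = z + M * y := by rw [hx, hz, hy]
  have hxp : 1 ≤ x := by nlinarith
  have hMy : M * y ≤ x := by linarith
  have hyx : y ≤ x := by nlinarith
  have hvc : vc M p = (x, y) := by unfold vc; rw [hx, hy]
  rw [hvc, ← hY]
  have hcop : IsCoprime x y := by
    rw [hxz]
    have h7 : IsCoprime z y := by
      rw [hz, hy]
      exact Nat.isCoprime_iff_coprime.2 h5
    exact (IsCoprime.add_mul_right_left_iff).2 h7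
  have k1 : M * (|b| * x * y) ≤ |b| * x ^ 2 := by
    have : |b| * x * (M * y) ≤ |b| * x * x := mul_le_mul_of_nonneg_left hMy (by positivity)
    nlinarith
  have k2 : M * (|c| * y ^ 2) ≤ |c| * x ^ 2 := by
    have h8 : (M * y) * y ≤ x * x := mul_le_mul hMy hyx (by linarith) (by linarith)
    have : |c| * ((M * y) * y) ≤ |c| * (x * x) := mul_le_mul_of_nonneg_left h8 hc0
    nlinarith
  have k3 : 2 * (|b| * x * y + |c| * y ^ 2) ≤ x ^ 2 := by
    have h9 : (|b| + |c| + 1) * (2 * (|b| * x * y + |c| * y ^ 2)) ≤ (|b| + |c| + 1) * x ^ 2 := by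
      have : M * (|b| * x * y) + M * (|c| * y ^ 2) ≤ (|b| + |c|) * x ^ 2 := by linarith
      rw [hM] at this
      nlinarith [sq_nonneg x]
    exact le_of_mul_le_mul_left h9 (by linarith)
  have a1 : |b * x * y| = |b| * x * y := by
    rw [abs_mul, abs_mul, abs_of_pos (by linarith : 0 < x), abs_of_pos (by linarith : 0 < y)]
  have a2 : |c * y ^ 2| = |c| * y ^ 2 := by
    rw [abs_mul, abs_of_nonneg (sq_nonneg y)]
  have b1 := abs_le.1 (le_of_eq a1)
  have b2 := abs_le.1 (le_of_eq a2)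
  have hn : nrm b c (x, y) = x ^ 2 + b * x * y + c * y ^ 2 := rfl
  have hq : qn (x, y) = x ^ 2 + y ^ 2 := rfl
  have hyx2 : y ^ 2 ≤ x ^ 2 := pow_le_pow_left₀ (by linarith) hyx 2
  have hx2 : 1 ≤ x ^ 2 := by nlinarith
  have hxM : x ≤ (1 + M) * Y := by
    have : M * y ≤ M * Y := mul_le_mul_of_nonneg_left hy2 (by linarith)
    nlinarith
  refine ⟨hcop, ?_, ?_, ?_, ?_⟩
  · rw [hn]; nlinarith [b1.1, b2.1]
  · rw [hn, hq]; nlinarith [b1.1, b2.1]
  · rw [hn]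
    have hYx : Y ≤ 8 * x := by nlinarith
    have hY0 : 0 ≤ Y := by linarith
    have : Y ^ 2 ≤ (8 * x) ^ 2 := pow_le_pow_left₀ hY0 hYx 2
    nlinarith [b1.1, b2.1]
  · rw [hn]
    have : x ^ 2 ≤ ((1 + M) * Y) ^ 2 := pow_le_pow_left₀ (by linarith) hxM 2
    nlinarith [b1.2, b2.2]

lemma vc_inj (M : ℤ) {p q : ℕ × ℕ} (h : vc M p = vc M q) : p = q := by
  unfold vc at h
  rw [Prod.mk.injEq] at h
  obtain ⟨h1, h2⟩ := h
  rw [h2] at h1
  ext
  · have : (p.1 : ℤ) = q.1 := by linarith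
    exact_mod_cast this
  · exact_mod_cast h2

/-- The set of arguments with even sign. -/
noncomputable def Ev (P : Set ℕ) (b c : ℤ) (N : ℕ) : Finset ℕ := by
  classical
  exact (Icc 1 N).filter (fun t => 0 < fq b c t ∧ sgn P (fq b c t) = 1)

lemma mem_Ev {P : Set ℕ} {N t : ℕ} :
    t ∈ Ev P b c N ↔ (1 ≤ t ∧ t ≤ N) ∧ 0 < fq b c t ∧ sgn P (fq b c t) = 1 := by
  classical
  unfold Ev
  rw [Finset.mem_filter, Finset.mem_Icc]

lemma even_core (P : Set ℕ) (N : ℕ) (T : Finset (ℕ × ℕ))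
    (hT : ∀ p ∈ T, 1 ≤ p.1 ∧ 1 ≤ p.2 ∧ (∀ s : ℕ, p.1 ≤ s → 0 < fq b c s) ∧ p.1 + p.2 ≤ N ∧
      ∃ l : ℕ, 1 ≤ l ∧ (p.2 : ℤ) * l = fq b c p.1 ∧ p.1 + l ≤ N) :
    T.card ≤ 3 * ∑ x ∈ Ev P b c N, dv (fq b c x).natAbs := by
  classical
  choose! h1 h2 h3 h4 l hl1 hl2 hl3 using hT
  have hfd : ∀ p ∈ T, fq b c (p.1 + p.2) = p.2 * ((l p : ℤ) + 2 * p.1 + p.2 + b) := by
    intro p hp
    have := hl2 p hp
    unfold fq at this ⊢
    push_cast
    linear_combination (-1 : ℤ) * this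
  have hfl : ∀ p ∈ T, fq b c (p.1 + l p) = (l p : ℤ) * ((l p : ℤ) + 2 * p.1 + p.2 + b) := by
    intro p hp
    have := hl2 p hp
    unfold fq at this ⊢
    push_cast
    linear_combination (-1 : ℤ) * this
  have hpf1 : ∀ p ∈ T, 0 < fq b c p.1 := fun p hp => h3 p hp p.1 le_rfl
  have hpf2 : ∀ p ∈ T, 0 < fq b c (p.1 + p.2) := fun p hp => h3 p hp _ (Nat.le_add_right _ _)
  have hpf3 : ∀ p ∈ T, 0 < fq b c (p.1 + l p) := fun p hp => h3 p hp _ (Nat.le_add_right _ _)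
  have hcases : ∀ p ∈ T, p.1 ∈ Ev P b c N ∨ p.1 + p.2 ∈ Ev P b c N ∨ p.1 + l p ∈ Ev P b c N := by
    intro p hp
    rw [mem_Ev, mem_Ev, mem_Ev]
    have q1 := h1 p hp
    have q2 := h2 p hp
    have q4 := h4 p hp
    have q5 := hl1 p hp
    have q6 := hl3 p hp
    have hd0 : (p.2 : ℤ) ≠ 0 := by
      have : p.2 ≠ 0 := by omega
      exact_mod_cast this
    have hl0 : (l p : ℤ) ≠ 0 := by
      have : l p ≠ 0 := by omega
      exact_mod_cast this
    obtain ⟨S, hS⟩ : ∃ S : ℤ, S = (l p : ℤ) + 2 * p.1 + p.2 + b := ⟨_, rfl⟩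
    have e1 := hl2 p hp
    have e2 := hfd p hp
    have e3 := hfl p hp
    rw [← hS] at e2 e3
    have hS0 : S ≠ 0 := by
      intro h0
      rw [h0, mul_zero] at e2
      have := hpf2 p hp
      rw [e2] at this
      exact lt_irrefl _ this
    have s1 : sgn P (fq b c p.1) = sgn P p.2 * sgn P (l p) := by
      rw [← e1, sgn_mul P hd0 hl0]
    have s2 : sgn P (fq b c (p.1 + p.2)) = sgn P p.2 * sgn P S := by
      rw [e2, sgn_mul P hd0 hS0]
    have s3 : sgn P (fq b c (p.1 + l p)) = sgn P (l p) * sgn P S := by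
      rw [e3, sgn_mul P hl0 hS0]
    rcases sgn_eq_or P (p.2 : ℤ) with r1 | r1 <;> rcases sgn_eq_or P (l p : ℤ) with r2 | r2 <;>
      rcases sgn_eq_or P S with r3 | r3 <;> rw [r1, r2] at s1 <;> rw [r1, r3] at s2 <;>
      rw [r2, r3] at s3
    · exact Or.inl ⟨⟨q1, by omega⟩, hpf1 p hp, by rw [s1]; norm_num⟩
    · exact Or.inl ⟨⟨q1, by omega⟩, hpf1 p hp, by rw [s1]; norm_num⟩
    · exact Or.inr (Or.inl ⟨⟨by omega, q4⟩, hpf2 p hp, by rw [s2]; norm_num⟩)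
    · exact Or.inr (Or.inr ⟨⟨by omega, q6⟩, hpf3 p hp, by rw [s3]; norm_num⟩)
    · exact Or.inr (Or.inr ⟨⟨by omega, q6⟩, hpf3 p hp, by rw [s3]; norm_num⟩)
    · exact Or.inr (Or.inl ⟨⟨by omega, q4⟩, hpf2 p hp, by rw [s2]; norm_num⟩)
    · exact Or.inl ⟨⟨q1, by omega⟩, hpf1 p hp, by rw [s1]; norm_num⟩
    · exact Or.inl ⟨⟨q1, by omega⟩, hpf1 p hp, by rw [s1]; norm_num⟩
  obtain ⟨W, hW⟩ : ∃ W : Finset (Σ _ : ℕ, ℕ),
      W = (Ev P b c N).sigma (fun x => (fq b c x).natAbs.divisors) := ⟨_, rfl⟩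
  have hWc : W.card = ∑ x ∈ Ev P b c N, dv (fq b c x).natAbs := by
    rw [hW, Finset.card_sigma]
    rfl
  have hdivm : ∀ x d : ℕ, x ∈ Ev P b c N → ∀ e : ℤ, fq b c x = (d : ℤ) * e →
      (⟨x, d⟩ : Σ _ : ℕ, ℕ) ∈ W := by
    intro x d hx e he
    rw [hW, Finset.mem_sigma]
    refine ⟨hx, ?_⟩
    rw [Nat.mem_divisors]
    refine ⟨Int.natCast_dvd.1 ⟨e, he⟩, ?_⟩
    have := (mem_Ev.1 hx).2.1
    rw [Int.natAbs_ne_zero]
    exact this.ne'
  have c1 : (T.filter (fun p => p.1 ∈ Ev P b c N)).card ≤ W.card := by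
    apply Finset.card_le_card_of_injOn (fun p => (⟨p.1, p.2⟩ : Σ _ : ℕ, ℕ))
    · intro p hp
      rw [Finset.mem_coe, Finset.mem_filter] at hp
      exact hdivm _ _ hp.2 _ (hl2 p hp.1).symm
    · intro p _ q _ hpq
      simp only [Sigma.mk.injEq] at hpq
      exact Prod.ext hpq.1 (eq_of_heq hpq.2)
  have c2 : (T.filter (fun p => p.1 + p.2 ∈ Ev P b c N)).card ≤ W.card := by
    apply Finset.card_le_card_of_injOn (fun p => (⟨p.1 + p.2, p.2⟩ : Σ _ : ℕ, ℕ))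
    · intro p hp
      rw [Finset.mem_coe, Finset.mem_filter] at hp
      exact hdivm _ _ hp.2 _ (hfd p hp.1)
    · intro p _ q _ hpq
      simp only [Sigma.mk.injEq] at hpq
      have h5 := eq_of_heq hpq.2
      have h6 := hpq.1
      exact Prod.ext (by omega) h5
  have c3 : (T.filter (fun p => p.1 + l p ∈ Ev P b c N)).card ≤ W.card := by
    apply Finset.card_le_card_of_injOn (fun p => (⟨p.1 + l p, l p⟩ : Σ _ : ℕ, ℕ))
    · intro p hp
      rw [Finset.mem_coe, Finset.mem_filter] at hp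
      exact hdivm _ _ hp.2 _ (hfl p hp.1)
    · intro p hp q hq hpq
      rw [Finset.mem_coe, Finset.mem_filter] at hp hq
      simp only [Sigma.mk.injEq] at hpq
      have h5 := eq_of_heq hpq.2
      have h6 := hpq.1
      have h7 : p.1 = q.1 := by omega
      have h8 := hl2 p hp.1
      have h9 := hl2 q hq.1
      rw [← h5, ← h7] at h9
      have hl0 : (l p : ℤ) ≠ 0 := by
        have : l p ≠ 0 := by
          have := hl1 p hp.1
          omega
        exact_mod_cast this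
      have h10 : (p.2 : ℤ) = q.2 := mul_right_cancel₀ hl0 (h8.trans h9.symm)
      exact Prod.ext h7 (by exact_mod_cast h10)
  have hsub : T ⊆ (T.filter (fun p => p.1 ∈ Ev P b c N)) ∪
      ((T.filter (fun p => p.1 + p.2 ∈ Ev P b c N)) ∪
        (T.filter (fun p => p.1 + l p ∈ Ev P b c N))) := by
    intro p hp
    rw [Finset.mem_union, Finset.mem_union, Finset.mem_filter, Finset.mem_filter,
      Finset.mem_filter]
    rcases hcases p hp with h | h | h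
    · exact Or.inl ⟨hp, h⟩
    · exact Or.inr (Or.inl ⟨hp, h⟩)
    · exact Or.inr (Or.inr ⟨hp, h⟩)
  rw [← hWc]
  have h5 := (Finset.card_le_card hsub).trans (Finset.card_union_le _ _)
  have h6 := h5.trans (Nat.add_le_add_left (Finset.card_union_le _ _) _)
  omega

lemma fq_pos_of_ge {s : ℕ} (hs : 1 + |b| + |c| ≤ (s : ℤ)) : 0 < fq b c s := by
  unfold fq
  have hb0 := abs_nonneg b
  have hc0 := abs_nonneg c
  have h1 : -|b| ≤ b := neg_abs_le b
  have h2 : -|c| ≤ c := neg_abs_le c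
  have h3 : (1 + |b| + |c|) * (1 + |c|) ≤ (s : ℤ) * ((s : ℤ) - |b|) :=
    mul_le_mul hs (by linarith) (by linarith) (by linarith)
  have h4 : -|b| * s ≤ b * s := mul_le_mul_of_nonneg_right h1 (by linarith)
  nlinarith [mul_nonneg hb0 hc0, mul_nonneg hc0 hc0]

lemma fq_le_sq {t : ℕ} (ht : 1 ≤ t) : fq b c t ≤ (1 + |b| + |c|) * (t : ℤ) ^ 2 :=
  le_trans (le_abs_self _) (abs_fq_le ht le_rfl)

/-- Many pairs `(t, d)` with `d ∣ f(t)` and both `d` and `f(t) / d` of the size of `t`. -/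
lemma many_pairs (b c : ℤ) : ∃ K B : ℕ, 0 < K ∧ 0 < B ∧ ∀ X N : ℕ, K ≤ X ^ 2 → K * X ^ 2 ≤ N →
    ∃ T : Finset (ℕ × ℕ), (X : ℝ) ^ 2 ≤ B * T.card ∧
    ∀ p ∈ T, 1 ≤ p.1 ∧ 1 ≤ p.2 ∧ (∀ s : ℕ, p.1 ≤ s → 0 < fq b c s) ∧ p.1 + p.2 ≤ N ∧
      ∃ l : ℕ, 1 ≤ l ∧ (p.2 : ℤ) * l = fq b c p.1 ∧ p.1 + l ≤ N := by
  classical
  have hb0 := abs_nonneg b
  have hc0 := abs_nonneg c
  obtain ⟨F, hF⟩ : ∃ F : ℤ, F = 1 + |b| + |c| := ⟨_, rfl⟩
  obtain ⟨M, hM⟩ : ∃ M : ℤ, M = 2 * (|b| + |c| + 1) := ⟨_, rfl⟩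
  have hF1 : 1 ≤ F := by rw [hF]; linarith
  have hM1 : 2 ≤ M := by rw [hM]; linarith
  obtain ⟨K1, hK1⟩ : ∃ K1 : ℤ, K1 = (4 * F + 2) * (2 * (1 + M) ^ 2) + 128 * F := ⟨_, rfl⟩
  have hK1p : 0 < K1 := by rw [hK1]; positivity
  obtain ⟨K, hK⟩ : ∃ K : ℕ, (K : ℤ) = K1 := ⟨K1.toNat, Int.toNat_of_nonneg hK1p.le⟩
  have hbx : 0 < (bx b c 4).card := by
    rw [Finset.card_pos]
    refine ⟨(0, 0), ?_⟩
    unfold bx
    have := Am_pos b c
    rw [Finset.mem_product, Finset.mem_Icc]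
    simp only
    constructor <;> constructor <;> push_cast <;> linarith
  refine ⟨K, 8 * (bx b c 4).card, by omega, by omega, ?_⟩
  intro X N hX hN
  have hXz : K1 ≤ (X : ℤ) ^ 2 := by rw [← hK]; exact_mod_cast hX
  have hNz : K1 * (X : ℤ) ^ 2 ≤ N := by rw [← hK]; exact_mod_cast hN
  have hvc := fun p (hp : p ∈ UX X) => vc_bounds (b := b) (c := c) hM hp
  have hex : ∀ p ∈ UX X, ∃ v : ℤ × ℤ, det (vc M p) v = 1 ∧ 0 ≤ lab b c (vc M p) v ∧
      lab b c (vc M p) v < nrm b c (vc M p) := fun p hp => prim_root (hvc p hp).1 (hvc p hp).2.1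
  choose! v hv1 hv2 hv3 using hex
  obtain ⟨G, hG⟩ : ∃ G : ℕ × ℕ → ℕ × ℕ, G = fun p =>
      ((lab b c (vc M p) (v p) + nrm b c (vc M p)).toNat, (nrm b c (vc M p)).toNat) := ⟨_, rfl⟩
  have hG1 : ∀ p ∈ UX X, ((G p).1 : ℤ) = lab b c (vc M p) (v p) + nrm b c (vc M p) := by
    intro p hp
    rw [hG]
    exact Int.toNat_of_nonneg (by have := hv2 p hp; have := (hvc p hp).2.1; linarith)
  have hG2 : ∀ p ∈ UX X, ((G p).2 : ℤ) = nrm b c (vc M p) := by
    intro p hp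
    rw [hG]
    exact Int.toNat_of_nonneg (hvc p hp).2.1.le
  refine ⟨(UX X).image G, ?_, ?_⟩
  · have hcard : (UX X).card ≤ (bx b c 4).card * ((UX X).image G).card := by
      apply Finset.card_le_mul_card_image
      intro a ha
      rw [Finset.mem_image] at ha
      obtain ⟨p0, hp0, rfl⟩ := ha
      have hfe : ∀ p ∈ (UX X).filter (fun x => G x = G p0), ∃ e : ℤ × ℤ, e ∈ bx b c 4 ∧
          mulp b c e (vc M p0) = vc M p := by
        intro p hp
        rw [Finset.mem_filter] at hp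
        have e1 := hG1 p hp.1
        have e2 := hG2 p hp.1
        rw [hp.2] at e1 e2
        have e3 := hG1 p0 hp0
        have e4 := hG2 p0 hp0
        have hn : nrm b c (vc M p0) = nrm b c (vc M p) := by rw [← e4, e2]
        have hl : lab b c (vc M p0) (v p0) = lab b c (vc M p) (v p) := by
          rw [e3] at e1
          linarith
        obtain ⟨e, he1, he2, he3⟩ := fiber1 (hvc p0 hp0).2.1 (hv1 p0 hp0) (hv1 p hp.1) hl hn
        have hb := fiber_box (K := 4) (by norm_num) (hvc p0 hp0).2.1 hn (hvc p0 hp0).2.2.1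
          (hvc p hp.1).2.2.1 he2 he3
        refine ⟨e, ?_, he1⟩
        unfold bx
        rw [Finset.mem_product, Finset.mem_Icc, Finset.mem_Icc]
        push_cast
        exact ⟨abs_le.1 hb.1, abs_le.1 hb.2⟩
      choose! e he1 he2 using hfe
      apply Finset.card_le_card_of_injOn e
      · intro p hp
        exact he1 p hp
      · intro p hp q hq hpq
        have h1 := he2 p hp
        have h2 := he2 q hq
        rw [hpq, h2] at h1
        exact (vc_inj M h1).symm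
    have h1 := card_UX X
    have h2 : ((UX X).card : ℝ) ≤ (bx b c 4).card * ((UX X).image G).card := by
      exact_mod_cast hcard
    push_cast
    linarith
  · intro q hq
    rw [Finset.mem_image] at hq
    obtain ⟨p, hp, rfl⟩ := hq
    obtain ⟨-, hn0, -, hn1, hn2⟩ := hvc p hp
    have e1 := hG1 p hp
    have e2 := hG2 p hp
    have hl0 := hv2 p hp
    have hl1 := hv3 p hp
    obtain ⟨d, hd⟩ : ∃ d : ℤ, d = nrm b c (vc M p) := ⟨_, rfl⟩
    obtain ⟨t, ht⟩ : ∃ t : ℤ, t = lab b c (vc M p) (v p) + nrm b c (vc M p) := ⟨_, rfl⟩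
    rw [← ht] at e1
    rw [← hd] at hn0 hn1 hn2 hl1 ht e2
    have hXX : K1 * (X : ℤ) ^ 2 ≤ N := hNz
    have hdF : F ≤ d := by
      have h128 : 128 * F ≤ (X : ℤ) ^ 2 := by
        have : 0 ≤ (4 * F + 2) * (2 * (1 + M) ^ 2) := by positivity
        linarith
      linarith
    have htd : d ≤ t := by linarith
    have ht2 : t ≤ 2 * d := by linarith
    have hG1pos : 1 ≤ (G p).1 := by
      have : (1 : ℤ) ≤ (G p).1 := by rw [e1]; linarith
      exact_mod_cast this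
    have hG2pos : 1 ≤ (G p).2 := by
      have : (1 : ℤ) ≤ (G p).2 := by rw [e2]; linarith
      exact_mod_cast this
    have hposs : ∀ s : ℕ, (G p).1 ≤ s → 0 < fq b c s := by
      intro s hs
      apply fq_pos_of_ge
      rw [← hF]
      have : ((G p).1 : ℤ) ≤ s := by exact_mod_cast hs
      rw [e1] at this
      linarith
    obtain ⟨w, hw⟩ : ∃ w : ℤ × ℤ, w = ((vc M p).1 + (v p).1, (vc M p).2 + (v p).2) := ⟨_, rfl⟩
    have hdet : det (vc M p) w = 1 := by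
      rw [hw]
      have := hv1 p hp
      unfold det at this ⊢
      simp only
      linarith
    have hlab : lab b c (vc M p) w = t := by
      rw [hw, ht, hd]
      unfold lab nrm
      simp only
      ring
    have hprod : d * nrm b c w = fq b c (G p).1 := by
      have := nrm_mul_nrm b c (vc M p) w
      rw [hdet, hlab, ← hd] at this
      rw [this]
      unfold fq
      rw [e1]
      ring
    have hfpos := hposs (G p).1 le_rfl
    have hwpos : 0 < nrm b c w := by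
      rw [← hprod] at hfpos
      exact (mul_pos_iff_of_pos_left hn0).1 hfpos
    have hwle : nrm b c w ≤ 4 * F * d := by
      have h1 : fq b c (G p).1 ≤ F * ((G p).1 : ℤ) ^ 2 := by rw [hF]; exact fq_le_sq hG1pos
      rw [e1, ← hprod] at h1
      have h2 : t ^ 2 ≤ (2 * d) ^ 2 := pow_le_pow_left₀ (by linarith) ht2 2
      have h3 : F * t ^ 2 ≤ F * (2 * d) ^ 2 := mul_le_mul_of_nonneg_left h2 (by linarith)
      have h4 : d * nrm b c w ≤ d * (4 * F * d) := by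
        calc d * nrm b c w ≤ F * (2 * d) ^ 2 := h1.trans h3
          _ = d * (4 * F * d) := by ring
      exact le_of_mul_le_mul_left h4 hn0
    have hNd : (4 * F + 2) * d ≤ N := by
      have h5 : (4 * F + 2) * d ≤ (4 * F + 2) * (2 * (1 + M) ^ 2 * (X : ℤ) ^ 2) :=
        mul_le_mul_of_nonneg_left hn2 (by linarith)
      have h6 : (4 * F + 2) * (2 * (1 + M) ^ 2 * (X : ℤ) ^ 2) ≤ K1 * (X : ℤ) ^ 2 := by
        rw [hK1]
        have : 0 ≤ 128 * F * (X : ℤ) ^ 2 := by positivity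
        nlinarith
      linarith
    refine ⟨hG1pos, hG2pos, hposs, ?_, (nrm b c w).toNat, ?_, ?_, ?_⟩
    · have : ((G p).1 : ℤ) + (G p).2 ≤ N := by
        rw [e1, e2]
        nlinarith
      exact_mod_cast this
    · omega
    · rw [Int.toNat_of_nonneg hwpos.le, e2]
      exact hprod
    · have : ((G p).1 : ℤ) + ((nrm b c w).toNat : ℤ) ≤ N := by
        rw [e1, Int.toNat_of_nonneg hwpos.le]
        nlinarith
      exact_mod_cast this

/-- For every set `P` the number of prime factors in `P` of `t² + b t + c` is even for at least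
`N / (log N)^C` of the `t ≤ N`. -/
theorem even_G (hD : ¬ IsSquare (b ^ 2 - 4 * c)) : ∃ C N0 : ℕ, ∀ N : ℕ, N0 ≤ N → ∀ P : Set ℕ,
    (N : ℝ) / Real.log N ^ C ≤ ((Ev P b c N).card : ℝ) := by
  obtain ⟨K, B, hK, hB, hpairs⟩ := many_pairs b c
  obtain ⟨C2, hC2⟩ := second_momentG hD
  have hKr : (1 : ℝ) ≤ K := by exact_mod_cast hK
  have hBr : (1 : ℝ) ≤ B := by exact_mod_cast hB
  have hC2r : (0 : ℝ) ≤ C2 := Nat.cast_nonneg _
  obtain ⟨K2, hK2⟩ : ∃ K2 : ℝ, K2 = 144 * C2 * (K : ℝ) ^ 2 * (B : ℝ) ^ 2 := ⟨_, rfl⟩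
  have hK20 : 0 ≤ K2 := by rw [hK2]; positivity
  refine ⟨33, ⌈Real.exp (2 ^ 32 * K2 + 1)⌉₊ + 4 * K * K + 1, ?_⟩
  intro N hN P
  have hNe : Real.exp (2 ^ 32 * K2 + 1) ≤ N := by
    have h1 : (⌈Real.exp (2 ^ 32 * K2 + 1)⌉₊ : ℝ) ≤ N := by
      have : ⌈Real.exp (2 ^ 32 * K2 + 1)⌉₊ ≤ N := by omega
      exact_mod_cast this
    exact (Nat.le_ceil _).trans h1
  have hN4 : 4 * K * K + 1 ≤ N := by omega
  have hNn : 1 ≤ N := by omega
  have hN0 : (0 : ℝ) < N := by exact_mod_cast hNn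
  have hlog : 2 ^ 32 * K2 + 1 ≤ Real.log N := by
    rw [Real.le_log_iff_exp_le hN0]
    exact hNe
  obtain ⟨X, hX⟩ : ∃ X : ℕ, X = Nat.sqrt (N / K) := ⟨_, rfl⟩
  have hX1 : X ^ 2 ≤ N / K := by
    rw [hX, sq]
    exact Nat.sqrt_le _
  have hX2 : N / K < (X + 1) ^ 2 := by
    rw [hX, sq]
    exact Nat.lt_succ_sqrt _
  have hdiv : 4 * K ≤ N / K := by
    rw [Nat.le_div_iff_mul_le hK]
    omega
  have hXpos : 1 ≤ X := by
    by_contra hcon
    have : X = 0 := by omega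
    have h0 : N / K < 1 := by
      rw [this] at hX2
      exact hX2
    omega
  have h4X : (X + 1) ^ 2 ≤ 4 * X ^ 2 := by nlinarith
  have hlt : N / K < 4 * X ^ 2 := lt_of_lt_of_le hX2 h4X
  have hKX : K ≤ X ^ 2 := by
    have : 4 * K < 4 * X ^ 2 := lt_of_le_of_lt hdiv hlt
    omega
  have hKXN : K * X ^ 2 ≤ N := by
    calc K * X ^ 2 ≤ K * (N / K) := Nat.mul_le_mul_left _ hX1
      _ ≤ N := Nat.mul_div_le N K
  have hNX : (N : ℝ) ≤ 4 * K * (X : ℝ) ^ 2 := by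
    have h1 : N < K * (N / K + 1) := by
      have := Nat.lt_mul_div_succ N hK
      exact this
    have h2 : N / K + 1 ≤ 4 * X ^ 2 := hlt
    have h3 : K * (N / K + 1) ≤ K * (4 * X ^ 2) := Nat.mul_le_mul_left _ h2
    have h4 : N ≤ K * (4 * X ^ 2) := by omega
    have h5 : (N : ℝ) ≤ K * (4 * (X : ℝ) ^ 2) := by exact_mod_cast h4
    linarith
  obtain ⟨T, hT1, hT2⟩ := hpairs X N hKX hKXN
  have hcore := even_core P N T hT2
  have hcore' : (T.card : ℝ) ≤ 3 * ∑ x ∈ Ev P b c N, (dv (fq b c x).natAbs : ℝ) := by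
    exact_mod_cast hcore
  obtain ⟨E, hE⟩ : ∃ E : ℝ, E = ((Ev P b c N).card : ℝ) := ⟨_, rfl⟩
  obtain ⟨Sm, hSm⟩ : ∃ Sm : ℝ, Sm = ∑ x ∈ Ev P b c N, (dv (fq b c x).natAbs : ℝ) := ⟨_, rfl⟩
  obtain ⟨Q, hQ⟩ : ∃ Q : ℝ, Q = (1 + Real.log N) ^ 32 := ⟨_, rfl⟩
  have hlog0 : 1 ≤ Real.log N := by nlinarith
  have hQ0 : 0 ≤ Q := by rw [hQ]; positivity
  have hCS : Sm ^ 2 ≤ E * (C2 * N * Q) := by
    rw [hSm, hE, hQ]
    refine (sq_sum_le_card_mul_sum_sq).trans ?_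
    apply mul_le_mul_of_nonneg_left _ (Nat.cast_nonneg _)
    refine le_trans ?_ (hC2 N hNn)
    apply Finset.sum_le_sum_of_subset_of_nonneg
    · intro x hx
      rw [Finset.mem_Icc]
      exact (mem_Ev.1 hx).1
    · intro _ _ _
      positivity
  rw [← hSm] at hcore'
  rw [← hE]
  have hE0 : 0 ≤ E := by rw [hE]; positivity
  have hSm0 : 0 ≤ Sm := by rw [hSm]; positivity
  have h1 : (N : ℝ) ≤ 4 * K * B * (3 * Sm) := by
    calc (N : ℝ) ≤ 4 * K * (X : ℝ) ^ 2 := hNX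
      _ ≤ 4 * K * (B * T.card) := mul_le_mul_of_nonneg_left hT1 (by positivity)
      _ ≤ 4 * K * (B * (3 * Sm)) := by gcongr
      _ = 4 * K * B * (3 * Sm) := by ring
  have h2 : (N : ℝ) ^ 2 ≤ N * (E * K2 * Q) := by
    calc (N : ℝ) ^ 2 ≤ (4 * K * B * (3 * Sm)) ^ 2 := pow_le_pow_left₀ hN0.le h1 2
      _ = 144 * (K : ℝ) ^ 2 * (B : ℝ) ^ 2 * Sm ^ 2 := by ring
      _ ≤ 144 * (K : ℝ) ^ 2 * (B : ℝ) ^ 2 * (E * (C2 * N * Q)) :=
          mul_le_mul_of_nonneg_left hCS (by positivity)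
      _ = N * (E * K2 * Q) := by rw [hK2]; ring
  have h3 : (N : ℝ) ≤ E * K2 * Q := by
    rw [sq] at h2
    exact le_of_mul_le_mul_left h2 hN0
  have h4 : K2 * Q ≤ Real.log N ^ 33 := by
    have h5 : Q ≤ (2 * Real.log N) ^ 32 := by
      rw [hQ]
      exact pow_le_pow_left₀ (by linarith) (by linarith) 32
    calc K2 * Q ≤ K2 * (2 * Real.log N) ^ 32 := mul_le_mul_of_nonneg_left h5 hK20
      _ = (2 ^ 32 * K2) * Real.log N ^ 32 := by ring
      _ ≤ Real.log N * Real.log N ^ 32 := by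
          apply mul_le_mul_of_nonneg_right (by linarith) (by positivity)
      _ = Real.log N ^ 33 := by ring
  rw [div_le_iff₀ (by positivity)]
  calc (N : ℝ) ≤ E * K2 * Q := h3
    _ = E * (K2 * Q) := by ring
    _ ≤ E * Real.log N ^ 33 := mul_le_mul_of_nonneg_left h4 hE0

end Pool.Agent.Lib.MP_a17b09_nt.LG
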