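import Pool.Agent.Lib.MP_a17b09_nt.LG.TestsG
import Pool.Agent.Lib.MP_a17b09_nt.LG.Aux0

set_option autoImplicit false

open Finset

namespace Pool.Agent.Lib.MP_a17b09_nt.LG

open Pool.Agent.Lib.MP_a17b09_nt Pool.Agent.Lib.MP_a17b09_nt.LP

section

variable {P : Set ℕ} {b c : ℤ} {V : ℤ × ℤ → Prop} {th : ℤ × ℤ → ℝ} {et : ℤ → ℤ × ℤ} {K : ℝ}

/-- product of a list of vectors -/
def lprod (b c : ℤ) (l : List (ℤ × ℤ)) : ℤ × ℤ := l.foldr (mulp b c) (1, 0)

lemma lprod_cons (b c : ℤ) (u : ℤ × ℤ) (l : List (ℤ × ℤ)) :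
    lprod b c (u :: l) = mulp b c u (lprod b c l) := rfl

lemma lprod_V (S : Sys b c V th et K) (l : List (ℤ × ℤ)) (hl : ∀ u ∈ l, V u) :
    V (lprod b c l) := by
  induction l with
  | nil => exact S.one
  | cons u l ih =>
    rw [lprod_cons]
    exact S.mul _ _ (hl u (List.mem_cons_self)) (ih (fun v hv => hl v (List.mem_cons_of_mem _ hv)))

lemma nrm_lprod (b c : ℤ) (l : List (ℤ × ℤ)) :
    nrm b c (lprod b c l) = (l.map (nrm b c)).prod := by
  induction l with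
  | nil => simp [lprod, nrm]
  | cons u l ih => rw [lprod_cons, nrm_mulp, ih, List.map_cons, List.prod_cons]

lemma norm_colG (P : Set ℕ) (b c : ℤ) (u : ℤ × ℤ) : ‖((col P b c u : ℝ) : ℂ)‖ = 1 := by
  rcases col_eq_or P b c u with h | h <;> rw [h] <;> simp

lemma ch_lprod (S : Sys b c V th et K) {Q : ℕ} [NeZero Q] (k : ZMod Q) (δ : ℝ) (hδ : 0 ≤ δ)
    (h1 : ‖ch k - 1‖ ≤ δ) (l : List (ℤ × ℤ)) (hl : ∀ u ∈ l, V u ∧
      ‖ch (k * ((ps th Q u : ℤ) : ZMod Q)) - ((col P b c u : ℝ) : ℂ)‖ ≤ δ) :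
    ‖ch (k * ((ps th Q (lprod b c l) : ℤ) : ZMod Q)) - ((col P b c (lprod b c l) : ℝ) : ℂ)‖ ≤
      2 * l.length * δ := by
  induction l with
  | nil =>
    have e1 : ps th Q (lprod b c []) = 0 := by
      show ps th Q (1, 0) = 0
      unfold ps
      rw [S.th_one]; simp
    have e2 : col P b c (lprod b c []) = 1 := by
      show col P b c (1, 0) = 1
      unfold col sgn cnt nrm
      simp
    rw [e1, e2]
    simp [ch_zero]
  | cons u l ih =>
    have hu := hl u List.mem_cons_self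
    have ih' := ih (fun v hv => hl v (List.mem_cons_of_mem _ hv))
    have hV := lprod_V S l (fun v hv => (hl v (List.mem_cons_of_mem _ hv)).1)
    rw [lprod_cons]
    obtain ⟨e, n, he, hpos⟩ := ps_mulp S Q hu.1 hV
    have e1 : ((ps th Q (mulp b c u (lprod b c l)) : ℤ) : ZMod Q) =
        ((ps th Q u : ℤ) : ZMod Q) + ((ps th Q (lprod b c l) : ℤ) : ZMod Q) +
          ((e : ℤ) : ZMod Q) := by
      rw [hpos]; push_cast; simp
    have e2 : ch (k * ((ps th Q (mulp b c u (lprod b c l)) : ℤ) : ZMod Q)) =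
        ch (k * ((ps th Q u : ℤ) : ZMod Q)) * ch (k * ((ps th Q (lprod b c l) : ℤ) : ZMod Q)) *
          ch (k * ((e : ℤ) : ZMod Q)) := by
      rw [e1, mul_add, mul_add, ch_add, ch_add]
    have e3 : ((col P b c (mulp b c u (lprod b c l)) : ℝ) : ℂ) =
        ((col P b c u : ℝ) : ℂ) * ((col P b c (lprod b c l) : ℝ) : ℂ) := by
      rw [col_mulpS S P hu.1 hV]; push_cast; rfl
    have h3 : ‖ch (k * ((e : ℤ) : ZMod Q)) - 1‖ ≤ δ := by
      rcases he with he | he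
      · rw [he]; simpa [ch_zero] using hδ
      · rw [he]; simpa using h1
    rw [e2, e3]
    refine (norm_mul3_sub_le (norm_ch _) (norm_ch _) (norm_colG _ _ _ _)).trans ?_
    rw [List.length_cons]
    have hc : ((l.length + 1 : ℕ) : ℝ) = (l.length : ℝ) + 1 := by push_cast; ring
    rw [hc]
    have h5 : 2 * ((l.length : ℝ) + 1) * δ = δ + 2 * (l.length : ℝ) * δ + δ := by ring
    rw [h5]
    exact add_le_add (add_le_add hu.2 ih') h3

/-- product over a finite set -/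
noncomputable def aT (b c : ℤ) (β : ℕ → ℤ × ℤ) (T : Finset ℕ) : ℤ × ℤ :=
  lprod b c (T.toList.map β)

lemma nrm_aT (b c : ℤ) (β : ℕ → ℤ × ℤ) (T : Finset ℕ) :
    nrm b c (aT b c β T) = ∏ p ∈ T, nrm b c (β p) := by
  unfold aT
  rw [nrm_lprod, List.map_map, Finset.prod_map_toList]
  rfl

lemma V_aT (S : Sys b c V th et K) {β : ℕ → ℤ × ℤ} {T : Finset ℕ} (hT : ∀ p ∈ T, V (β p)) :
    V (aT b c β T) := by
  apply lprod_V S
  intro u hu
  rw [List.mem_map] at hu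
  obtain ⟨p, hp, rfl⟩ := hu
  exact hT p (Finset.mem_toList.1 hp)

lemma ch_aT (S : Sys b c V th et K) {Q : ℕ} [NeZero Q] {β : ℕ → ℤ × ℤ} (k : ZMod Q) (δ : ℝ)
    (hδ : 0 ≤ δ) (h1 : ‖ch k - 1‖ ≤ δ) (T : Finset ℕ) (hb : ∀ p ∈ T, V (β p) ∧
      ‖ch (k * ((ps th Q (β p) : ℤ) : ZMod Q)) - ((col P b c (β p) : ℝ) : ℂ)‖ ≤ δ) :
    ‖ch (k * ((ps th Q (aT b c β T) : ℤ) : ZMod Q)) - ((col P b c (aT b c β T) : ℝ) : ℂ)‖ ≤
      2 * T.card * δ := by
  have h := ch_lprod (P := P) S k δ hδ h1 (T.toList.map β) (by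
    intro u hu
    rw [List.mem_map] at hu
    obtain ⟨p, hp, rfl⟩ := hu
    exact hb p (Finset.mem_toList.1 hp))
  rw [List.length_map, Finset.length_toList] at h
  exact h

/-- vectors whose norms are products over different sets of primes are not parallel -/
lemma det_ne_zero_of_prod {Pr T T' : Finset ℕ} (hPr : ∀ p ∈ Pr, p.Prime) (mm : ℕ → ℕ)
    (hmm : ∀ p ∈ Pr, ∀ q ∈ Pr, ¬ p ∣ mm q) (hT : T ⊆ Pr)
    (hT' : T' ⊆ Pr) (hcard : T.card = T'.card) (hne : T ≠ T') {u v : ℤ × ℤ}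
    (hu : nrm b c u = ∏ p ∈ T, ((mm p : ℤ) * p)) (hv : nrm b c v = ∏ p ∈ T', ((mm p : ℤ) * p)) :
    det u v ≠ 0 := by
  classical
  intro h0
  have h1 := nrm_mul_nrm b c u v
  rw [h0, hu, hv] at h1
  have h2 : (∏ p ∈ T, ((mm p : ℤ) * p)) * ∏ p ∈ T', ((mm p : ℤ) * p) = (lab b c u v) ^ 2 := by
    rw [h1]; ring
  obtain ⟨p, hpT, hpT'⟩ : ∃ p ∈ T, p ∉ T' := by
    by_contra hcon
    push Not at hcon
    exact hne (Finset.eq_of_subset_of_card_le hcon hcard.ge)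
  have hpp := hPr p (hT hpT)
  have hpi : Prime (p : ℤ) := Nat.prime_iff_prime_int.1 hpp
  have hgen : ∀ U : Finset ℕ, U ⊆ Pr → p ∉ U → ¬ (p : ℤ) ∣ ∏ x ∈ U, ((mm x : ℤ) * x) := by
    intro U hU hpU hdvd
    obtain ⟨x, hx, hpx⟩ := (Prime.dvd_finsetProd_iff hpi _).1 hdvd
    rcases hpi.dvd_or_dvd hpx with h | h
    · exact hmm p (hT hpT) x (hU hx) (by exact_mod_cast h)
    · have : p = x := (Nat.prime_dvd_prime_iff_eq hpp (hPr x (hU hx))).1 (by exact_mod_cast h)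
      exact hpU (this ▸ hx)
  rw [← Finset.mul_prod_erase T _ hpT] at h2
  have h3 : (p : ℤ) ∣ (lab b c u v) ^ 2 := by
    rw [← h2]
    refine Dvd.dvd.mul_right ?_ _
    refine Dvd.dvd.mul_right ?_ _
    exact dvd_mul_left _ _
  have h4 : (p : ℤ) ∣ lab b c u v := hpi.dvd_of_dvd_pow h3
  obtain ⟨s, hs⟩ := h4
  rw [hs] at h2
  have h5 : (mm p : ℤ) * (∏ x ∈ T.erase p, ((mm x : ℤ) * x)) * ∏ x ∈ T', ((mm x : ℤ) * x) =
      p * s ^ 2 := by
    have : (p : ℤ) * ((mm p : ℤ) * (∏ x ∈ T.erase p, ((mm x : ℤ) * x)) *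
        ∏ x ∈ T', ((mm x : ℤ) * x)) = p * (p * s ^ 2) := by
      linear_combination h2
    exact mul_left_cancel₀ hpi.ne_zero this
  have h6 : (p : ℤ) ∣ (mm p : ℤ) * (∏ x ∈ T.erase p, ((mm x : ℤ) * x)) *
      ∏ x ∈ T', ((mm x : ℤ) * x) := by
    rw [h5]; exact dvd_mul_right _ _
  rcases hpi.dvd_or_dvd h6 with h7 | h7
  · rcases hpi.dvd_or_dvd h7 with h8 | h8
    · exact hmm p (hT hpT) p (hT hpT) (by exact_mod_cast h8)
    · exact hgen _ ((Finset.erase_subset _ _).trans hT) (Finset.notMem_erase _ _) h8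
  · exact hgen _ hT' hpT' h7

section Count

variable {Q Y L : ℕ} [NeZero Q]

omit [NeZero Q] in
/-- closeness on the grid in terms of angles -/
lemma th_close_of_ps (hQ : Q = L * Y) (hY : 0 < Y) (hL : 0 < L) {u v : ℤ × ℤ} {d : ℤ}
    (hd : |d| < Y) (h : ((ps th Q u : ℤ) : ZMod Q) - ((ps th Q v : ℤ) : ZMod Q) = (d : ZMod Q)) :
    ∃ n : ℤ, |th v + n - th u| ≤ 1 / L := by
  have hYr : (0 : ℝ) < Y := by exact_mod_cast hY
  have hLr : (0 : ℝ) < L := by exact_mod_cast hL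
  have hQr : (Q : ℝ) = L * Y := by exact_mod_cast hQ
  have hQ0 : (0 : ℝ) < Q := by rw [hQr]; positivity
  have h1 : ((ps th Q u - ps th Q v - d : ℤ) : ZMod Q) = 0 := by
    push_cast; rw [h]; ring
  rw [ZMod.intCast_zmod_eq_zero_iff_dvd] at h1
  obtain ⟨n, hn⟩ := h1
  refine ⟨n, ?_⟩
  have a1 := Int.floor_le ((Q : ℝ) * th u)
  have a2 := Int.lt_floor_add_one ((Q : ℝ) * th u)
  have b1 := Int.floor_le ((Q : ℝ) * th v)
  have b2 := Int.lt_floor_add_one ((Q : ℝ) * th v)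
  have e1 : ((ps th Q u : ℤ) : ℝ) = (⌊(Q : ℝ) * th u⌋ : ℝ) := rfl
  have e2 : ((ps th Q v : ℤ) : ℝ) = (⌊(Q : ℝ) * th v⌋ : ℝ) := rfl
  have h2 : ((ps th Q u : ℤ) : ℝ) - ps th Q v - d = Q * n := by exact_mod_cast hn
  rw [e1, e2] at h2
  have hdr : |(d : ℝ)| ≤ Y - 1 := by
    have : |d| ≤ (Y : ℤ) - 1 := by omega
    exact_mod_cast this
  rw [abs_le] at hdr
  have e3 : (1 : ℝ) / L = Y / Q := by rw [hQr]; field_simp
  have key : |(th v + n - th u) * Q| ≤ Y := by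
    rw [abs_le]
    constructor <;> nlinarith
  rw [abs_mul, abs_of_pos hQ0] at key
  rw [e3, le_div_iff₀ hQ0]
  exact key

/-- few members of the family are close to a given one -/
lemma family_close (S : Sys b c V th et K) {Pr : Finset ℕ} {β : ℕ → ℤ × ℤ} {mm : ℕ → ℕ}
    (hPr : ∀ p ∈ Pr, p.Prime) (hmm : ∀ p ∈ Pr, ∀ q ∈ Pr, ¬ p ∣ mm q)
    (hV : ∀ p ∈ Pr, V (β p)) (hb : ∀ p ∈ Pr, nrm b c (β p) = (mm p : ℤ) * p) {r : ℕ} {M' : ℝ}
    (hM0 : 1 ≤ M') (hM' : ∀ T ∈ Pr.powersetCard r, (nrm b c (aT b c β T) : ℝ) ≤ M')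
    (hQ : Q = L * Y) (hY : 0 < Y) (hL : 20 ≤ L) {T0 : Finset ℕ}
    (A : Finset (Finset ℕ)) (hA : A ⊆ Pr.powersetCard r)
    (hclose : ∀ T ∈ A, ∃ d : ℤ, |d| < Y ∧
      ((ps th Q (aT b c β T0) : ℤ) : ZMod Q) - ((ps th Q (aT b c β T) : ℤ) : ZMod Q) =
        (d : ZMod Q)) :
    (A.card : ℝ) ≤ 2 * K * M' / L + 2 := by
  classical
  have hLr : (20 : ℝ) ≤ L := by exact_mod_cast hL
  have hLpos : (0 : ℝ) < L := by linarith
  have hinv : (1 : ℝ) / L ≤ 1 / 20 := one_div_le_one_div_of_le (by norm_num) hLr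
  have hnr : ∀ T ∈ Pr.powersetCard r, nrm b c (aT b c β T) = ∏ p ∈ T, ((mm p : ℤ) * p) := by
    intro T hT
    rw [nrm_aT]
    apply Finset.prod_congr rfl
    intro p hp
    exact hb p ((Finset.mem_powersetCard.1 hT).1 hp)
  have hVT : ∀ T ∈ Pr.powersetCard r, V (aT b c β T) := by
    intro T hT
    apply V_aT S
    intro p hp
    exact hV p ((Finset.mem_powersetCard.1 hT).1 hp)
  have key : ∀ T ∈ A, ∃ n : ℤ, |th (aT b c β T) + n - th (aT b c β T0)| ≤ 1 / L := by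
    intro T hT
    obtain ⟨d, hd, hdd⟩ := hclose T hT
    exact th_close_of_ps hQ hY (by omega) hd hdd
  choose! n hn using key
  have hp := packing A (fun T => th (aT b c β T) + n T) (K * M') (th (aT b c β T0) - 1 / L) (2 / L)
    (by have := S.hK; positivity) (by positivity) (by
      intro T hT T' hT' hTT
      have hc := Finset.mem_powersetCard.1 (hA hT)
      have hc' := Finset.mem_powersetCard.1 (hA hT')
      have hdet := det_ne_zero_of_prod (b := b) (c := c) hPr mm hmm hc'.1 hc.1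
        (hc'.2.trans hc.2.symm) (Ne.symm hTT)
        (hnr T' (hA hT')) (v := mulp b c (et (n T - n T')) (aT b c β T)) (by
          rw [nrm_mulp, S.nrm_et, one_mul]; exact hnr T (hA hT))
      have h1 := hn T hT
      have h2 := hn T' hT'
      rw [abs_le] at h1 h2
      have e : th (aT b c β T) + n T - (th (aT b c β T') + n T') =
          th (aT b c β T) + ((n T - n T' : ℤ) : ℝ) - th (aT b c β T') := by push_cast; ring
      have habs : |th (aT b c β T) + ((n T - n T' : ℤ) : ℝ) - th (aT b c β T')| ≤ 1 := by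
        rw [← e, abs_le]; constructor <;> linarith
      have hs := S.sep _ _ (hVT T' (hA hT')) (hVT T (hA hT)) _ habs
      rw [← e] at hs
      set τ := th (aT b c β T) + n T - (th (aT b c β T') + n T') with hτ
      have hone : (1 : ℝ) ≤ (det (aT b c β T') (mulp b c (et (n T - n T')) (aT b c β T)) : ℝ) ^ 2 := by
        have : (1 : ℤ) ≤ (det (aT b c β T') (mulp b c (et (n T - n T')) (aT b c β T))) ^ 2 := by
          have := sq_pos_of_ne_zero hdet
          omega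
        exact_mod_cast this
      have hK := S.hK
      have hN1 := hM' T (hA hT)
      have hN2 := hM' T' (hA hT')
      have hN1' : (0 : ℝ) < nrm b c (aT b c β T) := by exact_mod_cast S.pos _ (hVT T (hA hT))
      have hN2' : (0 : ℝ) < nrm b c (aT b c β T') := by exact_mod_cast S.pos _ (hVT T' (hA hT'))
      have h3 : (1 : ℝ) ≤ (K * M' * |τ|) ^ 2 := by
        calc (1 : ℝ) ≤ K * nrm b c (aT b c β T') * nrm b c (aT b c β T) * τ ^ 2 := hone.trans hs
          _ ≤ K * M' * M' * τ ^ 2 := by gcongr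
          _ = K * (M' ^ 2 * τ ^ 2) := by ring
          _ ≤ K ^ 2 * (M' ^ 2 * τ ^ 2) := by
              have : K ≤ K ^ 2 := by nlinarith
              gcongr
          _ = (K * M' * |τ|) ^ 2 := by rw [mul_pow, mul_pow, sq_abs]; ring
      by_contra hcon
      push Not at hcon
      have h4 : (K * M' * |τ|) ^ 2 < 1 := by
        have h5 : 0 ≤ K * M' * |τ| := by positivity
        nlinarith
      linarith)
    (by
      intro T hT
      have h1 := hn T hT
      rw [abs_le] at h1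
      have e2 : (2 : ℝ) / L = 1 / L + 1 / L := by ring
      constructor
      · linarith
      · rw [e2]; linarith)
  refine hp.trans (le_of_eq ?_)
  ring

/-- the number of exceptional frequencies -/
theorem exc_card (S : Sys b c V th et K) {Pr : Finset ℕ} {β : ℕ → ℤ × ℤ} {mm : ℕ → ℕ}
    (hPr : ∀ p ∈ Pr, p.Prime) (hmm : ∀ p ∈ Pr, ∀ q ∈ Pr, ¬ p ∣ mm q)
    (hV : ∀ p ∈ Pr, V (β p)) (hb : ∀ p ∈ Pr, nrm b c (β p) = (mm p : ℤ) * p) {r J : ℕ} {M' : ℝ}
    (hM0 : 1 ≤ M') (hM' : ∀ T ∈ Pr.powersetCard r, (nrm b c (aT b c β T) : ℝ) ≤ M')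
    (hQ : Q = L * 2 ^ J) (hL : 20 ≤ L) {δ : ℝ} (hδ : 0 ≤ δ) (hJ : J * δ ≤ 1 / 2)
    (hr : 2 * r * δ ≤ 1 / 2) (E : Finset (ZMod Q))
    (hE1 : ∀ k ∈ E, ∀ i ≤ J, ‖ch (k * ((2 ^ i : ℕ) : ZMod Q)) - 1‖ ≤ δ)
    (hE2 : ∀ k ∈ E, ∀ p ∈ Pr,
      ‖ch (k * ((ps th Q (β p) : ℤ) : ZMod Q)) - ((col P b c (β p) : ℝ) : ℂ)‖ ≤ δ)
    (hF : 0 < (Pr.powersetCard r).card) :
    (E.card : ℝ) * (Pr.powersetCard r).card ≤ 16 * (2 * K * M' + 2 * L) := by
  classical
  set F := Pr.powersetCard r with hFdef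
  have hK := S.hK
  have hY : 0 < 2 ^ J := by positivity
  have hLr : (20 : ℝ) ≤ L := by exact_mod_cast hL
  have hLpos : (0 : ℝ) < L := by linarith
  set En : ℕ := F.card * ⌊2 * K * M' / L + 2⌋₊ with hEn
  have hwin := window_ls F (fun T => ((col P b c (aT b c β T) : ℝ) : ℂ)) 1 zero_le_one
    (by intro T _; rw [norm_colG]) (fun T => ((ps th Q (aT b c β T) : ℤ) : ZMod Q)) (2 ^ J)
    (by rw [hQ]; exact Nat.le_mul_of_pos_left _ (by omega)) En (by
      intro A hA hclose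
      rw [hEn, ← smul_eq_mul, ← Finset.sum_const]
      have : A.card = ∑ T0 ∈ F, (A.filter (fun p => p.1 = T0)).card := by
        apply Finset.card_eq_sum_card_fiberwise
        intro p hp
        exact (Finset.mem_product.1 (hA hp)).1
      rw [this]
      apply Finset.sum_le_sum
      intro T0 hT0
      have hinj : (A.filter (fun p => p.1 = T0)).card =
          ((A.filter (fun p => p.1 = T0)).image Prod.snd).card := by
        rw [Finset.card_image_of_injOn]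
        intro p hp q hq hpq
        have hp' := (Finset.mem_filter.1 hp).2
        have hq' := (Finset.mem_filter.1 hq).2
        exact Prod.ext (hp'.trans hq'.symm) hpq
      rw [hinj]
      apply Nat.le_floor
      apply family_close S hPr hmm hV hb hM0 hM' hQ hY hL (T0 := T0)
      · intro T hT
        rw [Finset.mem_image] at hT
        obtain ⟨p, hp, rfl⟩ := hT
        exact (Finset.mem_product.1 (hA (Finset.mem_filter.1 hp).1)).2
      · intro T hT
        rw [Finset.mem_image] at hT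
        obtain ⟨p, hp, rfl⟩ := hT
        rw [Finset.mem_filter] at hp
        obtain ⟨d, hd, hdd⟩ := hclose p hp.1
        refine ⟨d, hd, ?_⟩
        rw [← hp.2]; exact hdd)
  -- lower bound
  have hlow : ∀ k ∈ E, ((2 ^ J : ℕ) : ℝ) ^ 2 / 4 * ((F.card : ℝ) ^ 2 / 4) ≤
      ‖∑ y ∈ range (2 ^ J), ch (k * (y : ZMod Q))‖ ^ 2 *
      ‖∑ T ∈ F, ((col P b c (aT b c β T) : ℝ) : ℂ) *
        ch (k * ((ps th Q (aT b c β T) : ℤ) : ZMod Q))‖ ^ 2 := by
    intro k hk
    have h1 : ((2 ^ J : ℕ) : ℝ) / 2 ≤ ‖∑ y ∈ range (2 ^ J), ch (k * (y : ZMod Q))‖ := by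
      have h2 : ‖∑ y ∈ range (2 ^ J), (ch (k * (y : ZMod Q)) - 1)‖ ≤ ((2 ^ J : ℕ) : ℝ) * (1 / 2) := by
        refine (norm_sum_le _ _).trans ?_
        rw [← nsmul_eq_mul]
        have := Finset.sum_le_card_nsmul (range (2 ^ J)) (fun y => ‖ch (k * (y : ZMod Q)) - 1‖) (1 / 2)
          (by
            intro y hy
            exact (ch_mul_le k δ J (hE1 k hk) y (Finset.mem_range.1 hy)).trans hJ)
        rwa [Finset.card_range] at this
      rw [Finset.sum_sub_distrib] at h2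
      have h3 : ∑ y ∈ range (2 ^ J), (1 : ℂ) = ((2 ^ J : ℕ) : ℂ) := by simp
      rw [h3] at h2
      have h4 : ‖(((2 ^ J : ℕ)) : ℂ)‖ = ((2 ^ J : ℕ) : ℝ) := Complex.norm_natCast _
      have h5 := norm_sub_norm_le (((2 ^ J : ℕ)) : ℂ) (∑ y ∈ range (2 ^ J), ch (k * (y : ZMod Q)))
      rw [h4, norm_sub_rev] at h5
      linarith
    have h1' : (F.card : ℝ) / 2 ≤
        ‖∑ T ∈ F, ((col P b c (aT b c β T) : ℝ) : ℂ) *
          ch (k * ((ps th Q (aT b c β T) : ℤ) : ZMod Q))‖ := by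
      have h2 : ‖∑ T ∈ F, (((col P b c (aT b c β T) : ℝ) : ℂ) *
          ch (k * ((ps th Q (aT b c β T) : ℤ) : ZMod Q)) - 1)‖ ≤ (F.card : ℝ) * (1 / 2) := by
        refine (norm_sum_le _ _).trans ?_
        rw [← nsmul_eq_mul]
        apply Finset.sum_le_card_nsmul
        intro T hT
        have hT' := Finset.mem_powersetCard.1 hT
        have h3 := ch_aT (P := P) S k δ hδ (by simpa using hE1 k hk 0 (Nat.zero_le _)) T (by
          intro p hp
          exact ⟨hV p (hT'.1 hp), hE2 k hk p (hT'.1 hp)⟩)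
        have hcc : ((col P b c (aT b c β T) : ℝ) : ℂ) * ((col P b c (aT b c β T) : ℝ) : ℂ) = 1 := by
          rcases col_eq_or P b c (aT b c β T) with h | h <;> rw [h] <;> simp
        have e : ((col P b c (aT b c β T) : ℝ) : ℂ) * ch (k * ((ps th Q (aT b c β T) : ℤ) : ZMod Q)) -
            1 = ((col P b c (aT b c β T) : ℝ) : ℂ) *
              (ch (k * ((ps th Q (aT b c β T) : ℤ) : ZMod Q)) -
              ((col P b c (aT b c β T) : ℝ) : ℂ)) := by
          rw [mul_sub, hcc]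
        rw [e, norm_mul, norm_colG, one_mul]
        refine h3.trans ?_
        rw [hT'.2]
        exact hr
      rw [Finset.sum_sub_distrib] at h2
      have h3 : ∑ T ∈ F, (1 : ℂ) = (F.card : ℂ) := by simp
      rw [h3] at h2
      have h4 : ‖(F.card : ℂ)‖ = (F.card : ℝ) := Complex.norm_natCast _
      have h5 := norm_sub_norm_le (F.card : ℂ)
        (∑ T ∈ F, ((col P b c (aT b c β T) : ℝ) : ℂ) *
          ch (k * ((ps th Q (aT b c β T) : ℤ) : ZMod Q)))
      rw [h4, norm_sub_rev] at h5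
      linarith
    have h6 : (((2 ^ J : ℕ) : ℝ) / 2) ^ 2 ≤ ‖∑ y ∈ range (2 ^ J), ch (k * (y : ZMod Q))‖ ^ 2 :=
      pow_le_pow_left₀ (by positivity) h1 2
    have h6' := pow_le_pow_left₀ (by positivity : (0 : ℝ) ≤ (F.card : ℝ) / 2) h1' 2
    calc ((2 ^ J : ℕ) : ℝ) ^ 2 / 4 * ((F.card : ℝ) ^ 2 / 4) =
        (((2 ^ J : ℕ) : ℝ) / 2) ^ 2 * ((F.card : ℝ) / 2) ^ 2 := by ring
      _ ≤ _ := by gcongr
  have hsum : (E.card : ℝ) * (((2 ^ J : ℕ) : ℝ) ^ 2 / 4 * ((F.card : ℝ) ^ 2 / 4)) ≤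
      Q * 1 ^ 2 * (((2 ^ J : ℕ) : ℝ) * En) := by
    refine le_trans ?_ hwin
    rw [← nsmul_eq_mul, ← Finset.sum_const]
    refine (Finset.sum_le_sum hlow).trans ?_
    exact Finset.sum_le_sum_of_subset_of_nonneg (Finset.subset_univ _)
      (by intro k _ _; positivity)
  have hEnr : (En : ℝ) ≤ F.card * (2 * K * M' / L + 2) := by
    rw [hEn]; push_cast
    gcongr
    exact Nat.floor_le (by positivity)
  have hQr : (Q : ℝ) = L * ((2 ^ J : ℕ) : ℝ) := by exact_mod_cast hQ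
  have hFr : (0 : ℝ) < F.card := by exact_mod_cast hF
  have hYr : (0 : ℝ) < ((2 ^ J : ℕ) : ℝ) := by exact_mod_cast hY
  generalize (((2 ^ J : ℕ) : ℝ)) = y at *
  rw [hQr] at hsum
  have h7 : (E.card : ℝ) * (y ^ 2 / 4 * ((F.card : ℝ) ^ 2 / 4)) ≤
      (L * y) * (y * (F.card * (2 * K * M' / L + 2))) := by
    refine hsum.trans ?_
    rw [one_pow, mul_one]
    gcongr
  have h8 : (L * y) * (y * (F.card * (2 * K * M' / L + 2))) =
      (y ^ 2 * F.card) * (2 * K * M' + 2 * L) := by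
    field_simp
  rw [h8] at h7
  have h9 : (y ^ 2 * F.card) * ((E.card : ℝ) * F.card / 16) ≤
      (y ^ 2 * F.card) * (2 * K * M' + 2 * L) := by
    refine le_trans (le_of_eq ?_) h7
    ring
  have h10 := le_of_mul_le_mul_left h9 (by positivity)
  linarith

end Count

end

end Pool.Agent.Lib.MP_a17b09_nt.LG
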