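import Pool.Agent.Lib.MP_a17b09_nt.LG.MomG

/-!
Removing the arguments where the value has many divisors.
-/

set_option autoImplicit false

open Finset

namespace Pool.Agent.Lib.MP_a17b09_nt.LG

open Pool.Agent.Lib.MP_a17b09_nt Pool.Agent.Lib.MP_a17b09_nt.LP

variable {b c : ℤ}

theorem few_div (hD : ¬ IsSquare (b ^ 2 - 4 * c)) (C : ℕ) :
    ∃ C' N0 : ℕ, ∀ N : ℕ, N0 ≤ N → ∀ S : Finset ℕ, S ⊆ Icc 1 N →
      (N : ℝ) / Real.log N ^ C ≤ (S.card : ℝ) →
      (N : ℝ) / Real.log N ^ C' ≤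
        ((S.filter (fun t => (dv (fq b c t).natAbs : ℝ) ≤ Real.log N ^ C')).card : ℝ) := by
  classical
  obtain ⟨C2, hC2⟩ := second_momentG hD
  have hC2r : (0 : ℝ) ≤ C2 := Nat.cast_nonneg _
  refine ⟨C + 33, ⌈Real.exp (2 ^ 34 * C2 + 2)⌉₊ + 1, ?_⟩
  intro N hN S hS hcard
  have hNe : Real.exp (2 ^ 34 * C2 + 2) ≤ N := by
    have h1 : (⌈Real.exp (2 ^ 34 * C2 + 2)⌉₊ : ℝ) ≤ N := by
      have : ⌈Real.exp (2 ^ 34 * C2 + 2)⌉₊ ≤ N := by omega
      exact_mod_cast this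
    exact (Nat.le_ceil _).trans h1
  have hNn : 1 ≤ N := by omega
  have hN0 : (0 : ℝ) < N := by exact_mod_cast hNn
  obtain ⟨l, hl⟩ : ∃ l : ℝ, l = Real.log N := ⟨_, rfl⟩
  have hlog : 2 ^ 34 * C2 + 2 ≤ l := by
    rw [hl, Real.le_log_iff_exp_le hN0]
    exact hNe
  have hmom := hC2 N hNn
  rw [← hl] at hmom hcard ⊢
  have hl2 : 2 ≤ l := by nlinarith
  have hl0 : 0 < l := by linarith
  have hl1 : 1 ≤ l := by linarith
  -- the number of arguments with many divisors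
  obtain ⟨B, hB⟩ : ∃ B : Finset ℕ,
      B = S.filter (fun t => ¬ ((dv (fq b c t).natAbs : ℝ) ≤ l ^ (C + 33))) := ⟨_, rfl⟩
  have hBsum : (B.card : ℝ) * (l ^ (C + 33)) ^ 2 ≤ C2 * N * (1 + l) ^ 32 := by
    refine le_trans ?_ hmom
    have h1 : (B.card : ℝ) * (l ^ (C + 33)) ^ 2 = ∑ t ∈ B, (l ^ (C + 33)) ^ 2 := by
      rw [Finset.sum_const, nsmul_eq_mul]
    rw [h1]
    have h2 : ∑ t ∈ B, (l ^ (C + 33)) ^ 2 ≤ ∑ t ∈ B, (dv (fq b c t).natAbs : ℝ) ^ 2 := by
      apply Finset.sum_le_sum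
      intro t ht
      rw [hB, Finset.mem_filter] at ht
      push Not at ht
      exact pow_le_pow_left₀ (by positivity) ht.2.le 2
    refine h2.trans ?_
    apply Finset.sum_le_sum_of_subset_of_nonneg
    · intro t ht
      rw [hB, Finset.mem_filter] at ht
      exact hS ht.1
    · intro _ _ _
      positivity
  have hBle : (B.card : ℝ) ≤ N / l ^ C / 2 := by
    have h1 : (1 + l) ^ 32 ≤ 2 ^ 32 * l ^ 32 := by
      rw [← mul_pow]
      exact pow_le_pow_left₀ (by linarith) (by linarith) 32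
    have h2 : C2 * N * (1 + l) ^ 32 ≤ N * l ^ 33 / 4 := by
      have h3 : (2 ^ 34 * C2) * l ^ 32 ≤ l * l ^ 32 :=
        mul_le_mul_of_nonneg_right (by linarith) (by positivity)
      calc C2 * N * (1 + l) ^ 32 ≤ C2 * N * (2 ^ 32 * l ^ 32) :=
            mul_le_mul_of_nonneg_left h1 (by positivity)
        _ = N * ((2 ^ 34 * C2) * l ^ 32) / 4 := by ring
        _ ≤ N * (l * l ^ 32) / 4 := by
            apply div_le_div_of_nonneg_right _ (by norm_num)
            exact mul_le_mul_of_nonneg_left h3 hN0.le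
        _ = N * l ^ 33 / 4 := by ring
    have h3 : (B.card : ℝ) * l ^ (2 * C + 66) ≤ N * l ^ 33 / 4 := by
      calc (B.card : ℝ) * l ^ (2 * C + 66) = (B.card : ℝ) * (l ^ (C + 33)) ^ 2 := by ring
        _ ≤ C2 * N * (1 + l) ^ 32 := hBsum
        _ ≤ N * l ^ 33 / 4 := h2
    rw [div_div, le_div_iff₀ (by positivity)]
    have h4 : l ^ C * 1 ≤ l ^ (2 * C + 33) := by
      rw [mul_one]
      exact pow_le_pow_right₀ hl1 (by omega)
    have h5 : (B.card : ℝ) * l ^ (2 * C + 33) * l ^ 33 ≤ (N / 4) * l ^ 33 := by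
      calc (B.card : ℝ) * l ^ (2 * C + 33) * l ^ 33 = (B.card : ℝ) * l ^ (2 * C + 66) := by
            rw [mul_assoc, ← pow_add]
        _ ≤ N * l ^ 33 / 4 := h3
        _ = (N / 4) * l ^ 33 := by ring
    have h6 : (B.card : ℝ) * l ^ (2 * C + 33) ≤ N / 4 :=
      le_of_mul_le_mul_right h5 (by positivity)
    have h7 : (B.card : ℝ) * (l ^ C * 1) ≤ (B.card : ℝ) * l ^ (2 * C + 33) :=
      mul_le_mul_of_nonneg_left h4 (Nat.cast_nonneg _)
    nlinarith
  have hsplit : (S.card : ℝ) = ((S.filter (fun t => (dv (fq b c t).natAbs : ℝ) ≤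
      l ^ (C + 33))).card : ℝ) + B.card := by
    rw [hB]
    have := Finset.card_filter_add_card_filter_not (s := S)
      (fun t => (dv (fq b c t).natAbs : ℝ) ≤ l ^ (C + 33))
    exact_mod_cast this.symm
  have hfin : (N : ℝ) / l ^ C / 2 ≤ ((S.filter (fun t => (dv (fq b c t).natAbs : ℝ) ≤
      l ^ (C + 33))).card : ℝ) := by linarith
  refine le_trans ?_ hfin
  rw [div_div]
  apply div_le_div_of_nonneg_left hN0.le (by positivity)
  calc l ^ C * 2 ≤ l ^ C * l ^ 33 := by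
        apply mul_le_mul_of_nonneg_left _ (by positivity)
        calc (2 : ℝ) ≤ l := hl2
          _ = l ^ 1 := (pow_one l).symm
          _ ≤ l ^ 33 := pow_le_pow_right₀ hl1 (by norm_num)
    _ = l ^ (C + 33) := by rw [pow_add]

end Pool.Agent.Lib.MP_a17b09_nt.LG
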