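import Pool.Agent.Lib.MP_a17b09_nt.LP.Num

set_option autoImplicit false

open Finset

namespace Pool.Agent.Lib.MP_a17b09_nt.LG

open Pool.Agent.Lib.MP_a17b09_nt.LP

/-- the count of exceptional frequencies, numerically -/
lemma exc_numG {N l x n r e Kp φ c : ℕ} (hl : 3 ≤ l) (hN2 : N < 2 ^ (l + 1)) (hx : 2 ≤ x)
    (hKp : 0 < Kp) (hφ : 0 < φ)
    (hr1 : (2 * Kp * x) ^ r ≤ N) (hr2 : N < (2 * Kp * x) ^ (r + 1)) (hn : 2 * r ≤ n)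
    (hn' : (x : ℝ) / (2 * φ * Real.log x) ≤ n)
    (he : (e : ℝ) * (n.choose r) ≤ c * N) :
    (e : ℝ) ≤ c * (2 * Kp * x) * (8 * Kp * φ * l) ^ r := by
  have hxr : (2 : ℝ) ≤ x := by exact_mod_cast hx
  have hlogx : 0 < Real.log x := Real.log_pos (by linarith)
  have hKpr : (1 : ℝ) ≤ Kp := by exact_mod_cast hKp
  have hφr : (0 : ℝ) < φ := by exact_mod_cast hφ
  have hC : (0 : ℝ) < n.choose r := by
    have : 0 < n.choose r := Nat.choose_pos (by omega)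
    exact_mod_cast this
  have h1 : (x : ℝ) ≤ 2 * φ * Real.log x * n := by
    rw [div_le_iff₀ (by positivity)] at hn'
    linarith
  have h2 : (n : ℝ) ^ r ≤ (2 * (r : ℝ)) ^ r * n.choose r := by exact_mod_cast choose_lower hn
  have h3 : (r : ℝ) * Real.log x ≤ l := by
    have a1 : ((2 * Kp * x : ℕ) : ℝ) ^ r < 2 ^ (l + 1) := by
      have : (2 * Kp * x) ^ r < 2 ^ (l + 1) := lt_of_le_of_lt hr1 hN2
      exact_mod_cast this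
    have a2 : (x : ℝ) ^ r < 2 ^ (l + 1) := by
      refine lt_of_le_of_lt ?_ a1
      apply pow_le_pow_left₀ (by positivity)
      push_cast
      nlinarith
    have a3 := Real.log_lt_log (by positivity) a2
    rw [Real.log_pow, Real.log_pow] at a3
    have a4 := log_two_mul_le hl
    push_cast at a3
    linarith
  have h4 : ((2 * Kp * x : ℕ) : ℝ) ^ r ≤ (8 * Kp * φ * l) ^ r * n.choose r := by
    have b1 : ((2 * Kp * x : ℕ) : ℝ) ^ r ≤ (4 * Kp * φ * Real.log x * n) ^ r := by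
      apply pow_le_pow_left₀ (by positivity)
      push_cast
      calc 2 * (Kp : ℝ) * x ≤ 2 * Kp * (2 * φ * Real.log x * n) := by gcongr
        _ = 4 * Kp * φ * Real.log x * n := by ring
    refine b1.trans ?_
    calc (4 * Kp * φ * Real.log x * n : ℝ) ^ r = (4 * Kp * φ * Real.log x) ^ r * (n : ℝ) ^ r := by
          rw [mul_pow]
      _ ≤ (4 * Kp * φ * Real.log x) ^ r * ((2 * (r : ℝ)) ^ r * n.choose r) := by gcongr
      _ = (8 * Kp * φ * (r * Real.log x)) ^ r * n.choose r := by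
          rw [← mul_assoc, ← mul_pow]; ring
      _ ≤ (8 * Kp * φ * l) ^ r * n.choose r := by gcongr
  have h5 : (N : ℝ) ≤ 2 * Kp * x * ((8 * Kp * φ * l) ^ r * n.choose r) := by
    have : (N : ℝ) ≤ ((2 * Kp * x : ℕ) : ℝ) ^ (r + 1) := by exact_mod_cast hr2.le
    refine this.trans ?_
    rw [pow_succ, mul_comm]
    push_cast at h4 ⊢
    gcongr
  have h6 : (e : ℝ) * (n.choose r) ≤ (c * (2 * Kp * x) * (8 * Kp * φ * l) ^ r) * (n.choose r) := by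
    refine he.trans ?_
    calc (c : ℝ) * (N : ℝ) ≤ c * (2 * Kp * x * ((8 * Kp * φ * l) ^ r * n.choose r)) := by gcongr
      _ = _ := by ring
  exact le_of_mul_le_mul_right h6 hC

/-- numerics of the main inequality -/
lemma num_mainG {l A1 κ CG A2 C2 c1 c2 : ℕ} (hA2 : A2 = 2 * A1 + κ + 3) (hC2 : C2 = 19 + A1 + A2 + κ)
    (hl : CG * (c1 + c2) ≤ l) :
    CG * l ^ 2 * l ^ A1 * l ^ κ * l ^ A2 *
      (c1 * l ^ 16 * (l ^ A2) ^ 2 + c2 * l ^ A1 * l ^ C2) ≤ l ^ C2 * (l ^ A2) ^ 2 := by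
  have e1 : CG * l ^ 2 * l ^ A1 * l ^ κ * l ^ A2 *
      (c1 * l ^ 16 * (l ^ A2) ^ 2 + c2 * l ^ A1 * l ^ C2) =
      CG * c1 * (l ^ (18 + A1 + κ + A2) * (l ^ A2) ^ 2) +
      CG * c2 * (l ^ (2 + 2 * A1 + κ) * l ^ A2 * l ^ C2) := by ring
  have e2 : l ^ (18 + A1 + κ + A2) * (l ^ A2) ^ 2 * l = l ^ C2 * (l ^ A2) ^ 2 := by
    rw [hC2]; ring
  have e3 : l ^ (2 + 2 * A1 + κ) * l ^ A2 * l ^ C2 * l = l ^ C2 * (l ^ A2) ^ 2 := by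
    have : l ^ (2 + 2 * A1 + κ) * l = l ^ A2 := by rw [hA2]; ring
    calc l ^ (2 + 2 * A1 + κ) * l ^ A2 * l ^ C2 * l = (l ^ (2 + 2 * A1 + κ) * l) * l ^ A2 * l ^ C2 := by
          ring
      _ = l ^ A2 * l ^ A2 * l ^ C2 := by rw [this]
      _ = _ := by ring
  rw [e1]
  rcases Nat.eq_zero_or_pos l with h0 | hpos
  · subst h0
    have : CG * (c1 + c2) = 0 := by omega
    have h1 : CG * c1 = 0 ∧ CG * c2 = 0 := by
      rw [mul_add] at this; omega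
    rw [h1.1, h1.2]; simp
  set S1 := l ^ (18 + A1 + κ + A2) * (l ^ A2) ^ 2 with hS1
  set S2 := l ^ (2 + 2 * A1 + κ) * l ^ A2 * l ^ C2 with hS2
  set R := l ^ C2 * (l ^ A2) ^ 2 with hR
  have hS : S1 = S2 := Nat.eq_of_mul_eq_mul_right hpos (e2.trans e3.symm)
  rw [← hS]
  calc CG * c1 * S1 + CG * c2 * S1 = S1 * (CG * (c1 + c2)) := by ring
    _ ≤ S1 * l := Nat.mul_le_mul_left _ hl
    _ = R := e2

/-- main inequality in real numbers -/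
lemma num_realG {l A1 κ CG A2 C2 x K2 J Btc bd En N c1 c2 cE CW CZ : ℕ} {X W : ℝ} (hX : 0 < X)
    (hA2 : A2 = 2 * A1 + κ + 3) (hC2 : C2 = 19 + A1 + A2 + κ)
    (hCG : CG = 4800 * 2 * CZ * cE * 64 * CW ^ 4) (hCW : 0 < CW)
    (hl : CG * (c1 + c2) ≤ l) (hl1 : 0 < l) (hx : x = l ^ A1) (hK2 : K2 = l ^ A2)
    (hJ : J + 1 + Btc ≤ 2 * x) (hN : (N : ℝ) ≤ CZ * X ^ 4)
    (hb : (bd : ℝ) * ((l : ℝ) ^ C2 * K2 ^ 2) ≤
      N * (c1 * (l : ℝ) ^ 16 * K2 ^ 2 + c2 * x * (l : ℝ) ^ C2))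
    (hEn : (En : ℝ) ≤ cE * K2 * (l : ℝ) ^ κ * X ^ 4) (hW : X ≤ CW * W) :
    4800 * ((J : ℝ) + 1 + Btc) * bd * En ≤ (1 / (8 * (l : ℝ))) ^ 2 * (X ^ 4 * W ^ 4) := by
  have hlr : (0 : ℝ) < l := by exact_mod_cast hl1
  have hCWr : (0 : ℝ) < CW := by exact_mod_cast hCW
  have h1 := num_mainG (CG := CG) hA2 hC2 hl
  rw [← hx, ← hK2] at h1
  have h1' : (CG : ℝ) * (l : ℝ) ^ 2 * x * (l : ℝ) ^ κ * K2 *
      (c1 * (l : ℝ) ^ 16 * (K2 : ℝ) ^ 2 + c2 * x * (l : ℝ) ^ C2) ≤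
      (l : ℝ) ^ C2 * (K2 : ℝ) ^ 2 := by exact_mod_cast h1
  have hJr : (J : ℝ) + 1 + Btc ≤ 2 * x := by exact_mod_cast hJ
  have hK2r : (0 : ℝ) < K2 := by
    rw [hK2]; push_cast; positivity
  have hT : (0 : ℝ) < (l : ℝ) ^ C2 * (K2 : ℝ) ^ 2 * (CW : ℝ) ^ 4 := by positivity
  have hCGr : (CG : ℝ) = 4800 * 2 * CZ * cE * 64 * (CW : ℝ) ^ 4 := by rw [hCG]; push_cast; ring
  have hX4 : X ^ 4 ≤ (CW : ℝ) ^ 4 * W ^ 4 := by
    rw [← mul_pow]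
    exact pow_le_pow_left₀ hX.le hW 4
  have h2 : (4800 * ((J : ℝ) + 1 + Btc) * bd * En) * ((l : ℝ) ^ C2 * (K2 : ℝ) ^ 2 * (CW : ℝ) ^ 4) ≤
      ((1 / (8 * (l : ℝ))) ^ 2 * (X ^ 4 * W ^ 4)) * ((l : ℝ) ^ C2 * (K2 : ℝ) ^ 2 * (CW : ℝ) ^ 4) := by
    calc (4800 * ((J : ℝ) + 1 + Btc) * bd * En) * ((l : ℝ) ^ C2 * (K2 : ℝ) ^ 2 * (CW : ℝ) ^ 4)
        = 4800 * ((J : ℝ) + 1 + Btc) * (bd * ((l : ℝ) ^ C2 * (K2 : ℝ) ^ 2)) * En * (CW : ℝ) ^ 4 := by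
          ring
      _ ≤ 4800 * (2 * x) * ((CZ * X ^ 4) * (c1 * (l : ℝ) ^ 16 * K2 ^ 2 +
          c2 * x * (l : ℝ) ^ C2)) * (cE * K2 * (l : ℝ) ^ κ * X ^ 4) * (CW : ℝ) ^ 4 := by
          have hb' := hb.trans (mul_le_mul_of_nonneg_right hN
            (by positivity : (0 : ℝ) ≤ c1 * (l : ℝ) ^ 16 * K2 ^ 2 + c2 * x * (l : ℝ) ^ C2))
          have hJ' : 4800 * ((J : ℝ) + 1 + Btc) ≤ 4800 * (2 * x) := by linarith
          exact mul_le_mul_of_nonneg_right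
            (mul_le_mul (mul_le_mul hJ' hb' (by positivity) (by positivity)) hEn
            (by positivity) (by positivity)) (by positivity)
      _ = (1 / (8 * (l : ℝ))) ^ 2 * (X ^ 4 * X ^ 4) * ((CG : ℝ) * (l : ℝ) ^ 2 * x * (l : ℝ) ^ κ * K2 *
          (c1 * (l : ℝ) ^ 16 * (K2 : ℝ) ^ 2 + c2 * x * (l : ℝ) ^ C2)) := by
          rw [hCGr]; field_simp; ring
      _ ≤ (1 / (8 * (l : ℝ))) ^ 2 * (X ^ 4 * ((CW : ℝ) ^ 4 * W ^ 4)) * ((l : ℝ) ^ C2 * (K2 : ℝ) ^ 2) := by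
          gcongr
      _ = _ := by ring
  exact le_of_mul_le_mul_right h2 hT

/-- choice of the parameter `Z` -/
lemma exists_ZG {N l K3 k Cn CW M : ℕ} (hCn : 0 < Cn) (hCW : 0 < CW) (hM : M = N / Cn) (hl1 : 1 ≤ l)
    (hK3 : 640 ≤ K3) (hK : Cn * CW ^ 2 * (K3 ^ 640 * l ^ (640 * k)) ≤ N) :
    ∃ Z : ℕ, CW ^ 2 * Z ^ 640 ≤ M ∧ N ≤ 3 * Cn * CW ^ 2 * Z ^ 640 ∧ K3 * l ^ k ≤ Z ∧ 640 ≤ Z := by
  have hCW2 : 1 ≤ CW ^ 2 := Nat.one_le_pow _ _ hCW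
  obtain ⟨Z, hZ1, hZ2⟩ := exists_root (fun Z => CW ^ 2 * Z ^ 640) (by
    intro n
    rcases Nat.eq_zero_or_pos n with h | h
    · rw [h]; exact Nat.zero_le _
    · have h1 : n ^ 1 ≤ n ^ 640 := Nat.pow_le_pow_right h (by norm_num)
      rw [pow_one] at h1
      calc n ≤ n ^ 640 := h1
        _ = 1 * n ^ 640 := (one_mul _).symm
        _ ≤ CW ^ 2 * n ^ 640 := Nat.mul_le_mul_right _ hCW2) M (by
    have : (0 : ℕ) ^ 640 = 0 := zero_pow (by norm_num)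
    simp only [this]; omega)
  replace hZ1 : CW ^ 2 * Z ^ 640 ≤ M := hZ1
  replace hZ2 : M < CW ^ 2 * (Z + 1) ^ 640 := hZ2
  have hN5 : N < Cn * (M + 1) := by
    have := Nat.lt_div_mul_add (a := N) (b := Cn) hCn
    rw [hM, mul_add, mul_one, mul_comm]
    exact this
  have hN6 : N < Cn * CW ^ 2 * (Z + 1) ^ 640 := by
    calc N < Cn * (M + 1) := hN5
      _ ≤ Cn * (CW ^ 2 * (Z + 1) ^ 640) := Nat.mul_le_mul_left _ hZ2
      _ = Cn * CW ^ 2 * (Z + 1) ^ 640 := by rw [mul_assoc]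
  have hbig : K3 * l ^ k ≤ Z := by
    by_contra hcon
    push Not at hcon
    have h1 : (Z + 1) ^ 640 ≤ (K3 * l ^ k) ^ 640 := Nat.pow_le_pow_left hcon 640
    have h2 : (K3 * l ^ k) ^ 640 = K3 ^ 640 * l ^ (640 * k) := by
      rw [mul_pow, ← pow_mul, mul_comm k 640]
    rw [h2] at h1
    have h3 : Cn * CW ^ 2 * (Z + 1) ^ 640 ≤ Cn * CW ^ 2 * (K3 ^ 640 * l ^ (640 * k)) :=
      Nat.mul_le_mul_left _ h1
    exact absurd (lt_of_lt_of_le hN6 (h3.trans hK)) (lt_irrefl _)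
  have hlk : 1 ≤ l ^ k := Nat.one_le_pow _ _ hl1
  have hZ640 : 640 ≤ Z := by
    calc 640 ≤ K3 := hK3
      _ = K3 * 1 := (mul_one _).symm
      _ ≤ K3 * l ^ k := Nat.mul_le_mul_left _ hlk
      _ ≤ Z := hbig
  refine ⟨Z, hZ1, ?_, hbig, hZ640⟩
  have h4 := succ_pow_le Z hZ640
  calc N ≤ Cn * CW ^ 2 * (Z + 1) ^ 640 := hN6.le
    _ ≤ Cn * CW ^ 2 * (3 * Z ^ 640) := Nat.mul_le_mul_left _ h4
    _ = 3 * Cn * CW ^ 2 * Z ^ 640 := by ring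

end Pool.Agent.Lib.MP_a17b09_nt.LG
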