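import Pool.Agent.Lib.MP_a17b09_nt.LG.CellsG
import Pool.Agent.Lib.MP_a17b09_nt.LG.Aux0

set_option autoImplicit false

open Finset

namespace Pool.Agent.Lib.MP_a17b09_nt.LG

open Pool.Agent.Lib.MP_a17b09_nt Pool.Agent.Lib.MP_a17b09_nt.LP

/-- the four sides of a square -/
def side (r y : ℤ) (i : ℕ) : ℤ × ℤ :=
  if i = 0 then (r, y) else if i = 1 then (-r, y) else if i = 2 then (y, r) else (y, -r)

lemma exists_side {u : ℤ × ℤ} (hu : u ≠ 0) :
    ∃ r y : ℤ, ∃ i : ℕ, 1 ≤ r ∧ (-r ≤ y ∧ y ≤ r) ∧ i < 4 ∧ u = side r y i ∧ r ^ 2 ≤ u.1 ^ 2 + u.2 ^ 2 := by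
  obtain ⟨a, d⟩ := u
  have hne : a ≠ 0 ∨ d ≠ 0 := by
    by_contra h
    push Not at h
    exact hu (Prod.ext h.1 h.2)
  rcases le_total |a| |d| with h | h
  · rcases le_total 0 d with h0 | h0
    · rw [abs_of_nonneg h0] at h
      rw [abs_le] at h
      refine ⟨d, a, 2, by omega, h, by omega, by simp [side], by simp only; nlinarith [sq_nonneg a]⟩
    · rw [abs_of_nonpos h0] at h
      rw [abs_le] at h
      refine ⟨-d, a, 3, by omega, h, by omega, by simp [side], by simp only; nlinarith [sq_nonneg a]⟩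
  · rcases le_total 0 a with h0 | h0
    · rw [abs_of_nonneg h0] at h
      rw [abs_le] at h
      refine ⟨a, d, 0, by omega, h, by omega, by simp [side], by simp only; nlinarith [sq_nonneg d]⟩
    · rw [abs_of_nonpos h0] at h
      rw [abs_le] at h
      refine ⟨-a, d, 1, by omega, h, by omega, by simp [side], by simp only; nlinarith [sq_nonneg d]⟩

section

variable {b c : ℤ} {V : ℤ × ℤ → Prop} {th : ℤ × ℤ → ℝ} {et : ℤ → ℤ × ℤ} {K : ℝ}

lemma PopC_add_period {Q Y L : ℕ} (hQ : Q = L * Y) (M0 : ℤ) (j0 k : ℤ) :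
    PopC b c V th Q Y M0 (j0 + k * L) ↔ PopC b c V th Q Y M0 j0 := by
  unfold PopC
  simp only [InH_add_period hQ]

open Classical in
theorem unpop_count (S : Sys b c V th et K) : ∃ C : ℕ, 0 < C ∧ ∀ (Q Y L : ℕ),
    Q = L * Y → 0 < Y → 20 ≤ L → ∀ (M0 : ℤ) (n : ℕ), 0 < n → C * (n : ℤ) ^ 2 ≤ M0 →
    (((range L).filter (fun k : ℕ => ¬ PopC b c V th Q Y M0 k)).card : ℝ) * (n : ℝ) ^ 2 ≤
      C * (L : ℝ) ^ 2 := by
  obtain ⟨C, hC⟩ := exists_nat_ge (1008 * K ^ 2)
  have hK := S.hK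
  have hK2 : K ≤ 1008 * K ^ 2 := by nlinarith
  have hCK : K ≤ C := hK2.trans hC
  have hC0 : 0 < C := by
    have : (0 : ℝ) < C := by linarith
    exact_mod_cast this
  refine ⟨C, hC0, ?_⟩
  intro Q Y L hQ hY hL M0 n hn hM0
  have hLr : (20 : ℝ) ≤ L := by exact_mod_cast hL
  have hLpos : (0 : ℝ) < L := by linarith
  have hnr : (0 : ℝ) < n := by exact_mod_cast hn
  set U := (range L).filter (fun k : ℕ => ¬ PopC b c V th Q Y M0 k) with hU
  -- central representatives
  have hcen : ∀ k ∈ U, ∃ k' m : ℤ, (k : ℤ) = k' + m * L ∧ -(L : ℤ) ≤ 2 * k' ∧ 2 * k' < L := by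
    intro k hk
    rw [hU, Finset.mem_filter, Finset.mem_range] at hk
    exact exists_central hk.1
  choose! κ μ hκ1 hκ2 hκ3 using hcen
  have hκinj : ∀ k ∈ U, ∀ k' ∈ U, κ k = κ k' → k = k' := by
    intro k hk k' hk' h
    have e1 := hκ1 k hk
    have e2 := hκ1 k' hk'
    rw [hU, Finset.mem_filter, Finset.mem_range] at hk hk'
    have h3 : (k : ℤ) % L = (k' : ℤ) % L := by
      rw [e1, e2, h, Int.add_mul_emod_self_right, Int.add_mul_emod_self_right]
    rw [Int.emod_eq_of_lt (by positivity) (by exact_mod_cast hk.1),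
      Int.emod_eq_of_lt (by positivity) (by exact_mod_cast hk'.1)] at h3
    exact_mod_cast h3
  set R : ℕ := ⌊2 * (L : ℝ) * K / n⌋₊ with hR
  have hRle : (R : ℝ) ≤ 2 * (L : ℝ) * K / n := Nat.floor_le (by positivity)
  set F : ℕ × (ℤ × (ℕ × ℤ)) → Finset ℕ := fun q => U.filter (fun k : ℕ =>
    |th (side q.1 q.2.1 q.2.2.1) + q.2.2.2 - ((κ k : ℝ) + 1 / 2) / L| ≤ K / (n * q.1)) with hF
  set I : Finset (ℕ × (ℤ × (ℕ × ℤ))) := (Finset.Icc 1 R).biUnion (fun r =>
    ({r} : Finset ℕ) ×ˢ ((Finset.Icc (-(r : ℤ)) r) ×ˢ ((range 4) ×ˢ (Finset.Icc (-3 : ℤ) 3)))) with hI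
  have hcover : U ⊆ I.biUnion F := by
    intro k hk
    have hφ1 := hκ2 k hk
    have hφ2 := hκ3 k hk
    have hφ1r : (-(L : ℝ)) ≤ 2 * (κ k : ℝ) := by exact_mod_cast hφ1
    have hφ2r : 2 * (κ k : ℝ) < L := by exact_mod_cast hφ2
    obtain ⟨u, hVu, hnu, hthu, j, hj, happ⟩ := S.approx (((κ k : ℝ) + 1 / 2) / L) (by
      rw [abs_div, abs_of_pos hLpos, div_le_iff₀ hLpos, abs_le]
      constructor <;> linarith) n hn
    have hnpos : (0 : ℝ) < nrm b c u := by exact_mod_cast S.pos u hVu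
    have hbox := S.box u hVu (hthu.trans (by norm_num))
    obtain ⟨r, y, i, hr1, hy, hi, hside, hrsq⟩ := exists_side (V_ne_zero S hVu)
    obtain ⟨r', rfl⟩ := Int.eq_ofNat_of_zero_le (show 0 ≤ r by omega)
    have hr'1 : 1 ≤ r' := by exact_mod_cast hr1
    have hr'r : (1 : ℝ) ≤ r' := by exact_mod_cast hr'1
    have hrsq' : (r' : ℝ) ^ 2 ≤ K * nrm b c u := by
      have : ((r' : ℤ) : ℝ) ^ 2 ≤ (u.1 : ℝ) ^ 2 + (u.2 : ℝ) ^ 2 := by exact_mod_cast hrsq
      simpa using this.trans hbox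
    set D : ℝ := th u + j - ((κ k : ℝ) + 1 / 2) / L with hD
    -- `|D| ≤ K / (n r)`
    have hDle : |D| ≤ K / (n * r') := by
      have h1 : (|D| * (n * r')) ^ 2 ≤ K ^ 2 := by
        calc (|D| * (n * r')) ^ 2 = (D ^ 2 * n ^ 2) * (r' : ℝ) ^ 2 := by
              rw [mul_pow, sq_abs]; ring
          _ ≤ (D ^ 2 * n ^ 2) * (K * nrm b c u) := by gcongr
          _ = K * (nrm b c u * D ^ 2 * n ^ 2) := by ring
          _ ≤ K * K := by gcongr
          _ = K ^ 2 := by ring
      have h2 : |D| * (n * r') ≤ K := le_of_sq_le_sq h1 (by linarith)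
      rw [le_div_iff₀ (by positivity)]
      exact h2
    -- the cell is not populated
    have hDge : 1 / (2 * (L : ℝ)) ≤ |D| := by
      by_contra hcon
      push Not at hcon
      rw [hU, Finset.mem_filter] at hk
      apply hk.2
      rw [hκ1 k (by rw [hU, Finset.mem_filter]; exact hk), PopC_add_period hQ]
      refine ⟨u, hVu, ?_, j, ?_⟩
      · have h1 : (nrm b c u : ℝ) ≤ (M0 : ℝ) := by
          have h2 : (C : ℝ) * (n : ℝ) ^ 2 ≤ M0 := by exact_mod_cast hM0
          refine hnu.trans (le_trans ?_ h2)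
          gcongr
        exact_mod_cast h1
      · rw [abs_lt] at hcon
        have e1 : ((κ k : ℝ) + 1 / 2) / L = (κ k : ℝ) / L + 1 / (2 * L) := by
          field_simp
        have e2 : ((κ k + 1 : ℤ) : ℝ) / L = (κ k : ℝ) / L + 2 * (1 / (2 * L)) := by
          push_cast; field_simp
        rw [hD, e1] at hcon
        rw [(ps_bounds hQ hY (by omega) (κ k) (κ k + 1) u j).1,
          (ps_bounds hQ hY (by omega) (κ k) (κ k + 1) u j).2, e2]
        constructor <;> linarith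
    have hrR : r' ≤ R := by
      apply Nat.le_floor
      have h1 := hDge.trans hDle
      rw [div_le_div_iff₀ (by positivity) (by positivity)] at h1
      rw [le_div_iff₀ hnr]
      linarith
    rw [Finset.mem_biUnion]
    refine ⟨(r', (y, (i, j))), ?_, ?_⟩
    · rw [hI, Finset.mem_biUnion]
      refine ⟨r', Finset.mem_Icc.2 ⟨hr'1, hrR⟩, ?_⟩
      rw [Finset.mem_product, Finset.mem_product, Finset.mem_product]
      refine ⟨Finset.mem_singleton_self _, Finset.mem_Icc.2 hy, Finset.mem_range.2 hi, ?_⟩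
      rw [Finset.mem_Icc]
      exact abs_le.1 hj
    · rw [hF, Finset.mem_filter]
      refine ⟨hk, ?_⟩
      simp only
      rw [← hside]
      exact hDle
  have hFcard : ∀ q ∈ I, ((F q).card : ℝ) ≤ 6 * L * K / (n * q.1) := by
    rintro ⟨r, y, i, j⟩ hq
    rw [hI, Finset.mem_biUnion] at hq
    obtain ⟨r0, hr0, hq⟩ := hq
    rw [Finset.mem_product, Finset.mem_singleton] at hq
    have hq1 : r = r0 := hq.1
    subst hq1
    rw [Finset.mem_Icc] at hr0
    have hrr : (1 : ℝ) ≤ r := by exact_mod_cast hr0.1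
    have hrR : (r : ℝ) ≤ 2 * (L : ℝ) * K / n := by
      have : (r : ℝ) ≤ R := by exact_mod_cast hr0.2
      exact this.trans hRle
    set ρ : ℝ := K / (n * r) with hρ
    have hρ0 : 0 < ρ := by positivity
    have hρL : 1 ≤ 2 * ρ * L := by
      rw [le_div_iff₀ hnr] at hrR
      rw [hρ]
      have : 2 * (K / (n * r)) * L = (2 * (L : ℝ) * K) / (r * n) := by field_simp
      rw [this, le_div_iff₀ (by positivity), one_mul]
      exact hrR
    have hp := packing (F (r, (y, (i, j)))) (fun k => (κ k : ℝ)) 1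
      ((th (side r y i) + j) * L - 1 / 2 - ρ * L) (2 * ρ * L) one_pos (by positivity) (by
        intro k hk k' hk' hne
        rw [hF, Finset.mem_filter] at hk hk'
        have h1 : κ k ≠ κ k' := fun h => hne (hκinj k hk.1 k' hk'.1 h)
        have h2 : (1 : ℤ) ≤ |κ k - κ k'| := Int.one_le_abs (sub_ne_zero.2 h1)
        rw [one_mul]
        exact_mod_cast h2) (by
        intro k hk
        rw [hF, Finset.mem_filter] at hk
        have h1 := hk.2
        simp only at h1
        rw [abs_le] at h1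
        have e : ((κ k : ℝ) + 1 / 2) / L * L = (κ k : ℝ) + 1 / 2 := by field_simp
        have h3 : -ρ * L ≤ (th (side r y i) + j - ((κ k : ℝ) + 1 / 2) / L) * L := by
          have := h1.1
          gcongr
        have h4 : (th (side r y i) + j - ((κ k : ℝ) + 1 / 2) / L) * L ≤ ρ * L := by
          have := h1.2
          gcongr
        rw [sub_mul, e] at h3 h4
        constructor <;> linarith)
    refine hp.trans ?_
    have e3 : 6 * (L : ℝ) * K / (n * ((r : ℕ) : ℝ)) = 6 * ρ * L := by rw [hρ]; ring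
    simp only
    rw [e3]
    linarith
  have hsum : (U.card : ℝ) ≤ ∑ q ∈ I, 6 * L * K / (n * q.1) := by
    have h1 : U.card ≤ ∑ q ∈ I, (F q).card :=
      (Finset.card_le_card hcover).trans Finset.card_biUnion_le
    have h2 : (U.card : ℝ) ≤ ∑ q ∈ I, ((F q).card : ℝ) := by exact_mod_cast h1
    exact h2.trans (Finset.sum_le_sum hFcard)
  have hsumI : ∑ q ∈ I, 6 * (L : ℝ) * K / (n * q.1) ≤ ∑ r ∈ Finset.Icc 1 R, 504 * L * K / n := by
    have hdisj : ((Finset.Icc 1 R : Finset ℕ) : Set ℕ).PairwiseDisjoint (fun r =>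
        ({r} : Finset ℕ) ×ˢ ((Finset.Icc (-(r : ℤ)) r) ×ˢ ((range 4) ×ˢ (Finset.Icc (-3 : ℤ) 3)))) := by
      intro r _ r' _ hrr
      simp only [Function.onFun]
      rw [Finset.disjoint_left]
      rintro ⟨x, z⟩ h1 h2
      rw [Finset.mem_product, Finset.mem_singleton] at h1 h2
      exact hrr (h1.1.symm.trans h2.1)
    rw [hI, Finset.sum_biUnion hdisj]
    apply Finset.sum_le_sum
    intro r hr
    rw [Finset.mem_Icc] at hr
    have hrr : (1 : ℝ) ≤ r := by exact_mod_cast hr.1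
    rw [Finset.sum_product, Finset.sum_singleton]
    simp only
    rw [Finset.sum_const, nsmul_eq_mul]
    rw [Finset.card_product, Finset.card_product, Int.card_Icc, Finset.card_range, Int.card_Icc]
    have e1 : ((r : ℤ) + 1 - -(r : ℤ)).toNat = 2 * r + 1 := by omega
    have e2 : ((3 : ℤ) + 1 - -3).toNat = 7 := by decide
    rw [e1, e2]
    push_cast
    rw [mul_div_assoc', div_le_div_iff₀ (by positivity) (by positivity)]
    have h3 : (2 * (r : ℝ) + 1) ≤ 3 * r := by linarith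
    have e5 : (2 * (r : ℝ) + 1) * (4 * 7) = (2 * (r : ℝ) + 1) * 28 := by ring
    calc (2 * (r : ℝ) + 1) * 28 * (6 * L * K) * n ≤ (3 * r) * 28 * (6 * L * K) * n := by
          gcongr
      _ = 504 * L * K * (n * r) := by ring
  have hlast : ∑ r ∈ Finset.Icc 1 R, 504 * (L : ℝ) * K / n ≤ 1008 * K ^ 2 * (L : ℝ) ^ 2 / (n : ℝ) ^ 2 := by
    rw [Finset.sum_const, Nat.card_Icc, nsmul_eq_mul]
    have : ((R + 1 - 1 : ℕ) : ℝ) = R := by simp
    rw [this]
    calc (R : ℝ) * (504 * L * K / n) ≤ (2 * (L : ℝ) * K / n) * (504 * L * K / n) := by gcongr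
      _ = 1008 * K ^ 2 * (L : ℝ) ^ 2 / (n : ℝ) ^ 2 := by field_simp; ring
  have htot := hsum.trans (hsumI.trans hlast)
  rw [le_div_iff₀ (by positivity)] at htot
  refine htot.trans ?_
  gcongr

end

end Pool.Agent.Lib.MP_a17b09_nt.LG
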