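import Pool.Agent.Lib.MP_a17b09_nt.LG.CoreG
import Pool.Agent.Lib.MP_a17b09_nt.LG.MomG
import Pool.Agent.Lib.MP_a17b09_nt.LG.UnpopG
import Pool.Agent.Lib.MP_a17b09_nt.LG.NumG
import Pool.Agent.Lib.QuadThree.PrimesDyadic

set_option autoImplicit false

open Finset

namespace Pool.Agent.Lib.MP_a17b09_nt.LG

open Pool.Agent.Lib.MP_a17b09_nt Pool.Agent.Lib.MP_a17b09_nt.LP

section

variable {b c : ℤ} {V : ℤ × ℤ → Prop} {th : ℤ × ℤ → ℝ} {et : ℤ → ℤ × ℤ} {K : ℝ}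

lemma one_add_log_leG {N l : ℕ} (hl : 3 ≤ l) (hN0 : 0 < N) (hN2 : N < 2 ^ (l + 1)) :
    1 + Real.log N ≤ 2 * l := by
  have hlr : (3 : ℝ) ≤ l := by exact_mod_cast hl
  have hNr : (0 : ℝ) < N := by exact_mod_cast hN0
  have h1 : Real.log N ≤ Real.log ((2 : ℝ) ^ (l + 1)) := by
    apply Real.log_le_log hNr
    exact_mod_cast hN2.le
  rw [Real.log_pow] at h1
  push_cast at h1
  have := log_two_mul_le hl
  linarith

lemma nonmono_numG {P : Set ℕ} {N l C2 Cs : ℕ}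
    (hsec : ∀ N : ℕ, 1 ≤ N →
      ∑ t ∈ Icc 1 N, (dv (fq b c t).natAbs : ℝ) ^ 2 ≤ Cs * N * (1 + Real.log N) ^ 32)
    (hl : 3 ≤ l) (hN0 : 0 < N) (hN2 : N < 2 ^ (l + 1))
    (hOS : (OSG P b c N).card * l ^ (2 * C2) < N) :
    ((∑ t ∈ OSG P b c N, dv (fq b c t).natAbs : ℕ) : ℝ) * (l : ℝ) ^ C2 ≤
      Cs * 2 ^ 16 * (l : ℝ) ^ 16 * N := by
  have hlr : (3 : ℝ) ≤ l := by exact_mod_cast hl
  have hNr : (0 : ℝ) < N := by exact_mod_cast hN0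
  obtain ⟨D, hD⟩ : ∃ D : ℕ, D = ∑ t ∈ OSG P b c N, dv (fq b c t).natAbs := ⟨_, rfl⟩
  rw [← hD]
  have h1 : (D : ℝ) ^ 2 ≤ (OSG P b c N).card * ∑ t ∈ OSG P b c N, (dv (fq b c t).natAbs : ℝ) ^ 2 := by
    rw [hD]; push_cast
    exact sq_sum_le_card_mul_sum_sq
  have h2 : ∑ t ∈ OSG P b c N, (dv (fq b c t).natAbs : ℝ) ^ 2 ≤ Cs * N * (1 + Real.log N) ^ 32 := by
    refine le_trans ?_ (hsec N hN0)
    apply Finset.sum_le_sum_of_subset_of_nonneg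
    · intro t ht
      rw [Finset.mem_Icc]
      exact (mem_OSG.1 ht).1
    · intro i _ _; positivity
  have h3 := one_add_log_leG hl hN0 hN2
  have h3' : 0 ≤ 1 + Real.log N := by
    have : 0 ≤ Real.log N := Real.log_nonneg (by exact_mod_cast hN0)
    linarith
  have h4 : ((OSG P b c N).card : ℝ) * (l : ℝ) ^ (2 * C2) ≤ N := by exact_mod_cast hOS.le
  have hCs : (Cs : ℝ) ≤ (Cs : ℝ) ^ 2 := by
    rcases Nat.eq_zero_or_pos Cs with h | h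
    · rw [h]; norm_num
    · have : Cs ≤ Cs ^ 2 := Nat.le_self_pow (by norm_num) Cs
      exact_mod_cast this
  have h5 : ((D : ℝ) * (l : ℝ) ^ C2) ^ 2 ≤ (Cs * 2 ^ 16 * (l : ℝ) ^ 16 * N) ^ 2 := by
    calc ((D : ℝ) * (l : ℝ) ^ C2) ^ 2 = (D : ℝ) ^ 2 * (l : ℝ) ^ (2 * C2) := by
          rw [mul_pow, ← pow_mul, mul_comm C2 2]
      _ ≤ ((OSG P b c N).card * (Cs * N * (1 + Real.log N) ^ 32)) * (l : ℝ) ^ (2 * C2) := by
          gcongr
          exact h1.trans (by gcongr)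
      _ = ((OSG P b c N).card * (l : ℝ) ^ (2 * C2)) * (Cs * N * (1 + Real.log N) ^ 32) := by ring
      _ ≤ N * (Cs * N * (2 * l) ^ 32) := by gcongr
      _ = Cs * (2 ^ 32 * ((l : ℝ) ^ 32 * N ^ 2)) := by ring
      _ ≤ Cs ^ 2 * (2 ^ 32 * ((l : ℝ) ^ 32 * N ^ 2)) := by gcongr
      _ = (Cs * 2 ^ 16 * (l : ℝ) ^ 16 * N) ^ 2 := by ring
  exact le_of_sq_le_sq h5 (by positivity)

open Classical in
/-- the number of bad cells -/
lemma bad_numG {Cn Cu Cs : ℕ}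
    (hmono : ∀ (P : Set ℕ) (Q Y L : ℕ), Q = L * Y → 0 < Y → 20 ≤ L → ∀ M N : ℕ, 1 ≤ M →
      Cn * M ≤ N → ((range L).filter (fun k : ℕ => ¬ MonoC P b c V th Q Y (M : ℤ) k)).card ≤
      Cn * (∑ t ∈ OSG P b c N, dv (fq b c t).natAbs + 1))
    (hunp : ∀ (Q Y L : ℕ), Q = L * Y → 0 < Y → 20 ≤ L → ∀ (M0 : ℤ) (n : ℕ), 0 < n →
      Cu * (n : ℤ) ^ 2 ≤ M0 →
      (((range L).filter (fun k : ℕ => ¬ PopC b c V th Q Y M0 k)).card : ℝ) * (n : ℝ) ^ 2 ≤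
      Cu * (L : ℝ) ^ 2)
    (hsec : ∀ N : ℕ, 1 ≤ N →
      ∑ t ∈ Icc 1 N, (dv (fq b c t).natAbs : ℝ) ^ 2 ≤ Cs * N * (1 + Real.log N) ^ 32)
    (hCn : 0 < Cn) (hCu : 0 < Cu)
    {P : Set ℕ} {N l C2 L Y Q K1 K2 M M0 n : ℕ} (hl : 3 ≤ l) (hN2 : N < 2 ^ (l + 1))
    (hlN : l ^ C2 ≤ N) (hOS : (OSG P b c N).card * l ^ (2 * C2) < N) (hQ : Q = L * Y) (hY : 0 < Y)
    (hL : 20 ≤ L) (hLN : L * K2 ≤ N) (hK2 : 0 < K2) (hK1 : 0 < K1)
    (hM : M = N / Cn) (hM1 : 1 ≤ M) (hM0 : M0 = M / K1) (hn : Cu * (n * n) ≤ M0)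
    (hn' : M0 < Cu * ((n + 1) * (n + 1))) (hn0 : 0 < n) :
    (((range L).filter (fun k : ℕ => ¬ NiceC P b c V th Q Y (M : ℤ) (M0 : ℤ) k)).card : ℝ) *
      ((l : ℝ) ^ C2 * K2 ^ 2) ≤
      N * ((Cn * (Cs * 2 ^ 16 + 1) : ℕ) * (l : ℝ) ^ 16 * K2 ^ 2 +
        (5 * Cn * Cu ^ 2 : ℕ) * K1 * (l : ℝ) ^ C2) := by
  have hN0 : 0 < N := by
    rcases Nat.eq_zero_or_pos N with h | h
    · rw [h] at hOS; omega
    · exact h
  have hlr : (3 : ℝ) ≤ l := by exact_mod_cast hl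
  have hNr : (0 : ℝ) < N := by exact_mod_cast hN0
  have hK2r : (0 : ℝ) < K2 := by exact_mod_cast hK2
  have hK1r : (0 : ℝ) < K1 := by exact_mod_cast hK1
  have hlNr : (l : ℝ) ^ C2 ≤ N := by exact_mod_cast hlN
  obtain ⟨D, hD⟩ : ∃ D : ℕ, D = ∑ t ∈ OSG P b c N, dv (fq b c t).natAbs := ⟨_, rfl⟩
  have h1 := nonmono_numG hsec hl hN0 hN2 hOS
  rw [← hD] at h1
  have hCnM : Cn * M ≤ N := by
    rw [hM]; exact Nat.mul_div_le _ _
  have hmono' := hmono P Q Y L hQ hY hL M N hM1 hCnM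
  rw [← hD] at hmono'
  have hpop := hunp Q Y L hQ hY hL (M0 : ℤ) n hn0 (by
    have : Cu * n ^ 2 ≤ M0 := by rw [sq]; exact hn
    exact_mod_cast this)
  have hsplit : ((range L).filter (fun k : ℕ => ¬ NiceC P b c V th Q Y (M : ℤ) (M0 : ℤ) k)).card ≤
      ((range L).filter (fun k : ℕ => ¬ MonoC P b c V th Q Y (M : ℤ) k)).card +
      ((range L).filter (fun k : ℕ => ¬ PopC b c V th Q Y (M0 : ℤ) k)).card := by
    refine le_trans (Finset.card_le_card ?_) (Finset.card_union_le _ _)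
    intro k hk
    rw [Finset.mem_filter] at hk
    rw [Finset.mem_union, Finset.mem_filter, Finset.mem_filter]
    unfold NiceC at hk
    by_cases h : MonoC P b c V th Q Y (M : ℤ) k
    · right; exact ⟨hk.1, fun h' => hk.2 ⟨h, h'⟩⟩
    · left; exact ⟨hk.1, h⟩
  obtain ⟨U, hU⟩ : ∃ U : ℕ, U = ((range L).filter
    (fun k : ℕ => ¬ PopC b c V th Q Y (M0 : ℤ) k)).card := ⟨_, rfl⟩
  rw [← hU] at hpop hsplit
  -- lower bound for n^2
  have hn1 : N ≤ 5 * Cn * Cu * K1 * (n ^ 2) := by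
    have e1 : M < (M0 + 1) * K1 := by
      rw [hM0]
      have := Nat.lt_div_mul_add (a := M) (b := K1) hK1
      rw [add_mul, one_mul]; exact this
    have e2 : M0 + 1 ≤ Cu * (4 * n ^ 2) := by
      calc M0 + 1 ≤ Cu * ((n + 1) * (n + 1)) := hn'
        _ ≤ Cu * (4 * n ^ 2) := by
            apply Nat.mul_le_mul_left
            have : n + 1 ≤ 2 * n := by omega
            calc (n + 1) * (n + 1) ≤ (2 * n) * (2 * n) := Nat.mul_le_mul this this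
              _ = 4 * n ^ 2 := by ring
    have e3 : N < Cn * (M + 1) := by
      have := Nat.lt_div_mul_add (a := N) (b := Cn) hCn
      rw [hM, mul_add, mul_one, mul_comm]
      exact this
    have e4 : M + 1 ≤ Cu * (4 * n ^ 2) * K1 + 1 := by
      have : M < Cu * (4 * n ^ 2) * K1 := lt_of_lt_of_le e1 (Nat.mul_le_mul_right _ e2)
      omega
    have e5 : 1 ≤ Cu * n ^ 2 * K1 := by
      have : 0 < Cu * n ^ 2 * K1 := by positivity
      omega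
    calc N ≤ Cn * (M + 1) := e3.le
      _ ≤ Cn * (Cu * (4 * n ^ 2) * K1 + 1) := Nat.mul_le_mul_left _ e4
      _ ≤ Cn * (Cu * (4 * n ^ 2) * K1 + Cu * n ^ 2 * K1) := by
          apply Nat.mul_le_mul_left; omega
      _ = 5 * Cn * Cu * K1 * (n ^ 2) := by ring
  have hUb : (U : ℝ) * K2 ^ 2 ≤ (5 * Cn * Cu ^ 2 : ℕ) * K1 * N := by
    have hn1' : (N : ℝ) ≤ 5 * Cn * Cu * K1 * (n : ℝ) ^ 2 := by exact_mod_cast hn1
    have a1 : (U : ℝ) * N ≤ 5 * Cn * Cu * K1 * (Cu * (L : ℝ) ^ 2) := by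
      calc (U : ℝ) * N ≤ U * (5 * Cn * Cu * K1 * (n : ℝ) ^ 2) := by gcongr
        _ = 5 * Cn * Cu * K1 * (U * (n : ℝ) ^ 2) := by ring
        _ ≤ 5 * Cn * Cu * K1 * (Cu * (L : ℝ) ^ 2) := by gcongr
    have a2 : (L : ℝ) * K2 ≤ N := by exact_mod_cast hLN
    have a3 : ((U : ℝ) * K2 ^ 2) * N ≤ ((5 * Cn * Cu ^ 2 : ℕ) * K1 * N) * N := by
      calc ((U : ℝ) * K2 ^ 2) * N = (U * N) * K2 ^ 2 := by ring
        _ ≤ (5 * Cn * Cu * K1 * (Cu * (L : ℝ) ^ 2)) * K2 ^ 2 := by gcongr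
        _ = 5 * Cn * Cu ^ 2 * K1 * ((L * K2) * (L * K2)) := by ring
        _ ≤ 5 * Cn * Cu ^ 2 * K1 * (N * N) := by gcongr
        _ = _ := by push_cast; ring
    exact le_of_mul_le_mul_right a3 hNr
  have hsplit' : (((range L).filter
      (fun k : ℕ => ¬ NiceC P b c V th Q Y (M : ℤ) (M0 : ℤ) k)).card : ℝ) ≤
      Cn * (D + 1) + U := by
    have : ((range L).filter
      (fun k : ℕ => ¬ NiceC P b c V th Q Y (M : ℤ) (M0 : ℤ) k)).card ≤ Cn * (D + 1) + U := by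
      omega
    exact_mod_cast this
  have hl16 : (1 : ℝ) ≤ (l : ℝ) ^ 16 := one_le_pow₀ (by linarith)
  have hD1 : ((D : ℝ) + 1) * (l : ℝ) ^ C2 ≤ (Cs * 2 ^ 16 + 1) * (l : ℝ) ^ 16 * N := by
    calc ((D : ℝ) + 1) * (l : ℝ) ^ C2 = D * (l : ℝ) ^ C2 + (l : ℝ) ^ C2 := by ring
      _ ≤ Cs * 2 ^ 16 * (l : ℝ) ^ 16 * N + 1 * N := by rw [one_mul]; gcongr
      _ ≤ Cs * 2 ^ 16 * (l : ℝ) ^ 16 * N + (l : ℝ) ^ 16 * N := by gcongr
      _ = _ := by ring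
  calc (((range L).filter (fun k : ℕ => ¬ NiceC P b c V th Q Y (M : ℤ) (M0 : ℤ) k)).card : ℝ) *
      ((l : ℝ) ^ C2 * K2 ^ 2) ≤ (Cn * (D + 1) + U) * ((l : ℝ) ^ C2 * K2 ^ 2) := by gcongr
    _ = Cn * K2 ^ 2 * ((D + 1) * (l : ℝ) ^ C2) + (U * K2 ^ 2) * (l : ℝ) ^ C2 := by ring
    _ ≤ Cn * K2 ^ 2 * ((Cs * 2 ^ 16 + 1) * (l : ℝ) ^ 16 * N) +
        ((5 * Cn * Cu ^ 2 : ℕ) * K1 * N) * (l : ℝ) ^ C2 := by gcongr
    _ = _ := by push_cast; ring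

/-- the exceptional set is small -/
lemma exc_finalG (S : Sys b c V th et K) {P : Set ℕ} {Q L J N l a x CW Z Kp φ K0 cE CZ : ℕ}
    [NeZero Q] (hQ : Q = L * 2 ^ J) (hL : 20 ≤ L) (hLN : L ≤ N) (hl16 : 16 ≤ l)
    (hN2 : N < 2 ^ (l + 1)) (hN0 : 0 < N) (hK0 : K ≤ K0) (hKp : 0 < Kp) (hφ : 0 < φ)
    (hlK : 8 * Kp * φ ≤ l) (hx : x = l ^ (2 * a)) (ha : 20480 ≤ a) (hJ : J = 2 * l + 2)
    {β : ℕ → ℤ × ℤ} {mm : ℕ → ℕ} {Pr : Finset ℕ} (hPr : ∀ p ∈ Pr, p.Prime)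
    (hmm : ∀ p ∈ Pr, ∀ q ∈ Pr, ¬ p ∣ mm q) (hmK : ∀ p ∈ Pr, mm p ≤ Kp)
    (hV : ∀ p ∈ Pr, V (β p)) (hb : ∀ p ∈ Pr, nrm b c (β p) = (mm p : ℤ) * p)
    (hPrx : ∀ p ∈ Pr, p ≤ 2 * x)
    (hPrc : (x : ℝ) / (2 * φ * Real.log x) ≤ Pr.card) (hPr2 : 2 * l ≤ Pr.card)
    (hNZ : N ≤ CZ * Z ^ 640) (hZ : (10 * CW * cE * x) ^ 32 * CW ^ 2 * CZ ≤ Z)
    (hcE : cE = 128 * K0 * Kp) {δ : ℝ} (hδ : δ = 1 / (8 * l)) (E : Finset (ZMod Q))
    (hE1 : ∀ k ∈ E, ∀ i ≤ J, ‖ch (k * ((2 ^ i : ℕ) : ZMod Q)) - 1‖ ≤ δ)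
    (hE2 : ∀ k ∈ E, ∀ p ∈ Pr,
      ‖ch (k * ((ps th Q (β p) : ℤ) : ZMod Q)) - ((col P b c (β p) : ℝ) : ℂ)‖ ≤ δ) :
    (10 * CW * E.card) ^ 16 * CW ≤ Z := by
  have hlr : (16 : ℝ) ≤ l := by exact_mod_cast hl16
  have hNr : (0 : ℝ) < N := by exact_mod_cast hN0
  have hK := S.hK
  have hx2 : 2 ≤ x := by
    rw [hx]
    calc 2 ≤ l := by omega
      _ = l ^ 1 := (pow_one l).symm
      _ ≤ l ^ (2 * a) := Nat.pow_le_pow_right (by omega) (by omega)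
  have hKx : 2 ≤ 2 * Kp * x := by
    calc 2 ≤ 2 * 1 * 2 := by norm_num
      _ ≤ 2 * Kp * x := Nat.mul_le_mul (Nat.mul_le_mul_left _ hKp) hx2
  obtain ⟨r, hr⟩ : ∃ r : ℕ, r = Nat.log (2 * Kp * x) N := ⟨_, rfl⟩
  have hr1 : (2 * Kp * x) ^ r ≤ N := by rw [hr]; exact Nat.pow_log_le_self _ (by omega)
  have hr2 : N < (2 * Kp * x) ^ (r + 1) := by
    rw [hr]; exact Nat.lt_pow_succ_log_self (by omega) _
  have hrl : r ≤ l := by
    by_contra hcon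
    push Not at hcon
    have h1 : 2 ^ (l + 1) ≤ (2 * Kp * x) ^ r :=
      (Nat.pow_le_pow_right (by norm_num) hcon).trans (Nat.pow_le_pow_left hKx r)
    omega
  have hcard : (Pr.powersetCard r).card = Pr.card.choose r := Finset.card_powersetCard _ _
  have h1 := exc_card S (P := P) hPr hmm hV hb (r := r) (J := J) (M' := (N : ℝ))
    (by exact_mod_cast hN0) (by
      intro T hT
      rw [Finset.mem_powersetCard] at hT
      rw [nrm_aT]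
      have h2 : ∏ p ∈ T, nrm b c (β p) = ((∏ p ∈ T, (mm p * p) : ℕ) : ℤ) := by
        push_cast
        exact Finset.prod_congr rfl (fun p hp => by rw [hb p (hT.1 hp)])
      rw [h2]
      have h3 : ∏ p ∈ T, (mm p * p) ≤ (2 * Kp * x) ^ r := by
        have := Finset.prod_le_pow_card T (fun p => mm p * p) (2 * Kp * x) (fun p hp => by
          calc mm p * p ≤ Kp * (2 * x) := Nat.mul_le_mul (hmK p (hT.1 hp)) (hPrx p (hT.1 hp))
            _ = 2 * Kp * x := by ring)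
        rwa [hT.2] at this
      have h4 : ∏ p ∈ T, (mm p * p) ≤ N := h3.trans hr1
      exact_mod_cast h4) hQ hL (δ := δ) (by rw [hδ]; positivity) (by
      rw [hδ, hJ]
      push_cast
      rw [mul_one_div, div_le_div_iff₀ (by positivity) (by norm_num)]
      linarith) (by
      rw [hδ]
      have : (r : ℝ) ≤ l := by exact_mod_cast hrl
      rw [mul_one_div, div_le_div_iff₀ (by positivity) (by norm_num)]
      linarith) E hE1 hE2 (by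
      rw [hcard]; exact Nat.choose_pos (by omega))
  rw [hcard] at h1
  have h2 : (E.card : ℝ) * (Pr.card.choose r) ≤ ((64 * K0 : ℕ) : ℝ) * N := by
    refine h1.trans ?_
    have h3 : (L : ℝ) ≤ N := by exact_mod_cast hLN
    have h4 : (1 : ℝ) ≤ K0 := hK.trans hK0
    push_cast
    calc 16 * (2 * K * (N : ℝ) + 2 * L) ≤ 16 * (2 * K0 * (N : ℝ) + 2 * (K0 * N)) := by
          gcongr
          nlinarith
      _ = 64 * (K0 : ℝ) * N := by ring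
  have h3 := exc_numG (by omega) hN2 hx2 hKp hφ hr1 hr2 (by omega) hPrc h2
  have h3' : E.card ≤ (64 * K0) * (2 * Kp * x) * (8 * Kp * φ * l) ^ r := by exact_mod_cast h3
  obtain ⟨y, hy⟩ : ∃ y : ℕ, y = (8 * Kp * φ * l) ^ r := ⟨_, rfl⟩
  rw [← hy] at h3'
  have h3'' : E.card ≤ cE * x * y := by
    refine h3'.trans (le_of_eq ?_)
    rw [hcE]; ring
  have hbase : 1 ≤ 8 * Kp * φ * l := by
    have : 0 < 8 * Kp * φ * l := by positivity
    omega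
  have hy1 : 1 ≤ y := by rw [hy]; exact Nat.one_le_pow _ _ hbase
  have hya : y ^ 20480 ≤ N := by
    calc y ^ 20480 ≤ y ^ a := Nat.pow_le_pow_right hy1 ha
      _ = ((8 * Kp * φ * l) ^ a) ^ r := by rw [hy, ← pow_mul, ← pow_mul, mul_comm r a]
      _ ≤ (2 * Kp * x) ^ r := by
          apply Nat.pow_le_pow_left
          rw [hx]
          calc (8 * Kp * φ * l) ^ a ≤ (l * l) ^ a := Nat.pow_le_pow_left (Nat.mul_le_mul_right _ hlK) a
            _ = l ^ (2 * a) := by rw [← sq, ← pow_mul]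
            _ = 1 * l ^ (2 * a) := (one_mul _).symm
            _ ≤ 2 * Kp * l ^ (2 * a) := Nat.mul_le_mul_right _ (by omega)
      _ ≤ N := hr1
  have hCZ1 : 1 ≤ CZ := by
    by_contra h
    have : CZ = 0 := by omega
    rw [this, zero_mul] at hNZ
    omega
  have hy32 : y ^ 32 ≤ CZ * Z := by
    have h4 : (y ^ 32) ^ 640 ≤ (CZ * Z) ^ 640 := by
      calc (y ^ 32) ^ 640 = y ^ 20480 := by rw [← pow_mul]
        _ ≤ N := hya
        _ ≤ CZ * Z ^ 640 := hNZ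
        _ ≤ CZ ^ 640 * Z ^ 640 := by
            apply Nat.mul_le_mul_right
            exact Nat.le_self_pow (by norm_num) CZ
        _ = (CZ * Z) ^ 640 := by rw [mul_pow]
    exact (Nat.pow_le_pow_iff_left (by norm_num)).1 h4
  have h5 : (10 * CW * E.card) ^ 16 * CW ≤ (10 * CW * cE * x * y) ^ 16 * CW := by
    apply Nat.mul_le_mul_right
    apply Nat.pow_le_pow_left
    calc 10 * CW * E.card ≤ 10 * CW * (cE * x * y) := Nat.mul_le_mul_left _ h3''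
      _ = 10 * CW * cE * x * y := by ring
  refine h5.trans ?_
  have h6 : ((10 * CW * cE * x * y) ^ 16 * CW) ^ 2 ≤ Z ^ 2 := by
    calc ((10 * CW * cE * x * y) ^ 16 * CW) ^ 2 = ((10 * CW * cE * x) ^ 32 * CW ^ 2) * y ^ 32 := by
          ring
      _ ≤ ((10 * CW * cE * x) ^ 32 * CW ^ 2) * (CZ * Z) := Nat.mul_le_mul_left _ hy32
      _ = ((10 * CW * cE * x) ^ 32 * CW ^ 2 * CZ) * Z := by ring
      _ ≤ Z * Z := Nat.mul_le_mul_right _ hZ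
      _ = Z ^ 2 := (sq Z).symm
  exact (Nat.pow_le_pow_iff_left (by norm_num)).1 h6

lemma card_primes_geG {x l a φ : ℕ} {c : ℕ} (hφ : 0 < φ) (hx : x = l ^ (2 * a)) (ha : 2 ≤ a)
    (hl : 8 * φ * a ≤ l) (hc : (x : ℝ) / (2 * φ * Real.log x) ≤ c) : 2 * l ≤ c := by
  have hl0 : 0 < l := by
    have : 0 < 8 * φ * a := by positivity
    omega
  have hl2 : 16 ≤ l := by
    have : 8 * 1 * 2 ≤ 8 * φ * a := Nat.mul_le_mul (Nat.mul_le_mul_left _ hφ) ha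
    omega
  have hlr : (0 : ℝ) < l := by exact_mod_cast hl0
  have hφr : (0 : ℝ) < φ := by exact_mod_cast hφ
  have har : (0 : ℝ) < a := by
    have : 0 < a := by omega
    exact_mod_cast this
  have h1 : Real.log x = 2 * a * Real.log l := by
    rw [hx]; push_cast; rw [Real.log_pow]; push_cast; ring
  have h2 : Real.log l ≤ l := Real.log_le_self hlr.le
  have h3 : 0 < Real.log l := Real.log_pos (by
    have : 1 < l := by omega
    exact_mod_cast this)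
  have h4 : (2 * l : ℝ) ≤ x / (2 * φ * Real.log x) := by
    rw [h1, le_div_iff₀ (by positivity)]
    have h5 : l ^ 3 ≤ x := by
      rw [hx]; exact Nat.pow_le_pow_right hl0 (by omega)
    have h6 : (l : ℝ) ^ 3 ≤ x := by exact_mod_cast h5
    have h7 : (8 * φ * a : ℝ) ≤ l := by exact_mod_cast hl
    calc (2 * l : ℝ) * (2 * φ * (2 * a * Real.log l)) ≤ 2 * l * (2 * φ * (2 * a * l)) := by gcongr
      _ = (8 * φ * a) * (l : ℝ) ^ 2 := by ring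
      _ ≤ l * (l : ℝ) ^ 2 := by gcongr
      _ = (l : ℝ) ^ 3 := by ring
      _ ≤ x := h6
  exact_mod_cast h4.trans hc

end

end Pool.Agent.Lib.MP_a17b09_nt.LG
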