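import Pool.Agent.Lib.MP_a17b09_nt.LG.FinA

set_option autoImplicit false

open Finset

namespace Pool.Agent.Lib.MP_a17b09_nt.LG

open Pool.Agent.Lib.MP_a17b09_nt Pool.Agent.Lib.MP_a17b09_nt.LP

section

variable {b c : ℤ} {V : ℤ × ℤ → Prop} {th : ℤ × ℤ → ℝ} {et : ℤ → ℤ × ℤ} {K : ℝ}

lemma le_two_mul_of_divG {N K2 L : ℕ} (hK : 0 < K2) (hL : L = N / K2) (hL20 : 20 ≤ L) :
    N ≤ 2 * K2 * L := by
  have h1 : N < (L + 1) * K2 := by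
    rw [hL]
    have := Nat.lt_div_mul_add (a := N) (b := K2) hK
    nlinarith
  nlinarith

theorem main_G (S : Sys b c V th et K) (hPR : PrimeRep b c V) (hWF : WeylFam b c V th)
    (hEB : EnergyBd b c V th) :
    ∃ C l0 : ℕ, ∀ N l : ℕ, l0 ≤ l → N < 2 ^ (l + 1) → l ^ C ≤ N → ∀ P : Set ℕ,
      (∃ u, V u ∧ col P b c u = -1 ∧ nrm b c u ≤ (l : ℤ)) →
      N ≤ (OSG P b c N).card * l ^ C := by
  classical
  obtain ⟨CW, Z0, hW⟩ := hWF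
  have hCW : 0 < CW := by
    obtain ⟨G, w, _, h1, h2, _⟩ := hW (Z0 + 1) (by omega)
    by_contra h
    have h0 : CW = 0 := by omega
    rw [h0] at h1
    simp only [Nat.cast_zero, zero_mul] at h1
    have : (0 : ℝ) < ((Z0 + 1 : ℕ) : ℝ) ^ 160 := by positivity
    linarith
  obtain ⟨Cn, hCn, hmono⟩ := nonmono_count S
  obtain ⟨Cu, hCu, hunp⟩ := unpop_count S
  obtain ⟨Cs, hsec⟩ := second_momentG S.hD
  obtain ⟨q, zK, hq, hrep⟩ := hPR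
  obtain ⟨K0, hK0⟩ := exists_nat_ge K
  have hK := S.hK
  have hK01 : 1 ≤ K0 := by
    have : (1 : ℝ) ≤ K0 := hK.trans hK0
    exact_mod_cast this
  choose CEf κf hE using fun n : ℤ => hEB (CW ^ 2) (et n) (S.nrm_et n)
  obtain ⟨CE, hCE⟩ : ∃ CE : ℕ, ∀ n ∈ Finset.Icc (-4 : ℤ) 4, CEf n ≤ CE :=
    ⟨(Finset.Icc (-4 : ℤ) 4).sup CEf, fun n hn => Finset.le_sup hn⟩
  obtain ⟨κ, hκ⟩ : ∃ κ : ℕ, ∀ n ∈ Finset.Icc (-4 : ℤ) 4, κf n ≤ κ :=
    ⟨(Finset.Icc (-4 : ℤ) 4).sup κf, fun n hn => Finset.le_sup hn⟩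
  obtain ⟨x0, hx02, hprimes⟩ :=
    Pool.Agent.Lib.QuadThree.primes_dyadic q hq 1 (Nat.coprime_one_left q)
  obtain ⟨φ, hφdef⟩ : ∃ φ : ℕ, φ = Nat.totient q := ⟨_, rfl⟩
  have hφ : 0 < φ := by rw [hφdef]; exact Nat.totient_pos.2 hq
  rw [← hφdef] at hprimes
  obtain ⟨Kp, hKpdef⟩ : ∃ Kp : ℕ, Kp = zK ^ 2 + 1 := ⟨_, rfl⟩
  have hKp : 0 < Kp := by omega
  obtain ⟨a, ha⟩ : ∃ a : ℕ, 20480 ≤ a := ⟨_, le_rfl⟩
  obtain ⟨A2, hA2⟩ : ∃ A2 : ℕ, A2 = 2 * (2 * a) + κ + 3 := ⟨_, rfl⟩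
  obtain ⟨C2, hC2⟩ : ∃ C2 : ℕ, C2 = 19 + 2 * a + A2 + κ := ⟨_, rfl⟩
  obtain ⟨CZ, hCZ⟩ : ∃ CZ : ℕ, CZ = 3 * Cn * CW ^ 2 := ⟨_, rfl⟩
  obtain ⟨cEn, hcEn⟩ : ∃ cEn : ℕ, cEn = 36 * CE * K0 * CW ^ 2 * 2 ^ κ := ⟨_, rfl⟩
  obtain ⟨CG, hCG⟩ : ∃ CG : ℕ, CG = 4800 * 2 * CZ * cEn * 64 * CW ^ 4 := ⟨_, rfl⟩
  obtain ⟨c1, hc1⟩ : ∃ c1 : ℕ, c1 = Cn * (Cs * 2 ^ 16 + 1) := ⟨_, rfl⟩
  obtain ⟨c2, hc2⟩ : ∃ c2 : ℕ, c2 = 5 * Cn * Cu ^ 2 * (2 * Kp) := ⟨_, rfl⟩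
  obtain ⟨cX, hcX⟩ : ∃ cX : ℕ, cX = 128 * K0 * Kp := ⟨_, rfl⟩
  obtain ⟨K4, hK4⟩ : ∃ K4 : ℕ, K4 = (10 * CW * cX) ^ 32 * CW ^ 2 * CZ := ⟨_, rfl⟩
  obtain ⟨K3, hK3⟩ : ∃ K3 : ℕ, K3 = K4 + Z0 + CZ + 640 := ⟨_, rfl⟩
  obtain ⟨cc, hcc⟩ : ∃ cc : ℕ, cc = 20 + Cn * Cu * (2 * Kp) := ⟨_, rfl⟩
  obtain ⟨l1, hl1⟩ : ∃ l1 : ℕ, l1 = Cn * CW ^ 2 * K3 ^ 640 := ⟨_, rfl⟩
  obtain ⟨e1, he1⟩ : ∃ e1 : ℕ, e1 = 640 * (32 * (2 * a)) := ⟨_, rfl⟩
  refine ⟨2 * C2 + (e1 + 1) + (A2 + 1),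
    l1 + cc + x0 + 16 + 8 * φ * a + 8 * Kp * φ + Kp + CG * (c1 + c2), ?_⟩
  intro N l hl hN2 hlC P hP
  obtain ⟨u0, hu0V, hu0c, hu0n⟩ := hP
  by_contra hcon'
  push Not at hcon'
  have hl16 : 16 ≤ l := by omega
  have hl0 : 0 < l := by omega
  have hN0 : 0 < N := lt_of_lt_of_le (by positivity) hlC
  have hcon : (OSG P b c N).card * l ^ (2 * C2) < N := by
    refine lt_of_le_of_lt ?_ hcon'
    exact Nat.mul_le_mul_left _ (Nat.pow_le_pow_right hl0 (by omega))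
  have hNr : (0 : ℝ) < N := by exact_mod_cast hN0
  have hlr : (16 : ℝ) ≤ l := by exact_mod_cast hl16
  -- the parameters
  obtain ⟨x, hx⟩ : ∃ x : ℕ, x = l ^ (2 * a) := ⟨_, rfl⟩
  obtain ⟨K2, hK2⟩ : ∃ K2 : ℕ, K2 = l ^ A2 := ⟨_, rfl⟩
  have hxl : l * l ≤ x := by
    rw [hx, ← sq]; exact Nat.pow_le_pow_right hl0 (by omega)
  have hxl' : l ≤ x := le_trans (Nat.le_mul_self l) hxl
  have hxK2 : x ≤ K2 := by
    rw [hx, hK2]; exact Nat.pow_le_pow_right hl0 (by omega)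
  have hxpos : 0 < x := by omega
  have hK2pos : 0 < K2 := by omega
  have hK2N : cc * K2 ≤ N := by
    refine le_trans ?_ hlC
    rw [hK2]
    calc cc * l ^ A2 ≤ l * l ^ A2 := Nat.mul_le_mul_right _ (by omega)
      _ = l ^ (A2 + 1) := by rw [← pow_succ']
      _ ≤ l ^ (2 * C2 + (e1 + 1) + (A2 + 1)) := Nat.pow_le_pow_right hl0 (by omega)
  have hlN : l ^ C2 ≤ N := by
    refine le_trans ?_ hlC
    exact Nat.pow_le_pow_right hl0 (by omega)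
  obtain ⟨M, hM⟩ : ∃ M : ℕ, M = N / Cn := ⟨_, rfl⟩
  have hMN : M ≤ N := by rw [hM]; exact Nat.div_le_self _ _
  have hCuK : Cu * (2 * Kp * x) ≤ M := by
    rw [hM, Nat.le_div_iff_mul_le hCn]
    calc Cu * (2 * Kp * x) * Cn = (Cn * Cu * (2 * Kp)) * x := by ring
      _ ≤ (Cn * Cu * (2 * Kp)) * K2 := Nat.mul_le_mul_left _ hxK2
      _ ≤ cc * K2 := Nat.mul_le_mul_right _ (by omega)
      _ ≤ N := hK2N
  have hM1 : 1 ≤ M := by
    have : 0 < Cu * (2 * Kp * x) := by positivity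
    omega
  obtain ⟨Z, hZ1, hZN, hZbig, hZ640⟩ := exists_ZG (N := N) (l := l) (K3 := K3) (k := 32 * (2 * a))
    hCn hCW hM hl0 (by omega) (by
      refine le_trans ?_ hlC
      rw [← mul_assoc, ← hl1, ← he1]
      calc l1 * l ^ e1 ≤ l * l ^ e1 := Nat.mul_le_mul_right _ (by omega)
        _ = l ^ (e1 + 1) := by rw [← pow_succ']
        _ ≤ l ^ (2 * C2 + (e1 + 1) + (A2 + 1)) := Nat.pow_le_pow_right hl0 (by omega))
  rw [← hCZ] at hZN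
  have hlk : 1 ≤ l ^ (32 * (2 * a)) := Nat.one_le_pow _ _ hl0
  have hK3Z : K3 ≤ Z := by
    refine le_trans ?_ hZbig
    exact Nat.le_mul_of_pos_right _ hlk
  have hZK : (10 * CW * cX * x) ^ 32 * CW ^ 2 * CZ ≤ Z := by
    refine le_trans ?_ hZbig
    rw [mul_pow, hx, ← pow_mul, mul_comm (2 * a) 32]
    calc (10 * CW * cX) ^ 32 * l ^ (32 * (2 * a)) * CW ^ 2 * CZ =
        ((10 * CW * cX) ^ 32 * CW ^ 2 * CZ) * l ^ (32 * (2 * a)) := by ring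
      _ = K4 * l ^ (32 * (2 * a)) := by rw [hK4]
      _ ≤ K3 * l ^ (32 * (2 * a)) := by
          apply Nat.mul_le_mul_right
          omega
  have hZ0 : Z0 ≤ Z := by omega
  have hZpos : 0 < Z := by omega
  have hZr : (0 : ℝ) < Z := by exact_mod_cast hZpos
  have hZM : Z ^ 640 ≤ M := by
    refine le_trans ?_ hZ1
    exact Nat.le_mul_of_pos_left _ (by positivity)
  obtain ⟨K1, hK1⟩ : ∃ K1 : ℕ, K1 = 2 * Kp * x := ⟨_, rfl⟩
  have hK1pos : 0 < K1 := by rw [hK1]; positivity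
  obtain ⟨M0, hM0⟩ : ∃ M0 : ℕ, M0 = M / K1 := ⟨_, rfl⟩
  have hM0Cu : Cu ≤ M0 := by
    rw [hM0, Nat.le_div_iff_mul_le hK1pos, hK1]
    exact hCuK
  obtain ⟨n, hn⟩ : ∃ n : ℕ, n = Nat.sqrt (M0 / Cu) := ⟨_, rfl⟩
  have hn1 : Cu * (n * n) ≤ M0 := by
    have h1 : n * n ≤ M0 / Cu := by rw [hn]; exact Nat.sqrt_le _
    rw [mul_comm]
    exact (Nat.le_div_iff_mul_le hCu).1 h1
  have hn2 : M0 < Cu * ((n + 1) * (n + 1)) := by
    have h1 : M0 / Cu < (n + 1) * (n + 1) := by rw [hn]; exact Nat.lt_succ_sqrt _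
    rw [mul_comm]
    exact (Nat.div_lt_iff_lt_mul hCu).1 h1
  have hn0 : 0 < n := by
    rw [hn, Nat.sqrt_pos]
    exact Nat.div_pos hM0Cu hCu
  obtain ⟨L, hLdef⟩ : ∃ L : ℕ, L = N / K2 := ⟨_, rfl⟩
  have hLN : L * K2 ≤ N := by rw [hLdef]; exact Nat.div_mul_le_self _ _
  have hL20 : 20 ≤ L := by
    rw [hLdef, Nat.le_div_iff_mul_le hK2pos]
    refine le_trans ?_ hK2N
    exact Nat.mul_le_mul_right _ (by omega)
  have hLleN : L ≤ N := by rw [hLdef]; exact Nat.div_le_self _ _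
  have hNL : N ≤ 2 * K2 * L := le_two_mul_of_divG hK2pos hLdef hL20
  obtain ⟨J, hJ⟩ : ∃ J : ℕ, J = 2 * l + 2 := ⟨_, rfl⟩
  obtain ⟨Q, hQ⟩ : ∃ Q : ℕ, Q = L * 2 ^ J := ⟨_, rfl⟩
  have hQpos : 0 < Q := by rw [hQ]; exact Nat.mul_pos (by omega) (by positivity)
  have hQne : NeZero Q := ⟨hQpos.ne'⟩
  -- the geometry
  obtain ⟨B, hB⟩ : ∃ B : ℕ, B = CW * Z ^ 320 := ⟨_, rfl⟩
  have hB2 : B ^ 2 = CW ^ 2 * Z ^ 640 := by
    rw [hB]; ring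
  have hBM : B ^ 2 ≤ M := by rw [hB2]; exact hZ1
  have hB1 : 1 ≤ B := by
    rw [hB]
    have : 0 < CW * Z ^ 320 := by positivity
    omega
  have hBN : B ≤ N := by
    calc B ≤ B ^ 2 := Nat.le_self_pow (by norm_num) B
      _ ≤ M := hBM
      _ ≤ N := hMN
  obtain ⟨X, hXdef⟩ : ∃ X : ℝ, X = (Z : ℝ) ^ 160 := ⟨_, rfl⟩
  have hXr : (0 : ℝ) < X := by rw [hXdef]; positivity
  have hX4 : X ^ 4 = ((Z ^ 640 : ℕ) : ℝ) := by rw [hXdef]; push_cast; ring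
  have hNX : (N : ℝ) ≤ CZ * X ^ 4 := by rw [hX4]; exact_mod_cast hZN
  -- the family
  obtain ⟨G, w, hG, hW1, hW2, hWeyl⟩ := hW Z hZ0
  rw [← hXdef] at hW1 hW2
  obtain ⟨W, hWdef⟩ : ∃ W : ℝ, W = ∑ u ∈ G, w u := ⟨_, rfl⟩
  rw [← hWdef] at hW1 hW2
  have hCWr : (0 : ℝ) < CW := by exact_mod_cast hCW
  have hWpos : 0 < W := by
    by_contra h
    push Not at h
    have : (CW : ℝ) * W ≤ 0 := mul_nonpos_of_nonneg_of_nonpos hCWr.le h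
    linarith
  have hG' : ∀ u ∈ G, V u ∧ |th u| ≤ 1 ∧ (B : ℤ) ≤ ((CW ^ 2 : ℕ) : ℤ) * nrm b c u ∧
      nrm b c u ≤ B := by
    intro u hu
    obtain ⟨h1, h2, h3, h4, _, _⟩ := hG u hu
    refine ⟨h1, h2, ?_, ?_⟩
    · rw [hB]; push_cast
      have hCWz : (0 : ℤ) ≤ CW := by positivity
      calc (CW : ℤ) * (Z : ℤ) ^ 320 ≤ CW * (CW * nrm b c u) := by gcongr
        _ = (CW : ℤ) ^ 2 * nrm b c u := by ring
    · rw [hB]; push_cast; exact h4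
  -- the primes
  have hrep' : ∀ p : ℕ, ∃ u : ℤ × ℤ, ∃ z : ℕ, p.Prime → p ≡ 1 [MOD q] →
      V u ∧ 0 < z ∧ z ≤ zK ∧ nrm b c u = (z : ℤ) ^ 2 * p := by
    intro p
    by_cases h1 : p.Prime
    · by_cases h2 : p ≡ 1 [MOD q]
      · obtain ⟨u, hu, z, hz⟩ := hrep p h1 h2
        exact ⟨u, z, fun _ _ => ⟨hu, hz⟩⟩
      · exact ⟨(0, 0), 0, fun _ h => absurd h h2⟩
    · exact ⟨(0, 0), 0, fun h => absurd h h1⟩
  choose bb zz hbz using hrep'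
  obtain ⟨Pr, hPrdef⟩ : ∃ Pr : Finset ℕ, Pr = (Finset.Ioc x (2 * x)).filter
    (fun p => p.Prime ∧ p ≡ 1 [MOD q]) := ⟨_, rfl⟩
  have hPr : ∀ p ∈ Pr, p.Prime := by
    intro p hp; rw [hPrdef, Finset.mem_filter] at hp; exact hp.2.1
  have hPr1 : ∀ p ∈ Pr, x < p := by
    intro p hp; rw [hPrdef, Finset.mem_filter, Finset.mem_Ioc] at hp; exact hp.1.1
  have hPr2 : ∀ p ∈ Pr, p ≤ 2 * x := by
    intro p hp; rw [hPrdef, Finset.mem_filter, Finset.mem_Ioc] at hp; exact hp.1.2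
  have hPrb : ∀ p ∈ Pr, V (bb p) ∧ 0 < zz p ∧ zz p ≤ zK ∧
      nrm b c (bb p) = (zz p : ℤ) ^ 2 * p := by
    intro p hp
    rw [hPrdef, Finset.mem_filter] at hp
    exact hbz p hp.2.1 hp.2.2
  obtain ⟨mm, hmmdef⟩ : ∃ mm : ℕ → ℕ, mm = fun p => zz p ^ 2 := ⟨_, rfl⟩
  have hmmK : ∀ p ∈ Pr, 0 < mm p ∧ mm p ≤ Kp := by
    intro p hp
    obtain ⟨_, h1, h2, _⟩ := hPrb p hp
    rw [hmmdef]
    simp only
    constructor
    · positivity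
    · have : zz p ^ 2 ≤ zK ^ 2 := Nat.pow_le_pow_left h2 2
      omega
  have hPrn : ∀ p ∈ Pr, nrm b c (bb p) = (mm p : ℤ) * p := by
    intro p hp
    rw [(hPrb p hp).2.2.2, hmmdef]; push_cast; ring
  have hmmdvd : ∀ p ∈ Pr, ∀ p' ∈ Pr, ¬ p ∣ mm p' := by
    intro p hp p' hp' hdvd
    have h1 := Nat.le_of_dvd (hmmK p' hp').1 hdvd
    have h2 := (hmmK p' hp').2
    have h3 := hPr1 p hp
    omega
  have hPrc : (x : ℝ) / (2 * φ * Real.log x) ≤ Pr.card := by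
    have h1 := hprimes x (by omega)
    rwa [← hPrdef] at h1
  have hPrc2 : 2 * l ≤ Pr.card := card_primes_geG hφ hx (by omega) (by omega) hPrc
  have hPrcard : Pr.card ≤ x := by
    rw [hPrdef]
    refine (Finset.card_filter_le _ _).trans ?_
    rw [Nat.card_Ioc]; omega
  obtain ⟨Bt, hBt⟩ : ∃ Bt : Finset (ℤ × ℤ), Bt = insert u0 (Pr.image bb) := ⟨_, rfl⟩
  have hBtc : Bt.card ≤ x + 1 := by
    rw [hBt]
    refine (Finset.card_insert_le _ _).trans ?_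
    have := Finset.card_image_le (s := Pr) (f := bb)
    omega
  have hBtn : ∀ β ∈ Bt, V β ∧ nrm b c β ≤ K1 := by
    intro β hβ
    rw [hBt, Finset.mem_insert, Finset.mem_image] at hβ
    rcases hβ with rfl | ⟨p, hp, rfl⟩
    · refine ⟨hu0V, hu0n.trans ?_⟩
      have h2 : x ≤ K1 := by
        rw [hK1]; exact Nat.le_mul_of_pos_left _ (by positivity)
      exact_mod_cast hxl'.trans h2
    · refine ⟨(hPrb p hp).1, ?_⟩
      rw [hPrn p hp]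
      have h1 : mm p * p ≤ K1 := by
        rw [hK1]
        calc mm p * p ≤ Kp * (2 * x) := Nat.mul_le_mul (hmmK p hp).2 (hPr2 p hp)
          _ = 2 * Kp * x := by ring
      exact_mod_cast h1
  -- the energy
  obtain ⟨H, hH⟩ : ∃ H : ℕ, H = 4 * K0 * K2 := ⟨_, rfl⟩
  have hH1 : 1 ≤ H := by
    have : 0 < H := by rw [hH]; positivity
    omega
  have hlogB : 0 ≤ Real.log B := Real.log_nonneg (by exact_mod_cast hB1)
  obtain ⟨En0, hEn0⟩ : ∃ En0 : ℕ,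
    En0 = ⌊(CE : ℝ) * H * (B : ℝ) ^ 2 * (1 + Real.log B) ^ κ⌋₊ := ⟨_, rfl⟩
  have hEn0le : (En0 : ℝ) ≤ (CE : ℝ) * H * (B : ℝ) ^ 2 * (1 + Real.log B) ^ κ := by
    rw [hEn0]; exact Nat.floor_le (by positivity)
  have hEcount : ∀ n : ℤ, |n| ≤ 4 → (((G ×ˢ G) ×ˢ (G ×ˢ G)).filter (fun p =>
      |det (mulp b c p.1.1 p.1.2) (mulp b c (et n) (mulp b c p.2.1 p.2.2))| ≤ (H : ℤ))).card ≤
      En0 := by
    intro n hn4
    have hmem : n ∈ Finset.Icc (-4 : ℤ) 4 := Finset.mem_Icc.2 (abs_le.1 hn4)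
    have h1 := hE n B H hB1 hH1 G hG'
    rw [hEn0]
    apply Nat.le_floor
    refine h1.trans ?_
    have h2 : (CEf n : ℝ) ≤ CE := by exact_mod_cast hCE n hmem
    have h3 : (1 + Real.log B) ^ (κf n) ≤ (1 + Real.log B) ^ κ :=
      pow_le_pow_right₀ (by linarith) (hκ n hmem)
    gcongr
  have htransfer := energy_transfer (Q := Q) (Y := 2 ^ J) (L := L) (B := B) S hQ (by positivity)
    hL20 G (fun u hu => ⟨(hG' u hu).1, (hG' u hu).2.1, (hG' u hu).2.2.2⟩) H (by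
      have h1 : ((B ^ 2 : ℕ) : ℝ) ≤ N := by exact_mod_cast hBM.trans hMN
      have h2 : (N : ℝ) ≤ 2 * K2 * L := by exact_mod_cast hNL
      push_cast at h1
      rw [hH]; push_cast
      calc 2 * K * (B : ℝ) ^ 2 ≤ 2 * K0 * (2 * K2 * L) := by
            gcongr
            exact h1.trans h2
        _ = 4 * K0 * K2 * L := by ring) En0 hEcount
  have hEnr : (((9 * En0 : ℕ) : ℝ)) ≤ cEn * K2 * (l : ℝ) ^ κ * X ^ 4 := by
    have h1 : 1 + Real.log B ≤ 2 * l := by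
      refine le_trans ?_ (one_add_log_leG (by omega) hN0 hN2)
      have : Real.log B ≤ Real.log N :=
        Real.log_le_log (by exact_mod_cast hB1) (by exact_mod_cast hBN)
      linarith
    have h2 : (B : ℝ) ^ 2 = CW ^ 2 * X ^ 4 := by rw [hX4]; exact_mod_cast hB2
    push_cast
    calc 9 * (En0 : ℝ) ≤ 9 * ((CE : ℝ) * H * (B : ℝ) ^ 2 * (1 + Real.log B) ^ κ) := by
          gcongr
      _ ≤ 9 * ((CE : ℝ) * H * (CW ^ 2 * X ^ 4) * (2 * l) ^ κ) := by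
          rw [h2]; gcongr
      _ = cEn * K2 * (l : ℝ) ^ κ * X ^ 4 := by
          rw [hH, hcEn]; push_cast; rw [mul_pow]; ring
  -- bad cells
  obtain ⟨bd, hbd⟩ : ∃ bd : ℕ, bd = ((range L).filter
    (fun k : ℕ => ¬ NiceC P b c V th Q (2 ^ J) (M : ℤ) (M0 : ℤ) k)).card := ⟨_, rfl⟩
  have hbnum := bad_numG (P := P) (N := N) (l := l) (C2 := C2) (K1 := K1) (K2 := K2) (n := n)
    (V := V) (th := th) hmono hunp hsec hCn hCu
    (by omega) hN2 hlN hcon hQ (by positivity) hL20 hLN hK2pos hK1pos hM hM1 hM0 hn1 hn2 hn0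
  rw [← hbd] at hbnum
  -- the Weyl sums
  have hQZ : Z ^ 1000 ≤ Q := by
    have h1 : Z ^ 640 ≤ N := hZM.trans hMN
    calc Z ^ 1000 ≤ Z ^ 1280 := Nat.pow_le_pow_right hZpos (by norm_num)
      _ = Z ^ 640 * Z ^ 640 := by rw [← pow_add]
      _ ≤ N * N := Nat.mul_le_mul h1 h1
      _ ≤ 2 ^ (l + 1) * 2 ^ (l + 1) := Nat.mul_le_mul hN2.le hN2.le
      _ = 2 ^ J := by rw [← pow_add, hJ]; congr 1; omega
      _ ≤ Q := by rw [hQ]; exact Nat.le_mul_of_pos_left _ (by omega)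
  obtain ⟨v, hv⟩ : ∃ v : ℝ, v = X * ((CW : ℝ) / Z) ^ ((1 : ℝ) / 16) := ⟨_, rfl⟩
  have hv0 : 0 ≤ v := by rw [hv]; positivity
  have hv16 : v ^ 16 = X ^ 16 * (CW / Z) := by
    rw [hv, mul_pow, ← Real.rpow_natCast (((CW : ℝ) / Z) ^ ((1 : ℝ) / 16)) 16,
      ← Real.rpow_mul (by positivity)]
    norm_num
  refine core S (P := P) (Q := Q) (L := L) (J := J) hQ hL20 (M := (M : ℤ)) (M0 := (M0 : ℤ))
    (by
      have : M0 ≤ M := by rw [hM0]; exact Nat.div_le_self _ _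
      exact_mod_cast this) (B := B) (by exact_mod_cast hBM) G w X hXr
    (fun u hu => ⟨(hG' u hu).1, (hG' u hu).2.2.2⟩)
    (fun u hu => (hG u hu).2.2.2.2.1) (by rw [hXdef]; exact fun u hu => (hG u hu).2.2.2.2.2)
    W hWpos hWdef.symm
    Bt (by
      intro β hβ
      obtain ⟨h1, h2⟩ := hBtn β hβ
      refine ⟨h1, ?_⟩
      have h3 : (K1 : ℤ) * M0 ≤ M := by
        have : K1 * M0 ≤ M := by rw [hM0]; exact Nat.mul_div_le _ _
        exact_mod_cast this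
      refine le_trans ?_ h3
      gcongr) u0 (by rw [hBt]; exact Finset.mem_insert_self _ _)
    hu0c (1 / (8 * (l : ℝ))) (by positivity) (by
      rw [div_le_one (by positivity)]; linarith) bd (9 * En0) (by rw [hbd]) htransfer ?_ v hv0
      ?_ ?_ (by
      rw [div_lt_one (by positivity)]; linarith)
  · refine num_realG (c1 := c1) (c2 := c2) hXr hA2 hC2 hCG hCW (by omega) hl0 hx hK2 ?_ hNX ?_ hEnr hW1
    · have h1 : 16 * l ≤ l * l := Nat.mul_le_mul_right _ hl16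
      omega
    · refine hbnum.trans (le_of_eq ?_)
      rw [hc1, hc2, hK1]; push_cast; ring
  · intro m hm hmL
    have h4m : |m| ≤ (Z : ℤ) ^ 650 := by
      have h1 : |m| ≤ (N : ℤ) := by
        have h0 := abs_nonneg m
        have : (L : ℤ) ≤ N := by exact_mod_cast hLleN
        linarith
      have h2 : N ≤ Z ^ 650 := by
        calc N ≤ CZ * Z ^ 640 := hZN
          _ ≤ Z * Z ^ 640 := Nat.mul_le_mul_right _ (by omega)
          _ = Z ^ 641 := by rw [← pow_succ']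
          _ ≤ Z ^ 650 := Nat.pow_le_pow_right hZpos (by norm_num)
      have h3 : (N : ℤ) ≤ (Z : ℤ) ^ 650 := by exact_mod_cast h2
      linarith
    have h5 := hWeyl Q hQZ m hm h4m
    rw [← hXdef] at h5
    have h6 : ‖∑ u ∈ G, (w u : ℂ) * ch ((m : ZMod Q) * ((ps th Q u : ℤ) : ZMod Q))‖ ^ 16 ≤
        v ^ 16 := by
      rw [hv16, ← mul_div_assoc, le_div_iff₀ hZr]
      refine h5.trans (le_of_eq ?_)
      ring
    exact (pow_le_pow_iff_left₀ (norm_nonneg _) hv0 (by norm_num)).1 h6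
  · intro E hE1 hE2
    have h7 := exc_finalG S (P := P) (a := a) (K0 := K0) (cE := cX) (CZ := CZ) (CW := CW) (Z := Z)
      hQ hL20 hLleN hl16 hN2 hN0 hK0 hKp hφ (by omega) hx (by omega) hJ hPr hmmdvd
      (fun p hp => (hmmK p hp).2) (fun p hp => (hPrb p hp).1) hPrn hPr2
      hPrc hPrc2 hZN hZK hcX (δ := 1 / (8 * (l : ℝ))) rfl E hE1 (by
        intro k hk p hp
        exact hE2 k hk (bb p) (by
          rw [hBt]
          exact Finset.mem_insert_of_mem (Finset.mem_image_of_mem _ hp)))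
    have h8 : ((10 * CW * (E.card : ℝ)) * v) ^ 16 ≤ X ^ 16 := by
      rw [mul_pow, hv16]
      have h9 : (10 * CW * (E.card : ℝ)) ^ 16 * CW ≤ Z := by exact_mod_cast h7
      calc (10 * CW * (E.card : ℝ)) ^ 16 * (X ^ 16 * (CW / Z)) =
          X ^ 16 * (((10 * CW * (E.card : ℝ)) ^ 16 * CW) / Z) := by ring
        _ ≤ X ^ 16 * 1 := by
            gcongr
            rw [div_le_one hZr]; exact h9
        _ = X ^ 16 := mul_one _
    have hpos : (0 : ℝ) ≤ 10 * CW * (E.card : ℝ) * v :=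
      mul_nonneg (mul_nonneg (mul_nonneg (by norm_num) (Nat.cast_nonneg _)) (Nat.cast_nonneg _)) hv0
    have h10 := (pow_le_pow_iff_left₀ hpos hXr.le (by norm_num)).1 h8
    have h11 : CW * (10 * ((E.card : ℝ) * v)) ≤ CW * W := by linarith only [h10, hW1]
    have h12 := le_of_mul_le_mul_left h11 hCWr
    linarith only [h12]

end

end Pool.Agent.Lib.MP_a17b09_nt.LG
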