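import Pool.Agent.Lib.MP_a17b09_nt.LG.Dir

/-!
The angle system of a negative discriminant.
-/

set_option autoImplicit false

open Finset

namespace Pool.Agent.Lib.MP_a17b09_nt.LG

open Pool.Agent.Lib.MP_a17b09_nt Pool.Agent.Lib.MP_a17b09_nt.LP

variable {b c : ℤ}

/-- the square root of `|D|` -/
noncomputable def rD (b c : ℤ) : ℝ := √(4 * (c : ℝ) - (b : ℝ) ^ 2)

/-- the complex number attached to a vector -/
noncomputable def zn (b c : ℤ) (u : ℤ × ℤ) : ℂ := ⟨(u.1 : ℝ) + b * u.2 / 2, rD b c * u.2 / 2⟩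

lemma rD_sq (h : b ^ 2 < 4 * c) : rD b c ^ 2 = 4 * (c : ℝ) - (b : ℝ) ^ 2 := by
  unfold rD
  apply Real.sq_sqrt
  have : ((b ^ 2 : ℤ) : ℝ) ≤ ((4 * c : ℤ) : ℝ) := by exact_mod_cast h.le
  push_cast at this
  linarith

lemma one_le_rD (h : b ^ 2 < 4 * c) : 1 ≤ rD b c := by
  unfold rD
  rw [Real.one_le_sqrt]
  have : ((b ^ 2 + 1 : ℤ) : ℝ) ≤ ((4 * c : ℤ) : ℝ) := by exact_mod_cast h
  push_cast at this
  linarith

lemma zn_mul (h : b ^ 2 < 4 * c) (u v : ℤ × ℤ) : zn b c (mulp b c u v) = zn b c u * zn b c v := by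
  have hs := rD_sq h
  apply Complex.ext
  · simp only [zn, mulp, Complex.mul_re]
    push_cast
    linear_combination ((u.2 : ℝ) * v.2 / 4) * hs
  · simp only [zn, mulp, Complex.mul_im]
    push_cast
    ring

lemma zn_normSq (h : b ^ 2 < 4 * c) (u : ℤ × ℤ) : ‖zn b c u‖ ^ 2 = (nrm b c u : ℝ) := by
  have hs := rD_sq h
  rw [← Complex.normSq_eq_norm_sq, Complex.normSq_apply]
  simp only [zn, nrm]
  push_cast
  linear_combination ((u.2 : ℝ) ^ 2 / 4) * hs

lemma zn_ne_zero (h : b ^ 2 < 4 * c) {u : ℤ × ℤ} (hu : u ≠ 0) : zn b c u ≠ 0 := by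
  intro h0
  apply hu
  have h1 := congrArg Complex.im h0
  have h2 := congrArg Complex.re h0
  simp only [zn, Complex.zero_im, Complex.zero_re] at h1 h2
  have hr := one_le_rD h
  have h3 : (u.2 : ℝ) = 0 := by
    have : rD b c * u.2 = 0 := by linarith
    rcases mul_eq_zero.1 this with h4 | h4
    · linarith
    · exact h4
  rw [h3] at h2
  have h4 : (u.1 : ℝ) = 0 := by linarith
  exact Prod.ext (by exact_mod_cast h4) (by exact_mod_cast h3)

lemma not_sq_neg (h : b ^ 2 < 4 * c) : ¬ IsSquare (b ^ 2 - 4 * c) := by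
  rintro ⟨x, hx⟩
  nlinarith [mul_self_nonneg x]

lemma nrm_pos_neg (h : b ^ 2 < 4 * c) {u : ℤ × ℤ} (hu : u ≠ 0) : 0 < nrm b c u := by
  have h1 := zn_normSq h u
  have h2 : 0 < ‖zn b c u‖ := norm_pos_iff.2 (zn_ne_zero h hu)
  have h3 : (0 : ℝ) < (nrm b c u : ℝ) := by rw [← h1]; positivity
  exact_mod_cast h3

/-- the normalised angle -/
noncomputable def tn (b c : ℤ) (u : ℤ × ℤ) : ℝ := (zn b c u).arg / Real.pi

/-- the unit `±1` -/
def en (n : ℤ) : ℤ × ℤ := if Even n then (1, 0) else (-1, 0)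

lemma tn_mem (u : ℤ × ℤ) : -1 < tn b c u ∧ tn b c u ≤ 1 := by
  have hpi := Real.pi_pos
  have h1 := Complex.neg_pi_lt_arg (zn b c u)
  have h2 := Complex.arg_le_pi (zn b c u)
  unfold tn
  constructor
  · rw [lt_div_iff₀ hpi]; linarith
  · rw [div_le_iff₀ hpi]; linarith

lemma abs_tn (u : ℤ × ℤ) : |tn b c u| ≤ 1 := by
  have := tn_mem (b := b) (c := c) u
  rw [abs_le]; exact ⟨this.1.le, this.2⟩

lemma arg_zn (u : ℤ × ℤ) : (zn b c u).arg = Real.pi * tn b c u := by
  have := Real.pi_pos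
  unfold tn; field_simp

lemma zn_re (u : ℤ × ℤ) : (zn b c u).re = ‖zn b c u‖ * Real.cos (Real.pi * tn b c u) := by
  rw [← arg_zn, Complex.norm_mul_cos_arg]

lemma zn_im (u : ℤ × ℤ) : (zn b c u).im = ‖zn b c u‖ * Real.sin (Real.pi * tn b c u) := by
  rw [← arg_zn, Complex.norm_mul_sin_arg]

lemma det_sin (u v : ℤ × ℤ) : rD b c * (det u v : ℝ) =
    2 * (‖zn b c u‖ * ‖zn b c v‖) * Real.sin (Real.pi * (tn b c v - tn b c u)) := by
  have e : rD b c * (det u v : ℝ) =
      2 * ((zn b c u).re * (zn b c v).im - (zn b c u).im * (zn b c v).re) := by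
    simp only [zn, det]; push_cast; ring
  rw [e, zn_re, zn_re, zn_im, zn_im, mul_sub Real.pi, Real.sin_sub]; ring

lemma tr_cos (h : b ^ 2 < 4 * c) (u v : ℤ × ℤ) : (2 * lab b c u v + b * det u v : ℝ) =
    2 * (‖zn b c u‖ * ‖zn b c v‖) * Real.cos (Real.pi * (tn b c v - tn b c u)) := by
  have hs := rD_sq h
  have e : (2 * lab b c u v + b * det u v : ℝ) =
      2 * ((zn b c u).re * (zn b c v).re + (zn b c u).im * (zn b c v).im) := by
    simp only [zn, det, lab]; push_cast
    linear_combination (-((u.2 : ℝ) * v.2) / 2) * hs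
  rw [e, zn_re, zn_re, zn_im, zn_im, mul_sub Real.pi, Real.cos_sub]; ring

lemma mulp_one (u : ℤ × ℤ) : mulp b c (1, 0) u = u := by
  simp [mulp]

lemma mulp_negone (u : ℤ × ℤ) : mulp b c (-1, 0) u = -u := by
  simp only [mulp]
  ext <;> simp

lemma sin_add_int (x : ℝ) (n : ℤ) : Real.sin (x + n * Real.pi) ^ 2 = Real.sin x ^ 2 := by
  rw [Real.sin_sq, Real.sin_sq, Real.cos_sq, Real.cos_sq]
  have : 2 * (x + n * Real.pi) = 2 * x + n * (2 * Real.pi) := by ring
  rw [this, Real.cos_add_int_mul_two_pi]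

/-- the angle system of a negative discriminant -/
theorem sys_neg (h : b ^ 2 < 4 * c) : ∃ K : ℝ,
    Sys b c (fun u => u ≠ 0) (tn b c) en K := by
  have hpi := Real.pi_pos
  have hr := one_le_rD h
  have hs := rD_sq h
  have hD := not_sq_neg h
  have hne : ∀ u : ℤ × ℤ, u ≠ 0 → 0 < ‖zn b c u‖ := fun u hu => norm_pos_iff.2 (zn_ne_zero h hu)
  set P0 : ℝ := 1 + |(b : ℝ)| + rD b c with hP0
  have hP0' : 1 ≤ P0 := by have := abs_nonneg (b : ℝ); linarith
  set K : ℝ := 1 + 4 * Real.pi ^ 2 + (4 + 2 * (b : ℝ) ^ 2 + 2) + P0 ^ 2 +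
    (1 + |(b : ℝ)| + |(c : ℝ)|) with hKdef
  have hK1 : 1 + 4 * Real.pi ^ 2 ≤ K := by
    have : 0 ≤ |(b : ℝ)| := abs_nonneg _
    have : 0 ≤ |(c : ℝ)| := abs_nonneg _
    have : 0 ≤ (b : ℝ) ^ 2 := sq_nonneg _
    have : 0 ≤ P0 ^ 2 := sq_nonneg _
    linarith
  have hK2 : 4 + 2 * (b : ℝ) ^ 2 + 2 ≤ K := by
    have : 0 ≤ |(b : ℝ)| := abs_nonneg _
    have : 0 ≤ |(c : ℝ)| := abs_nonneg _
    have : 0 ≤ P0 ^ 2 := sq_nonneg _
    have : 0 ≤ Real.pi ^ 2 := sq_nonneg _
    linarith
  have hK3 : P0 ^ 2 ≤ K := by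
    have : 0 ≤ |(b : ℝ)| := abs_nonneg _
    have : 0 ≤ |(c : ℝ)| := abs_nonneg _
    have : 0 ≤ (b : ℝ) ^ 2 := sq_nonneg _
    have : 0 ≤ Real.pi ^ 2 := sq_nonneg _
    linarith
  have hK4 : 1 + |(b : ℝ)| + |(c : ℝ)| ≤ K := by
    have : 0 ≤ (b : ℝ) ^ 2 := sq_nonneg _
    have : 0 ≤ P0 ^ 2 := sq_nonneg _
    have : 0 ≤ Real.pi ^ 2 := sq_nonneg _
    linarith
  have hV_mul : ∀ u v : ℤ × ℤ, u ≠ 0 → v ≠ 0 → mulp b c u v ≠ 0 := fun u v hu hv =>
    mulp_ne_zero hD hu hv
  have hth_mul : ∀ u v : ℤ × ℤ, u ≠ 0 → v ≠ 0 →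
      ∃ n : ℤ, tn b c (mulp b c u v) = tn b c u + tn b c v + n := by
    intro u v hu hv
    have h1 := Complex.arg_mul_coe_angle (zn_ne_zero h hu) (zn_ne_zero h hv)
    rw [← zn_mul h, ← Real.Angle.coe_add, Real.Angle.angle_eq_iff_two_pi_dvd_sub] at h1
    obtain ⟨k, hk⟩ := h1
    refine ⟨2 * k, ?_⟩
    unfold tn
    have e : (zn b c (mulp b c u v)).arg = (zn b c u).arg + (zn b c v).arg + 2 * Real.pi * k := by
      linarith
    rw [e]
    push_cast
    field_simp
  have het : ∀ n : ℤ, en n = (1, 0) ∨ en n = (-1, 0) := by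
    intro n; unfold en; split_ifs <;> simp
  have hmul_et : ∀ (n : ℤ) (u : ℤ × ℤ), mulp b c (en n) u = u ∨ mulp b c (en n) u = -u := by
    intro n u
    rcases het n with h1 | h1
    · left; rw [h1, mulp_one]
    · right; rw [h1, mulp_negone]
  refine ⟨K, ⟨hD, by nlinarith [sq_nonneg Real.pi], ?_, ?_, ?_, hV_mul, hth_mul, ?_, ?_, ?_, ?_, ?_, ?_, ?_,
    ?_, ?_, ?_, ?_, ?_⟩⟩
  · intro h1
    have := congrArg Prod.fst h1
    simp at this
  · unfold tn
    have e : zn b c (1, 0) = 1 := by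
      apply Complex.ext <;> simp [zn]
    rw [e, Complex.arg_one, zero_div]
  · intro u hu
    exact nrm_pos_neg h hu
  · intro u v _ _
    exact (abs_tn _).trans (le_max_left _ _)
  · -- smul
    intro d u hd hdu
    refine ⟨?_, ?_⟩
    · rintro rfl
      apply hdu; simp
    · unfold tn
      have e : zn b c (d * u.1, d * u.2) = ((d : ℝ) : ℂ) * zn b c u := by
        apply Complex.ext
        · simp only [zn, Complex.mul_re, Complex.ofReal_re, Complex.ofReal_im]
          push_cast; ring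
        · simp only [zn, Complex.mul_im, Complex.ofReal_re, Complex.ofReal_im]
          push_cast; ring
      rw [e, Complex.arg_real_mul _ (by exact_mod_cast hd)]
  · simp [en]
  · intro n
    rcases het n with h1 | h1 <;> rw [h1] <;> simp [nrm]
  · intro n u hu
    rcases hmul_et n u with h1 | h1 <;> rw [h1]
    · exact hu
    · exact neg_ne_zero.2 hu
  · intro n u _
    exact (abs_tn _).trans (le_max_left _ _)
  · -- sep
    intro u v hu hv n _
    have hdet2 : (det u (mulp b c (en n) v) : ℝ) ^ 2 = (det u v : ℝ) ^ 2 := by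
      rcases hmul_et n v with h1 | h1 <;> rw [h1]
      have : det u (-v) = - det u v := by simp only [det, Prod.fst_neg, Prod.snd_neg]; ring
      rw [this]; push_cast; ring
    rw [hdet2]
    have h1 := det_sin (b := b) (c := c) u v
    have h2 : Real.sin (Real.pi * (tn b c v - tn b c u)) ^ 2 ≤
        (Real.pi * (tn b c v + n - tn b c u)) ^ 2 := by
      have e : Real.pi * (tn b c v + n - tn b c u) = Real.pi * (tn b c v - tn b c u) + n * Real.pi := by
        ring
      rw [← sin_add_int _ n, ← e]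
      exact Real.sin_sq_le_sq
    have hu2 := zn_normSq h u
    have hv2 := zn_normSq h v
    have hun : (0 : ℝ) < nrm b c u := by exact_mod_cast nrm_pos_neg h hu
    have hvn : (0 : ℝ) < nrm b c v := by exact_mod_cast nrm_pos_neg h hv
    have h3 : rD b c ^ 2 * (det u v : ℝ) ^ 2 =
        4 * (nrm b c u * nrm b c v) * Real.sin (Real.pi * (tn b c v - tn b c u)) ^ 2 := by
      rw [← mul_pow, h1, ← hu2, ← hv2]; ring
    have h4 : (det u v : ℝ) ^ 2 ≤ rD b c ^ 2 * (det u v : ℝ) ^ 2 := by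
      have : (1 : ℝ) ≤ rD b c ^ 2 := by nlinarith
      nlinarith [sq_nonneg (det u v : ℝ)]
    calc (det u v : ℝ) ^ 2 ≤ 4 * (nrm b c u * nrm b c v) *
          Real.sin (Real.pi * (tn b c v - tn b c u)) ^ 2 := h4.trans_eq h3
      _ ≤ 4 * (nrm b c u * nrm b c v) * (Real.pi * (tn b c v + n - tn b c u)) ^ 2 := by gcongr
      _ = (4 * Real.pi ^ 2) * (nrm b c u * nrm b c v * (tn b c v + n - tn b c u) ^ 2) := by ring
      _ ≤ K * (nrm b c u * nrm b c v * (tn b c v + n - tn b c u) ^ 2) := by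
          apply mul_le_mul_of_nonneg_right _ (by positivity)
          linarith
      _ = _ := by ring
  · -- lift
    intro u hu n h1 h2
    have h3 := tn_mem (b := b) (c := c) u
    have hn1 : -2 < n := by
      by_contra hcon
      push Not at hcon
      have : (n : ℝ) ≤ -2 := by exact_mod_cast hcon
      linarith
    have hn2 : n < 2 := by
      by_contra hcon
      push Not at hcon
      have : (2 : ℝ) ≤ n := by exact_mod_cast hcon
      linarith
    have hn : n = -1 ∨ n = 0 ∨ n = 1 := by omega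
    have hzneg : zn b c (-u) = - zn b c u := by
      apply Complex.ext
      · simp only [zn, Prod.fst_neg, Prod.snd_neg, Complex.neg_re]; push_cast; ring
      · simp only [zn, Prod.snd_neg, Complex.neg_im]; push_cast; ring
    have hne' : (-u) ≠ 0 := neg_ne_zero.2 hu
    have hz := zn_ne_zero h hu
    rcases hn with rfl | rfl | rfl
    · refine ⟨-u, hne', nrm_neg b c u, ?_⟩
      have h0 : 0 < tn b c u := by push_cast at h1; linarith
      unfold tn at h0 ⊢
      have h0' : 0 < (zn b c u).arg := by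
        by_contra hcon
        push Not at hcon
        have := div_nonpos_of_nonpos_of_nonneg hcon hpi.le
        linarith
      rw [hzneg]
      have h5 : (-zn b c u).arg = (zn b c u).arg - Real.pi := by
        apply Complex.arg_neg_eq_arg_sub_pi_iff.2
        -- 0 < im ∨ im = 0 ∧ re < 0
        have h6 : 0 ≤ (zn b c u).im := Complex.arg_nonneg_iff.1 h0'.le
        rcases h6.lt_or_eq with h7 | h7
        · left; exact h7
        · right
          refine ⟨h7.symm, ?_⟩
          by_contra hcon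
          push Not at hcon
          have : (zn b c u).arg = 0 := Complex.arg_eq_zero_iff.2 ⟨hcon, h7.symm⟩
          linarith
      rw [h5]; push_cast; field_simp; ring
    · exact ⟨u, hu, rfl, by simp⟩
    · refine ⟨-u, hne', nrm_neg b c u, ?_⟩
      have h0 : tn b c u ≤ 0 := by push_cast at h2; linarith
      unfold tn at h0 ⊢
      have h0' : (zn b c u).arg ≤ 0 := by
        by_contra hcon
        push Not at hcon
        have := div_pos hcon hpi
        linarith
      rw [hzneg]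
      have h5 : (-zn b c u).arg = (zn b c u).arg + Real.pi := by
        apply Complex.arg_neg_eq_arg_add_pi_iff.2
        -- im < 0 ∨ im = 0 ∧ 0 < re
        rcases lt_or_ge (zn b c u).im 0 with h7 | h7
        · left; exact h7
        · right
          have h8 : 0 ≤ (zn b c u).arg := Complex.arg_nonneg_iff.2 h7
          have h9 : (zn b c u).arg = 0 := le_antisymm h0' h8
          have h10 := Complex.arg_eq_zero_iff.1 h9
          refine ⟨h10.2, ?_⟩
          rcases h10.1.lt_or_eq with h11 | h11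
          · exact h11
          · exfalso; apply hz
            apply Complex.ext
            · simp [← h11]
            · simp [h10.2]
      rw [h5]; push_cast; field_simp
  · -- box
    intro u hu _
    have e : (nrm b c u : ℝ) = ((u.1 : ℝ) + b * u.2 / 2) ^ 2 + (rD b c * u.2 / 2) ^ 2 := by
      rw [← zn_normSq h u, ← Complex.normSq_eq_norm_sq, Complex.normSq_apply]
      simp only [zn]; ring
    have h1 : (u.2 : ℝ) ^ 2 ≤ 4 * nrm b c u := by
      rw [e]
      have : (1 : ℝ) ≤ rD b c ^ 2 := by nlinarith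
      nlinarith [sq_nonneg ((u.1 : ℝ) + b * u.2 / 2), sq_nonneg (u.2 : ℝ)]
    have h2 : (u.1 : ℝ) ^ 2 ≤ 2 * nrm b c u + 2 * (b : ℝ) ^ 2 * nrm b c u := by
      have h3 : (u.1 : ℝ) ^ 2 ≤ 2 * ((u.1 : ℝ) + b * u.2 / 2) ^ 2 + 2 * (b * u.2 / 2) ^ 2 := by
        nlinarith [sq_nonneg ((u.1 : ℝ) + b * u.2)]
      have h4 : ((u.1 : ℝ) + b * u.2 / 2) ^ 2 ≤ nrm b c u := by
        rw [e]; nlinarith [sq_nonneg (rD b c * u.2 / 2)]
      have h5 : 2 * ((b : ℝ) * u.2 / 2) ^ 2 ≤ 2 * (b : ℝ) ^ 2 * nrm b c u := by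
        have : 2 * ((b : ℝ) * u.2 / 2) ^ 2 = (b : ℝ) ^ 2 / 2 * (u.2 : ℝ) ^ 2 := by ring
        rw [this]
        calc (b : ℝ) ^ 2 / 2 * (u.2 : ℝ) ^ 2 ≤ (b : ℝ) ^ 2 / 2 * (4 * nrm b c u) := by gcongr
          _ = _ := by ring
      linarith
    have hun : (0 : ℝ) < nrm b c u := by exact_mod_cast nrm_pos_neg h hu
    calc (u.1 : ℝ) ^ 2 + (u.2 : ℝ) ^ 2 ≤ (4 + 2 * (b : ℝ) ^ 2 + 2) * nrm b c u := by linarith
      _ ≤ K * nrm b c u := by gcongr
  · -- tr_pos
    intro u v hu hv huv
    have h1 := tr_cos h u v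
    have h2 : 0 < Real.cos (Real.pi * (tn b c v - tn b c u)) := by
      rw [abs_le] at huv
      apply Real.cos_pos_of_mem_Ioo
      constructor <;> nlinarith [huv.1, huv.2]
    have h3 : (0 : ℝ) < ((2 * lab b c u v + b * det u v : ℤ) : ℝ) := by
      push_cast
      rw [h1]
      have := hne u hu
      have := hne v hv
      positivity
    exact_mod_cast h3
  · -- cone
    intro u v hu hv huv hdet w hw huw hwv
    have hu0 := hne u hu
    have hv0 := hne v hv
    have hw0 := hne w hw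
    have d1 := det_sin (b := b) (c := c) u v
    have d2 := det_sin (b := b) (c := c) u w
    have d3 := det_sin (b := b) (c := c) w v
    have s1 : 0 < Real.sin (Real.pi * (tn b c v - tn b c u)) := by
      have h1 : (0 : ℝ) < det u v := by exact_mod_cast hdet
      have h2 : 0 < 2 * (‖zn b c u‖ * ‖zn b c v‖) * Real.sin (Real.pi * (tn b c v - tn b c u)) := by
        rw [← d1]; positivity
      exact pos_of_mul_pos_right h2 (by positivity)
    have s2 : 0 ≤ Real.sin (Real.pi * (tn b c w - tn b c u)) := by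
      have h1 : (0 : ℝ) ≤ det u w := by exact_mod_cast huw
      have h2 : 0 ≤ 2 * (‖zn b c u‖ * ‖zn b c w‖) * Real.sin (Real.pi * (tn b c w - tn b c u)) := by
        rw [← d2]; positivity
      exact nonneg_of_mul_nonneg_right h2 (by positivity)
    have s3 : 0 ≤ Real.sin (Real.pi * (tn b c v - tn b c w)) := by
      have h1 : (0 : ℝ) ≤ det w v := by exact_mod_cast hwv
      have h2 : 0 ≤ 2 * (‖zn b c w‖ * ‖zn b c v‖) * Real.sin (Real.pi * (tn b c v - tn b c w)) := by
        rw [← d3]; positivity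
      exact nonneg_of_mul_nonneg_right h2 (by positivity)
    have mu := tn_mem (b := b) (c := c) u
    have mv := tn_mem (b := b) (c := c) v
    have mw := tn_mem (b := b) (c := c) w
    have nonneg_cases : ∀ x : ℝ, -2 < x → x < 2 → 0 ≤ Real.sin (Real.pi * x) →
        (0 ≤ x ∧ x ≤ 1) ∨ x ≤ -1 := by
      intro x hx1 hx2 hx
      by_contra hcon
      push Not at hcon
      rcases le_or_gt 0 x with h0 | h0
      · have h1 := hcon.1 h0
        have : Real.sin (Real.pi * x) < 0 := by
          have e : Real.sin (Real.pi * x) = - Real.sin (Real.pi * (x - 1)) := by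
            rw [mul_sub, mul_one, Real.sin_sub_pi]; ring
          rw [e]
          have := Real.sin_pos_of_pos_of_lt_pi (x := Real.pi * (x - 1)) (by nlinarith) (by nlinarith)
          linarith
        linarith
      · have : Real.sin (Real.pi * x) < 0 :=
          Real.sin_neg_of_neg_of_neg_pi_lt (by nlinarith) (by nlinarith [hcon.2])
        linarith
    rw [abs_le] at huv
    have huv0 : 0 < tn b c v - tn b c u := by
      by_contra hcon
      push Not at hcon
      have : Real.sin (Real.pi * (tn b c v - tn b c u)) ≤ 0 :=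
        Real.sin_nonpos_of_nonpos_of_neg_pi_le (by nlinarith) (by nlinarith)
      linarith
    refine ⟨hw, ?_⟩
    have hv_lt : tn b c v - tn b c w < 2 := by linarith
    have hw_lt : tn b c w - tn b c u < 2 := by linarith
    rcases nonneg_cases _ (by linarith) hw_lt s2 with h1 | h1
    · rcases nonneg_cases _ (by linarith) hv_lt s3 with h2 | h2
      · exact ⟨by linarith [h1.1], by linarith [h2.1]⟩
      · exfalso; linarith [h1.2]
    · rcases nonneg_cases _ (by linarith) hv_lt s3 with h2 | h2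
      · exfalso; linarith [h2.2]
      · exfalso; linarith
  · -- approx
    intro φ hφ n hn
    have hnr : (0 : ℝ) < n := by exact_mod_cast hn
    obtain ⟨x, y, hxy, hx, hy, hlin⟩ := dirichlet_lin (-Real.sin (Real.pi * φ))
      (-(b : ℝ) / 2 * Real.sin (Real.pi * φ) + rD b c / 2 * Real.cos (Real.pi * φ)) P0
      (by
        rw [abs_neg]
        exact (Real.abs_sin_le_one _).trans hP0')
      (by
        refine (abs_add_le _ _).trans ?_
        rw [abs_mul, abs_mul]
        have h1 := Real.abs_sin_le_one (Real.pi * φ)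
        have h2 := Real.abs_cos_le_one (Real.pi * φ)
        have h3 : |-(b : ℝ) / 2| ≤ |(b : ℝ)| := by
          rw [abs_div, abs_neg, abs_two]
          have := abs_nonneg (b : ℝ)
          linarith
        have h4 : |rD b c / 2| ≤ rD b c := by
          rw [abs_of_pos (by linarith)]; linarith
        have h5 : |-(b : ℝ) / 2| * |Real.sin (Real.pi * φ)| ≤ |(b : ℝ)| * 1 := by gcongr
        have h6 : |rD b c / 2| * |Real.cos (Real.pi * φ)| ≤ rD b c * 1 := by gcongr
        linarith) n hn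
    have hu : ((x, y) : ℤ × ℤ) ≠ 0 := hxy
    have hlin' : |‖zn b c (x, y)‖ * Real.sin (Real.pi * (tn b c (x, y) - φ))| * n ≤ P0 := by
      have e : -Real.sin (Real.pi * φ) * (x : ℝ) +
          (-(b : ℝ) / 2 * Real.sin (Real.pi * φ) + rD b c / 2 * Real.cos (Real.pi * φ)) * y =
          (zn b c (x, y)).im * Real.cos (Real.pi * φ) - (zn b c (x, y)).re * Real.sin (Real.pi * φ) := by
        simp only [zn]; ring
      rw [e, zn_re, zn_im] at hlin
      have e2 : ‖zn b c (x, y)‖ * Real.sin (Real.pi * tn b c (x, y)) * Real.cos (Real.pi * φ) -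
          ‖zn b c (x, y)‖ * Real.cos (Real.pi * tn b c (x, y)) * Real.sin (Real.pi * φ) =
          ‖zn b c (x, y)‖ * Real.sin (Real.pi * (tn b c (x, y) - φ)) := by
        rw [mul_sub Real.pi, Real.sin_sub]; ring
      rw [e2] at hlin
      exact hlin
    set t : ℝ := tn b c (x, y) with ht
    have htm := tn_mem (b := b) (c := c) (x, y)
    rw [← ht] at htm
    rw [abs_le] at hφ
    refine ⟨(x, y), hu, ?_, (abs_tn _).trans (by norm_num), -round (t - φ), ?_, ?_⟩
    · -- norm bound
      have hxr : |(x : ℝ)| ≤ n := by exact_mod_cast hx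
      have hyr : |(y : ℝ)| ≤ n := by exact_mod_cast hy
      have h1 : (nrm b c (x, y) : ℝ) = (x : ℝ) ^ 2 + b * x * y + c * (y : ℝ) ^ 2 := by
        simp only [nrm]; push_cast; ring
      rw [h1]
      have hx2 : (x : ℝ) ^ 2 ≤ (n : ℝ) ^ 2 := by rw [← sq_abs]; gcongr
      have hy2 : (y : ℝ) ^ 2 ≤ (n : ℝ) ^ 2 := by rw [← sq_abs (y : ℝ)]; gcongr
      have h2 : (b : ℝ) * x * y ≤ |(b : ℝ)| * (n : ℝ) ^ 2 := by
        calc (b : ℝ) * x * y ≤ |(b : ℝ) * x * y| := le_abs_self _
          _ = |(b : ℝ)| * (|(x : ℝ)| * |(y : ℝ)|) := by rw [abs_mul, abs_mul]; ring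
          _ ≤ |(b : ℝ)| * ((n : ℝ) * n) := by gcongr
          _ = _ := by ring
      have h3 : (c : ℝ) * (y : ℝ) ^ 2 ≤ |(c : ℝ)| * (n : ℝ) ^ 2 := by
        calc (c : ℝ) * (y : ℝ) ^ 2 ≤ |(c : ℝ)| * (y : ℝ) ^ 2 := by
              gcongr; exact le_abs_self _
          _ ≤ _ := by gcongr
      calc (x : ℝ) ^ 2 + b * x * y + c * (y : ℝ) ^ 2 ≤ (1 + |(b : ℝ)| + |(c : ℝ)|) * (n : ℝ) ^ 2 := by
            linarith
        _ ≤ K * (n : ℝ) ^ 2 := by gcongr
    · rw [abs_neg]
      have h1 : |t - φ| < 2 := by rw [abs_lt]; constructor <;> linarith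
      have h2 := abs_sub_round (t - φ)
      have h3 : |(round (t - φ) : ℝ)| < 4 := by
        have e : (round (t - φ) : ℝ) = (t - φ) - ((t - φ) - round (t - φ)) := by ring
        rw [e]
        have := abs_sub (t - φ) ((t - φ) - round (t - φ))
        linarith
      have h4 : |round (t - φ)| < 4 := by exact_mod_cast h3
      omega
    · have h2 := abs_sub_round (t - φ)
      set j := round (t - φ) with hj
      have e : t + ((-j : ℤ) : ℝ) - φ = (t - φ) - j := by push_cast; ring
      rw [e]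
      have h3 : 2 * |(t - φ) - j| ≤ |Real.sin (Real.pi * (t - φ))| := by
        have h4 : |Real.sin (Real.pi * (t - φ))| = Real.sin (Real.pi * |(t - φ) - j|) := by
          have h5 : Real.sin (Real.pi * (t - φ)) ^ 2 = Real.sin (Real.pi * |(t - φ) - j|) ^ 2 := by
            have e2 : Real.pi * (t - φ) = Real.pi * ((t - φ) - j) + j * Real.pi := by ring
            rw [e2, sin_add_int]
            rcases abs_choice ((t - φ) - (j : ℝ)) with h6 | h6 <;> rw [h6]
            rw [mul_neg, Real.sin_neg]; ring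
          have h6 : 0 ≤ Real.sin (Real.pi * |(t - φ) - j|) := by
            apply Real.sin_nonneg_of_nonneg_of_le_pi
            · positivity
            · nlinarith
          rw [← sq_eq_sq₀ (abs_nonneg _) h6, sq_abs, h5]
        rw [h4]
        have h7 := Real.mul_le_sin (x := Real.pi * |(t - φ) - j|) (by positivity) (by nlinarith)
        have e3 : 2 / Real.pi * (Real.pi * |(t - φ) - j|) = 2 * |(t - φ) - j| := by field_simp
        rw [e3] at h7
        exact h7
      rw [abs_mul, abs_of_pos (hne _ hu)] at hlin'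
      have h8 : ‖zn b c (x, y)‖ * |(t - φ) - j| * n ≤ P0 := by
        have h0 : 0 ≤ ‖zn b c (x, y)‖ * |(t - φ) - j| * n := by positivity
        have : ‖zn b c (x, y)‖ * (2 * |(t - φ) - j|) * n ≤ P0 := by
          refine le_trans ?_ hlin'
          gcongr
        linarith
      have h9 : (‖zn b c (x, y)‖ * |(t - φ) - j| * n) ^ 2 ≤ P0 ^ 2 := by
        apply pow_le_pow_left₀ (by positivity) h8
      calc (nrm b c (x, y) : ℝ) * ((t - φ) - j) ^ 2 * (n : ℝ) ^ 2 =
            (‖zn b c (x, y)‖ * |(t - φ) - j| * n) ^ 2 := by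
            rw [← zn_normSq h, mul_pow, mul_pow, sq_abs]
        _ ≤ P0 ^ 2 := h9
        _ ≤ K := hK3

lemma prime_rep_neg (h : b ^ 2 < 4 * c) : PrimeRep b c (fun u => u ≠ 0) :=
  prime_rep (not_sq_neg h) _ (by
    intro u hu
    left
    rintro rfl
    simp [nrm] at hu)

end Pool.Agent.Lib.MP_a17b09_nt.LG
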