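import Pool.Agent.Lib.MP_a17b09_nt.LG.Dir

/-!
The angle system of a positive discriminant.
-/

set_option autoImplicit false

open Finset

namespace Pool.Agent.Lib.MP_a17b09_nt.LG

open Pool.Agent.Lib.MP_a17b09_nt Pool.Agent.Lib.MP_a17b09_nt.LP

variable {b c : ℤ}

/-- the square root of `D` -/
noncomputable def sD (b c : ℤ) : ℝ := √((b : ℝ) ^ 2 - 4 * (c : ℝ))

noncomputable def o1 (b c : ℤ) : ℝ := ((b : ℝ) + sD b c) / 2
noncomputable def o2 (b c : ℤ) : ℝ := ((b : ℝ) - sD b c) / 2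
noncomputable def s1 (b c : ℤ) (u : ℤ × ℤ) : ℝ := (u.1 : ℝ) + u.2 * o1 b c
noncomputable def s2 (b c : ℤ) (u : ℤ × ℤ) : ℝ := (u.1 : ℝ) + u.2 * o2 b c

lemma sD_sq (h : 4 * c < b ^ 2) : sD b c ^ 2 = (b : ℝ) ^ 2 - 4 * (c : ℝ) := by
  unfold sD
  apply Real.sq_sqrt
  have : ((4 * c : ℤ) : ℝ) ≤ ((b ^ 2 : ℤ) : ℝ) := by exact_mod_cast h.le
  push_cast at this
  linarith

lemma one_le_sD (h : 4 * c < b ^ 2) : 1 ≤ sD b c := by
  unfold sD
  rw [Real.one_le_sqrt]
  have : ((4 * c + 1 : ℤ) : ℝ) ≤ ((b ^ 2 : ℤ) : ℝ) := by exact_mod_cast h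
  push_cast at this
  linarith

lemma s_add (b c : ℤ) (u : ℤ × ℤ) : s1 b c u + s2 b c u = 2 * u.1 + b * u.2 := by
  simp only [s1, s2, o1, o2]; ring

lemma s_sub (b c : ℤ) (u : ℤ × ℤ) : s1 b c u - s2 b c u = sD b c * u.2 := by
  simp only [s1, s2, o1, o2]; ring

lemma s_mul_s (h : 4 * c < b ^ 2) (u : ℤ × ℤ) : s1 b c u * s2 b c u = nrm b c u := by
  have hs := sD_sq h
  simp only [s1, s2, o1, o2, nrm]; push_cast
  linear_combination (-((u.2 : ℝ) ^ 2) / 4) * hs

lemma s1_mul (h : 4 * c < b ^ 2) (u v : ℤ × ℤ) : s1 b c (mulp b c u v) = s1 b c u * s1 b c v := by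
  have hs := sD_sq h
  simp only [s1, o1, mulp]; push_cast
  linear_combination (-((u.2 : ℝ) * v.2) / 4) * hs

lemma s2_mul (h : 4 * c < b ^ 2) (u v : ℤ × ℤ) : s2 b c (mulp b c u v) = s2 b c u * s2 b c v := by
  have hs := sD_sq h
  simp only [s2, o2, mulp]; push_cast
  linear_combination (-((u.2 : ℝ) * v.2) / 4) * hs

lemma s_det (u v : ℤ × ℤ) : s2 b c u * s1 b c v - s1 b c u * s2 b c v = sD b c * det u v := by
  simp only [s1, s2, o1, o2, det]; push_cast; ring

lemma s_tr (h : 4 * c < b ^ 2) (u v : ℤ × ℤ) :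
    s1 b c u * s2 b c v + s2 b c u * s1 b c v = 2 * lab b c u v + b * det u v := by
  have hs := sD_sq h
  simp only [s1, s2, o1, o2, det, lab]; push_cast
  linear_combination (-((u.2 : ℝ) * v.2) / 2) * hs

/-- totally positive vectors -/
def Vp (b c : ℤ) (u : ℤ × ℤ) : Prop := 0 < nrm b c u ∧ 0 < 2 * u.1 + b * u.2

lemma Vp_iff (h : 4 * c < b ^ 2) (u : ℤ × ℤ) : Vp b c u ↔ 0 < s1 b c u ∧ 0 < s2 b c u := by
  have hm := s_mul_s h u
  have ha := s_add b c u
  unfold Vp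
  constructor
  · rintro ⟨h1, h2⟩
    have h1' : 0 < s1 b c u * s2 b c u := by rw [hm]; exact_mod_cast h1
    have h2' : 0 < s1 b c u + s2 b c u := by rw [ha]; exact_mod_cast h2
    rcases mul_pos_iff.1 h1' with h3 | h3
    · exact h3
    · linarith [h3.1, h3.2]
  · rintro ⟨h1, h2⟩
    have h1' : (0 : ℝ) < nrm b c u := by rw [← hm]; positivity
    have h2' : (0 : ℝ) < ((2 * u.1 + b * u.2 : ℤ) : ℝ) := by
      push_cast; rw [← ha]; positivity
    exact ⟨by exact_mod_cast h1', by exact_mod_cast h2'⟩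

/-- a unit -/
lemma exists_unit (h : 4 * c < b ^ 2) (hD : ¬ IsSquare (b ^ 2 - 4 * c)) :
    ∃ e e' : ℤ × ℤ, nrm b c e = 1 ∧ nrm b c e' = 1 ∧ 1 < s1 b c e ∧ s1 b c e * s1 b c e' = 1 ∧
      s2 b c e * s2 b c e' = 1 ∧ s1 b c e * s2 b c e = 1 := by
  obtain ⟨x, y, hxy, hy⟩ := Pell.exists_of_not_isSquare (by linarith : 0 < b ^ 2 - 4 * c) hD
  have hs := sD_sq h
  have hs1 := one_le_sD h
  have key : ∀ x y : ℤ, x ^ 2 - (b ^ 2 - 4 * c) * y ^ 2 = 1 → 0 < x → 0 < y →
      ∃ e e' : ℤ × ℤ, nrm b c e = 1 ∧ nrm b c e' = 1 ∧ 1 < s1 b c e ∧ s1 b c e * s1 b c e' = 1 ∧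
      s2 b c e * s2 b c e' = 1 ∧ s1 b c e * s2 b c e = 1 := by
    intro x y hxy hx hy
    have hr : (x : ℝ) ^ 2 - sD b c ^ 2 * (y : ℝ) ^ 2 = 1 := by
      rw [hs]
      have : ((x ^ 2 - (b ^ 2 - 4 * c) * y ^ 2 : ℤ) : ℝ) = ((1 : ℤ) : ℝ) := by rw [hxy]
      push_cast at this
      linarith
    have e1 : s1 b c (x - b * y, 2 * y) = x + y * sD b c := by
      simp only [s1, o1]; push_cast; ring
    have e2 : s2 b c (x - b * y, 2 * y) = x - y * sD b c := by
      simp only [s2, o2]; push_cast; ring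
    have e3 : s1 b c (x + b * y, -2 * y) = x - y * sD b c := by
      simp only [s1, o1]; push_cast; ring
    have e4 : s2 b c (x + b * y, -2 * y) = x + y * sD b c := by
      simp only [s2, o2]; push_cast; ring
    refine ⟨(x - b * y, 2 * y), (x + b * y, -2 * y), ?_, ?_, ?_, ?_, ?_, ?_⟩
    · simp only [nrm]; linear_combination hxy
    · simp only [nrm]; linear_combination hxy
    · rw [e1]
      have h1 : (1 : ℝ) ≤ x := by exact_mod_cast hx
      have h2 : (1 : ℝ) ≤ y := by exact_mod_cast hy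
      nlinarith
    · rw [e1, e3]; linear_combination hr
    · rw [e2, e4]; linear_combination hr
    · rw [e1, e2]; linear_combination hr
  have hx0 : x ≠ 0 := by
    rintro rfl
    have : 0 ≤ (b ^ 2 - 4 * c) * y ^ 2 := by
      have : 0 < b ^ 2 - 4 * c := by linarith
      positivity
    linarith
  exact key |x| |y| (by rw [sq_abs, sq_abs]; exact hxy) (abs_pos.2 hx0) (abs_pos.2 hy)

/-- powers -/
def pw (b c : ℤ) (e : ℤ × ℤ) : ℕ → ℤ × ℤ
  | 0 => (1, 0)
  | n + 1 => mulp b c e (pw b c e n)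

lemma s1_one (b c : ℤ) : s1 b c (1, 0) = 1 := by simp [s1]
lemma s2_one (b c : ℤ) : s2 b c (1, 0) = 1 := by simp [s2]

lemma s1_pw (h : 4 * c < b ^ 2) (e : ℤ × ℤ) (n : ℕ) : s1 b c (pw b c e n) = s1 b c e ^ n := by
  induction n with
  | zero => simp [pw, s1_one]
  | succ n ih => rw [pw, s1_mul h, ih, pow_succ']

lemma s2_pw (h : 4 * c < b ^ 2) (e : ℤ × ℤ) (n : ℕ) : s2 b c (pw b c e n) = s2 b c e ^ n := by
  induction n with
  | zero => simp [pw, s2_one]
  | succ n ih => rw [pw, s2_mul h, ih, pow_succ']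

lemma nrm_pw {e : ℤ × ℤ} (he : nrm b c e = 1) (n : ℕ) : nrm b c (pw b c e n) = 1 := by
  induction n with
  | zero => simp [pw, nrm]
  | succ n ih => rw [pw, nrm_mulp, ih, he, mul_one]

/-- integer powers of the unit -/
def ep (b c : ℤ) (e e' : ℤ × ℤ) (n : ℤ) : ℤ × ℤ :=
  if 0 ≤ n then pw b c e n.toNat else pw b c e' (-n).toNat

lemma abs_exp_sub_le (x : ℝ) : (Real.exp x - Real.exp (-x)) ^ 2 ≤ (2 * x) ^ 2 * Real.exp |x| ^ 2 := by
  have main : ∀ y : ℝ, 0 ≤ y → Real.exp y - Real.exp (-y) ≤ 2 * y * Real.exp y := by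
    intro y hy
    have h1 : Real.exp y - Real.exp (-y) = Real.exp y * (1 - Real.exp (-(2 * y))) := by
      rw [mul_sub, ← Real.exp_add]; ring_nf
    rw [h1]
    have h2 := Real.add_one_le_exp (-(2 * y))
    have h3 := Real.exp_pos y
    nlinarith
  have h0 : ∀ y : ℝ, 0 ≤ y → 0 ≤ Real.exp y - Real.exp (-y) := by
    intro y hy
    have : Real.exp (-y) ≤ Real.exp y := Real.exp_le_exp.2 (by linarith)
    linarith
  rcases le_total 0 x with hx | hx
  · rw [abs_of_nonneg hx, ← mul_pow]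
    exact pow_le_pow_left₀ (h0 x hx) (main x hx) 2
  · rw [abs_of_nonpos hx]
    have h1 := main (-x) (by linarith)
    have h2 := h0 (-x) (by linarith)
    rw [neg_neg] at h1 h2
    have e1 : (Real.exp x - Real.exp (-x)) ^ 2 = (Real.exp (-x) - Real.exp x) ^ 2 := by ring
    have e2 : (2 * x) ^ 2 * Real.exp (-x) ^ 2 = (2 * (-x) * Real.exp (-x)) ^ 2 := by ring
    rw [e1, e2]
    exact pow_le_pow_left₀ h2 h1 2

lemma abs_exp_sub_ge (x : ℝ) : (2 * x) ^ 2 ≤ (Real.exp x - Real.exp (-x)) ^ 2 := by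
  have main : ∀ y : ℝ, 0 ≤ y → 2 * y ≤ Real.exp y - Real.exp (-y) := by
    intro y hy
    have h := Real.self_le_sinh_iff.2 hy
    rw [Real.sinh_eq] at h
    linarith
  rcases le_total 0 x with hx | hx
  · exact pow_le_pow_left₀ (by linarith) (main x hx) 2
  · have h1 := main (-x) (by linarith)
    rw [neg_neg] at h1
    have e1 : (Real.exp x - Real.exp (-x)) ^ 2 = (Real.exp (-x) - Real.exp x) ^ 2 := by ring
    have e2 : (2 * x) ^ 2 = (2 * (-x)) ^ 2 := by ring
    rw [e1, e2]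
    exact pow_le_pow_left₀ (by linarith) h1 2

/-- the normalised angle -/
noncomputable def tp (b c : ℤ) (κ : ℝ) (u : ℤ × ℤ) : ℝ :=
  (Real.log (s1 b c u) - Real.log (s2 b c u)) / (2 * κ)

lemma s_of_tp (h : 4 * c < b ^ 2) {κ : ℝ} (hκ : 0 < κ) {u : ℤ × ℤ} (hu : Vp b c u) :
    s1 b c u = √(nrm b c u : ℝ) * Real.exp (κ * tp b c κ u) ∧
    s2 b c u = √(nrm b c u : ℝ) * Real.exp (-(κ * tp b c κ u)) := by
  have h1 := (Vp_iff h u).1 hu
  have hm := s_mul_s h u
  have hk : κ * tp b c κ u = (Real.log (s1 b c u) - Real.log (s2 b c u)) / 2 := by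
    unfold tp; field_simp
  have hsq : √(nrm b c u : ℝ) = Real.exp ((Real.log (s1 b c u) + Real.log (s2 b c u)) / 2) := by
    rw [← hm, Real.sqrt_eq_iff_mul_self_eq (by have := h1.1; have := h1.2; positivity)
      (Real.exp_pos _).le, ← Real.exp_add]
    rw [show (Real.log (s1 b c u) + Real.log (s2 b c u)) / 2 +
      (Real.log (s1 b c u) + Real.log (s2 b c u)) / 2 =
      Real.log (s1 b c u) + Real.log (s2 b c u) by ring, Real.exp_add, Real.exp_log h1.1,
      Real.exp_log h1.2]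
  rw [hk, hsq, ← Real.exp_add, ← Real.exp_add]
  constructor
  · rw [show (Real.log (s1 b c u) + Real.log (s2 b c u)) / 2 +
      (Real.log (s1 b c u) - Real.log (s2 b c u)) / 2 = Real.log (s1 b c u) by ring,
      Real.exp_log h1.1]
  · rw [show (Real.log (s1 b c u) + Real.log (s2 b c u)) / 2 +
      -((Real.log (s1 b c u) - Real.log (s2 b c u)) / 2) = Real.log (s2 b c u) by ring,
      Real.exp_log h1.2]

lemma tp_le_iff (h : 4 * c < b ^ 2) {κ : ℝ} (hκ : 0 < κ) {u v : ℤ × ℤ} (hu : Vp b c u)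
    (hv : Vp b c v) : 0 ≤ det u v ↔ tp b c κ u ≤ tp b c κ v := by
  have h1 := (Vp_iff h u).1 hu
  have h2 := (Vp_iff h v).1 hv
  have hs := one_le_sD h
  have hd := s_det (b := b) (c := c) u v
  have e1 : 0 ≤ det u v ↔ s1 b c u * s2 b c v ≤ s2 b c u * s1 b c v := by
    constructor
    · intro h3
      have : (0 : ℝ) ≤ sD b c * det u v := by
        have : (0 : ℝ) ≤ det u v := by exact_mod_cast h3
        positivity
      linarith
    · intro h3
      have : (0 : ℝ) ≤ sD b c * det u v := by linarith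
      have : (0 : ℝ) ≤ det u v := nonneg_of_mul_nonneg_right this (by linarith)
      exact_mod_cast this
  rw [e1, ← Real.log_le_log_iff (mul_pos h1.1 h2.2) (mul_pos h1.2 h2.1),
    Real.log_mul h1.1.ne' h2.2.ne', Real.log_mul h1.2.ne' h2.1.ne']
  unfold tp
  rw [div_le_div_iff_of_pos_right (by linarith)]
  constructor <;> intro h3 <;> linarith

/-- Dirichlet approximation of directions -/
lemma approx_pos (h : 4 * c < b ^ 2) (hD : ¬ IsSquare (b ^ 2 - 4 * c)) {κ : ℝ} (hκ : 0 < κ) :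
    ∃ K : ℝ, 0 ≤ K ∧ ∀ φ : ℝ, |φ| ≤ 3 / 5 → ∀ n : ℕ, 0 < n → ∃ u, Vp b c u ∧
    (nrm b c u : ℝ) ≤ K * n ^ 2 ∧ |tp b c κ u| ≤ 2 ∧ ∃ j : ℤ, |j| ≤ 3 ∧
    (nrm b c u : ℝ) * (tp b c κ u + j - φ) ^ 2 * n ^ 2 ≤ K := by
  obtain ⟨P0, hP0⟩ : ∃ P0 : ℝ, P0 = 2 * Real.exp κ * (1 + |o1 b c| + |o2 b c|) := ⟨_, rfl⟩
  have hP0pos : 0 < P0 := by
    have := abs_nonneg (o1 b c)
    have := abs_nonneg (o2 b c)
    have := Real.exp_pos κ
    rw [hP0]
    positivity
  obtain ⟨n0, hn0⟩ : ∃ n0 : ℝ, n0 = 1 + P0 + P0 / κ := ⟨_, rfl⟩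
  have hn0pos : 0 < n0 := by rw [hn0]; positivity
  obtain ⟨K, hK⟩ : ∃ K : ℝ, K = (P0 / κ) ^ 2 + n0 ^ 2 + (1 + |(b : ℝ)| + |(c : ℝ)|) := ⟨_, rfl⟩
  have k3 : 0 ≤ (P0 / κ) ^ 2 := by positivity
  have k4 : 0 ≤ n0 ^ 2 := by positivity
  have k5 : 1 ≤ 1 + |(b : ℝ)| + |(c : ℝ)| := by
    have := abs_nonneg (b : ℝ)
    have := abs_nonneg (c : ℝ)
    linarith
  have hK1 : 1 ≤ K := by linarith
  have hK3 : (P0 / κ) ^ 2 ≤ K := by linarith
  have hK4 : n0 ^ 2 ≤ K := by linarith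
  have hK5 : 1 + |(b : ℝ)| + |(c : ℝ)| ≤ K := by linarith
  clear hK
  refine ⟨K, by linarith, ?_⟩
  intro φ hφ n hn
  have hnr : (1 : ℝ) ≤ n := by exact_mod_cast hn
  rcases le_or_gt (n : ℝ) n0 with hsmall | hbig
  · refine ⟨(1, 0), ?_, ?_, ?_, 0, by simp, ?_⟩
    · rw [Vp_iff h, s1_one, s2_one]; exact ⟨one_pos, one_pos⟩
    · have : nrm b c (1, 0) = 1 := by simp [nrm]
      rw [this]; push_cast
      have : (1 : ℝ) ≤ (n : ℝ) ^ 2 := by nlinarith
      nlinarith
    · unfold tp; rw [s1_one, s2_one]; simp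
    · have e1 : nrm b c (1, 0) = 1 := by simp [nrm]
      have e2 : tp b c κ (1, 0) = 0 := by unfold tp; rw [s1_one, s2_one]; simp
      rw [e1, e2]; push_cast
      have h1 : (0 + 0 - φ) ^ 2 ≤ 1 := by
        rw [abs_le] at hφ
        nlinarith [hφ.1, hφ.2]
      have h2 : (n : ℝ) ^ 2 ≤ n0 ^ 2 := pow_le_pow_left₀ (by linarith) hsmall 2
      calc 1 * (0 + 0 - φ) ^ 2 * (n : ℝ) ^ 2 ≤ 1 * 1 * n0 ^ 2 := by gcongr
        _ ≤ K := by linarith
  · have hφκ : |κ * φ| ≤ κ := by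
      rw [abs_mul, abs_of_pos hκ]
      nlinarith [abs_nonneg φ]
    have E1 : Real.exp (-(κ * φ)) ≤ Real.exp κ := Real.exp_le_exp.2 (by linarith [(abs_le.1 hφκ).1])
    have E2 : Real.exp (κ * φ) ≤ Real.exp κ := Real.exp_le_exp.2 (by linarith [(abs_le.1 hφκ).2])
    have E1p := Real.exp_pos (-(κ * φ))
    have E2p := Real.exp_pos (κ * φ)
    have Ep := Real.exp_pos κ
    obtain ⟨x, y, hxy, hx, hy, hlin⟩ := dirichlet_lin (Real.exp (-(κ * φ)) - Real.exp (κ * φ))
      (Real.exp (-(κ * φ)) * o1 b c - Real.exp (κ * φ) * o2 b c) P0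
      (by
        rw [abs_le]
        have h1 : Real.exp κ ≤ P0 := by
          rw [hP0]
          have := abs_nonneg (o1 b c)
          have := abs_nonneg (o2 b c)
          nlinarith
        constructor <;> linarith)
      (by
        refine (abs_sub _ _).trans ?_
        rw [abs_mul, abs_mul, abs_of_pos E1p, abs_of_pos E2p]
        have h1 : Real.exp (-(κ * φ)) * |o1 b c| ≤ Real.exp κ * |o1 b c| := by gcongr
        have h2 : Real.exp (κ * φ) * |o2 b c| ≤ Real.exp κ * |o2 b c| := by gcongr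
        rw [hP0]
        have := abs_nonneg (o1 b c)
        have := abs_nonneg (o2 b c)
        nlinarith) n hn
    have hne0 : ((x, y) : ℤ × ℤ) ≠ 0 := hxy
    set L : ℝ := Real.exp (-(κ * φ)) * s1 b c (x, y) - Real.exp (κ * φ) * s2 b c (x, y) with hL
    have hlin' : |L| * n ≤ P0 := by
      have e1 : (Real.exp (-(κ * φ)) - Real.exp (κ * φ)) * (x : ℝ) +
          (Real.exp (-(κ * φ)) * o1 b c - Real.exp (κ * φ) * o2 b c) * y = L := by
        rw [hL]; simp only [s1, s2]; ring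
      rw [e1] at hlin; exact hlin
    have hLlt : |L| < 1 := by
      have h1 : P0 < n := by
        have : 0 < P0 / κ := by positivity
        linarith
      by_contra hcon
      push Not at hcon
      nlinarith
    have hprod : (Real.exp (-(κ * φ)) * s1 b c (x, y)) * (Real.exp (κ * φ) * s2 b c (x, y)) =
        nrm b c (x, y) := by
      rw [← s_mul_s h]
      have : Real.exp (-(κ * φ)) * Real.exp (κ * φ) = 1 := by rw [← Real.exp_add]; simp
      calc _ = (Real.exp (-(κ * φ)) * Real.exp (κ * φ)) * (s1 b c (x, y) * s2 b c (x, y)) := by ring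
        _ = _ := by rw [this, one_mul]
    have hnpos : 0 < nrm b c (x, y) := by
      have h0 := nrm_ne_zero hD hne0
      rcases lt_or_gt_of_ne h0 with h1 | h1
      · exfalso
        have h2 : (nrm b c (x, y) : ℝ) ≤ -1 := by
          have : nrm b c (x, y) ≤ -1 := by omega
          exact_mod_cast this
        rw [← hprod] at h2
        have h3 : L ^ 2 < 1 := by
          rw [← sq_abs]
          nlinarith [abs_nonneg L]
        rw [hL] at h3
        nlinarith [sq_nonneg (Real.exp (-(κ * φ)) * s1 b c (x, y) +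
          Real.exp (κ * φ) * s2 b c (x, y))]
      · exact h1
    -- choose the sign
    obtain ⟨u, hu, hun, huL, hu1, hu2⟩ : ∃ u : ℤ × ℤ, Vp b c u ∧ nrm b c u = nrm b c (x, y) ∧
        |Real.exp (-(κ * φ)) * s1 b c u - Real.exp (κ * φ) * s2 b c u| * n ≤ P0 ∧
        |u.1| ≤ n ∧ |u.2| ≤ n := by
      have hsum : 2 * x + b * y ≠ 0 := by
        intro h1
        have h2 := four_nrm b c (x, y)
        simp only at h2
        rw [h1] at h2
        have : 0 ≤ (b ^ 2 - 4 * c) * y ^ 2 := by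
          have : 0 < b ^ 2 - 4 * c := by linarith
          positivity
        linarith
      rcases lt_or_gt_of_ne hsum with h1 | h1
      · refine ⟨(-x, -y), ⟨?_, ?_⟩, ?_, ?_, by rw [abs_neg]; exact hx, by rw [abs_neg]; exact hy⟩
        · have : nrm b c (-x, -y) = nrm b c (x, y) := by simp only [nrm]; ring
          rw [this]; exact hnpos
        · simp only; linarith
        · simp only [nrm]; ring
        · have e1 : Real.exp (-(κ * φ)) * s1 b c (-x, -y) - Real.exp (κ * φ) * s2 b c (-x, -y) = -L := by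
            rw [hL]; simp only [s1, s2]; push_cast; ring
          rw [e1, abs_neg]; exact hlin'
      · exact ⟨(x, y), ⟨hnpos, h1⟩, rfl, hlin', hx, hy⟩
    obtain ⟨a1, a2⟩ := s_of_tp h hκ hu
    have hur : (1 : ℝ) ≤ nrm b c u := by
      have : 1 ≤ nrm b c u := hu.1
      exact_mod_cast this
    set t := tp b c κ u with ht
    have e1 : (Real.exp (-(κ * φ)) * s1 b c u - Real.exp (κ * φ) * s2 b c u) ^ 2 =
        nrm b c u * (Real.exp (κ * (t - φ)) - Real.exp (-(κ * (t - φ)))) ^ 2 := by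
      rw [a1, a2]
      have x1 : Real.exp (κ * (t - φ)) = Real.exp (-(κ * φ)) * Real.exp (κ * t) := by
        rw [← Real.exp_add]; congr 1; ring
      have x2 : Real.exp (-(κ * (t - φ))) = Real.exp (κ * φ) * Real.exp (-(κ * t)) := by
        rw [← Real.exp_add]; congr 1; ring
      rw [x1, x2]
      have hsq := Real.sq_sqrt (show (0 : ℝ) ≤ nrm b c u by linarith)
      calc _ = √(nrm b c u : ℝ) ^ 2 * (Real.exp (-(κ * φ)) * Real.exp (κ * t) -
            Real.exp (κ * φ) * Real.exp (-(κ * t))) ^ 2 := by ring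
        _ = _ := by rw [hsq]
    have h2 : (nrm b c u : ℝ) * (2 * (κ * (t - φ))) ^ 2 * (n : ℝ) ^ 2 ≤ P0 ^ 2 := by
      have h3 := abs_exp_sub_ge (κ * (t - φ))
      have h4 : ((Real.exp (-(κ * φ)) * s1 b c u - Real.exp (κ * φ) * s2 b c u) * n) ^ 2 ≤ P0 ^ 2 := by
        rw [← sq_abs, abs_mul, abs_of_nonneg (by linarith : (0 : ℝ) ≤ n)]
        exact pow_le_pow_left₀ (by positivity) huL 2
      calc (nrm b c u : ℝ) * (2 * (κ * (t - φ))) ^ 2 * (n : ℝ) ^ 2 ≤
          (nrm b c u : ℝ) * (Real.exp (κ * (t - φ)) - Real.exp (-(κ * (t - φ)))) ^ 2 *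
            (n : ℝ) ^ 2 := by gcongr
        _ = ((Real.exp (-(κ * φ)) * s1 b c u - Real.exp (κ * φ) * s2 b c u) * n) ^ 2 := by
          rw [mul_pow, e1]
        _ ≤ P0 ^ 2 := h4
    have h3 : (nrm b c u : ℝ) * (t - φ) ^ 2 * (n : ℝ) ^ 2 ≤ (P0 / κ) ^ 2 := by
      rw [div_pow, le_div_iff₀ (by positivity)]
      have h4 : 0 ≤ (nrm b c u : ℝ) * (t - φ) ^ 2 * (n : ℝ) ^ 2 := by positivity
      nlinarith
    have hnb : (nrm b c u : ℝ) ≤ K * (n : ℝ) ^ 2 := by
      have hxr : |(u.1 : ℝ)| ≤ n := by exact_mod_cast hu1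
      have hyr : |(u.2 : ℝ)| ≤ n := by exact_mod_cast hu2
      have h1 : (nrm b c u : ℝ) = (u.1 : ℝ) ^ 2 + b * u.1 * u.2 + c * (u.2 : ℝ) ^ 2 := by
        simp only [nrm]; push_cast; ring
      rw [h1]
      have hx2 : (u.1 : ℝ) ^ 2 ≤ (n : ℝ) ^ 2 := by rw [← sq_abs]; gcongr
      have hy2 : (u.2 : ℝ) ^ 2 ≤ (n : ℝ) ^ 2 := by rw [← sq_abs (u.2 : ℝ)]; gcongr
      have h2 : (b : ℝ) * u.1 * u.2 ≤ |(b : ℝ)| * (n : ℝ) ^ 2 := by
        calc (b : ℝ) * u.1 * u.2 ≤ |(b : ℝ) * u.1 * u.2| := le_abs_self _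
          _ = |(b : ℝ)| * (|(u.1 : ℝ)| * |(u.2 : ℝ)|) := by rw [abs_mul, abs_mul]; ring
          _ ≤ |(b : ℝ)| * ((n : ℝ) * n) := by gcongr
          _ = _ := by ring
      have h3 : (c : ℝ) * (u.2 : ℝ) ^ 2 ≤ |(c : ℝ)| * (n : ℝ) ^ 2 := by
        calc (c : ℝ) * (u.2 : ℝ) ^ 2 ≤ |(c : ℝ)| * (u.2 : ℝ) ^ 2 := by
              gcongr; exact le_abs_self _
          _ ≤ _ := by gcongr
      calc (u.1 : ℝ) ^ 2 + b * u.1 * u.2 + c * (u.2 : ℝ) ^ 2 ≤
            (1 + |(b : ℝ)| + |(c : ℝ)|) * (n : ℝ) ^ 2 := by linarith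
        _ ≤ K * (n : ℝ) ^ 2 := by gcongr
    refine ⟨u, hu, hnb, ?_, 0, by simp, ?_⟩
    · -- |t| ≤ 2
      have h5 : (t - φ) ^ 2 ≤ 1 := by
        by_contra hcon
        push Not at hcon
        have h6 : P0 / κ < n := by linarith
        have h7 : (P0 / κ) ^ 2 < (n : ℝ) ^ 2 := by
          apply pow_lt_pow_left₀ h6 (by positivity) (by norm_num)
        have h8 : (n : ℝ) ^ 2 ≤ (nrm b c u : ℝ) * (t - φ) ^ 2 * (n : ℝ) ^ 2 := by
          have : 1 ≤ (nrm b c u : ℝ) * (t - φ) ^ 2 := by nlinarith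
          nlinarith [sq_nonneg (n : ℝ)]
        linarith
      have h6 : |t - φ| ≤ 1 := by
        rw [← sq_le_one_iff_abs_le_one]; exact h5
      rw [abs_le] at h6 hφ ⊢
      constructor <;> linarith [h6.1, h6.2, hφ.1, hφ.2]
    · push_cast
      rw [show t + 0 - φ = t - φ by ring]
      linarith

/-- the angle system of a positive discriminant -/
theorem sys_pos (h : 4 * c < b ^ 2) (hD : ¬ IsSquare (b ^ 2 - 4 * c)) : ∃ (κ : ℝ) (e e' : ℤ × ℤ)
    (K : ℝ), 0 < κ ∧ Vp b c e ∧ tp b c κ e = 1 ∧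
    Sys b c (Vp b c) (tp b c κ) (ep b c e e') K := by
  obtain ⟨e, e', he, he', h1e, hee1, hee2, hee3⟩ := exists_unit h hD
  have hs := sD_sq h
  have hs1 := one_le_sD h
  have hs0 : 0 < sD b c := by linarith
  set κ : ℝ := Real.log (s1 b c e) with hκdef
  have hκ : 0 < κ := Real.log_pos h1e
  have e1pos : 0 < s1 b c e := by linarith
  have e2pos : 0 < s2 b c e := by
    by_contra hcon
    push Not at hcon
    nlinarith
  have s1e : s1 b c e = Real.exp κ := (Real.exp_log e1pos).symm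
  have s2e : s2 b c e = Real.exp (-κ) := by
    rw [Real.exp_neg, ← s1e]; exact eq_inv_of_mul_eq_one_right hee3
  have s1e' : s1 b c e' = Real.exp (-κ) := by
    rw [Real.exp_neg, ← s1e]; exact eq_inv_of_mul_eq_one_right hee1
  have s2e' : s2 b c e' = Real.exp κ := by
    have : s2 b c e' = (s2 b c e)⁻¹ := eq_inv_of_mul_eq_one_right hee2
    rw [this, s2e, ← Real.exp_neg, neg_neg]
  have hVe : Vp b c e := (Vp_iff h e).2 ⟨e1pos, e2pos⟩
  have hte : tp b c κ e = 1 := by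
    unfold tp
    rw [s1e, s2e, Real.log_exp, Real.log_exp]
    field_simp; ring
  -- powers
  have s1ep : ∀ n : ℤ, s1 b c (ep b c e e' n) = Real.exp (κ * n) := by
    intro n
    unfold ep
    split_ifs with hn
    · rw [s1_pw h, s1e, ← Real.exp_nat_mul]
      congr 1
      have : ((n.toNat : ℕ) : ℝ) = (n : ℝ) := by
        have : ((n.toNat : ℕ) : ℤ) = n := Int.toNat_of_nonneg hn
        exact_mod_cast this
      rw [this]; ring
    · push Not at hn
      rw [s1_pw h, s1e', ← Real.exp_nat_mul]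
      congr 1
      have : (((-n).toNat : ℕ) : ℝ) = -(n : ℝ) := by
        have : (((-n).toNat : ℕ) : ℤ) = -n := Int.toNat_of_nonneg (by linarith)
        exact_mod_cast this
      rw [this]; ring
  have s2ep : ∀ n : ℤ, s2 b c (ep b c e e' n) = Real.exp (-(κ * n)) := by
    intro n
    unfold ep
    split_ifs with hn
    · rw [s2_pw h, s2e, ← Real.exp_nat_mul]
      congr 1
      have : ((n.toNat : ℕ) : ℝ) = (n : ℝ) := by
        have : ((n.toNat : ℕ) : ℤ) = n := Int.toNat_of_nonneg hn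
        exact_mod_cast this
      rw [this]; ring
    · push Not at hn
      rw [s2_pw h, s2e', ← Real.exp_nat_mul]
      congr 1
      have : (((-n).toNat : ℕ) : ℝ) = -(n : ℝ) := by
        have : (((-n).toNat : ℕ) : ℤ) = -n := Int.toNat_of_nonneg (by linarith)
        exact_mod_cast this
      rw [this]; ring
  have nrmep : ∀ n : ℤ, nrm b c (ep b c e e' n) = 1 := by
    intro n
    unfold ep
    split_ifs
    · exact nrm_pw he _
    · exact nrm_pw he' _
  have hV_mul : ∀ u v, Vp b c u → Vp b c v → Vp b c (mulp b c u v) := by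
    intro u v hu hv
    rw [Vp_iff h] at hu hv ⊢
    rw [s1_mul h, s2_mul h]
    exact ⟨mul_pos hu.1 hv.1, mul_pos hu.2 hv.2⟩
  have hVep : ∀ n, Vp b c (ep b c e e' n) := by
    intro n
    rw [Vp_iff h, s1ep, s2ep]
    exact ⟨Real.exp_pos _, Real.exp_pos _⟩
  have htm : ∀ u v, Vp b c u → Vp b c v → tp b c κ (mulp b c u v) = tp b c κ u + tp b c κ v := by
    intro u v hu hv
    have hu' := (Vp_iff h u).1 hu
    have hv' := (Vp_iff h v).1 hv
    unfold tp
    rw [s1_mul h, s2_mul h, Real.log_mul hu'.1.ne' hv'.1.ne', Real.log_mul hu'.2.ne' hv'.2.ne']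
    ring
  have htep : ∀ n : ℤ, tp b c κ (ep b c e e' n) = n := by
    intro n
    unfold tp
    rw [s1ep, s2ep, Real.log_exp, Real.log_exp]
    field_simp; ring
  have htet : ∀ (n : ℤ) (u), Vp b c u → tp b c κ (mulp b c (ep b c e e' n) u) = tp b c κ u + n := by
    intro n u hu
    rw [htm _ _ (hVep n) hu, htep]; ring
  -- constants
  obtain ⟨KA, hKA0, hA⟩ := approx_pos (b := b) (c := c) h hD hκ
  obtain ⟨K, hKdef⟩ : ∃ K : ℝ, K = 1 + 4 * κ ^ 2 * Real.exp κ ^ 2 +
    (8 + 8 * o1 b c ^ 2) * Real.exp (16 * κ) + KA := ⟨_, rfl⟩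
  have k1 : 0 ≤ 4 * κ ^ 2 * Real.exp κ ^ 2 := by positivity
  have k2 : 0 ≤ (8 + 8 * o1 b c ^ 2) * Real.exp (16 * κ) := by positivity
  have hKone : 1 ≤ K := by linarith
  have hK1 : 4 * κ ^ 2 * Real.exp κ ^ 2 ≤ K := by linarith
  have hK2 : (8 + 8 * o1 b c ^ 2) * Real.exp (16 * κ) ≤ K := by linarith
  have hKA : KA ≤ K := by linarith
  clear hKdef
  refine ⟨κ, e, e', K, hκ, hVe, hte, ⟨hD, hKone, ?_, ?_, ?_, hV_mul, ?_, ?_, ?_, ?_, nrmep, ?_, ?_, ?_,
    ?_, ?_, ?_, ?_, ?_⟩⟩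
  · rw [Vp_iff h, s1_one, s2_one]; exact ⟨one_pos, one_pos⟩
  · unfold tp; rw [s1_one, s2_one]; simp
  · intro u hu; exact hu.1
  · intro u v hu hv
    exact ⟨0, by rw [htm u v hu hv]; simp⟩
  · intro u v hu hv
    rw [htm u v hu hv]; exact le_max_right _ _
  · -- smul
    intro d u hd hdu
    have hdr : (0 : ℝ) < d := by exact_mod_cast hd
    have a1 : s1 b c (d * u.1, d * u.2) = d * s1 b c u := by simp only [s1]; push_cast; ring
    have a2 : s2 b c (d * u.1, d * u.2) = d * s2 b c u := by simp only [s2]; push_cast; ring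
    rw [Vp_iff h, a1, a2] at hdu
    have hu1 : 0 < s1 b c u := pos_of_mul_pos_right hdu.1 hdr.le
    have hu2 : 0 < s2 b c u := pos_of_mul_pos_right hdu.2 hdr.le
    refine ⟨(Vp_iff h u).2 ⟨hu1, hu2⟩, ?_⟩
    unfold tp
    rw [a1, a2, Real.log_mul hdr.ne' hu1.ne', Real.log_mul hdr.ne' hu2.ne']
    ring
  · simp [ep, pw]
  · intro n u hu
    exact hV_mul _ _ (hVep n) hu
  · intro n u hu
    rw [htet n u hu]; exact le_max_right _ _
  · -- sep
    intro u v hu hv n hn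
    set w := mulp b c (ep b c e e' n) v with hw
    have hVw : Vp b c w := hV_mul _ _ (hVep n) hv
    have hnw : nrm b c w = nrm b c v := by rw [hw, nrm_mulp, nrmep, one_mul]
    have htw : tp b c κ w = tp b c κ v + n := htet n v hv
    obtain ⟨a1, a2⟩ := s_of_tp h hκ hu
    obtain ⟨b1, b2⟩ := s_of_tp h hκ hVw
    have hun : (0 : ℝ) < nrm b c u := by exact_mod_cast hu.1
    have hvn : (0 : ℝ) < nrm b c v := by exact_mod_cast hv.1
    rw [hnw, htw] at b1 b2
    set Δ := tp b c κ v + n - tp b c κ u with hΔ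
    have hd := s_det (b := b) (c := c) u w
    have e1 : s2 b c u * s1 b c w - s1 b c u * s2 b c w =
        √(nrm b c u : ℝ) * √(nrm b c v : ℝ) * (Real.exp (κ * Δ) - Real.exp (-(κ * Δ))) := by
      rw [a1, a2, b1, b2]
      have x1 : Real.exp (κ * Δ) = Real.exp (-(κ * tp b c κ u)) * Real.exp (κ * (tp b c κ v + n)) := by
        rw [← Real.exp_add]; congr 1; rw [hΔ]; ring
      have x2 : Real.exp (-(κ * Δ)) = Real.exp (κ * tp b c κ u) * Real.exp (-(κ * (tp b c κ v + n))) := by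
        rw [← Real.exp_add]; congr 1; rw [hΔ]; ring
      rw [x1, x2]; ring
    rw [e1] at hd
    have h3 : sD b c ^ 2 * (det u w : ℝ) ^ 2 =
        (nrm b c u * nrm b c v) * (Real.exp (κ * Δ) - Real.exp (-(κ * Δ))) ^ 2 := by
      rw [← mul_pow, ← hd, mul_pow, mul_pow, Real.sq_sqrt hun.le, Real.sq_sqrt hvn.le]
    have h4 : (det u w : ℝ) ^ 2 ≤ sD b c ^ 2 * (det u w : ℝ) ^ 2 := by
      have : (1 : ℝ) ≤ sD b c ^ 2 := by nlinarith
      nlinarith [sq_nonneg (det u w : ℝ)]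
    have h5 := abs_exp_sub_le (κ * Δ)
    have h6 : Real.exp |κ * Δ| ^ 2 ≤ Real.exp κ ^ 2 := by
      apply pow_le_pow_left₀ (Real.exp_pos _).le
      apply Real.exp_le_exp.2
      rw [abs_mul, abs_of_pos hκ]
      nlinarith [abs_nonneg Δ]
    calc (det u w : ℝ) ^ 2 ≤ (nrm b c u * nrm b c v) *
          (Real.exp (κ * Δ) - Real.exp (-(κ * Δ))) ^ 2 := h4.trans_eq h3
      _ ≤ (nrm b c u * nrm b c v) * ((2 * (κ * Δ)) ^ 2 * Real.exp κ ^ 2) := by
          apply mul_le_mul_of_nonneg_left _ (by positivity)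
          exact h5.trans (by gcongr)
      _ = (4 * κ ^ 2 * Real.exp κ ^ 2) * (nrm b c u * nrm b c v * Δ ^ 2) := by ring
      _ ≤ K * (nrm b c u * nrm b c v * Δ ^ 2) := by
          exact mul_le_mul_of_nonneg_right hK1 (by positivity)
      _ = _ := by ring
  · -- lift
    intro u hu n _ _
    exact ⟨mulp b c (ep b c e e' n) u, hV_mul _ _ (hVep n) hu,
      by rw [nrm_mulp, nrmep, one_mul], htet n u hu⟩
  · -- box
    intro u hu hth
    obtain ⟨a1, a2⟩ := s_of_tp h hκ hu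
    have hun : (0 : ℝ) < nrm b c u := by exact_mod_cast hu.1
    rw [abs_le] at hth
    have hE : ∀ x : ℝ, |x| ≤ 8 → (√(nrm b c u : ℝ) * Real.exp (κ * x)) ^ 2 ≤
        nrm b c u * Real.exp (16 * κ) := by
      intro x hx
      rw [mul_pow, Real.sq_sqrt hun.le, ← Real.exp_nat_mul]
      apply mul_le_mul_of_nonneg_left _ hun.le
      apply Real.exp_le_exp.2
      push_cast
      have := (abs_le.1 hx).2
      nlinarith
    have h1 : s1 b c u ^ 2 ≤ nrm b c u * Real.exp (16 * κ) := by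
      rw [a1]; exact hE _ (abs_le.2 hth)
    have h2 : s2 b c u ^ 2 ≤ nrm b c u * Real.exp (16 * κ) := by
      rw [a2, show -(κ * tp b c κ u) = κ * (-tp b c κ u) by ring]
      exact hE _ (by rw [abs_neg]; exact abs_le.2 hth)
    have h3 : (u.2 : ℝ) ^ 2 ≤ 4 * (nrm b c u * Real.exp (16 * κ)) := by
      have e1 := s_sub b c u
      have e2 : sD b c ^ 2 * (u.2 : ℝ) ^ 2 = (s1 b c u - s2 b c u) ^ 2 := by rw [e1]; ring
      have e3 : (u.2 : ℝ) ^ 2 ≤ sD b c ^ 2 * (u.2 : ℝ) ^ 2 := by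
        have : (1 : ℝ) ≤ sD b c ^ 2 := by nlinarith
        nlinarith [sq_nonneg (u.2 : ℝ)]
      nlinarith [sq_nonneg (s1 b c u + s2 b c u)]
    have h4 : (u.1 : ℝ) ^ 2 ≤ 2 * (nrm b c u * Real.exp (16 * κ)) +
        2 * (o1 b c ^ 2 * (4 * (nrm b c u * Real.exp (16 * κ)))) := by
      have e1 : (u.1 : ℝ) = s1 b c u - u.2 * o1 b c := by simp only [s1]; ring
      have e2 : (u.1 : ℝ) ^ 2 ≤ 2 * s1 b c u ^ 2 + 2 * (o1 b c ^ 2 * (u.2 : ℝ) ^ 2) := by
        rw [e1]; nlinarith [sq_nonneg (s1 b c u + u.2 * o1 b c)]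
      have e3 : o1 b c ^ 2 * (u.2 : ℝ) ^ 2 ≤ o1 b c ^ 2 * (4 * (nrm b c u * Real.exp (16 * κ))) := by
        gcongr
      linarith
    have h5 : 0 ≤ nrm b c u * Real.exp (16 * κ) := by positivity
    calc (u.1 : ℝ) ^ 2 + (u.2 : ℝ) ^ 2 ≤ ((8 + 8 * o1 b c ^ 2) * Real.exp (16 * κ)) * nrm b c u := by
          linarith
      _ ≤ K * nrm b c u := mul_le_mul_of_nonneg_right hK2 hun.le
  · -- tr_pos
    intro u v hu hv _
    have hu' := (Vp_iff h u).1 hu
    have hv' := (Vp_iff h v).1 hv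
    have h1 := s_tr h u v
    have h2 : (0 : ℝ) < ((2 * lab b c u v + b * det u v : ℤ) : ℝ) := by
      push_cast
      rw [← h1]
      have := mul_pos hu'.1 hv'.2
      have := mul_pos hu'.2 hv'.1
      linarith
    exact_mod_cast h2
  · -- cone
    intro u v hu hv _ hdet w hw huw hwv
    have hu' := (Vp_iff h u).1 hu
    have hv' := (Vp_iff h v).1 hv
    have hd0 : (0 : ℝ) < det u v := by exact_mod_cast hdet
    have ha0 : (0 : ℝ) ≤ det w v := by exact_mod_cast hwv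
    have hb0 : (0 : ℝ) ≤ det u w := by exact_mod_cast huw
    have hid1 : det u v * w.1 = det w v * u.1 + det u w * v.1 := by simp only [det]; ring
    have hid2 : det u v * w.2 = det w v * u.2 + det u w * v.2 := by simp only [det]; ring
    have hid1r : (det u v : ℝ) * w.1 = det w v * u.1 + det u w * v.1 := by exact_mod_cast hid1
    have hid2r : (det u v : ℝ) * w.2 = det w v * u.2 + det u w * v.2 := by exact_mod_cast hid2
    have hne : 0 < (det w v : ℝ) + det u w := by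
      by_contra hcon
      push Not at hcon
      have x1 : (det w v : ℝ) = 0 := by linarith
      have x2 : (det u w : ℝ) = 0 := by linarith
      rw [x1, x2] at hid1r hid2r
      apply hw
      have y1 : (w.1 : ℝ) = 0 := by
        have : (det u v : ℝ) * w.1 = 0 := by rw [hid1r]; ring
        exact (mul_eq_zero.1 this).resolve_left hd0.ne'
      have y2 : (w.2 : ℝ) = 0 := by
        have : (det u v : ℝ) * w.2 = 0 := by rw [hid2r]; ring
        exact (mul_eq_zero.1 this).resolve_left hd0.ne'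
      exact Prod.ext (by exact_mod_cast y1) (by exact_mod_cast y2)
    have hs1w : (det u v : ℝ) * s1 b c w = det w v * s1 b c u + det u w * s1 b c v := by
      simp only [s1]; linear_combination hid1r + o1 b c * hid2r
    have hs2w : (det u v : ℝ) * s2 b c w = det w v * s2 b c u + det u w * s2 b c v := by
      simp only [s2]; linear_combination hid1r + o2 b c * hid2r
    have comb : ∀ x y : ℝ, 0 < x → 0 < y → 0 < (det w v : ℝ) * x + det u w * y := by
      intro x y hx hy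
      rcases ha0.lt_or_eq with h1 | h1
      · have : 0 ≤ (det u w : ℝ) * y := by positivity
        have : 0 < (det w v : ℝ) * x := by positivity
        linarith
      · have h2 : 0 < (det u w : ℝ) := by rw [← h1] at hne; linarith
        have : 0 < (det u w : ℝ) * y := by positivity
        rw [← h1]; linarith
    have hVw : Vp b c w := by
      rw [Vp_iff h]
      constructor
      · have : 0 < (det u v : ℝ) * s1 b c w := by rw [hs1w]; exact comb _ _ hu'.1 hv'.1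
        exact pos_of_mul_pos_right this hd0.le
      · have : 0 < (det u v : ℝ) * s2 b c w := by rw [hs2w]; exact comb _ _ hu'.2 hv'.2
        exact pos_of_mul_pos_right this hd0.le
    exact ⟨hVw, (tp_le_iff h hκ hu hVw).1 huw, (tp_le_iff h hκ hVw hv).1 hwv⟩
  · -- approx
    intro φ hφ n hn
    obtain ⟨u, h1, h2, h3, j, h4, h5⟩ := hA φ hφ n hn
    refine ⟨u, h1, h2.trans ?_, h3, j, h4, h5.trans ?_⟩
    · gcongr
    · exact hKA

lemma prime_rep_pos (h : 4 * c < b ^ 2) (hD : ¬ IsSquare (b ^ 2 - 4 * c)) : PrimeRep b c (Vp b c) :=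
  prime_rep hD _ (by
    intro u hu
    have h2 := four_nrm b c u
    have hsum : 2 * u.1 + b * u.2 ≠ 0 := by
      intro h1
      rw [h1] at h2
      have : 0 ≤ (b ^ 2 - 4 * c) * u.2 ^ 2 := by
        have : 0 < b ^ 2 - 4 * c := by linarith
        positivity
      linarith
    rcases lt_or_gt_of_ne hsum with h1 | h1
    · right
      refine ⟨by rw [nrm_neg]; exact hu, ?_⟩
      simp only [Prod.fst_neg, Prod.snd_neg]; linarith
    · left; exact ⟨hu, h1⟩)

end Pool.Agent.Lib.MP_a17b09_nt.LG
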