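import Pool.Agent.Lib.MP_a17b09_nt.LG.WtC
import Pool.Agent.Lib.MP_a17b09_nt.LG.Neg
import Pool.Agent.Lib.MP_a17b09_nt.LG.Pos

/-!
The Weyl families for the two signs of the discriminant.
-/

set_option autoImplicit false

open Finset

namespace Pool.Agent.Lib.MP_a17b09_nt.LG

open Pool.Agent.Lib.MP_a17b09_nt Pool.Agent.Lib.MP_a17b09_nt.LP

variable {b c : ℤ}

lemma ph_two_pi_int (m : ℤ) : ph (2 * Real.pi * m) = 1 := by
  rw [ph]
  have e : ((2 * Real.pi * m : ℝ) : ℂ) * Complex.I = (m : ℤ) * (2 * Real.pi * Complex.I) := by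
    push_cast
    ring
  rw [e]
  exact Complex.exp_int_mul_two_pi_mul_I m

lemma seg_le {g g' : ℝ → ℝ} {L : ℝ} (S : Seg g g' L) {t t' : ℝ} (h0 : 0 ≤ t) (h1 : t ≤ t')
    (h2 : t' ≤ 1) : g t ≤ g t' := by
  rcases h1.eq_or_lt with h | h
  · rw [h]
  · obtain ⟨x, hx1, hx2, hx3⟩ := S.mv t t' h0 h h2
    have h4 := S.dnn x (by linarith) (by linarith)
    have h5 : 0 ≤ g' x * (t' - t) := mul_nonneg h4 (by linarith)
    linarith

theorem weyl_fam_pos (h : 4 * c < b ^ 2) {κ : ℝ} (hκ : 0 < κ) {e : ℤ × ℤ} (he : Vp b c e)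
    (hte : tp b c κ e = 1) (hne : nrm b c e = 1) : WeylFam b c (Vp b c) (tp b c κ) := by
  have hse := s_of_tp h hκ he
  rw [hte, hne, mul_one] at hse
  simp only [Int.cast_one, Real.sqrt_one, one_mul] at hse
  obtain ⟨hs1e, hs2e⟩ := hse
  obtain ⟨a1, ha1⟩ : ∃ a1 : ℝ, a1 = s1 b c e - 1 := ⟨_, rfl⟩
  obtain ⟨a2, ha2⟩ : ∃ a2 : ℝ, a2 = s2 b c e - 1 := ⟨_, rfl⟩
  have ha1p : 0 < a1 := by
    rw [ha1, hs1e]
    have := Real.one_lt_exp_iff.mpr hκ
    linarith
  have ha2n : a2 < 0 := by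
    rw [ha2, hs2e]
    have : Real.exp (-κ) < 1 := Real.exp_lt_one_iff.mpr (by linarith)
    linarith
  have ha2m : -1 < a2 := by
    rw [ha2, hs2e]
    have := Real.exp_pos (-κ)
    linarith
  have he1 : 1 + a1 = Real.exp κ := by rw [ha1, hs1e]; ring
  have he2 : 1 + a2 = Real.exp (-κ) := by rw [ha2, hs2e]; ring
  obtain ⟨g', L0, hS⟩ := seg_re a1 a2 κ ha1p ha2n ha2m hκ
  obtain ⟨g, hg⟩ : ∃ g : ℝ → ℝ, g = fun t : ℝ => (Real.log (1 + t * a1) - Real.log (1 + t * a2))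
      / (2 * κ) := ⟨_, rfl⟩
  rw [← hg] at hS
  have hg0 : g 0 = 0 := by rw [hg]; simp
  have hg1 : g 1 = 1 := by
    rw [hg]
    simp only [one_mul]
    rw [he1, he2, Real.log_exp, Real.log_exp]
    field_simp
    ring
  have hpos2 : 0 < 1 + a2 := by linarith
  obtain ⟨L, hLdef⟩ : ∃ L : ℝ, L = max L0 (1 / (1 + a2) + (1 + a1)) := ⟨_, rfl⟩
  have hL0 : L0 ≤ L := by rw [hLdef]; exact le_max_left _ _
  have hLr : 1 / (1 + a2) + (1 + a1) ≤ L := by rw [hLdef]; exact le_max_right _ _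
  have hS' := hS.mono hL0
  have hL1 := hS'.hL
  have hi2 : 0 < 1 / (1 + a2) := by positivity
  have he20 : e.2 ≠ 0 := by
    intro h0
    have h3 := s_sub b c e
    rw [h0, Int.cast_zero, mul_zero] at h3
    linarith
  refine weylFam_of 1 one_pos (fun _ => (1, 0)) (fun _ => (e.1 - 1, e.2)) (fun _ => g)
    (fun _ => g') L hL1 (fun _ => hS') ?_ ?_ ?_ ?_
  · intro _
    unfold det
    simp only
    omega
  · intro _ u hu0 hu1 hu2
    have hu0r : (0 : ℝ) < u.1 := by exact_mod_cast hu0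
    have hsl := sl_mem hu0 hu1 hu2
    have q1 : 1 ≤ 1 + sl u * a1 := by
      have := mul_nonneg hsl.1 ha1p.le
      linarith
    have q1' : 1 + sl u * a1 ≤ 1 + a1 := by
      have := mul_le_mul_of_nonneg_right hsl.2 ha1p.le
      linarith
    have q2 : 1 + a2 ≤ 1 + sl u * a2 := by
      have := mul_le_mul_of_nonpos_right hsl.2 ha2n.le
      linarith
    have q2' : 1 + sl u * a2 ≤ 1 := by
      have := mul_nonpos_of_nonneg_of_nonpos hsl.1 ha2n.le
      linarith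
    obtain ⟨v, hv⟩ : ∃ v : ℤ × ℤ, v = pt (1, 0) (e.1 - 1, e.2) u := ⟨_, rfl⟩
    have hs1v : s1 b c v = u.1 * (1 + sl u * a1) := by
      rw [← gr_eq_sl a1 hu0, hv, ha1]
      unfold s1 pt gr
      push_cast
      ring
    have hs2v : s2 b c v = u.1 * (1 + sl u * a2) := by
      rw [← gr_eq_sl a2 hu0, hv, ha2]
      unfold s2 pt gr
      push_cast
      ring
    have hVv : Vp b c v := by
      rw [Vp_iff h]
      rw [hs1v, hs2v]
      exact ⟨mul_pos hu0r (by linarith), mul_pos hu0r (by linarith)⟩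
    have htv : tp b c κ v = g (sl u) := by
      rw [hg]
      unfold tp
      rw [hs1v, hs2v, Real.log_mul hu0r.ne' (by linarith), Real.log_mul hu0r.ne' (by linarith)]
      ring
    have hnv : (nrm b c v : ℝ) = (u.1 : ℝ) ^ 2 * ((1 + sl u * a1) * (1 + sl u * a2)) := by
      rw [← s_mul_s h v, hs1v, hs2v]
      ring
    show Vp b c (pt (1, 0) (e.1 - 1, e.2) u) ∧ |tp b c κ (pt (1, 0) (e.1 - 1, e.2) u)| ≤ 1 ∧
      tp b c κ (pt (1, 0) (e.1 - 1, e.2) u) = g (sl u) ∧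
      (u.1 : ℝ) ^ 2 ≤ L * nrm b c (pt (1, 0) (e.1 - 1, e.2) u) ∧
      (nrm b c (pt (1, 0) (e.1 - 1, e.2) u) : ℝ) ≤ L * (u.1 : ℝ) ^ 2
    rw [← hv]
    refine ⟨hVv, ?_, htv, ?_, ?_⟩
    · rw [htv, abs_le]
      have r1 := seg_le hS (le_refl 0) hsl.1 hsl.2
      have r2 := seg_le hS hsl.1 hsl.2 (le_refl 1)
      rw [hg0] at r1
      rw [hg1] at r2
      constructor <;> linarith
    · rw [hnv]
      have h5 : 1 ≤ L * ((1 + sl u * a1) * (1 + sl u * a2)) := by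
        calc (1 : ℝ) = (1 / (1 + a2)) * (1 * (1 + a2)) := by field_simp
          _ ≤ L * ((1 + sl u * a1) * (1 + sl u * a2)) := by
              apply mul_le_mul (by linarith) _ (by positivity) (by linarith)
              exact mul_le_mul q1 q2 hpos2.le (by linarith)
      calc (u.1 : ℝ) ^ 2 = (u.1 : ℝ) ^ 2 * 1 := by ring
        _ ≤ (u.1 : ℝ) ^ 2 * (L * ((1 + sl u * a1) * (1 + sl u * a2))) :=
            mul_le_mul_of_nonneg_left h5 (sq_nonneg _)
        _ = L * ((u.1 : ℝ) ^ 2 * ((1 + sl u * a1) * (1 + sl u * a2))) := by ring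
    · rw [hnv, mul_comm L]
      apply mul_le_mul_of_nonneg_left _ (sq_nonneg _)
      calc (1 + sl u * a1) * (1 + sl u * a2) ≤ (1 + a1) * 1 :=
            mul_le_mul q1' q2' (by linarith) (by linarith)
        _ ≤ L := by linarith
  · simp [hg0, hg1]
  · intro m
    simp only [Finset.univ_unique, Finset.sum_singleton]
    rw [hg0, hg1, mul_one, mul_zero, ph_two_pi_int, ph_zero, sub_self]

/-- The system and the Weyl family for positive discriminant. -/
theorem sys_weyl_pos (h : 4 * c < b ^ 2) (hD : ¬ IsSquare (b ^ 2 - 4 * c)) :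
    ∃ (th : ℤ × ℤ → ℝ) (et : ℤ → ℤ × ℤ) (K : ℝ), Sys b c (Vp b c) th et K ∧
      WeylFam b c (Vp b c) th := by
  obtain ⟨κ, e, e', K, hκ, hVe, hte, hS⟩ := sys_pos h hD
  have hne : nrm b c e = 1 := by
    have h1 := hS.nrm_et 1
    have h2 : ep b c e e' 1 = e := by
      unfold ep
      rw [if_pos (by norm_num)]
      have : (1 : ℤ).toNat = 0 + 1 := rfl
      rw [this, pw, pw]
      unfold mulp
      ext <;> simp
    rwa [h2] at h1
  exact ⟨tp b c κ, ep b c e e', K, hS, weyl_fam_pos h hκ hVe hte hne⟩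

lemma tn_of_eq {u : ℤ × ℤ} {z : ℂ} {r : ℝ} (hr : 0 < r) (hz : zn b c u = (r : ℂ) * z) :
    tn b c u = z.arg / Real.pi := by
  unfold tn
  rw [hz, Complex.arg_real_mul _ hr]

lemma one_add_ne (om : ℂ) (hom : 0 < om.im) (t : ℝ) : 1 + (t : ℂ) * om ≠ 0 := by
  intro h
  have him := congrArg Complex.im h
  have hre := congrArg Complex.re h
  simp only [Complex.add_im, Complex.one_im, Complex.mul_im, Complex.ofReal_re,
    Complex.ofReal_im, zero_mul, zero_add, add_zero, Complex.zero_im, Complex.add_re,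
    Complex.one_re, Complex.mul_re, sub_zero, Complex.zero_re] at him hre
  rcases mul_eq_zero.mp him with h3 | h3
  · rw [h3] at hre
    simp at hre
  · exact hom.ne' h3

lemma arg_nonneg_lt {z : ℂ} (hz : 0 ≤ z.im) (h : 0 < z.im ∨ 0 < z.re) :
    0 ≤ z.arg ∧ z.arg < Real.pi := by
  refine ⟨Complex.arg_nonneg_iff.mpr hz, ?_⟩
  rcases lt_or_eq_of_le (Complex.arg_le_pi z) with h1 | h1
  · exact h1
  · exfalso
    rw [Complex.arg_eq_pi_iff] at h1
    rcases h with h | h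
    · linarith [h1.2]
    · linarith [h1.1]

lemma arg_mul_upper {x y : ℂ} (hx : x ≠ 0) (hy : y ≠ 0) (hx1 : 0 ≤ x.arg) (hx2 : x.arg < Real.pi)
    (hy1 : 0 ≤ y.arg) (hy2 : y.arg < Real.pi) (hxy : 0 ≤ (x * y).im) :
    (x * y).arg = x.arg + y.arg := by
  have hpi := Real.pi_pos
  apply Complex.arg_mul hx hy
  constructor
  · linarith
  · by_contra hcon
    push Not at hcon
    have h1 : Real.sin (x.arg + y.arg) < 0 := by
      have h2 : Real.sin (x.arg + y.arg) = -Real.sin (x.arg + y.arg - Real.pi) := by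
        rw [Real.sin_sub_pi, neg_neg]
      rw [h2, neg_lt_zero]
      exact Real.sin_pos_of_pos_of_lt_pi (by linarith) (by linarith)
    have h3 : (x * y).im = ‖x‖ * ‖y‖ * Real.sin (x.arg + y.arg) := by
      have ex := Complex.norm_mul_cos_arg x
      have ex' := Complex.norm_mul_sin_arg x
      have ey := Complex.norm_mul_cos_arg y
      have ey' := Complex.norm_mul_sin_arg y
      rw [Complex.mul_im, ← ex, ← ex', ← ey, ← ey', Real.sin_add]
      ring
    have hnx : 0 < ‖x‖ := norm_pos_iff.mpr hx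
    have hny : 0 < ‖y‖ := norm_pos_iff.mpr hy
    rw [h3] at hxy
    have h4 : ‖x‖ * ‖y‖ * Real.sin (x.arg + y.arg) < 0 :=
      mul_neg_of_pos_of_neg (mul_pos hnx hny) h1
    linarith

lemma normSq_one_add (om : ℂ) (t : ℝ) :
    Complex.normSq (1 + (t : ℂ) * om) = 1 + (2 * om.re) * t + Complex.normSq om * t ^ 2 := by
  rw [Complex.normSq_apply, Complex.normSq_apply]
  simp
  ring

/-- The bounds for the norm along a segment. -/
lemma nrm_seg (h : b ^ 2 < 4 * c) {om P : ℂ} (hom : 0 < om.im) (hP : P ≠ 0) :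
    ∃ L : ℝ, ∀ (v : ℤ × ℤ) (r t : ℝ), 0 ≤ t → t ≤ 1 →
    zn b c v = (r : ℂ) * (P * (1 + (t : ℂ) * om)) → r ^ 2 ≤ L * nrm b c v ∧
    (nrm b c v : ℝ) ≤ L * r ^ 2 := by
  have hn : 0 < Complex.normSq om := by
    rw [Complex.normSq_pos]
    intro h
    rw [h] at hom
    simp at hom
  obtain ⟨n0, hn0⟩ : ∃ n0 : ℝ, n0 = om.im ^ 2 / Complex.normSq om := ⟨_, rfl⟩
  have hn0p : 0 < n0 := by rw [hn0]; positivity
  obtain ⟨p, hp⟩ : ∃ p : ℝ, p = Complex.normSq P := ⟨_, rfl⟩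
  have hpp : 0 < p := by rw [hp]; exact Complex.normSq_pos.mpr hP
  refine ⟨1 / (p * n0) + p * (1 + 2 * |om.re| + Complex.normSq om), ?_⟩
  intro v r t h0 h1 hv
  have hN : (nrm b c v : ℝ) = r ^ 2 * (p * Complex.normSq (1 + (t : ℂ) * om)) := by
    rw [← zn_normSq h, hv, norm_mul, norm_mul, mul_pow, mul_pow, Complex.norm_real,
      Real.norm_eq_abs, sq_abs, Complex.sq_norm, Complex.sq_norm, ← hp]
  obtain ⟨q, hq⟩ : ∃ q : ℝ, q = Complex.normSq (1 + (t : ℂ) * om) := ⟨_, rfl⟩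
  have hq1 : n0 ≤ q := by
    rw [hq, hn0, normSq_one_add]
    exact quad_pos_im om hom t
  have hq2 : q ≤ 1 + 2 * |om.re| + Complex.normSq om := by
    rw [hq, normSq_one_add]
    have h3 : om.re * t ≤ |om.re| * 1 := by
      calc om.re * t ≤ |om.re| * t := mul_le_mul_of_nonneg_right (le_abs_self _) h0
        _ ≤ |om.re| * 1 := mul_le_mul_of_nonneg_left h1 (abs_nonneg _)
    have h4 : Complex.normSq om * t ^ 2 ≤ Complex.normSq om * 1 :=
      mul_le_mul_of_nonneg_left (pow_le_one₀ h0 h1) hn.le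
    linarith
  rw [← hq] at hN
  rw [hN]
  have hr2 := sq_nonneg r
  constructor
  · have h5 : 1 ≤ (1 / (p * n0)) * (p * q) := by
      rw [one_div, inv_mul_eq_div, le_div_iff₀ (by positivity), one_mul]
      exact mul_le_mul_of_nonneg_left hq1 hpp.le
    have h6 : 0 ≤ p * (1 + 2 * |om.re| + Complex.normSq om) := by positivity
    have h7 : 0 ≤ p * q := by
      have : 0 ≤ q := by linarith
      positivity
    calc r ^ 2 = r ^ 2 * 1 := by ring
      _ ≤ r ^ 2 * ((1 / (p * n0)) * (p * q)) := mul_le_mul_of_nonneg_left h5 hr2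
      _ ≤ r ^ 2 * ((1 / (p * n0) + p * (1 + 2 * |om.re| + Complex.normSq om)) * (p * q)) := by
          apply mul_le_mul_of_nonneg_left _ hr2
          apply mul_le_mul_of_nonneg_right _ h7
          linarith
      _ = (1 / (p * n0) + p * (1 + 2 * |om.re| + Complex.normSq om)) * (r ^ 2 * (p * q)) := by
          ring
  · have h5 : p * q ≤ p * (1 + 2 * |om.re| + Complex.normSq om) :=
      mul_le_mul_of_nonneg_left hq2 hpp.le
    have h6 : 0 ≤ 1 / (p * n0) := by positivity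
    calc r ^ 2 * (p * q) ≤ r ^ 2 * (1 / (p * n0) + p * (1 + 2 * |om.re| + Complex.normSq om)) :=
          mul_le_mul_of_nonneg_left (by linarith) hr2
      _ = _ := by ring

theorem weyl_fam_neg (h : b ^ 2 < 4 * c) : WeylFam b c (fun u => u ≠ 0) (tn b c) := by
  have hpi := Real.pi_pos
  have hrD := one_le_rD h
  obtain ⟨w, hw⟩ : ∃ w : ℂ, w = zn b c (0, 1) := ⟨_, rfl⟩
  have hw0 : w ≠ 0 := by
    rw [hw]
    exact zn_ne_zero h (by simp)
  have hwim : 0 < w.im := by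
    rw [hw]
    unfold zn
    simp only [Int.cast_one, mul_one]
    linarith
  have hznw : ∀ u : ℤ × ℤ, zn b c u = (u.1 : ℂ) + (u.2 : ℂ) * w := by
    intro u
    rw [hw]
    unfold zn
    apply Complex.ext
    · simp
      ring
    · simp
      ring
  obtain ⟨om1, hom1⟩ : ∃ om1 : ℂ, om1 = w - 1 := ⟨_, rfl⟩
  obtain ⟨om2, hom2⟩ : ∃ om2 : ℂ, om2 = -w⁻¹ - 1 := ⟨_, rfl⟩
  have him1 : 0 < om1.im := by
    rw [hom1]
    simp only [Complex.sub_im, Complex.one_im, sub_zero]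
    exact hwim
  have him2 : 0 < om2.im := by
    rw [hom2]
    simp only [Complex.sub_im, Complex.one_im, sub_zero, Complex.neg_im, Complex.inv_im]
    have : 0 < Complex.normSq w := Complex.normSq_pos.mpr hw0
    rw [neg_div, neg_neg]
    positivity
  have harg := arg_nonneg_lt hwim.le (Or.inl hwim)
  obtain ⟨al, hal⟩ : ∃ al : ℝ, al = w.arg / Real.pi := ⟨_, rfl⟩
  obtain ⟨g1', L1, hS1⟩ := seg_im om1 him1 0
  obtain ⟨g2', L2, hS2⟩ := seg_im om2 him2 al
  obtain ⟨g1, hg1⟩ : ∃ g1 : ℝ → ℝ, g1 = fun t : ℝ => 0 + (1 + (t : ℂ) * om1).arg / Real.pi :=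
    ⟨_, rfl⟩
  obtain ⟨g2, hg2⟩ : ∃ g2 : ℝ → ℝ, g2 = fun t : ℝ => al + (1 + (t : ℂ) * om2).arg / Real.pi :=
    ⟨_, rfl⟩
  rw [← hg1] at hS1
  rw [← hg2] at hS2
  obtain ⟨L3, hL3⟩ := nrm_seg h (P := 1) him1 one_ne_zero
  obtain ⟨L4, hL4⟩ := nrm_seg h (P := w) him2 hw0
  have h10 : g1 0 = 0 := by rw [hg1]; simp
  have h11 : g1 1 = al := by
    rw [hg1, hal]
    simp only [Complex.ofReal_one, one_mul, zero_add]
    rw [hom1]
    congr 2
    ring
  have h20 : g2 0 = al := by rw [hg2]; simp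
  have h21 : g2 1 = 1 := by
    rw [hg2, hal]
    simp only [Complex.ofReal_one, one_mul]
    have e1 : 1 + om2 = -w⁻¹ := by rw [hom2]; ring
    rw [e1, ← add_div]
    have e2 : (w * (-w⁻¹)).arg = w.arg + (-w⁻¹).arg := by
      have hi0 : -w⁻¹ ≠ 0 := neg_ne_zero.mpr (inv_ne_zero hw0)
      have him : 0 < (-w⁻¹).im := by
        have := him2
        rw [hom2] at this
        simpa using this
      have ha := arg_nonneg_lt him.le (Or.inl him)
      apply arg_mul_upper hw0 hi0 harg.1 harg.2 ha.1 ha.2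
      have : w * (-w⁻¹) = -1 := by field_simp
      rw [this]
      simp
    have e3 : w * (-w⁻¹) = -1 := by field_simp
    rw [← e2, e3, Complex.arg_neg_one, div_self hpi.ne']
  -- the first segment
  have k1 : ∀ u : ℤ × ℤ, 0 < u.1 → 0 ≤ u.2 → u.2 ≤ u.1 →
      zn b c (pt (1, 0) (-1, 1) u) = ((u.1 : ℝ) : ℂ) * (1 * (1 + ((sl u : ℝ) : ℂ) * om1)) := by
    intro u hu _ _
    rw [one_mul, ← zw_eq_sl om1 hu, hznw, hom1]
    unfold pt zw
    push_cast
    ring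
  have k2 : ∀ u : ℤ × ℤ, 0 < u.1 → 0 ≤ u.2 → u.2 ≤ u.1 →
      zn b c (pt (0, 1) (-1, -1) u) = ((u.1 : ℝ) : ℂ) * (w * (1 + ((sl u : ℝ) : ℂ) * om2)) := by
    intro u hu _ _
    have e : ((u.1 : ℝ) : ℂ) * (w * (1 + ((sl u : ℝ) : ℂ) * om2)) = w * zw om2 u := by
      rw [zw_eq_sl om2 hu]
      ring
    rw [e, hznw, hom2]
    unfold pt zw
    push_cast
    field_simp
    ring
  have hne : ∀ (u : ℤ × ℤ) (P : ℂ) (om : ℂ) (v : ℤ × ℤ), P ≠ 0 → 0 < om.im → 0 < u.1 →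
      zn b c v = ((u.1 : ℝ) : ℂ) * (P * (1 + ((sl u : ℝ) : ℂ) * om)) → v ≠ 0 := by
    intro u P om v hP hom hu hv h0
    have hz : zn b c v = 0 := by
      rw [hznw, h0]
      simp
    rw [hz] at hv
    have hu0 : ((u.1 : ℝ) : ℂ) ≠ 0 := by
      have : (u.1 : ℝ) ≠ 0 := by exact_mod_cast hu.ne'
      exact_mod_cast this
    exact mul_ne_zero hu0 (mul_ne_zero hP (one_add_ne om hom _)) hv.symm
  obtain ⟨L, hL⟩ : ∃ L : ℝ, L = max (max L1 L2) (max L3 L4) := ⟨_, rfl⟩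
  have hLL1 : L1 ≤ L := by rw [hL]; exact le_trans (le_max_left _ _) (le_max_left _ _)
  have hLL2 : L2 ≤ L := by rw [hL]; exact le_trans (le_max_right _ _) (le_max_left _ _)
  have hLL3 : L3 ≤ L := by rw [hL]; exact le_trans (le_max_left _ _) (le_max_right _ _)
  have hLL4 : L4 ≤ L := by rw [hL]; exact le_trans (le_max_right _ _) (le_max_right _ _)
  have hSS1 := hS1.mono hLL1
  have hSS2 := hS2.mono hLL2
  have m1 : ∀ u : ℤ × ℤ, 0 < u.1 → 0 ≤ u.2 → u.2 ≤ u.1 → pt (1, 0) (-1, 1) u ≠ 0 ∧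
      |tn b c (pt (1, 0) (-1, 1) u)| ≤ 1 ∧ tn b c (pt (1, 0) (-1, 1) u) = g1 (sl u) ∧
      (u.1 : ℝ) ^ 2 ≤ L * nrm b c (pt (1, 0) (-1, 1) u) ∧
      (nrm b c (pt (1, 0) (-1, 1) u) : ℝ) ≤ L * (u.1 : ℝ) ^ 2 := by
    intro u hu hu1 hu2
    have hur : (0 : ℝ) < u.1 := by exact_mod_cast hu
    have hk := k1 u hu hu1 hu2
    have hsl := sl_mem hu hu1 hu2
    obtain ⟨v, hv⟩ : ∃ v : ℤ × ℤ, v = pt (1, 0) (-1, 1) u := ⟨_, rfl⟩
    rw [← hv] at hk ⊢
    have hv0 := hne u 1 om1 v one_ne_zero him1 hu hk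
    have hN := hL3 v u.1 (sl u) hsl.1 hsl.2 hk
    have hNp : (0 : ℝ) < nrm b c v := by exact_mod_cast nrm_pos_neg h hv0
    refine ⟨hv0, abs_tn v, ?_, ?_, ?_⟩
    · rw [tn_of_eq hur hk, hg1]
      simp only [one_mul, zero_add]
    · exact le_trans hN.1 (mul_le_mul_of_nonneg_right hLL3 hNp.le)
    · exact le_trans hN.2 (mul_le_mul_of_nonneg_right hLL3 (sq_nonneg _))
  have m2 : ∀ u : ℤ × ℤ, 0 < u.1 → 0 ≤ u.2 → u.2 ≤ u.1 → pt (0, 1) (-1, -1) u ≠ 0 ∧
      |tn b c (pt (0, 1) (-1, -1) u)| ≤ 1 ∧ tn b c (pt (0, 1) (-1, -1) u) = g2 (sl u) ∧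
      (u.1 : ℝ) ^ 2 ≤ L * nrm b c (pt (0, 1) (-1, -1) u) ∧
      (nrm b c (pt (0, 1) (-1, -1) u) : ℝ) ≤ L * (u.1 : ℝ) ^ 2 := by
    intro u hu hu1 hu2
    have hur : (0 : ℝ) < u.1 := by exact_mod_cast hu
    have hk := k2 u hu hu1 hu2
    have hsl := sl_mem hu hu1 hu2
    obtain ⟨v, hv⟩ : ∃ v : ℤ × ℤ, v = pt (0, 1) (-1, -1) u := ⟨_, rfl⟩
    rw [← hv] at hk ⊢
    have hv0 := hne u w om2 v hw0 him2 hu hk
    have hN := hL4 v u.1 (sl u) hsl.1 hsl.2 hk
    have hNp : (0 : ℝ) < nrm b c v := by exact_mod_cast nrm_pos_neg h hv0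
    refine ⟨hv0, abs_tn v, ?_, ?_, ?_⟩
    · rw [tn_of_eq hur hk, hg2, hal]
      simp only
      have hyre : (1 + ((sl u : ℝ) : ℂ) * om2).im = sl u * om2.im := by
        simp
      have hyim : 0 ≤ (1 + ((sl u : ℝ) : ℂ) * om2).im := by
        rw [hyre]
        exact mul_nonneg hsl.1 him2.le
      have hor : 0 < (1 + ((sl u : ℝ) : ℂ) * om2).im ∨ 0 < (1 + ((sl u : ℝ) : ℂ) * om2).re := by
        rcases hsl.1.eq_or_lt with h0 | h0
        · right
          rw [← h0]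
          simp
        · left
          rw [hyre]
          exact mul_pos h0 him2
      have ha := arg_nonneg_lt hyim hor
      rw [arg_mul_upper hw0 (one_add_ne om2 him2 _) harg.1 harg.2 ha.1 ha.2, add_div]
      have e : w * (1 + ((sl u : ℝ) : ℂ) * om2) = (((1 - sl u : ℝ)) : ℂ) * w
          + (((-sl u : ℝ)) : ℂ) := by
        rw [hom2]
        push_cast
        field_simp
        ring
      rw [e]
      simp only [Complex.add_im, Complex.mul_im, Complex.ofReal_re, Complex.ofReal_im, zero_mul,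
        add_zero]
      exact mul_nonneg (by linarith) hwim.le
    · exact le_trans hN.1 (mul_le_mul_of_nonneg_right hLL4 hNp.le)
    · exact le_trans hN.2 (mul_le_mul_of_nonneg_right hLL4 (sq_nonneg _))
  refine weylFam_of 2 two_pos ![(1, 0), (0, 1)] ![(-1, 1), (-1, -1)] ![g1, g2]
    ![g1', g2'] L hSS1.hL ?_ ?_ ?_ ?_ ?_
  · intro i
    fin_cases i
    · exact hSS1
    · exact hSS2
  · intro i
    fin_cases i <;> simp [det]
  · intro i u hu hu1 hu2
    fin_cases i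
    · exact m1 u hu hu1 hu2
    · exact m2 u hu hu1 hu2
  · rw [Fin.sum_univ_two]
    show g1 1 - g1 0 + (g2 1 - g2 0) = 1
    rw [h10, h11, h20, h21]
    ring
  · intro m
    rw [Fin.sum_univ_two]
    show ph (2 * Real.pi * m * g1 1) - ph (2 * Real.pi * m * g1 0)
      + (ph (2 * Real.pi * m * g2 1) - ph (2 * Real.pi * m * g2 0)) = 0
    rw [h10, h11, h20, h21, mul_one, mul_zero, ph_two_pi_int, ph_zero]
    ring

/-- The system and the Weyl family for negative discriminant. -/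
theorem sys_weyl_neg (h : b ^ 2 < 4 * c) :
    ∃ (th : ℤ × ℤ → ℝ) (et : ℤ → ℤ × ℤ) (K : ℝ), Sys b c (fun u => u ≠ 0) th et K ∧
      WeylFam b c (fun u => u ≠ 0) th := by
  obtain ⟨K, hS⟩ := sys_neg h
  exact ⟨tn b c, en, K, hS, weyl_fam_neg h⟩

/-- The system and the Weyl family for every nonsquare discriminant. -/
theorem sys_weyl (hD : ¬ IsSquare (b ^ 2 - 4 * c)) :
    ∃ (V : ℤ × ℤ → Prop) (th : ℤ × ℤ → ℝ) (et : ℤ → ℤ × ℤ) (K : ℝ), Sys b c V th et K ∧
      WeylFam b c V th ∧ PrimeRep b c V := by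
  rcases lt_trichotomy (b ^ 2) (4 * c) with h | h | h
  · obtain ⟨th, et, K, h1, h2⟩ := sys_weyl_neg h
    exact ⟨_, th, et, K, h1, h2, prime_rep_neg h⟩
  · exfalso
    apply hD
    rw [h, sub_self]
    exact IsSquare.zero
  · obtain ⟨th, et, K, h1, h2⟩ := sys_weyl_pos h hD
    exact ⟨_, th, et, K, h1, h2, prime_rep_pos h hD⟩

end Pool.Agent.Lib.MP_a17b09_nt.LG
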