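import Pool.Agent.Lib.MP_a17b09_nt.LG.FinB
import Pool.Agent.Lib.MP_a17b09_nt.LG.EnergyB
import Pool.Agent.Lib.MP_a17b09_nt.LG.WtD

set_option autoImplicit false

open Finset

namespace Pool.Agent.Lib.MP_a17b09_nt.LG

open Pool.Agent.Lib.MP_a17b09_nt Pool.Agent.Lib.MP_a17b09_nt.LP

/-- all inputs for a nonsquare discriminant, together with the fact that every vector of positive
norm is admissible up to sign -/
lemma sys_all {b c : ℤ} (hD : ¬ IsSquare (b ^ 2 - 4 * c)) :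
    ∃ (V : ℤ × ℤ → Prop) (th : ℤ × ℤ → ℝ) (et : ℤ → ℤ × ℤ) (K : ℝ), Sys b c V th et K ∧
      WeylFam b c V th ∧ PrimeRep b c V ∧
      ∀ u : ℤ × ℤ, 0 < nrm b c u → ∃ u' : ℤ × ℤ, V u' ∧ nrm b c u' = nrm b c u := by
  rcases lt_trichotomy (b ^ 2) (4 * c) with h | h | h
  · obtain ⟨th, et, K, h1, h2⟩ := sys_weyl_neg h
    refine ⟨_, th, et, K, h1, h2, prime_rep_neg h, ?_⟩
    intro u hu
    refine ⟨u, ?_, rfl⟩
    rintro rfl
    have h0 : nrm b c (0 : ℤ × ℤ) = 0 := by unfold nrm; simp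
    rw [h0] at hu
    exact lt_irrefl _ hu
  · exfalso
    apply hD
    rw [h, sub_self]
    exact IsSquare.zero
  · obtain ⟨th, et, K, h1, h2⟩ := sys_weyl_pos h hD
    refine ⟨_, th, et, K, h1, h2, prime_rep_pos h hD, ?_⟩
    intro u hu
    rcases lt_trichotomy (2 * u.1 + b * u.2) 0 with h3 | h3 | h3
    · have hn : nrm b c (-u.1, -u.2) = nrm b c u := by
        unfold nrm; ring
      refine ⟨(-u.1, -u.2), ⟨?_, ?_⟩, hn⟩
      · rw [hn]; exact hu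
      · show 0 < 2 * (-u.1) + b * (-u.2)
        linarith
    · exfalso
      have h4 : 4 * nrm b c u = (2 * u.1 + b * u.2) ^ 2 - (b ^ 2 - 4 * c) * u.2 ^ 2 := by
        unfold nrm; ring
      rw [h3] at h4
      have h5 : 0 ≤ (b ^ 2 - 4 * c) * u.2 ^ 2 :=
        mul_nonneg (by linarith) (sq_nonneg _)
      nlinarith
    · exact ⟨u, ⟨hu, h3⟩, rfl⟩

lemma sgn_univ_of_prime {z p : ℕ} (hz : 0 < z) (hp : p.Prime) :
    sgn Set.univ ((z : ℤ) ^ 2 * p) = -1 := by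
  rw [sgn_sq_mul _ (by exact_mod_cast hz.ne') (by exact_mod_cast hp.ne_zero)]
  exact sgn_prime hp (Set.mem_univ _)

lemma one_lt_of_sgn {P : Set ℕ} {n : ℤ} (hn : 0 < n) (h : sgn P n = -1) : 2 ≤ n := by
  by_contra hcon
  have h1 : n = 1 := by omega
  rw [h1, sgn_eq_neg_one_iff] at h
  unfold cnt at h
  simp at h

/-- some vector has an odd sign for the set of all numbers -/
theorem exists_odd_univ {b c : ℤ} (hD : ¬ IsSquare (b ^ 2 - 4 * c)) :
    ∃ u : ℤ × ℤ, 0 < nrm b c u ∧ sgn Set.univ (nrm b c u) = -1 := by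
  obtain ⟨V, th, et, K, S, _, hPR, _⟩ := sys_all hD
  obtain ⟨q, zK, hq, hrep⟩ := hPR
  obtain ⟨p, hp, _, hpq⟩ := Nat.exists_prime_gt_modEq_one (k := q) 1 hq.ne'
  obtain ⟨u, hu, z, hz, _, hn⟩ := hrep p hp hpq
  exact ⟨u, S.pos u hu, by rw [hn]; exact sgn_univ_of_prime hz hp⟩

/-- the odd sign, for every monic quadratic polynomial -/
theorem odd_G {b c : ℤ} (hD : ¬ IsSquare (b ^ 2 - 4 * c)) :
    ∃ C : ℕ, ∀ (P : Set ℕ) (u : ℤ × ℤ), 0 < nrm b c u → sgn P (nrm b c u) = -1 →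
      ∀ N : ℕ, 3 ≤ N →
      (N : ℝ) ≤ ((nrm b c u : ℝ) * Real.log N) ^ C * (1 + ((OSG P b c N).card : ℝ)) := by
  obtain ⟨V, th, et, K, S, hWF, hPR, hVall⟩ := sys_all hD
  obtain ⟨C, m0, h⟩ := main_G S hPR hWF (energy_bd S)
  refine ⟨(m0 + 4) * C, ?_⟩
  intro P u hu1 hu2 N hN3
  have hN0 : N ≠ 0 := by omega
  obtain ⟨l, hl⟩ : ∃ l : ℕ, l = Nat.log 2 N := ⟨_, rfl⟩
  have hN1 : 2 ^ l ≤ N := by rw [hl]; exact Nat.pow_log_le_self 2 hN0
  have hN2 : N < 2 ^ (l + 1) := by rw [hl]; exact Nat.lt_pow_succ_log_self (by norm_num) N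
  obtain ⟨ρ, hρ⟩ : ∃ ρ : ℕ, (ρ : ℤ) = nrm b c u :=
    (Int.eq_ofNat_of_zero_le hu1.le).imp (fun _ h => h.symm)
  have hρ2 : 2 ≤ ρ := by
    have := one_lt_of_sgn hu1 hu2
    omega
  have hNr : (3 : ℝ) ≤ N := by exact_mod_cast hN3
  -- log N ≥ 1
  have hlogN : 1 ≤ Real.log N := by
    have he : Real.exp 1 ≤ 3 := by
      have := Real.exp_one_lt_d9
      linarith
    rw [Real.le_log_iff_exp_le (by linarith)]
    linarith
  have hlog2 := Real.log_two_gt_d9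
  have hlog1 : (l : ℝ) * Real.log 2 ≤ Real.log N := by
    have : ((2 : ℝ) ^ l) ≤ N := by exact_mod_cast hN1
    have h2 := Real.log_le_log (by positivity) this
    rwa [Real.log_pow] at h2
  have hl0 : (0 : ℝ) ≤ l := by positivity
  have hlog4 : (l : ℝ) ≤ 2 * Real.log N := by nlinarith
  obtain ⟨m, hm⟩ : ∃ m : ℕ, m = m0 + l + ρ := ⟨_, rfl⟩
  have hmain : N ≤ (1 + (OSG P b c N).card) * m ^ C := by
    rcases le_or_gt (m ^ C) N with h1 | h1
    · obtain ⟨u', hu'V, hu'n⟩ := hVall u hu1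
      have h2 := h N m (by omega) (lt_of_lt_of_le hN2 (Nat.pow_le_pow_right (by norm_num) (by omega)))
        h1 P ⟨u', hu'V, by unfold col; rw [hu'n]; exact hu2, by
          rw [hu'n, ← hρ]
          have : ρ ≤ m := by omega
          exact_mod_cast this⟩
      refine h2.trans ?_
      exact Nat.mul_le_mul_right _ (by omega)
    · refine h1.le.trans ?_
      exact Nat.le_mul_of_pos_left _ (by omega)
  have hρr : (2 : ℝ) ≤ ρ := by exact_mod_cast hρ2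
  obtain ⟨T, hT⟩ : ∃ T : ℝ, T = (ρ : ℝ) * Real.log N := ⟨_, rfl⟩
  have hT2 : 2 ≤ T := by rw [hT]; nlinarith
  have hmT : (m : ℝ) ≤ T ^ (m0 + 4) := by
    have h1 : (m : ℝ) ≤ ((m0 : ℝ) + 3) * T := by
      rw [hm, hT]; push_cast
      have e1 : (m0 : ℝ) ≤ m0 * (ρ * Real.log N) := by
        have : (1 : ℝ) ≤ ρ * Real.log N := by nlinarith
        have hm0 : (0 : ℝ) ≤ m0 := by positivity
        nlinarith
      have e2 : (l : ℝ) ≤ 2 * (ρ * Real.log N) := by nlinarith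
      have e3 : (ρ : ℝ) ≤ ρ * Real.log N := by nlinarith
      nlinarith
    have h2 : ((m0 : ℝ) + 3) ≤ T ^ (m0 + 3) := by
      have e1 : m0 + 3 ≤ 2 ^ (m0 + 3) := (Nat.lt_two_pow_self).le
      have e2 : ((m0 : ℝ) + 3) ≤ (2 : ℝ) ^ (m0 + 3) := by exact_mod_cast e1
      exact e2.trans (pow_le_pow_left₀ (by norm_num) hT2 _)
    calc (m : ℝ) ≤ ((m0 : ℝ) + 3) * T := h1
      _ ≤ T ^ (m0 + 3) * T := by gcongr
      _ = T ^ (m0 + 4) := by rw [← pow_succ]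
  have hmr : (N : ℝ) ≤ (1 + (OSG P b c N).card) * (m : ℝ) ^ C := by exact_mod_cast hmain
  have hρu : (nrm b c u : ℝ) = ρ := by rw [← hρ]; norm_cast
  rw [hρu, ← hT, pow_mul]
  refine hmr.trans ?_
  rw [mul_comm]
  gcongr

end Pool.Agent.Lib.MP_a17b09_nt.LG
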