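import Pool.Agent.Lib.MP_a17b09_nt.LG.FinC
import Pool.Agent.Lib.MP_a17b09_nt.LG.EvenG

set_option autoImplicit false

open Finset

namespace Pool.Agent.Lib.MP_a17b09_nt.LG

open Pool.Agent.Lib.MP_a17b09_nt Pool.Agent.Lib.MP_a17b09_nt.LP

lemma one_lt_log_three : (1 : ℝ) < Real.log 3 := by
  rw [Real.lt_log_iff_exp_lt (by norm_num)]
  have := Real.exp_one_lt_d9
  linarith

/-- one may restrict to the members with few divisors -/
theorem few_divG {b c : ℤ} (hD : ¬ IsSquare (b ^ 2 - 4 * c)) :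
    ∃ C1 : ℕ, ∀ N : ℕ, 3 ≤ N → ∀ T : ℝ, Real.log N ≤ T → ∀ S : Finset ℕ, S ⊆ Finset.Icc 1 N →
      ∀ C : ℕ, (N : ℝ) ≤ T ^ C * (1 + (S.card : ℝ)) →
      (N : ℝ) ≤ T ^ (C + C1) *
        (1 + ((S.filter (fun t => (dv (fq b c t).natAbs : ℝ) ≤ T ^ (C + C1))).card : ℝ)) := by
  obtain ⟨Cs, hsec⟩ := second_momentG hD
  obtain ⟨k, hk⟩ := pow_unbounded_of_one_lt ((Cs : ℝ) * 2 ^ 33 + 2) one_lt_log_three
  refine ⟨k + 32, ?_⟩
  intro N hN T hT S hS C hC
  have hNr : (3 : ℝ) ≤ N := by exact_mod_cast hN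
  have hlog : Real.log 3 ≤ Real.log N := Real.log_le_log (by norm_num) hNr
  have h3 := one_lt_log_three
  have hlog1 : 1 ≤ Real.log N := by linarith
  have hT1 : 1 ≤ T := by linarith
  have hT0 : 0 < T := by linarith
  have hTk : (Cs : ℝ) * 2 ^ 33 + 2 ≤ T ^ k :=
    hk.le.trans (pow_le_pow_left₀ (by linarith) (hlog.trans hT) k)
  have hTC : 0 < T ^ C := by positivity
  obtain ⟨Y, hY⟩ : ∃ Y : ℝ, Y = T ^ (C + (k + 32)) := ⟨_, rfl⟩
  have hY0 : 0 < Y := by rw [hY]; positivity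
  rw [← hY]
  obtain ⟨bad, hbad⟩ : ∃ bad : Finset ℕ,
    bad = S.filter (fun t => ¬ (dv (fq b c t).natAbs : ℝ) ≤ Y) := ⟨_, rfl⟩
  obtain ⟨good, hgood⟩ : ∃ good : Finset ℕ,
    good = S.filter (fun t => (dv (fq b c t).natAbs : ℝ) ≤ Y) := ⟨_, rfl⟩
  rw [← hgood]
  have hcard : S.card = good.card + bad.card := by
    rw [hgood, hbad]
    exact (Finset.card_filter_add_card_filter_not _).symm
  have hcardr : (S.card : ℝ) = good.card + bad.card := by exact_mod_cast hcard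
  have h1 : (bad.card : ℝ) * Y ^ 2 ≤ Cs * N * (1 + Real.log N) ^ 32 := by
    refine le_trans ?_ (hsec N (by omega))
    calc (bad.card : ℝ) * Y ^ 2 = ∑ t ∈ bad, Y ^ 2 := by rw [Finset.sum_const, nsmul_eq_mul]
      _ ≤ ∑ t ∈ bad, (dv (fq b c t).natAbs : ℝ) ^ 2 := by
          apply Finset.sum_le_sum
          intro t ht
          rw [hbad, Finset.mem_filter] at ht
          have := ht.2
          push Not at this
          exact pow_le_pow_left₀ hY0.le this.le 2
      _ ≤ ∑ t ∈ Icc 1 N, (dv (fq b c t).natAbs : ℝ) ^ 2 := by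
          apply Finset.sum_le_sum_of_subset_of_nonneg
          · intro t ht
            rw [hbad, Finset.mem_filter] at ht
            exact hS ht.1
          · intro i _ _; positivity
  have h2 : (1 + Real.log N) ^ 32 ≤ 2 ^ 32 * T ^ 32 := by
    rw [← mul_pow]
    exact pow_le_pow_left₀ (by linarith) (by linarith) 32
  have h4 : T ^ C * T ^ 32 * T ^ k ≤ Y ^ 2 := by
    rw [hY, ← pow_add, ← pow_add, ← pow_mul]
    exact pow_le_pow_right₀ hT1 (by omega)
  have hb0 : (0 : ℝ) ≤ bad.card := by positivity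
  have h5 : (bad.card * T ^ C) * (T ^ 32 * ((Cs : ℝ) * 2 ^ 33 + 2)) ≤
      (N / 2) * (T ^ 32 * ((Cs : ℝ) * 2 ^ 33 + 2)) := by
    calc (bad.card * T ^ C) * (T ^ 32 * ((Cs : ℝ) * 2 ^ 33 + 2)) ≤
        (bad.card * T ^ C) * (T ^ 32 * T ^ k) := by gcongr
      _ = bad.card * (T ^ C * T ^ 32 * T ^ k) := by ring
      _ ≤ bad.card * Y ^ 2 := by gcongr
      _ ≤ Cs * N * (2 ^ 32 * T ^ 32) := h1.trans (by gcongr)
      _ ≤ Cs * N * (2 ^ 32 * T ^ 32) + N * T ^ 32 := by
          have : 0 ≤ N * T ^ 32 := by positivity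
          linarith
      _ = (N / 2) * (T ^ 32 * ((Cs : ℝ) * 2 ^ 33 + 2)) := by ring
  have h6 : bad.card * T ^ C ≤ (N : ℝ) / 2 := le_of_mul_le_mul_right h5 (by positivity)
  rw [hcardr] at hC
  have h7 : (N : ℝ) ≤ 2 * (T ^ C * (1 + good.card)) := by
    have e : T ^ C * (1 + ((good.card : ℝ) + bad.card)) =
      T ^ C * (1 + good.card) + bad.card * T ^ C := by ring
    rw [e] at hC
    linarith
  have h8 : 2 * T ^ C ≤ Y := by
    rw [hY, pow_add, pow_add]
    have e1 : 2 ≤ T ^ k := by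
      refine le_trans ?_ hTk
      have : (0 : ℝ) ≤ (Cs : ℝ) * 2 ^ 33 := by positivity
      linarith
    have e2 : 1 ≤ T ^ 32 := one_le_pow₀ hT1
    calc 2 * T ^ C = T ^ C * (2 * 1) := by ring
      _ ≤ T ^ C * (T ^ k * T ^ 32) := by gcongr
  calc (N : ℝ) ≤ 2 * (T ^ C * (1 + good.card)) := h7
    _ = (2 * T ^ C) * (1 + good.card) := by ring
    _ ≤ Y * (1 + good.card) := by gcongr

/-- both parities, uniformly in the size of a value of the given parity -/
theorem parity_G {b c : ℤ} (hD : ¬ IsSquare (b ^ 2 - 4 * c)) :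
    ∃ C : ℕ, ∀ (P : Set ℕ) (u : ℤ × ℤ), 0 < nrm b c u → ∀ N : ℕ, 3 ≤ N →
      (N : ℝ) ≤ ((nrm b c u : ℝ) * Real.log N) ^ C *
        (1 + (((Finset.Icc 1 N).filter (fun t : ℕ => 0 < fq b c t ∧
          (dv (fq b c t).natAbs : ℝ) ≤ ((nrm b c u : ℝ) * Real.log N) ^ C ∧
          sgn P (fq b c t) = sgn P (nrm b c u))).card : ℝ)) := by
  obtain ⟨C1, N1, h1⟩ := even_G hD
  obtain ⟨C2, h2⟩ := odd_G hD
  obtain ⟨C3, h3⟩ := few_divG hD
  obtain ⟨k, hk⟩ := pow_unbounded_of_one_lt (N1 : ℝ) one_lt_log_three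
  refine ⟨C1 + k + C2 + C3, ?_⟩
  intro P u hu N hN
  have hNr : (3 : ℝ) ≤ N := by exact_mod_cast hN
  have hu1 : (1 : ℝ) ≤ nrm b c u := by exact_mod_cast hu
  have hlog : Real.log 3 ≤ Real.log N := Real.log_le_log (by norm_num) hNr
  have h30 := one_lt_log_three
  have hlog1 : 1 ≤ Real.log N := by linarith
  obtain ⟨T, hTdef⟩ : ∃ T : ℝ, T = (nrm b c u : ℝ) * Real.log N := ⟨_, rfl⟩
  have hT : Real.log N ≤ T := by rw [hTdef]; nlinarith
  have hT1 : 1 ≤ T := by linarith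
  rw [← hTdef]
  obtain ⟨S, hS⟩ : ∃ S : Finset ℕ, S = (Finset.Icc 1 N).filter (fun t : ℕ => 0 < fq b c t ∧
    sgn P (fq b c t) = sgn P (nrm b c u)) := ⟨_, rfl⟩
  have hmain : (N : ℝ) ≤ T ^ (C1 + k + C2) * (1 + (S.card : ℝ)) := by
    rcases sgn_eq_or P (nrm b c u) with hs | hs
    · have hSe : S = Ev P b c N := by
        rw [hS, hs]
        ext t
        rw [mem_Ev, Finset.mem_filter, Finset.mem_Icc]
      rw [hSe]
      have hev : (N : ℝ) ≤ Real.log N ^ (C1 + k) * (1 + ((Ev P b c N).card : ℝ)) := by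
        rcases le_or_gt N1 N with h3 | h3
        · have h4 := h1 N h3 P
          rw [div_le_iff₀ (by positivity)] at h4
          refine h4.trans ?_
          rw [mul_comm]
          have h5 : Real.log N ^ C1 ≤ Real.log N ^ (C1 + k) :=
            pow_le_pow_right₀ hlog1 (by omega)
          have h6 : ((Ev P b c N).card : ℝ) ≤ 1 + (Ev P b c N).card := by linarith
          gcongr
        · have h4 : (N : ℝ) ≤ Real.log N ^ (C1 + k) := by
            calc (N : ℝ) ≤ N1 := by exact_mod_cast h3.le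
              _ ≤ Real.log 3 ^ k := hk.le
              _ ≤ Real.log N ^ k := pow_le_pow_left₀ (by linarith) hlog k
              _ ≤ Real.log N ^ (C1 + k) := pow_le_pow_right₀ hlog1 (by omega)
          have h5 : (1 : ℝ) ≤ 1 + (Ev P b c N).card := by
            have : (0 : ℝ) ≤ (Ev P b c N).card := by positivity
            linarith
          calc (N : ℝ) ≤ Real.log N ^ (C1 + k) * 1 := by rw [mul_one]; exact h4
            _ ≤ _ := by gcongr
      refine hev.trans ?_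
      have h6 : Real.log N ^ (C1 + k) ≤ T ^ (C1 + k + C2) :=
        (pow_le_pow_left₀ (by linarith) hT _).trans (pow_le_pow_right₀ hT1 (by omega))
      gcongr
    · have hSo : S = OSG P b c N := by
        rw [hS, hs]
        ext t
        rw [mem_OSG, Finset.mem_filter, Finset.mem_Icc]
      rw [hSo]
      have h4 := h2 P u hu hs N hN
      rw [← hTdef] at h4
      refine h4.trans ?_
      have h6 : T ^ C2 ≤ T ^ (C1 + k + C2) := pow_le_pow_right₀ hT1 (by omega)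
      gcongr
  have h5 := h3 N hN T hT S (by rw [hS]; exact Finset.filter_subset _ _) (C1 + k + C2) hmain
  refine h5.trans (le_of_eq ?_)
  congr 4
  rw [hS, Finset.filter_filter]
  apply Finset.filter_congr
  intro t _
  constructor
  · rintro ⟨⟨a1, a2⟩, a3⟩
    exact ⟨a1, a3, a2⟩
  · rintro ⟨a1, a3, a2⟩
    exact ⟨⟨a1, a2⟩, a3⟩

end Pool.Agent.Lib.MP_a17b09_nt.LG
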