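import Pool.Agent.Lib.MP_a17b09_nt.LP.Fourier
import Pool.Agent.Lib.MP_a17b09_nt.Basic

/-!
General angle systems: the abstract interface used for the log-power theorem for every monic
irreducible quadratic polynomial (both signs of the discriminant).
-/

set_option autoImplicit false

open Finset

namespace Pool.Agent.Lib.MP_a17b09_nt.LG

open Pool.Agent.Lib.MP_a17b09_nt Pool.Agent.Lib.MP_a17b09_nt.LP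

/-- An angle system for the form `x² + b x y + c y²`. `V` is the set of admissible vectors, `th` the
normalised angle (period `1` corresponds to a unit), `et n` a unit of norm one that rotates by `n`. -/
structure Sys (b c : ℤ) (V : ℤ × ℤ → Prop) (th : ℤ × ℤ → ℝ) (et : ℤ → ℤ × ℤ) (K : ℝ) : Prop where
  hD : ¬ IsSquare (b ^ 2 - 4 * c)
  hK : 1 ≤ K
  one : V (1, 0)
  th_one : th (1, 0) = 0
  pos : ∀ u, V u → 0 < nrm b c u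
  mul : ∀ u v, V u → V v → V (mulp b c u v)
  th_mul : ∀ u v, V u → V v → ∃ n : ℤ, th (mulp b c u v) = th u + th v + n
  th_mul_abs : ∀ u v, V u → V v → |th (mulp b c u v)| ≤ max 1 |th u + th v|
  smul : ∀ (d : ℤ) (u : ℤ × ℤ), 0 < d → V (d * u.1, d * u.2) → V u ∧ th (d * u.1, d * u.2) = th u
  et_zero : et 0 = (1, 0)
  nrm_et : ∀ n, nrm b c (et n) = 1
  V_et : ∀ n u, V u → V (mulp b c (et n) u)
  th_et_abs : ∀ n u, V u → |th (mulp b c (et n) u)| ≤ max 1 |th u + n|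
  sep : ∀ u v, V u → V v → ∀ n : ℤ, |th v + n - th u| ≤ 1 →
    (det u (mulp b c (et n) v) : ℝ) ^ 2 ≤ K * nrm b c u * nrm b c v * (th v + n - th u) ^ 2
  lift : ∀ u, V u → ∀ n : ℤ, -1 < th u + n → th u + n ≤ 1 →
    ∃ u', V u' ∧ nrm b c u' = nrm b c u ∧ th u' = th u + n
  box : ∀ u, V u → |th u| ≤ 8 → (u.1 : ℝ) ^ 2 + (u.2 : ℝ) ^ 2 ≤ K * nrm b c u
  tr_pos : ∀ u v, V u → V v → |th v - th u| ≤ 1 / 4 → 0 < 2 * lab b c u v + b * det u v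
  cone : ∀ u v, V u → V v → |th v - th u| ≤ 1 / 4 → 0 < det u v → ∀ w : ℤ × ℤ, w ≠ 0 →
    0 ≤ det u w → 0 ≤ det w v → V w ∧ th u ≤ th w ∧ th w ≤ th v
  approx : ∀ φ : ℝ, |φ| ≤ 3 / 5 → ∀ n : ℕ, 0 < n → ∃ u, V u ∧ (nrm b c u : ℝ) ≤ K * n ^ 2 ∧
    |th u| ≤ 2 ∧ ∃ j : ℤ, |j| ≤ 3 ∧ (nrm b c u : ℝ) * (th u + j - φ) ^ 2 * n ^ 2 ≤ K

/-- the position on the grid `ℤ / Q` (lifted to `ℤ`) -/
noncomputable def ps (th : ℤ × ℤ → ℝ) (Q : ℕ) (u : ℤ × ℤ) : ℤ := ⌊(Q : ℝ) * th u⌋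

/-- the primes are represented up to bounded square factors -/
def PrimeRep (b c : ℤ) (V : ℤ × ℤ → Prop) : Prop :=
  ∃ q K : ℕ, 0 < q ∧ ∀ p : ℕ, p.Prime → p ≡ 1 [MOD q] →
    ∃ u, V u ∧ ∃ z : ℕ, 0 < z ∧ z ≤ K ∧ nrm b c u = (z : ℤ) ^ 2 * p

/-- a weighted family of vectors with small exponential sums -/
def WeylFam (b c : ℤ) (V : ℤ × ℤ → Prop) (th : ℤ × ℤ → ℝ) : Prop :=
  ∃ C Z0 : ℕ, ∀ Z : ℕ, Z0 ≤ Z → ∃ (G : Finset (ℤ × ℤ)) (w : ℤ × ℤ → ℝ),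
    (∀ u ∈ G, V u ∧ |th u| ≤ 1 ∧ (Z : ℤ) ^ 320 ≤ C * nrm b c u ∧ nrm b c u ≤ C * (Z : ℤ) ^ 320 ∧
      0 ≤ w u ∧ w u * (Z : ℝ) ^ 160 ≤ 1) ∧
    (Z : ℝ) ^ 160 ≤ C * ∑ u ∈ G, w u ∧ ∑ u ∈ G, w u ≤ (Z : ℝ) ^ 160 ∧
    ∀ (Q : ℕ) [NeZero Q], Z ^ 1000 ≤ Q → ∀ m : ℤ, m ≠ 0 → |m| ≤ (Z : ℤ) ^ 650 →
      ‖∑ u ∈ G, (w u : ℂ) * ch ((m : ZMod Q) * ((ps th Q u : ℤ) : ZMod Q))‖ ^ 16 * Z ≤
        C * ((Z : ℝ) ^ 160) ^ 16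

/-- the energy bound -/
def EnergyBd (b c : ℤ) (V : ℤ × ℤ → Prop) (th : ℤ × ℤ → ℝ) : Prop :=
  ∀ (K : ℕ) (e : ℤ × ℤ), nrm b c e = 1 → ∃ C κ : ℕ, ∀ B H : ℕ, 1 ≤ B → 1 ≤ H →
    ∀ G : Finset (ℤ × ℤ), (∀ u ∈ G, V u ∧ |th u| ≤ 1 ∧ (B : ℤ) ≤ K * nrm b c u ∧
      nrm b c u ≤ B) →
    ((((G ×ˢ G) ×ˢ (G ×ˢ G)).filter (fun p =>
      |det (mulp b c p.1.1 p.1.2) (mulp b c e (mulp b c p.2.1 p.2.2))| ≤ (H : ℤ))).card : ℝ) ≤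
      C * H * (B : ℝ) ^ 2 * (1 + Real.log B) ^ κ

end Pool.Agent.Lib.MP_a17b09_nt.LG
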