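import Pool.Agent.Lib.MP_a17b09_nt.LP.Weights
import Pool.Agent.Lib.MP_a17b09_nt.LG.Sys

/-!
Weighted exponential sums over a lattice triangle, for a smooth function of the slope.
-/

set_option autoImplicit false

open Finset

namespace Pool.Agent.Lib.MP_a17b09_nt.LG

open Pool.Agent.Lib.MP_a17b09_nt Pool.Agent.Lib.MP_a17b09_nt.LP

/-- The lattice points `(s, y)` with `X < s <= 2X` and `0 <= y < s`. -/
noncomputable def TX (X : ℕ) : Finset (ℤ × ℤ) :=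
  ((Finset.Ioc (X : ℤ) (2 * X)) ×ˢ (Finset.Ico (0 : ℤ) (2 * X))).filter
    (fun u => u.2 < u.1)

lemma mem_TX {X : ℕ} {u : ℤ × ℤ} :
    u ∈ TX X ↔ ((X : ℤ) < u.1 ∧ u.1 ≤ 2 * X) ∧ (0 ≤ u.2 ∧ u.2 < u.1) := by
  unfold TX
  rw [Finset.mem_filter, Finset.mem_product, Finset.mem_Ioc, Finset.mem_Ico]
  omega

lemma TX_pos {X : ℕ} {u : ℤ × ℤ} (hu : u ∈ TX X) : 0 < u.1 := by
  rw [mem_TX] at hu
  omega

lemma sum_TX {A : Type*} [AddCommMonoid A] (X : ℕ) (F : ℤ × ℤ → A) :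
    ∑ u ∈ TX X, F u = ∑ x ∈ Ioc (X : ℤ) (2 * X), ∑ y ∈ Ico 0 x, F (x, y) := by
  unfold TX
  rw [Finset.sum_filter, Finset.sum_product]
  apply Finset.sum_congr rfl
  intro x hx
  rw [Finset.mem_Ioc] at hx
  rw [← Finset.sum_filter]
  apply Finset.sum_congr _ (fun _ _ => rfl)
  ext y
  rw [Finset.mem_filter, Finset.mem_Ico, Finset.mem_Ico]
  simp only
  omega

lemma tele_row0 {A : Type*} [AddCommGroup A] (f : ℤ → A) (x : ℤ) (hx : 0 ≤ x) :
    ∑ y ∈ Ico 0 x, (f (y + 1) - f y) = f x - f 0 := by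
  have h := tele f 0 x.toNat
  have e : 0 + ((x.toNat : ℕ) : ℤ) = x := by
    rw [Int.toNat_of_nonneg hx, zero_add]
  rw [e] at h
  exact h

/-- The slope of a point. -/
noncomputable def sl (u : ℤ × ℤ) : ℝ := (u.2 : ℝ) / u.1

/-- The increment of `g` along a row. -/
noncomputable def dl (g : ℝ → ℝ) (u : ℤ × ℤ) : ℝ := g (sl (u.1, u.2 + 1)) - g (sl u)

/-- A segment: an increasing smooth function of the slope with small exponential sums over boxes -/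
structure Seg (g g' : ℝ → ℝ) (L : ℝ) : Prop where
  hL : 1 ≤ L
  mv : ∀ t t' : ℝ, 0 ≤ t → t < t' → t' ≤ 1 → ∃ x, t ≤ x ∧ x ≤ t' ∧ g t' - g t = g' x * (t' - t)
  dnn : ∀ t : ℝ, 0 ≤ t → t ≤ 1 → 0 ≤ g' t
  dle : ∀ t : ℝ, 0 ≤ t → t ≤ 1 → g' t ≤ L
  dlip : ∀ t t' : ℝ, 0 ≤ t → t ≤ 1 → 0 ≤ t' → t' ≤ 1 → |g' t - g' t'| ≤ L * |t - t'|
  box : ∃ Z0 : ℕ, ∀ Z : ℕ, Z0 ≤ Z → ∀ m : ℤ, (Z : ℤ) ^ 151 ≤ |m| → |m| ≤ (Z : ℤ) ^ 650 →
    ∀ a b : ℤ, (∀ w ∈ rect a (a + (Z : ℤ) ^ 158) b (b + (Z : ℤ) ^ 158), w ∈ TX (Z ^ 160)) →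
    ‖∑ w ∈ rect a (a + (Z : ℤ) ^ 158) b (b + (Z : ℤ) ^ 158), ph (2 * Real.pi * m * g (sl w))‖ ^ 16
      * Z ≤ L * ((Z : ℝ) ^ 158) ^ 32

variable {g g' : ℝ → ℝ} {L : ℝ}

lemma sl_mem {u : ℤ × ℤ} (h0 : 0 < u.1) (h1 : 0 ≤ u.2) (h2 : u.2 ≤ u.1) :
    0 ≤ sl u ∧ sl u ≤ 1 := by
  have h0r : (0 : ℝ) < u.1 := by exact_mod_cast h0
  have h1r : (0 : ℝ) ≤ u.2 := by exact_mod_cast h1
  have h2r : (u.2 : ℝ) ≤ u.1 := by exact_mod_cast h2
  unfold sl
  exact ⟨div_nonneg h1r h0r.le, (div_le_one h0r).mpr h2r⟩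

lemma dl_mv (S : Seg g g' L) {u : ℤ × ℤ} (h0 : 0 < u.1) (h1 : 0 ≤ u.2) (h2 : u.2 < u.1) :
    ∃ x : ℝ, sl u ≤ x ∧ x ≤ sl u + 1 / u.1 ∧ 0 ≤ x ∧ x ≤ 1 ∧ dl g u = g' x / u.1 := by
  have h0r : (0 : ℝ) < u.1 := by exact_mod_cast h0
  have e : sl (u.1, u.2 + 1) = sl u + 1 / u.1 := by
    unfold sl
    push_cast
    field_simp
  have hm := sl_mem h0 h1 h2.le
  have hm' := sl_mem (u := (u.1, u.2 + 1)) h0 (by simp only; omega) (by simp only; omega)
  rw [e] at hm'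
  have hp : (0 : ℝ) < 1 / u.1 := by positivity
  obtain ⟨x, hx1, hx2, hx3⟩ := S.mv (sl u) (sl u + 1 / u.1) hm.1 (by linarith) hm'.2
  refine ⟨x, hx1, hx2, by linarith, by linarith, ?_⟩
  unfold dl
  rw [e, hx3]
  ring

lemma dl_nonneg (S : Seg g g' L) {u : ℤ × ℤ} (h0 : 0 < u.1) (h1 : 0 ≤ u.2) (h2 : u.2 < u.1) :
    0 ≤ dl g u := by
  have h0r : (0 : ℝ) < u.1 := by exact_mod_cast h0
  obtain ⟨x, _, _, hx3, hx4, hx5⟩ := dl_mv S h0 h1 h2
  rw [hx5]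
  exact div_nonneg (S.dnn x hx3 hx4) h0r.le

lemma dl_le (S : Seg g g' L) {u : ℤ × ℤ} (h0 : 0 < u.1) (h1 : 0 ≤ u.2) (h2 : u.2 < u.1) :
    dl g u ≤ L / u.1 := by
  have h0r : (0 : ℝ) < u.1 := by exact_mod_cast h0
  obtain ⟨x, _, _, hx3, hx4, hx5⟩ := dl_mv S h0 h1 h2
  rw [hx5]
  exact div_le_div_of_nonneg_right (S.dle x hx3 hx4) h0r.le

lemma dl_nonneg_TX (S : Seg g g' L) {X : ℕ} {u : ℤ × ℤ} (hu : u ∈ TX X) : 0 ≤ dl g u := by
  have h := mem_TX.mp hu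
  exact dl_nonneg S (TX_pos hu) h.2.1 h.2.2

lemma dl_le_TX (S : Seg g g' L) {X : ℕ} (hX : 0 < X) {u : ℤ × ℤ} (hu : u ∈ TX X) :
    dl g u ≤ L / X := by
  have h := mem_TX.mp hu
  have hXr : (0 : ℝ) < X := by exact_mod_cast hX
  refine le_trans (dl_le S (TX_pos hu) h.2.1 h.2.2) ?_
  apply div_le_div_of_nonneg_left (by linarith [S.hL]) hXr
  have h1 : (X : ℤ) ≤ u.1 := by omega
  exact_mod_cast h1

lemma dl_var (S : Seg g g' L) {X s : ℕ} (hX : 0 < X) (hs : 1 ≤ s) {u v : ℤ × ℤ} (hu : u ∈ TX X)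
    (hv : v ∈ TX X) (h1 : |u.1 - v.1| ≤ s) (h2 : |u.2 - v.2| ≤ s) :
    |dl g u - dl g v| ≤ 5 * L * s / (X : ℝ) ^ 2 := by
  have hu' := mem_TX.mp hu
  have hv' := mem_TX.mp hv
  obtain ⟨x, hx1, hx2, hx3, hx4, hx5⟩ := dl_mv S (TX_pos hu) hu'.2.1 hu'.2.2
  obtain ⟨y, hy1, hy2, hy3, hy4, hy5⟩ := dl_mv S (TX_pos hv) hv'.2.1 hv'.2.2
  have hvsl := sl_mem (TX_pos hv) hv'.2.1 hv'.2.2.le
  rw [hx5, hy5]
  have hXr : (0 : ℝ) < X := by exact_mod_cast hX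
  have hsr : (1 : ℝ) ≤ s := by exact_mod_cast hs
  have hL := S.hL
  have hL0 : (0 : ℝ) ≤ L := by linarith
  have d1 : |(u.1 : ℝ) - v.1| ≤ s := by exact_mod_cast h1
  have d2 : |(u.2 : ℝ) - v.2| ≤ s := by exact_mod_cast h2
  have u1 : (X : ℝ) ≤ u.1 := by
    have : (X : ℤ) ≤ u.1 := by omega
    exact_mod_cast this
  have v1 : (X : ℝ) ≤ v.1 := by
    have : (X : ℤ) ≤ v.1 := by omega
    exact_mod_cast this
  have hg1 := S.dnn y hy3 hy4
  have hg2 := S.dle y hy3 hy4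
  have hlip := S.dlip x y hx3 hx4 hy3 hy4
  have hsl : |sl u - sl v| ≤ 2 * s / X := by
    have e : sl u - sl v = ((u.2 : ℝ) - v.2) / u.1 + sl v * (((v.1 : ℝ) - u.1) / u.1) := by
      unfold sl
      have hu0 : (u.1 : ℝ) ≠ 0 := by linarith
      have hv0 : (v.1 : ℝ) ≠ 0 := by linarith
      field_simp
      ring
    rw [e]
    refine le_trans (abs_add_le _ _) ?_
    have hu0 : (0 : ℝ) < u.1 := by linarith
    have a1 : |((u.2 : ℝ) - v.2) / u.1| ≤ s / X := by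
      rw [abs_div, abs_of_pos hu0]
      exact div_le_div₀ (by linarith) d2 hXr u1
    have a2 : |sl v * (((v.1 : ℝ) - u.1) / u.1)| ≤ s / X := by
      rw [abs_mul, abs_of_nonneg hvsl.1, abs_div, abs_of_pos hu0]
      have a3 : |(v.1 : ℝ) - u.1| / u.1 ≤ s / X := by
        rw [abs_sub_comm]
        exact div_le_div₀ (by linarith) d1 hXr u1
      calc sl v * (|(v.1 : ℝ) - u.1| / u.1) ≤ 1 * (s / X) :=
            mul_le_mul hvsl.2 a3 (by positivity) (by norm_num)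
        _ = s / X := by ring
    calc _ ≤ (s : ℝ) / X + (s : ℝ) / X := add_le_add a1 a2
      _ = 2 * (s : ℝ) / X := by ring
  have hxy : |x - y| ≤ 4 * s / X := by
    have b1 : (1 : ℝ) / u.1 ≤ s / X := div_le_div₀ (by linarith) hsr hXr u1
    have b2 : (1 : ℝ) / v.1 ≤ s / X := div_le_div₀ (by linarith) hsr hXr v1
    have b3 := abs_le.mp hsl
    have e2 : 2 * (s : ℝ) / X = 2 * (s / X) := by ring
    have e4 : 4 * (s : ℝ) / X = 4 * (s / X) := by ring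
    have hsX : (0 : ℝ) ≤ s / X := by positivity
    rw [e2] at b3
    rw [e4, abs_le]
    constructor <;> linarith [b3.1, b3.2]
  have hu0 : (0 : ℝ) < u.1 := by linarith
  have hv0 : (0 : ℝ) < v.1 := by linarith
  have e : g' x / u.1 - g' y / v.1 = (g' x - g' y) / u.1
      + g' y * (((v.1 : ℝ) - u.1) / (u.1 * v.1)) := by
    field_simp
    ring
  rw [e]
  refine le_trans (abs_add_le _ _) ?_
  have c1 : |(g' x - g' y) / u.1| ≤ 4 * L * s / X ^ 2 := by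
    rw [abs_div, abs_of_pos hu0]
    have h3 : |g' x - g' y| ≤ L * (4 * s / X) :=
      le_trans hlip (mul_le_mul_of_nonneg_left hxy hL0)
    calc |g' x - g' y| / u.1 ≤ (L * (4 * s / X)) / X :=
          div_le_div₀ (by positivity) h3 hXr u1
      _ = 4 * L * s / X ^ 2 := by ring
  have c2 : |g' y * (((v.1 : ℝ) - u.1) / (u.1 * v.1))| ≤ L * s / X ^ 2 := by
    rw [abs_mul, abs_of_nonneg hg1, abs_div, abs_of_pos (mul_pos hu0 hv0)]
    have h3 : |(v.1 : ℝ) - u.1| / (u.1 * v.1) ≤ s / (X * X) := by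
      rw [abs_sub_comm]
      exact div_le_div₀ (by linarith) d1 (by positivity)
        (mul_le_mul u1 v1 hXr.le (by linarith))
    calc g' y * (|(v.1 : ℝ) - u.1| / (u.1 * v.1)) ≤ L * (s / (X * X)) :=
          mul_le_mul hg2 h3 (by positivity) hL0
      _ = L * s / X ^ 2 := by ring
  calc _ ≤ 4 * L * (s : ℝ) / (X : ℝ) ^ 2 + L * (s : ℝ) / (X : ℝ) ^ 2 := add_le_add c1 c2
    _ = 5 * L * s / (X : ℝ) ^ 2 := by ring

lemma sl_zero (s : ℤ) : sl (s, 0) = 0 := by simp [sl]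

lemma sl_diag {s : ℤ} (hs : 0 < s) : sl (s, s) = 1 := by
  have : (s : ℝ) ≠ 0 := by exact_mod_cast hs.ne'
  simp [sl, this]

lemma sum_row_dl {s : ℤ} (hs : 0 < s) : ∑ y ∈ Ico 0 s, dl g (s, y) = g 1 - g 0 := by
  have h := tele_row0 (fun y => g (sl (s, y))) s hs.le
  simp only [sl_zero, sl_diag hs] at h
  rw [← h]
  rfl

lemma sum_dl (X : ℕ) : ∑ u ∈ TX X, dl g u = X * (g 1 - g 0) := by
  rw [sum_TX]
  have h : ∀ x ∈ Ioc (X : ℤ) (2 * X), ∑ y ∈ Ico 0 x, dl g (x, y) = g 1 - g 0 := by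
    intro x hx
    rw [Finset.mem_Ioc] at hx
    exact sum_row_dl (by omega)
  rw [Finset.sum_congr rfl h, Finset.sum_const, Int.card_Ioc, nsmul_eq_mul]
  have e : (2 * (X : ℤ) - X).toNat = X := by omega
  rw [e]

/-- The weighted sum. -/
noncomputable def TS (g : ℝ → ℝ) (X : ℕ) (r : ℝ) : ℂ :=
  ∑ u ∈ TX X, (dl g u : ℂ) * ph (r * g (sl u))

lemma row_low0 (S : Seg g g' L) {s : ℤ} (hs : 0 < s) (r : ℝ) :
    ‖((r : ℂ) * Complex.I) * ∑ y ∈ Ico 0 s, (dl g (s, y) : ℂ) * ph (r * g (sl (s, y)))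
      - (ph (r * g 1) - ph (r * g 0))‖ ≤ r ^ 2 * (L / s * (g 1 - g 0)) := by
  have h1 : ∀ y ∈ Ico 0 s,
      ‖((r : ℂ) * Complex.I) * ((dl g (s, y) : ℂ) * ph (r * g (sl (s, y))))
        - (ph (r * g (sl (s, y + 1))) - ph (r * g (sl (s, y))))‖
      ≤ r ^ 2 * (L / s * dl g (s, y)) := by
    intro y hy
    rw [Finset.mem_Ico] at hy
    have hw0 := dl_nonneg S (u := (s, y)) hs hy.1 hy.2
    have hw1 := dl_le S (u := (s, y)) hs hy.1 hy.2
    have e : ((r : ℂ) * Complex.I) * ((dl g (s, y) : ℂ) * ph (r * g (sl (s, y))))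
        - (ph (r * g (sl (s, y + 1))) - ph (r * g (sl (s, y))))
        = -(ph (r * g (sl (s, y))) * (ph (r * dl g (s, y)) - 1
          - ((r * dl g (s, y) : ℝ) : ℂ) * Complex.I)) := by
      have e1 : ph (r * g (sl (s, y + 1))) = ph (r * g (sl (s, y))) * ph (r * dl g (s, y)) := by
        rw [← ph_add]
        congr 1
        unfold dl
        ring
      rw [e1]
      push_cast
      ring
    rw [e, norm_neg, norm_mul, norm_ph, one_mul]
    refine le_trans (ph_taylor _) ?_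
    rw [mul_pow]
    apply mul_le_mul_of_nonneg_left _ (sq_nonneg _)
    rw [sq]
    exact mul_le_mul_of_nonneg_right hw1 hw0
  have h3 : ∑ y ∈ Ico 0 s, (ph (r * g (sl (s, y + 1))) - ph (r * g (sl (s, y))))
      = ph (r * g 1) - ph (r * g 0) := by
    have h4 := tele_row0 (fun y => ph (r * g (sl (s, y)))) s hs.le
    simp only [sl_zero, sl_diag hs] at h4
    exact h4
  rw [← h3, Finset.mul_sum, ← Finset.sum_sub_distrib]
  refine le_trans (norm_sum_le _ _) (le_trans (Finset.sum_le_sum h1) ?_)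
  rw [← Finset.mul_sum, ← Finset.mul_sum, sum_row_dl hs]

lemma seg_mono (S : Seg g g' L) : 0 ≤ g 1 - g 0 := by
  obtain ⟨x, h1, h2, h3⟩ := S.mv 0 1 le_rfl one_pos le_rfl
  rw [h3]
  have := S.dnn x h1 h2
  linarith

lemma TS_low (S : Seg g g' L) {X : ℕ} (hX : 0 < X) (r : ℝ) :
    ‖((r : ℂ) * Complex.I) * TS g X r - X * (ph (r * g 1) - ph (r * g 0))‖
      ≤ r ^ 2 * (L * (g 1 - g 0)) := by
  have hXr : (0 : ℝ) < X := by exact_mod_cast hX
  have hg := seg_mono S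
  have hL := S.hL
  have hcard : ((Ioc (X : ℤ) (2 * X)).card : ℕ) = X := by
    rw [Int.card_Ioc]
    omega
  have e : ((r : ℂ) * Complex.I) * TS g X r - X * (ph (r * g 1) - ph (r * g 0))
      = ∑ s ∈ Ioc (X : ℤ) (2 * X), (((r : ℂ) * Complex.I) *
        ∑ y ∈ Ico 0 s, (dl g (s, y) : ℂ) * ph (r * g (sl (s, y)))
        - (ph (r * g 1) - ph (r * g 0))) := by
    rw [Finset.sum_sub_distrib, Finset.sum_const, hcard, nsmul_eq_mul, ← Finset.mul_sum]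
    unfold TS
    rw [sum_TX]
  rw [e]
  have h1 : ∀ s ∈ Ioc (X : ℤ) (2 * X), ‖((r : ℂ) * Complex.I) *
        ∑ y ∈ Ico 0 s, (dl g (s, y) : ℂ) * ph (r * g (sl (s, y)))
        - (ph (r * g 1) - ph (r * g 0))‖ ≤ r ^ 2 * (L / X * (g 1 - g 0)) := by
    intro s hs
    rw [Finset.mem_Ioc] at hs
    refine le_trans (row_low0 S (by omega) r) ?_
    apply mul_le_mul_of_nonneg_left _ (sq_nonneg _)
    apply mul_le_mul_of_nonneg_right _ hg
    apply div_le_div_of_nonneg_left (by linarith) hXr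
    have h1 : (X : ℤ) ≤ s := by omega
    exact_mod_cast h1
  refine le_trans (norm_sum_le _ _) (le_trans (Finset.sum_le_sum h1) ?_)
  rw [Finset.sum_const, hcard, nsmul_eq_mul]
  apply le_of_eq
  field_simp

/-- the number of points near the side of the triangle -/
lemma card_side0 (X s : ℕ) :
    ((TX X).filter (fun u : ℤ × ℤ => u.1 - 2 * (s : ℤ) < u.2)).card ≤ 2 * s * X := by
  have hinj : ((TX X).filter (fun u : ℤ × ℤ => u.1 - 2 * (s : ℤ) < u.2)).card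
      ≤ ((Ioc (X : ℤ) (2 * X)) ×ˢ (Ico (0 : ℤ) (2 * s))).card := by
    apply Finset.card_le_card_of_injOn (fun u => (u.1, u.1 - u.2))
    · intro u hu
      rw [Finset.mem_coe, Finset.mem_filter, mem_TX] at hu
      rw [Finset.mem_coe, Finset.mem_product, Finset.mem_Ioc, Finset.mem_Ico]
      simp only
      omega
    · intro u _ v _ huv
      simp only [Prod.mk.injEq] at huv
      ext <;> omega
  refine le_trans hinj ?_
  rw [Finset.card_product, Int.card_Ioc, Int.card_Ico]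
  have e1 : (2 * (X : ℤ) - X).toNat = X := by omega
  have e2 : (2 * (s : ℤ) - 0).toNat = 2 * s := by omega
  rw [e1, e2, mul_comm]

/-- weighted sum over a box of the triangle -/
lemma box_dl (S : Seg g g' L) {Z : ℕ} (hZn : 0 < Z) (m : ℤ) (a b : ℤ) (r : ℝ) (hr0 : 0 ≤ r)
    (hr : r ^ 16 = L / Z)
    (hbox : ‖∑ w ∈ rect a (a + (Z : ℤ) ^ 158) b (b + (Z : ℤ) ^ 158),
      ph (2 * Real.pi * m * g (sl w))‖ ^ 16 * Z ≤ L * ((Z : ℝ) ^ 158) ^ 32)
    (hin : ∀ w ∈ rect a (a + (Z : ℤ) ^ 158) b (b + (Z : ℤ) ^ 158), w ∈ TX (Z ^ 160)) :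
    ‖∑ w ∈ rect a (a + (Z : ℤ) ^ 158) b (b + (Z : ℤ) ^ 158),
      (dl g w : ℂ) * ph (2 * Real.pi * (m : ℝ) * g (sl w))‖
      ≤ ((Z : ℝ) ^ 158) ^ 2 * (5 * L * (Z : ℝ) ^ 158 / ((Z : ℝ) ^ 160) ^ 2)
        + L / (Z : ℝ) ^ 160 * (((Z : ℝ) ^ 158) ^ 2 * r) := by
  have hL := S.hL
  have hZ0 : (0 : ℝ) < Z := by exact_mod_cast hZn
  have hsZ : (0 : ℤ) < (Z : ℤ) ^ 158 := by positivity
  have hsZn : 1 ≤ Z ^ 158 := Nat.one_le_pow _ _ hZn
  have hXn : 0 < Z ^ 160 := by positivity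
  have hcorner : (a, b) ∈ rect a (a + (Z : ℤ) ^ 158) b (b + (Z : ℤ) ^ 158) := by
    rw [mem_rect]
    simp only
    omega
  have hcT := hin _ hcorner
  -- the plain sum
  have hplain : ‖∑ w ∈ rect a (a + (Z : ℤ) ^ 158) b (b + (Z : ℤ) ^ 158),
      ph (2 * Real.pi * (m : ℝ) * g (sl w))‖ ≤ ((Z : ℝ) ^ 158) ^ 2 * r := by
    apply le_of_pow_le_pow_left₀ (n := 16) (by norm_num) (by positivity)
    rw [mul_pow, hr, ← pow_mul]
    have e : ((Z : ℝ) ^ 158) ^ (2 * 16) * (L / Z)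
        = (L * ((Z : ℝ) ^ 158) ^ 32) / Z := by ring
    rw [e, le_div_iff₀ hZ0]
    exact hbox
  have hcard : ((rect a (a + (Z : ℤ) ^ 158) b (b + (Z : ℤ) ^ 158)).card : ℝ)
      ≤ ((Z : ℝ) ^ 158) ^ 2 := by
    have h := card_rect_le (x0 := a) (x1 := a + (Z : ℤ) ^ 158) (y0 := b)
      (y1 := b + (Z : ℤ) ^ 158) (l0 := Z ^ 158) (by push_cast; exact le_refl _)
      (by push_cast; exact le_refl _)
    exact_mod_cast h
  have hsplit : ∑ w ∈ rect a (a + (Z : ℤ) ^ 158) b (b + (Z : ℤ) ^ 158),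
      (dl g w : ℂ) * ph (2 * Real.pi * (m : ℝ) * g (sl w))
      = ∑ w ∈ rect a (a + (Z : ℤ) ^ 158) b (b + (Z : ℤ) ^ 158),
          ((dl g w - dl g (a, b) : ℝ) : ℂ) * ph (2 * Real.pi * (m : ℝ) * g (sl w))
        + (dl g (a, b) : ℂ) * ∑ w ∈ rect a (a + (Z : ℤ) ^ 158) b (b + (Z : ℤ) ^ 158),
          ph (2 * Real.pi * (m : ℝ) * g (sl w)) := by
    rw [Finset.mul_sum, ← Finset.sum_add_distrib]
    apply Finset.sum_congr rfl
    intro w _
    push_cast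
    ring
  rw [hsplit]
  refine le_trans (norm_add_le _ _) (add_le_add ?_ ?_)
  · refine le_trans (norm_sum_le _ _) ?_
    have hterm : ∀ w ∈ rect a (a + (Z : ℤ) ^ 158) b (b + (Z : ℤ) ^ 158),
        ‖((dl g w - dl g (a, b) : ℝ) : ℂ) * ph (2 * Real.pi * (m : ℝ) * g (sl w))‖
        ≤ 5 * L * (Z : ℝ) ^ 158 / ((Z : ℝ) ^ 160) ^ 2 := by
      intro w hw
      rw [norm_mul, norm_ph, mul_one, Complex.norm_real, Real.norm_eq_abs]
      have hwG := hin w hw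
      rw [mem_rect] at hw
      have h := dl_var S (X := Z ^ 160) (s := Z ^ 158) hXn hsZn (u := w) (v := (a, b))
        hwG hcT
        (by push_cast; rw [abs_le]; constructor <;> omega)
        (by push_cast; rw [abs_le]; constructor <;> omega)
      push_cast at h
      exact h
    refine le_trans (Finset.sum_le_sum hterm) ?_
    rw [Finset.sum_const, nsmul_eq_mul]
    exact mul_le_mul_of_nonneg_right hcard (by positivity)
  · rw [norm_mul, Complex.norm_real, Real.norm_eq_abs,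
      abs_of_nonneg (dl_nonneg_TX S hcT)]
    apply mul_le_mul _ hplain (norm_nonneg _) (by positivity)
    have h := dl_le_TX S hXn hcT
    push_cast at h
    exact h

lemma TS_high (S : Seg g g' L) (Z : ℕ) (hZn : 0 < Z) (m : ℤ)
    (hbox : ∀ a b : ℤ, (∀ w ∈ rect a (a + (Z : ℤ) ^ 158) b (b + (Z : ℤ) ^ 158),
      w ∈ TX (Z ^ 160)) →
    ‖∑ w ∈ rect a (a + (Z : ℤ) ^ 158) b (b + (Z : ℤ) ^ 158), ph (2 * Real.pi * m * g (sl w))‖ ^ 16
      * Z ≤ L * ((Z : ℝ) ^ 158) ^ 32) (r : ℝ) (hr0 : 0 ≤ r) (hr : r ^ 16 = L / Z) :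
    ‖TS g (Z ^ 160) (2 * Real.pi * m)‖ ≤ 12 * L * (Z : ℝ) ^ 158 + 2 * L * ((Z : ℝ) ^ 160 * r) := by
  classical
  have hL := S.hL
  have hZ0 : (0 : ℝ) < Z := by exact_mod_cast hZn
  have hs0 : (0 : ℤ) < (Z : ℤ) ^ 158 := by positivity
  have hXn : 0 < Z ^ 160 := by positivity
  have hXs : (Z : ℤ) ^ 160 = (Z : ℤ) ^ 2 * (Z : ℤ) ^ 158 := by ring
  set idx : ℤ × ℤ → ℤ × ℤ :=
    fun u => ((u.1 - (Z : ℤ) ^ 160 - 1) / (Z : ℤ) ^ 158, u.2 / (Z : ℤ) ^ 158) with hidx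
  set P := (Ico (0 : ℤ) ((Z : ℤ) ^ 2)) ×ˢ (Ico 0 (2 * (Z : ℤ) ^ 2)) with hP
  set Bx : ℤ × ℤ → Finset (ℤ × ℤ) := fun p =>
    rect ((Z : ℤ) ^ 160 + 1 + p.1 * (Z : ℤ) ^ 158)
      ((Z : ℤ) ^ 160 + 1 + p.1 * (Z : ℤ) ^ 158 + (Z : ℤ) ^ 158)
      (p.2 * (Z : ℤ) ^ 158) (p.2 * (Z : ℤ) ^ 158 + (Z : ℤ) ^ 158) with hBx
  have hmem : ∀ u p, idx u = p ↔ u ∈ Bx p := by
    intro u p
    simp only [hidx, hBx]
    rw [mem_rect, Prod.ext_iff]
    simp only
    rw [ediv_eq _ _ _ hs0, ediv_eq _ _ _ hs0]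
    constructor
    · rintro ⟨h3, h4⟩
      exact ⟨⟨by linarith [h3.1], by linarith [h3.2]⟩, h4⟩
    · rintro ⟨h3, h4⟩
      exact ⟨⟨by linarith [h3.1], by linarith [h3.2]⟩, h4⟩
  have hmaps : ∀ u ∈ TX (Z ^ 160), idx u ∈ P := by
    intro u hu
    rw [mem_TX] at hu
    push_cast at hu
    simp only [hidx, hP]
    rw [Finset.mem_product, Finset.mem_Ico, Finset.mem_Ico]
    simp only
    refine ⟨⟨?_, ?_⟩, ?_, ?_⟩
    · exact Int.ediv_nonneg (by omega) hs0.le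
    · apply Int.ediv_lt_of_lt_mul hs0
      rw [← hXs]
      omega
    · exact Int.ediv_nonneg (by omega) hs0.le
    · apply Int.ediv_lt_of_lt_mul hs0
      have e : 2 * (Z : ℤ) ^ 2 * (Z : ℤ) ^ 158 = 2 * (Z : ℤ) ^ 160 := by
        rw [hXs]; ring
      rw [e]
      omega
  set F : ℤ × ℤ → ℂ := fun u => (dl g u : ℂ) * ph (2 * Real.pi * m * g (sl u)) with hF
  have hFn : ∀ u ∈ TX (Z ^ 160), ‖F u‖ ≤ dl g u := by
    intro u hu
    simp only [hF]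
    rw [norm_mul, norm_ph, mul_one, Complex.norm_real, Real.norm_eq_abs,
      abs_of_nonneg (dl_nonneg_TX S hu)]
  set bigB : ℝ := ((Z : ℝ) ^ 158) ^ 2 * (5 * L * (Z : ℝ) ^ 158 / ((Z : ℝ) ^ 160) ^ 2)
        + L / (Z : ℝ) ^ 160 * (((Z : ℝ) ^ 158) ^ 2 * r) with hbigB
  have hbigB0 : 0 ≤ bigB := by rw [hbigB]; positivity
  set ins : ℤ × ℤ → Prop := fun p => ∀ u ∈ Bx p, u ∈ TX (Z ^ 160) with hins
  have hfib : ∀ p ∈ P, ‖∑ u ∈ (TX (Z ^ 160)).filter (fun u => idx u = p), F u‖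
      ≤ bigB + (if ins p then 0 else
        ∑ u ∈ (TX (Z ^ 160)).filter (fun u => idx u = p), dl g u) := by
    intro p _
    split_ifs with hi
    · rw [add_zero]
      have e : (TX (Z ^ 160)).filter (fun u => idx u = p) = Bx p := by
        ext u
        rw [Finset.mem_filter, hmem]
        exact ⟨fun h => h.2, fun h => ⟨hi u h, h⟩⟩
      rw [e]
      exact box_dl S hZn m _ _ r hr0 hr (hbox _ _ hi) hi
    · have h3 : ‖∑ u ∈ (TX (Z ^ 160)).filter (fun u => idx u = p), F u‖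
          ≤ ∑ u ∈ (TX (Z ^ 160)).filter (fun u => idx u = p), dl g u := by
        refine le_trans (norm_sum_le _ _) (Finset.sum_le_sum ?_)
        intro u hu
        exact hFn u (Finset.mem_filter.mp hu).1
      linarith
  have hside : ∑ p ∈ P, (if ins p then 0 else
        ∑ u ∈ (TX (Z ^ 160)).filter (fun u => idx u = p), dl g u) ≤ 2 * L * (Z : ℝ) ^ 158 := by
    have e1 : ∑ p ∈ P, (if ins p then 0 else
        ∑ u ∈ (TX (Z ^ 160)).filter (fun u => idx u = p), dl g u)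
        = ∑ p ∈ P, ∑ u ∈ (TX (Z ^ 160)).filter (fun u => idx u = p),
          (if ins (idx u) then 0 else dl g u) := by
      apply Finset.sum_congr rfl
      intro p _
      split_ifs with hi
      · symm
        apply Finset.sum_eq_zero
        intro u hu
        rw [(Finset.mem_filter.mp hu).2, if_pos hi]
      · apply Finset.sum_congr rfl
        intro u hu
        rw [(Finset.mem_filter.mp hu).2, if_neg hi]
    rw [e1, Finset.sum_fiberwise_of_maps_to hmaps]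
    have e2 : ∀ u ∈ TX (Z ^ 160), (if ins (idx u) then 0 else dl g u)
        ≤ (if (u.1 - 2 * ((Z ^ 158 : ℕ) : ℤ) < u.2)
          then L / (Z : ℝ) ^ 160 else 0) := by
      intro u hu
      by_cases hi : ins (idx u)
      · rw [if_pos hi]
        split_ifs
        · positivity
        · exact le_refl _
      · rw [if_neg hi]
        have hne : u.1 - 2 * ((Z ^ 158 : ℕ) : ℤ) < u.2 := by
          simp only [hins] at hi
          push Not at hi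
          obtain ⟨v, hv, hvn⟩ := hi
          have hu2 : u ∈ Bx (idx u) := (hmem u _).mp rfl
          have hpP := hmaps u hu
          simp only [hBx] at hv hu2
          rw [mem_rect] at hv hu2
          rw [hP, Finset.mem_product, Finset.mem_Ico, Finset.mem_Ico] at hpP
          have hp1 : (idx u).1 * (Z : ℤ) ^ 158 + (Z : ℤ) ^ 158 ≤ (Z : ℤ) ^ 160 := by
            have : (idx u).1 + 1 ≤ (Z : ℤ) ^ 2 := by omega
            have h3 := mul_le_mul_of_nonneg_right this hs0.le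
            rw [hXs]
            linarith
          have hp0 : 0 ≤ (idx u).1 * (Z : ℤ) ^ 158 := mul_nonneg hpP.1.1 hs0.le
          have hp2 : 0 ≤ (idx u).2 * (Z : ℤ) ^ 158 := mul_nonneg hpP.2.1 hs0.le
          rw [mem_TX] at hvn
          push_cast at hvn ⊢
          omega
        rw [if_pos hne]
        have h := dl_le_TX S hXn hu
        push_cast at h
        exact h
    refine le_trans (Finset.sum_le_sum e2) ?_
    rw [← Finset.sum_filter, Finset.sum_const, nsmul_eq_mul]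
    have h3 := card_side0 (Z ^ 160) (Z ^ 158)
    have h4 : (((TX (Z ^ 160)).filter (fun u => u.1 - 2 * ((Z ^ 158 : ℕ) : ℤ) < u.2)).card : ℝ)
        ≤ 2 * (Z : ℝ) ^ 158 * (Z : ℝ) ^ 160 := by
      exact_mod_cast h3
    calc _ ≤ 2 * (Z : ℝ) ^ 158 * (Z : ℝ) ^ 160 * (L / (Z : ℝ) ^ 160) :=
          mul_le_mul_of_nonneg_right h4 (by positivity)
      _ = 2 * L * (Z : ℝ) ^ 158 := by field_simp
  have htot : ‖TS g (Z ^ 160) (2 * Real.pi * m)‖ ≤ ∑ p ∈ P, (bigB + (if ins p then 0 else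
        ∑ u ∈ (TX (Z ^ 160)).filter (fun u => idx u = p), dl g u)) := by
    have e1 : TS g (Z ^ 160) (2 * Real.pi * m)
        = ∑ p ∈ P, ∑ u ∈ (TX (Z ^ 160)).filter (fun u => idx u = p), F u := by
      rw [Finset.sum_fiberwise_of_maps_to hmaps]
      rfl
    rw [e1]
    exact le_trans (norm_sum_le _ _) (Finset.sum_le_sum hfib)
  rw [Finset.sum_add_distrib, Finset.sum_const, nsmul_eq_mul] at htot
  have hPc : (P.card : ℝ) = 2 * (Z : ℝ) ^ 4 := by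
    rw [hP, Finset.card_product, Int.card_Ico, Int.card_Ico]
    have c1 : ((Z : ℤ) ^ 2 - 0).toNat = Z ^ 2 := by
      have : ((Z : ℤ) ^ 2 - 0) = ((Z ^ 2 : ℕ) : ℤ) := by push_cast; ring
      rw [this, Int.toNat_natCast]
    have c2 : (2 * (Z : ℤ) ^ 2 - 0).toNat = 2 * Z ^ 2 := by
      have : (2 * (Z : ℤ) ^ 2 - 0) = ((2 * Z ^ 2 : ℕ) : ℤ) := by
        push_cast; ring
      rw [this, Int.toNat_natCast]
    rw [c1, c2]
    push_cast
    ring
  have hmain : 2 * (Z : ℝ) ^ 4 * bigB = 10 * L * (Z : ℝ) ^ 158 + 2 * L * ((Z : ℝ) ^ 160 * r) := by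
    rw [hbigB]
    have hZne : (Z : ℝ) ≠ 0 := hZ0.ne'
    have e160 : (Z : ℝ) ^ 160 = (Z : ℝ) ^ 2 * (Z : ℝ) ^ 158 := by ring
    have hs : (Z : ℝ) ^ 158 ≠ 0 := by positivity
    rw [e160]
    field_simp
    ring
  rw [hPc, hmain] at htot
  linarith

end Pool.Agent.Lib.MP_a17b09_nt.LG
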