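import Pool.Agent.Lib.MP_a17b09_nt.LG.WtA

/-!
A Weyl family from finitely many segments.
-/

set_option autoImplicit false

open Finset

namespace Pool.Agent.Lib.MP_a17b09_nt.LG

open Pool.Agent.Lib.MP_a17b09_nt Pool.Agent.Lib.MP_a17b09_nt.LP

lemma ch_ps_eq (th : ℤ × ℤ → ℝ) (Q : ℕ) [NeZero Q] (m : ℤ) (u : ℤ × ℤ) :
    ch ((m : ZMod Q) * ((ps th Q u : ℤ) : ZMod Q))
      = ph (2 * Real.pi * m * ((ps th Q u : ℤ) : ℝ) / Q) := by
  have e : (m : ZMod Q) * ((ps th Q u : ℤ) : ZMod Q) = ((m * ps th Q u : ℤ) : ZMod Q) := by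
    push_cast
    ring
  rw [e, ch_intCast, ph]
  congr 1
  push_cast
  ring

lemma ch_ps_le (th : ℤ × ℤ → ℝ) (Q : ℕ) [NeZero Q] (m : ℤ) (u : ℤ × ℤ) :
    ‖ch ((m : ZMod Q) * ((ps th Q u : ℤ) : ZMod Q)) - ph (2 * Real.pi * m * th u)‖
      ≤ 2 * Real.pi * |(m : ℝ)| / Q := by
  have hQ : (0 : ℝ) < Q := by
    have := NeZero.pos Q
    exact_mod_cast this
  rw [ch_ps_eq]
  refine le_trans (norm_ph_sub_le _ _) ?_
  have e : 2 * Real.pi * m * ((ps th Q u : ℤ) : ℝ) / Q - 2 * Real.pi * m * th u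
      = 2 * Real.pi * m * ((((ps th Q u : ℤ) : ℝ) - Q * th u) / Q) := by
    field_simp
  rw [e, abs_mul, abs_mul, abs_of_pos (by positivity : 0 < 2 * Real.pi), abs_div,
    abs_of_pos hQ]
  have h1 : |((ps th Q u : ℤ) : ℝ) - Q * th u| ≤ 1 := by
    unfold ps
    rw [abs_le]
    constructor
    · have := Int.sub_one_lt_floor ((Q : ℝ) * th u)
      linarith
    · have := Int.floor_le ((Q : ℝ) * th u)
      linarith
  have h2 : |((ps th Q u : ℤ) : ℝ) - Q * th u| / Q ≤ 1 / Q :=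
    div_le_div_of_nonneg_right h1 hQ.le
  calc 2 * Real.pi * |(m : ℝ)| * (|((ps th Q u : ℤ) : ℝ) - Q * th u| / Q)
      ≤ 2 * Real.pi * |(m : ℝ)| * (1 / Q) := mul_le_mul_of_nonneg_left h2 (by positivity)
    _ = 2 * Real.pi * |(m : ℝ)| / Q := by ring

/-- The vector of a point of the triangle. -/
def pt (P R : ℤ × ℤ) (u : ℤ × ℤ) : ℤ × ℤ := (u.1 * P.1 + u.2 * R.1, u.1 * P.2 + u.2 * R.2)

lemma pt_inj {P R : ℤ × ℤ} (h : det P R ≠ 0) {u v : ℤ × ℤ} (huv : pt P R u = pt P R v) :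
    u = v := by
  unfold pt at huv
  rw [Prod.mk.injEq] at huv
  obtain ⟨h1, h2⟩ := huv
  unfold det at h
  have e1 : (u.1 - v.1) * (P.1 * R.2 - P.2 * R.1) = 0 := by
    linear_combination R.2 * h1 - R.1 * h2
  have e2 : (u.2 - v.2) * (P.1 * R.2 - P.2 * R.1) = 0 := by
    linear_combination P.1 * h2 - P.2 * h1
  ext
  · have := (mul_eq_zero.mp e1).resolve_right h
    omega
  · have := (mul_eq_zero.mp e2).resolve_right h
    omega

variable {b c : ℤ} {V : ℤ × ℤ → Prop} {th : ℤ × ℤ → ℝ}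

/-- the sum over the family -/
lemma fam_sum {n : ℕ} (I : Finset (Fin n × (ℤ × ℤ))) (F : Fin n × (ℤ × ℤ) → ℤ × ℤ)
    (d : Fin n × (ℤ × ℤ) → ℝ) (c0 : ℝ) (H : ℤ × ℤ → ℂ) :
    ∑ u ∈ I.image F, ((c0 * ∑ p ∈ I.filter (fun p => F p = u), d p : ℝ) : ℂ) * H u
      = (c0 : ℂ) * ∑ p ∈ I, (d p : ℂ) * H (F p) := by
  have hmaps : ∀ p ∈ I, F p ∈ I.image F := fun p hp => Finset.mem_image_of_mem F hp
  rw [← Finset.sum_fiberwise_of_maps_to hmaps, Finset.mul_sum]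
  apply Finset.sum_congr rfl
  intro u _
  push_cast
  rw [mul_assoc, Finset.sum_mul]
  congr 1
  apply Finset.sum_congr rfl
  intro p hp
  rw [(Finset.mem_filter.mp hp).2]

lemma fam_sum_real {n : ℕ} (I : Finset (Fin n × (ℤ × ℤ))) (F : Fin n × (ℤ × ℤ) → ℤ × ℤ)
    (d : Fin n × (ℤ × ℤ) → ℝ) (c0 : ℝ) :
    ∑ u ∈ I.image F, (c0 * ∑ p ∈ I.filter (fun p => F p = u), d p)
      = c0 * ∑ p ∈ I, d p := by
  have hmaps : ∀ p ∈ I, F p ∈ I.image F := fun p hp => Finset.mem_image_of_mem F hp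
  rw [← Finset.sum_fiberwise_of_maps_to hmaps, Finset.mul_sum]

lemma high_comb {n : ℕ} {g g' : Fin n → ℝ → ℝ} {L : ℝ} (hn : 0 < n) (hL : 1 ≤ L)
    (hS : ∀ i, Seg (g i) (g' i) L) {Z : ℕ} (hZn : 0 < Z) (m : ℤ)
    (hbox : ∀ i, ∀ a b : ℤ, (∀ w ∈ rect a (a + (Z : ℤ) ^ 158) b (b + (Z : ℤ) ^ 158),
      w ∈ TX (Z ^ 160)) →
    ‖∑ w ∈ rect a (a + (Z : ℤ) ^ 158) b (b + (Z : ℤ) ^ 158), ph (2 * Real.pi * m * g i (sl w))‖ ^ 16
      * Z ≤ L * ((Z : ℝ) ^ 158) ^ 32) :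
    ∃ r : ℝ, 0 ≤ r ∧ r ^ 16 = L / Z ∧ 1 ≤ (Z : ℝ) ^ 160 * r ∧
    1 / (n * L) * ‖∑ i, TS (g i) (Z ^ 160) (2 * Real.pi * m)‖ ≤ 14 * ((Z : ℝ) ^ 160 * r) := by
  have hZ0 : (0 : ℝ) < Z := by exact_mod_cast hZn
  have hZ1 : (1 : ℝ) ≤ Z := by exact_mod_cast hZn
  have hnr : (0 : ℝ) < n := by exact_mod_cast hn
  set r : ℝ := (L / Z) ^ (((16 : ℕ) : ℝ)⁻¹) with hr
  have hq0 : 0 ≤ L / Z := by positivity
  have hr0 : 0 ≤ r := Real.rpow_nonneg hq0 _
  have hr16 : r ^ 16 = L / Z := Real.rpow_inv_natCast_pow hq0 (by norm_num)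
  have h2 : 1 ≤ (Z : ℝ) ^ 2 * r := by
    rw [← one_le_pow_iff_of_nonneg (by positivity) (by norm_num : (16 : ℕ) ≠ 0), mul_pow,
      hr16]
    have e : ((Z : ℝ) ^ 2) ^ 16 * (L / Z) = L * (Z : ℝ) ^ 31 := by
      field_simp
    rw [e]
    have h3 : (1 : ℝ) ≤ (Z : ℝ) ^ 31 := one_le_pow₀ hZ1
    nlinarith
  have h3 : (Z : ℝ) ^ 158 ≤ (Z : ℝ) ^ 160 * r := by
    calc (Z : ℝ) ^ 158 = (Z : ℝ) ^ 158 * 1 := by ring
      _ ≤ (Z : ℝ) ^ 158 * ((Z : ℝ) ^ 2 * r) := mul_le_mul_of_nonneg_left h2 (by positivity)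
      _ = (Z : ℝ) ^ 160 * r := by ring
  have h4 : (1 : ℝ) ≤ (Z : ℝ) ^ 158 := one_le_pow₀ hZ1
  refine ⟨r, hr0, hr16, le_trans h4 h3, ?_⟩
  have h5 : ‖∑ i, TS (g i) (Z ^ 160) (2 * Real.pi * m)‖ ≤ n * (14 * L * ((Z : ℝ) ^ 160 * r)) := by
    refine le_trans (norm_sum_le _ _) ?_
    have h6 : ∀ i ∈ (Finset.univ : Finset (Fin n)), ‖TS (g i) (Z ^ 160) (2 * Real.pi * m)‖
        ≤ 14 * L * ((Z : ℝ) ^ 160 * r) := by
      intro i _
      have h7 := TS_high (hS i) Z hZn m (hbox i) r hr0 hr16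
      have h8 : 12 * L * (Z : ℝ) ^ 158 ≤ 12 * L * ((Z : ℝ) ^ 160 * r) :=
        mul_le_mul_of_nonneg_left h3 (by linarith)
      linarith
    refine le_trans (Finset.sum_le_sum h6) ?_
    rw [Finset.sum_const, Finset.card_univ, Fintype.card_fin, nsmul_eq_mul]
  calc 1 / (n * L) * ‖∑ i, TS (g i) (Z ^ 160) (2 * Real.pi * m)‖
      ≤ 1 / (n * L) * (n * (14 * L * ((Z : ℝ) ^ 160 * r))) :=
        mul_le_mul_of_nonneg_left h5 (by positivity)
    _ = 14 * ((Z : ℝ) ^ 160 * r) := by field_simp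

lemma low_comb {n : ℕ} {g g' : Fin n → ℝ → ℝ} {L : ℝ}
    (hS : ∀ i, Seg (g i) (g' i) L) {X : ℕ} (hX : 0 < X) {m : ℤ} (hm : m ≠ 0)
    (hsum : ∑ i, (g i 1 - g i 0) = 1)
    (hper : ∑ i, (ph (2 * Real.pi * m * g i 1) - ph (2 * Real.pi * m * g i 0)) = 0) :
    ‖∑ i, TS (g i) X (2 * Real.pi * m)‖ ≤ 2 * Real.pi * |(m : ℝ)| * L := by
  obtain ⟨r, hr⟩ : ∃ r : ℝ, r = 2 * Real.pi * m := ⟨_, rfl⟩
  have hpi := Real.pi_pos
  have hmr : (m : ℝ) ≠ 0 := by exact_mod_cast hm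
  have habs : |r| = 2 * Real.pi * |(m : ℝ)| := by
    rw [hr, abs_mul, abs_of_pos (by positivity : 0 < 2 * Real.pi)]
  have hrpos : 0 < |r| := by
    rw [habs]
    have := abs_pos.mpr hmr
    positivity
  rw [← hr] at hper ⊢
  rw [← habs]
  have h1 : ((r : ℂ) * Complex.I) * ∑ i, TS (g i) X r
      = ∑ i, (((r : ℂ) * Complex.I) * TS (g i) X r - X * (ph (r * g i 1) - ph (r * g i 0))) := by
    rw [Finset.sum_sub_distrib, ← Finset.mul_sum, ← Finset.mul_sum, hper, mul_zero, sub_zero]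
  have h2 : ‖((r : ℂ) * Complex.I) * ∑ i, TS (g i) X r‖ ≤ r ^ 2 * L := by
    rw [h1]
    refine le_trans (norm_sum_le _ _) ?_
    have h3 : ∀ i ∈ (Finset.univ : Finset (Fin n)),
        ‖((r : ℂ) * Complex.I) * TS (g i) X r - X * (ph (r * g i 1) - ph (r * g i 0))‖
        ≤ r ^ 2 * (L * (g i 1 - g i 0)) := fun i _ => TS_low (hS i) hX r
    refine le_trans (Finset.sum_le_sum h3) ?_
    rw [← Finset.mul_sum, ← Finset.mul_sum, hsum, mul_one]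
  rw [norm_mul, norm_mul, Complex.norm_I, mul_one, Complex.norm_real, Real.norm_eq_abs] at h2
  have h5 : |r| * ‖∑ i, TS (g i) X r‖ ≤ |r| * (|r| * L) := by
    calc |r| * ‖∑ i, TS (g i) X r‖ ≤ r ^ 2 * L := h2
      _ = |r| * (|r| * L) := by rw [← sq_abs]; ring
  exact le_of_mul_le_mul_left h5 hrpos

theorem weylFam_of (n : ℕ) (hn : 0 < n) (P R : Fin n → ℤ × ℤ) (g g' : Fin n → ℝ → ℝ) (L : ℝ)
    (hL : 1 ≤ L) (hS : ∀ i, Seg (g i) (g' i) L) (hdet : ∀ i, det (P i) (R i) ≠ 0)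
    (hth : ∀ i, ∀ u : ℤ × ℤ, 0 < u.1 → 0 ≤ u.2 → u.2 ≤ u.1 → V (pt (P i) (R i) u) ∧
      |th (pt (P i) (R i) u)| ≤ 1 ∧ th (pt (P i) (R i) u) = g i (sl u) ∧
      (u.1 : ℝ) ^ 2 ≤ L * nrm b c (pt (P i) (R i) u) ∧
      (nrm b c (pt (P i) (R i) u) : ℝ) ≤ L * (u.1 : ℝ) ^ 2)
    (hsum : ∑ i, (g i 1 - g i 0) = 1)
    (hper : ∀ m : ℤ, ∑ i, (ph (2 * Real.pi * m * g i 1) - ph (2 * Real.pi * m * g i 0)) = 0) :
    WeylFam b c V th := by
  classical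
  have hbx : ∀ i, ∃ Z0 : ℕ, ∀ Z : ℕ, Z0 ≤ Z → ∀ m : ℤ, (Z : ℤ) ^ 151 ≤ |m| → |m| ≤ (Z : ℤ) ^ 650 →
    ∀ a b : ℤ, (∀ w ∈ rect a (a + (Z : ℤ) ^ 158) b (b + (Z : ℤ) ^ 158), w ∈ TX (Z ^ 160)) →
    ‖∑ w ∈ rect a (a + (Z : ℤ) ^ 158) b (b + (Z : ℤ) ^ 158), ph (2 * Real.pi * m * g i (sl w))‖ ^ 16
      * Z ≤ L * ((Z : ℝ) ^ 158) ^ 32 := fun i => (hS i).box
  choose z0 hz0 using hbx
  obtain ⟨c0, hc0⟩ : ∃ c0 : ℝ, c0 = 1 / (n * L) := ⟨_, rfl⟩
  obtain ⟨q, hq⟩ : ∃ q : ℝ, q = 22 ^ 16 := ⟨_, rfl⟩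
  have hq1 : 4 ≤ q := by rw [hq]; norm_num
  have hnr : (1 : ℝ) ≤ n := by exact_mod_cast hn
  have hnL : 1 ≤ (n : ℝ) * L := by nlinarith
  have hc0p : 0 < c0 := by rw [hc0]; positivity
  have hc01 : c0 ≤ 1 := by
    rw [hc0, div_le_one (by positivity)]
    exact hnL
  obtain ⟨C, hC⟩ : ∃ C : ℕ, q * (n * L) ≤ C := ⟨_, Nat.le_ceil _⟩
  have hCL : q * L ≤ C := by nlinarith
  have hC4 : 4 * L ≤ C := by nlinarith
  have hCq : q ≤ C := by nlinarith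
  have hCn : n * L ≤ C := by nlinarith
  have hC1 : (1 : ℝ) ≤ C := by linarith
  refine ⟨C, max 2 (Finset.univ.sup z0), ?_⟩
  intro Z hZ
  have hZ2 : 2 ≤ Z := le_trans (le_max_left _ _) hZ
  have hZn : 0 < Z := by omega
  have hZi : ∀ i, z0 i ≤ Z := by
    intro i
    have h1 : z0 i ≤ Finset.univ.sup z0 := Finset.le_sup (Finset.mem_univ i)
    exact le_trans h1 (le_trans (le_max_right _ _) hZ)
  have hZ0 : (0 : ℝ) < Z := by exact_mod_cast hZn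
  have hZ1 : (1 : ℝ) ≤ Z := by exact_mod_cast hZn
  have hXn : 0 < Z ^ 160 := by positivity
  obtain ⟨I, hI⟩ : ∃ I : Finset (Fin n × (ℤ × ℤ)), I = Finset.univ ×ˢ TX (Z ^ 160) := ⟨_, rfl⟩
  obtain ⟨F, hF⟩ : ∃ F : Fin n × (ℤ × ℤ) → ℤ × ℤ, F = fun p => pt (P p.1) (R p.1) p.2 := ⟨_, rfl⟩
  obtain ⟨d, hd⟩ : ∃ d : Fin n × (ℤ × ℤ) → ℝ, d = fun p => dl (g p.1) p.2 := ⟨_, rfl⟩
  have hIm : ∀ p ∈ I, p.2 ∈ TX (Z ^ 160) := by
    intro p hp
    rw [hI, Finset.mem_product] at hp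
    exact hp.2
  have hd0 : ∀ p ∈ I, 0 ≤ d p := by
    intro p hp
    rw [hd]
    exact dl_nonneg_TX (hS p.1) (hIm p hp)
  have hd1 : ∀ p ∈ I, d p ≤ L / (Z : ℝ) ^ 160 := by
    intro p hp
    rw [hd]
    have h := dl_le_TX (hS p.1) hXn (hIm p hp)
    push_cast at h
    exact h
  have hsumd : ∑ p ∈ I, d p = (Z : ℝ) ^ 160 := by
    rw [hI, hd, Finset.sum_product]
    simp only
    have : ∀ i ∈ (Finset.univ : Finset (Fin n)), ∑ u ∈ TX (Z ^ 160), dl (g i) u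
        = ((Z ^ 160 : ℕ) : ℝ) * (g i 1 - g i 0) := fun i _ => sum_dl _
    rw [Finset.sum_congr rfl this, ← Finset.mul_sum, hsum, mul_one]
    push_cast
    rfl
  refine ⟨I.image F, fun u => c0 * ∑ p ∈ I.filter (fun p => F p = u), d p, ?_, ?_, ?_, ?_⟩
  · intro u hu
    rw [Finset.mem_image] at hu
    obtain ⟨p, hp, rfl⟩ := hu
    have hpT := mem_TX.mp (hIm p hp)
    push_cast at hpT
    have hp0 : 0 < p.2.1 := TX_pos (hIm p hp)
    have h := hth p.1 p.2 hp0 hpT.2.1 hpT.2.2.le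
    have eF : F p = pt (P p.1) (R p.1) p.2 := by rw [hF]
    rw [eF]
    have hx1 : (Z : ℝ) ^ 160 ≤ p.2.1 := by exact_mod_cast hpT.1.1.le
    have hx2 : (p.2.1 : ℝ) ≤ 2 * (Z : ℝ) ^ 160 := by exact_mod_cast hpT.1.2
    have hsq1 : (Z : ℝ) ^ 320 ≤ (p.2.1 : ℝ) ^ 2 := by
      calc (Z : ℝ) ^ 320 = ((Z : ℝ) ^ 160) ^ 2 := by ring
        _ ≤ (p.2.1 : ℝ) ^ 2 := pow_le_pow_left₀ (by positivity) hx1 2
    have hsq2 : (p.2.1 : ℝ) ^ 2 ≤ 4 * (Z : ℝ) ^ 320 := by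
      calc (p.2.1 : ℝ) ^ 2 ≤ (2 * (Z : ℝ) ^ 160) ^ 2 :=
            pow_le_pow_left₀ (le_trans (by positivity) hx1) hx2 2
        _ = 4 * (Z : ℝ) ^ 320 := by ring
    obtain ⟨N, hN⟩ : ∃ N : ℤ, N = nrm b c (pt (P p.1) (R p.1) p.2) := ⟨_, rfl⟩
    rw [← hN] at h ⊢
    have hNpos : (0 : ℝ) ≤ N := by
      have h3 : (0 : ℝ) ≤ L * N := le_trans (sq_nonneg _) h.2.2.2.1
      by_contra hcon
      push Not at hcon
      have : L * (N : ℝ) < 0 := mul_neg_of_pos_of_neg (by linarith) hcon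
      linarith
    refine ⟨h.1, h.2.1, ?_, ?_, ?_, ?_⟩
    · have : (Z : ℝ) ^ 320 ≤ C * N := by
        calc (Z : ℝ) ^ 320 ≤ (p.2.1 : ℝ) ^ 2 := hsq1
          _ ≤ L * N := h.2.2.2.1
          _ ≤ C * N := mul_le_mul_of_nonneg_right (by linarith) hNpos
      exact_mod_cast this
    · have : (N : ℝ) ≤ C * (Z : ℝ) ^ 320 := by
        calc (N : ℝ) ≤ L * (p.2.1 : ℝ) ^ 2 := h.2.2.2.2
          _ ≤ L * (4 * (Z : ℝ) ^ 320) := mul_le_mul_of_nonneg_left hsq2 (by linarith)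
          _ = 4 * L * (Z : ℝ) ^ 320 := by ring
          _ ≤ C * (Z : ℝ) ^ 320 := mul_le_mul_of_nonneg_right hC4 (by positivity)
      exact_mod_cast this
    · apply mul_nonneg hc0p.le
      apply Finset.sum_nonneg
      intro p' hp'
      exact hd0 p' (Finset.mem_filter.mp hp').1
    · obtain ⟨v, hv⟩ : ∃ v : ℤ × ℤ, v = pt (P p.1) (R p.1) p.2 := ⟨_, rfl⟩
      rw [← hv]
      have hcard : (I.filter (fun p => F p = v)).card ≤ n := by
        have h1 : (I.filter (fun p => F p = v)).card ≤ (Finset.univ : Finset (Fin n)).card := by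
          apply Finset.card_le_card_of_injOn (fun p => p.1)
          · intro _ _
            exact Finset.mem_coe.mpr (Finset.mem_univ _)
          · intro p1 hp1 p2 hp2 h12
            rw [Finset.mem_coe, Finset.mem_filter] at hp1 hp2
            simp only at h12
            have h3 : F p1 = F p2 := by rw [hp1.2, hp2.2]
            rw [hF] at h3
            simp only at h3
            rw [← h12] at h3
            exact Prod.ext h12 (pt_inj (hdet p1.1) h3)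
        rwa [Finset.card_univ, Fintype.card_fin] at h1
      have h4 : ∑ p ∈ I.filter (fun p => F p = v), d p ≤ n * (L / (Z : ℝ) ^ 160) := by
        have h5 : ∀ p ∈ I.filter (fun p => F p = v), d p ≤ L / (Z : ℝ) ^ 160 :=
          fun p hp => hd1 p (Finset.mem_filter.mp hp).1
        refine le_trans (Finset.sum_le_sum h5) ?_
        rw [Finset.sum_const, nsmul_eq_mul]
        apply mul_le_mul_of_nonneg_right _ (by positivity)
        exact_mod_cast hcard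
      calc c0 * (∑ p ∈ I.filter (fun p => F p = v), d p) * (Z : ℝ) ^ 160
          ≤ c0 * (n * (L / (Z : ℝ) ^ 160)) * (Z : ℝ) ^ 160 := by
            apply mul_le_mul_of_nonneg_right _ (by positivity)
            exact mul_le_mul_of_nonneg_left h4 hc0p.le
        _ = c0 * (n * L) := by field_simp
        _ = 1 := by rw [hc0]; field_simp
        _ ≤ 1 := le_refl _
  · rw [fam_sum_real, hsumd]
    calc (Z : ℝ) ^ 160 = (n * L) * (c0 * (Z : ℝ) ^ 160) := by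
          rw [hc0]; field_simp
      _ ≤ C * (c0 * (Z : ℝ) ^ 160) := mul_le_mul_of_nonneg_right hCn (by positivity)
  · rw [fam_sum_real, hsumd]
    calc c0 * (Z : ℝ) ^ 160 ≤ 1 * (Z : ℝ) ^ 160 :=
          mul_le_mul_of_nonneg_right hc01 (by positivity)
      _ = (Z : ℝ) ^ 160 := one_mul _
  · intro Q _ hQ m hm hm2
    have hpi4 := Real.pi_le_four
    have hpi0 := Real.pi_pos
    have hQr : (Z : ℝ) ^ 1000 ≤ Q := by exact_mod_cast hQ
    have hm2r : |(m : ℝ)| ≤ (Z : ℝ) ^ 650 := by exact_mod_cast hm2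
    have hQ0 : (0 : ℝ) < Q := lt_of_lt_of_le (by positivity) hQr
    have herr : 2 * Real.pi * |(m : ℝ)| / Q * (Z : ℝ) ^ 160 ≤ 8 := by
      rw [div_mul_eq_mul_div, div_le_iff₀ hQ0]
      calc 2 * Real.pi * |(m : ℝ)| * (Z : ℝ) ^ 160 ≤ 2 * 4 * |(m : ℝ)| * (Z : ℝ) ^ 160 := by
            apply mul_le_mul_of_nonneg_right _ (by positivity)
            apply mul_le_mul_of_nonneg_right _ (abs_nonneg _)
            linarith
        _ = 8 * (|(m : ℝ)| * (Z : ℝ) ^ 160) := by ring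
        _ ≤ 8 * ((Z : ℝ) ^ 650 * (Z : ℝ) ^ 160) := by
            apply mul_le_mul_of_nonneg_left _ (by norm_num)
            exact mul_le_mul_of_nonneg_right hm2r (by positivity)
        _ = 8 * (Z : ℝ) ^ 810 := by ring
        _ ≤ 8 * (Z : ℝ) ^ 1000 := by
            apply mul_le_mul_of_nonneg_left _ (by norm_num)
            exact pow_le_pow_right₀ hZ1 (by norm_num)
        _ ≤ 8 * Q := by linarith
    rw [fam_sum]
    set T := ‖(c0 : ℂ) * ∑ p ∈ I, (d p : ℂ) * ch ((m : ZMod Q) * ((ps th Q (F p) : ℤ) : ZMod Q))‖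
      with hT
    have hT0 : 0 ≤ T := norm_nonneg _
    obtain ⟨W, hW⟩ : ∃ W : ℂ, W = ∑ i, TS (g i) (Z ^ 160) (2 * Real.pi * m) := ⟨_, rfl⟩
    have hWsum : ∑ p ∈ I, (d p : ℂ) * ph (2 * Real.pi * m * th (F p)) = W := by
      rw [hW, hI, hd, Finset.sum_product]
      apply Finset.sum_congr rfl
      intro i _
      unfold TS
      apply Finset.sum_congr rfl
      intro u hu
      have hu' := mem_TX.mp hu
      have h := hth i u (TX_pos hu) hu'.2.1 hu'.2.2.le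
      rw [hF]
      simp only
      rw [h.2.2.1]
    have hTW : T ≤ c0 * ‖W‖ + 8 := by
      have h1 : ‖∑ p ∈ I, (d p : ℂ) * ch ((m : ZMod Q) * ((ps th Q (F p) : ℤ) : ZMod Q)) - W‖
          ≤ 2 * Real.pi * |(m : ℝ)| / Q * (Z : ℝ) ^ 160 := by
        rw [← hWsum, ← Finset.sum_sub_distrib, ← hsumd]
        refine le_trans (norm_sum_le _ _) ?_
        rw [Finset.mul_sum]
        apply Finset.sum_le_sum
        intro p hp
        rw [← mul_sub, norm_mul, Complex.norm_real, Real.norm_eq_abs, abs_of_nonneg (hd0 p hp),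
          mul_comm]
        exact mul_le_mul_of_nonneg_right (ch_ps_le th Q m (F p)) (hd0 p hp)
      have h2 : ‖∑ p ∈ I, (d p : ℂ) * ch ((m : ZMod Q) * ((ps th Q (F p) : ℤ) : ZMod Q))‖
          ≤ ‖W‖ + 8 := by
        have h3 := norm_add_le (∑ p ∈ I, (d p : ℂ) *
          ch ((m : ZMod Q) * ((ps th Q (F p) : ℤ) : ZMod Q)) - W) W
        rw [sub_add_cancel] at h3
        linarith
      rw [hT, norm_mul, Complex.norm_real, Real.norm_eq_abs, abs_of_pos hc0p]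
      calc c0 * ‖∑ p ∈ I, (d p : ℂ) * ch ((m : ZMod Q) * ((ps th Q (F p) : ℤ) : ZMod Q))‖
          ≤ c0 * (‖W‖ + 8) := mul_le_mul_of_nonneg_left h2 hc0p.le
        _ = c0 * ‖W‖ + c0 * 8 := by ring
        _ ≤ c0 * ‖W‖ + 8 := by linarith
    rcases lt_or_ge |m| ((Z : ℤ) ^ 151) with hlow | hhigh
    · have hlowr : |(m : ℝ)| ≤ (Z : ℝ) ^ 151 := by exact_mod_cast hlow.le
      have h1 := low_comb hS hXn hm hsum (hper m)
      rw [← hW] at h1
      have hZ151 : (1 : ℝ) ≤ (Z : ℝ) ^ 151 := one_le_pow₀ hZ1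
      have h2 : T ≤ 16 * (Z : ℝ) ^ 151 := by
        have h3 : c0 * ‖W‖ ≤ 8 * (Z : ℝ) ^ 151 := by
          have hc0L : c0 * L ≤ 1 := by
            rw [hc0]
            have : 1 / ((n : ℝ) * L) * L = 1 / n := by field_simp
            rw [this, div_le_one (by linarith)]
            exact hnr
          calc c0 * ‖W‖ ≤ c0 * (2 * Real.pi * |(m : ℝ)| * L) :=
                mul_le_mul_of_nonneg_left h1 hc0p.le
            _ = (c0 * L) * (2 * Real.pi * |(m : ℝ)|) := by ring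
            _ ≤ 1 * (2 * Real.pi * |(m : ℝ)|) :=
                mul_le_mul_of_nonneg_right hc0L (by positivity)
            _ ≤ 2 * 4 * |(m : ℝ)| := by
                rw [one_mul]
                apply mul_le_mul_of_nonneg_right _ (abs_nonneg _)
                linarith
            _ ≤ 8 * (Z : ℝ) ^ 151 := by linarith
        linarith
      calc T ^ 16 * Z ≤ (16 * (Z : ℝ) ^ 151) ^ 16 * Z := by
            apply mul_le_mul_of_nonneg_right _ hZ0.le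
            exact pow_le_pow_left₀ hT0 h2 16
        _ = 16 ^ 16 * (Z : ℝ) ^ 2417 := by ring
        _ ≤ 16 ^ 16 * (Z : ℝ) ^ 2560 := by
            apply mul_le_mul_of_nonneg_left _ (by norm_num)
            exact pow_le_pow_right₀ hZ1 (by norm_num)
        _ ≤ q * (Z : ℝ) ^ 2560 := by
            apply mul_le_mul_of_nonneg_right _ (by positivity)
            rw [hq]
            norm_num
        _ ≤ C * (Z : ℝ) ^ 2560 := mul_le_mul_of_nonneg_right hCq (by positivity)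
        _ = C * ((Z : ℝ) ^ 160) ^ 16 := by ring
    · obtain ⟨r, hr0, hr16, hr1, hr2⟩ := high_comb hn hL hS hZn m
        (fun i => hz0 i Z (hZi i) m hhigh hm2)
      rw [← hW, ← hc0] at hr2
      have h5 : T ≤ 22 * ((Z : ℝ) ^ 160 * r) := by linarith
      calc T ^ 16 * Z ≤ (22 * ((Z : ℝ) ^ 160 * r)) ^ 16 * Z := by
            apply mul_le_mul_of_nonneg_right _ hZ0.le
            exact pow_le_pow_left₀ hT0 h5 16
        _ = 22 ^ 16 * ((Z : ℝ) ^ 160) ^ 16 * (r ^ 16 * Z) := by ring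
        _ = 22 ^ 16 * ((Z : ℝ) ^ 160) ^ 16 * L := by
            rw [hr16, div_mul_cancel₀ _ hZ0.ne']
        _ = (q * L) * ((Z : ℝ) ^ 160) ^ 16 := by rw [hq]; ring
        _ ≤ C * ((Z : ℝ) ^ 160) ^ 16 :=
            mul_le_mul_of_nonneg_right hCL (by positivity)

end Pool.Agent.Lib.MP_a17b09_nt.LG
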