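import Pool.Agent.Lib.MP_a17b09_nt.LG.WtB
import Pool.Agent.Lib.MP_a17b09_nt.LP.WeylForms
import Pool.Agent.Lib.MP_a17b09_nt.LP.WeylReal

/-!
The segments for the two signs of the discriminant.
-/

set_option autoImplicit false

open Finset

namespace Pool.Agent.Lib.MP_a17b09_nt.LG

open Pool.Agent.Lib.MP_a17b09_nt Pool.Agent.Lib.MP_a17b09_nt.LP

lemma seg_core (A B E n0 : ℝ) (hA : 0 ≤ A) (hn0 : 0 < n0)
    (hn : ∀ t : ℝ, 0 ≤ t → t ≤ 1 → n0 ≤ 1 + B * t + E * t ^ 2) (g : ℝ → ℝ)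
    (hg : ∀ t : ℝ, 0 ≤ t → t ≤ 1 → HasDerivAt g (A / (1 + B * t + E * t ^ 2)) t) :
    ∃ L : ℝ, 1 ≤ L ∧
    (∀ t t' : ℝ, 0 ≤ t → t < t' → t' ≤ 1 → ∃ x, t ≤ x ∧ x ≤ t' ∧
      g t' - g t = (A / (1 + B * x + E * x ^ 2)) * (t' - t)) ∧
    (∀ t : ℝ, 0 ≤ t → t ≤ 1 → 0 ≤ A / (1 + B * t + E * t ^ 2)) ∧
    (∀ t : ℝ, 0 ≤ t → t ≤ 1 → A / (1 + B * t + E * t ^ 2) ≤ L) ∧
    (∀ t t' : ℝ, 0 ≤ t → t ≤ 1 → 0 ≤ t' → t' ≤ 1 →
      |A / (1 + B * t + E * t ^ 2) - A / (1 + B * t' + E * t' ^ 2)| ≤ L * |t - t'|) := by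
  refine ⟨1 + A / n0 + A * (|B| + 2 * |E|) / (n0 * n0), ?_, ?_, ?_, ?_, ?_⟩
  · have h1 : 0 ≤ A / n0 := by positivity
    have h2 : 0 ≤ A * (|B| + 2 * |E|) / (n0 * n0) := by positivity
    linarith
  · intro t t' h0 h1 h2
    have hc : ContinuousOn g (Set.Icc t t') := fun x hx =>
      (hg x (le_trans h0 hx.1) (le_trans hx.2 h2)).continuousAt.continuousWithinAt
    have hd : ∀ x ∈ Set.Ioo t t', HasDerivAt g (A / (1 + B * x + E * x ^ 2)) x := fun x hx =>
      hg x (le_trans h0 hx.1.le) (le_trans hx.2.le h2)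
    obtain ⟨x, hx, hx2⟩ := exists_hasDerivAt_eq_slope g
      (fun x => A / (1 + B * x + E * x ^ 2)) h1 hc hd
    refine ⟨x, hx.1.le, hx.2.le, ?_⟩
    rw [hx2]
    have : t' - t ≠ 0 := by linarith
    field_simp
  · intro t h0 h1
    have := hn t h0 h1
    exact div_nonneg hA (by linarith)
  · intro t h0 h1
    have h2 := hn t h0 h1
    have h3 : A / (1 + B * t + E * t ^ 2) ≤ A / n0 := div_le_div_of_nonneg_left hA hn0 h2
    have h4 : 0 ≤ A * (|B| + 2 * |E|) / (n0 * n0) := by positivity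
    linarith
  · intro t t' h0 h1 h0' h1'
    have h2 := hn t h0 h1
    have h3 := hn t' h0' h1'
    have hp : 0 < 1 + B * t + E * t ^ 2 := by linarith
    have hp' : 0 < 1 + B * t' + E * t' ^ 2 := by linarith
    rw [div_sub_div _ _ hp.ne' hp'.ne', abs_div, abs_of_pos (mul_pos hp hp')]
    have e : A * (1 + B * t' + E * t' ^ 2) - (1 + B * t + E * t ^ 2) * A
        = A * ((B + E * (t + t')) * (t' - t)) := by ring
    rw [e, abs_mul, abs_mul, abs_of_nonneg hA, abs_sub_comm t' t]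
    have h4 : |B + E * (t + t')| ≤ |B| + 2 * |E| := by
      refine le_trans (abs_add_le _ _) ?_
      rw [abs_mul, abs_of_nonneg (by linarith : 0 ≤ t + t')]
      have : |E| * (t + t') ≤ |E| * 2 := mul_le_mul_of_nonneg_left (by linarith) (abs_nonneg _)
      linarith
    have h5 : A * (|B + E * (t + t')| * |t - t'|) / ((1 + B * t + E * t ^ 2) *
        (1 + B * t' + E * t' ^ 2)) ≤ A * ((|B| + 2 * |E|) * |t - t'|) / (n0 * n0) := by
      apply div_le_div₀ (by positivity) _ (by positivity)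
        (mul_le_mul h2 h3 hn0.le hp.le)
      apply mul_le_mul_of_nonneg_left _ hA
      exact mul_le_mul_of_nonneg_right h4 (abs_nonneg _)
    refine le_trans h5 ?_
    have h6 : A * ((|B| + 2 * |E|) * |t - t'|) / (n0 * n0)
        = A * (|B| + 2 * |E|) / (n0 * n0) * |t - t'| := by ring
    rw [h6]
    apply mul_le_mul_of_nonneg_right _ (abs_nonneg _)
    have : 0 ≤ A / n0 := by positivity
    linarith

lemma Seg.mono {g g' : ℝ → ℝ} {L L' : ℝ} (h : Seg g g' L) (hL : L ≤ L') : Seg g g' L' := by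
  refine ⟨le_trans h.hL hL, h.mv, h.dnn, ?_, ?_, ?_⟩
  · intro t h0 h1
    exact le_trans (h.dle t h0 h1) hL
  · intro t t' h0 h1 h0' h1'
    exact le_trans (h.dlip t t' h0 h1 h0' h1') (mul_le_mul_of_nonneg_right hL (abs_nonneg _))
  · obtain ⟨Z0, hZ0⟩ := h.box
    refine ⟨Z0, ?_⟩
    intro Z hZ m hm1 hm2 a b hab
    exact le_trans (hZ0 Z hZ m hm1 hm2 a b hab) (mul_le_mul_of_nonneg_right hL (by positivity))

lemma ph_mul_arg (M : ℕ) (z : ℂ) (hz : z ≠ 0) : ph ((M : ℝ) * z.arg) = (z / (‖z‖ : ℂ)) ^ M := by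
  rw [← Fch_phase M z hz]
  congr 1
  simp only [Fch]
  rw [Complex.mul_im, Complex.natCast_re, Complex.natCast_im, Complex.log_im]
  ring

lemma quad_pos_im (om : ℂ) (hom : 0 < om.im) (t : ℝ) :
    om.im ^ 2 / Complex.normSq om ≤ 1 + (2 * om.re) * t + Complex.normSq om * t ^ 2 := by
  have hn : 0 < Complex.normSq om := by
    rw [Complex.normSq_pos]
    intro h
    rw [h] at hom
    simp at hom
  have hd : Complex.normSq om = om.re ^ 2 + om.im ^ 2 := by
    rw [Complex.normSq_apply]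
    ring
  rw [div_le_iff₀ hn]
  nlinarith [sq_nonneg (Complex.normSq om * t + om.re)]

lemma zw_ne_zero (om : ℂ) (hom : 0 < om.im) {w : ℤ × ℤ} (hw : 0 < w.1) : zw om w ≠ 0 := by
  intro h
  have him : (zw om w).im = (w.2 : ℝ) * om.im := by
    unfold zw
    simp
  have hre : (zw om w).re = (w.1 : ℝ) + w.2 * om.re := by
    unfold zw
    simp
  rw [h] at him hre
  simp only [Complex.zero_im, Complex.zero_re] at him hre
  have h2 : (w.2 : ℝ) = 0 := by
    rcases mul_eq_zero.mp him.symm with h3 | h3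
    · exact h3
    · exact absurd h3 hom.ne'
  rw [h2, zero_mul, add_zero] at hre
  have : (0 : ℝ) < w.1 := by exact_mod_cast hw
  linarith

lemma zw_eq_sl (om : ℂ) {w : ℤ × ℤ} (hw : 0 < w.1) :
    zw om w = ((w.1 : ℝ) : ℂ) * (1 + ((sl w : ℝ) : ℂ) * om) := by
  have hw0 : (w.1 : ℂ) ≠ 0 := by exact_mod_cast hw.ne'
  unfold zw sl
  push_cast
  field_simp

lemma seg_im (om : ℂ) (hom : 0 < om.im) (al : ℝ) :
    ∃ (g' : ℝ → ℝ) (L : ℝ), Seg (fun t : ℝ => al + (1 + (t : ℂ) * om).arg / Real.pi) g' L := by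
  have hpi := Real.pi_pos
  have hn : 0 < Complex.normSq om := by
    rw [Complex.normSq_pos]
    intro h
    rw [h] at hom
    simp at hom
  have hder : ∀ t : ℝ, 0 ≤ t → t ≤ 1 → HasDerivAt
      (fun t : ℝ => al + (1 + (t : ℂ) * om).arg / Real.pi)
      ((om.im / Real.pi) / (1 + (2 * om.re) * t + Complex.normSq om * t ^ 2)) t := by
    intro t ht _
    have h1 : HasDerivAt (fun t : ℝ => 1 + (t : ℂ) * om) om t :=
      ((Complex.ofRealCLM.hasDerivAt (x := t)).mul_const om |>.congr_deriv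
        (by simp)).const_add 1
    have hslit : (1 + (t : ℂ) * om) ∈ Complex.slitPlane := by
      rw [Complex.mem_slitPlane_iff]
      rcases ht.eq_or_lt with h | h
      · left
        rw [← h]
        simp
      · right
        simp only [Complex.add_im, Complex.one_im, Complex.mul_im, Complex.ofReal_re,
          Complex.ofReal_im, zero_mul, zero_add, add_zero]
        positivity
    have h2 := h1.clog_real hslit
    have h3 := Complex.imCLM.hasFDerivAt.comp_hasDerivAt t h2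
    have h4 : HasDerivAt (fun t : ℝ => (1 + (t : ℂ) * om).arg)
        (om.im / (1 + (2 * om.re) * t + Complex.normSq om * t ^ 2)) t := by
      have e : Complex.imCLM (om / (1 + (t : ℂ) * om))
          = om.im / (1 + (2 * om.re) * t + Complex.normSq om * t ^ 2) := by
        rw [Complex.imCLM_apply, Complex.div_im]
        have e1 : Complex.normSq (1 + (t : ℂ) * om)
            = 1 + (2 * om.re) * t + Complex.normSq om * t ^ 2 := by
          rw [Complex.normSq_apply, Complex.normSq_apply]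
          simp
          ring
        rw [e1, ← sub_div]
        congr 1
        simp
        ring
      rw [← e]
      refine h3.congr_of_eventuallyEq ?_
      filter_upwards with x
      simp [Complex.log_im]
    have h5 := (h4.div_const Real.pi).const_add al
    refine h5.congr_deriv ?_
    rw [div_right_comm]
  have hA : 0 ≤ om.im / Real.pi := by positivity
  have hn0 : 0 < om.im ^ 2 / Complex.normSq om := by positivity
  obtain ⟨L, hL1, hmv, hdnn, hdle, hdlip⟩ := seg_core (om.im / Real.pi) (2 * om.re)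
    (Complex.normSq om) (om.im ^ 2 / Complex.normSq om) hA hn0
    (fun t _ _ => quad_pos_im om hom t) _ hder
  refine ⟨_, max L (Dw 4 7 4), ⟨le_trans hL1 (le_max_left _ _), hmv, hdnn, ?_, ?_, ?_⟩⟩
  · intro t h0 h1
    exact le_trans (hdle t h0 h1) (le_max_left _ _)
  · intro t t' h0 h1 h0' h1'
    exact le_trans (hdlip t t' h0 h1 h0' h1')
      (mul_le_mul_of_nonneg_right (le_max_left _ _) (abs_nonneg _))
  · have homn : 0 < ‖om‖ := by
      rw [norm_pos_iff]
      intro h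
      rw [h] at hom
      simp at hom
    obtain ⟨K, hK⟩ : ∃ K : ℝ, K = 2 * (1 + ‖om‖) + ‖om‖ / om.im := ⟨_, rfl⟩
    have hK0 : 0 < K := by rw [hK]; positivity
    obtain ⟨Z0, hZ0⟩ := weyl_box_im om hom.ne' K hK0
    refine ⟨max 2 Z0, ?_⟩
    intro Z hZ m hm1 hm2 a b hab
    have hZ2 : 2 ≤ Z := le_trans (le_max_left _ _) hZ
    have hZn : 0 < Z := by omega
    have hsZ : (0 : ℤ) < (Z : ℤ) ^ 158 := by positivity
    have hcorner : (a, b) ∈ rect a (a + (Z : ℤ) ^ 158) b (b + (Z : ℤ) ^ 158) := by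
      rw [mem_rect]
      simp only
      omega
    have hcT := mem_TX.mp (hab _ hcorner)
    push_cast at hcT
    have hX1 : (Z : ℝ) ^ 160 ≤ a := by exact_mod_cast hcT.1.1.le
    have hX2 : (a : ℝ) ≤ 2 * (Z : ℝ) ^ 160 := by exact_mod_cast hcT.1.2
    have hb0 : (0 : ℝ) ≤ b := by exact_mod_cast hcT.2.1
    have hb1 : (b : ℝ) ≤ a := by exact_mod_cast hcT.2.2.le
    have hXp : (0 : ℝ) < (Z : ℝ) ^ 160 := by positivity
    have hM1 : Z ^ 150 ≤ 2 * m.natAbs := by
      have h1 : Z ^ 151 ≤ m.natAbs := by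
        have : ((Z ^ 151 : ℕ) : ℤ) ≤ ((m.natAbs : ℕ) : ℤ) := by
          push_cast
          exact hm1
        exact_mod_cast this
      have h2 : Z ^ 150 ≤ Z ^ 151 := Nat.pow_le_pow_right hZn (by norm_num)
      omega
    have hM2 : 2 * m.natAbs ≤ Z ^ 660 := by
      have h1 : m.natAbs ≤ Z ^ 650 := by
        have : ((m.natAbs : ℕ) : ℤ) ≤ ((Z ^ 650 : ℕ) : ℤ) := by
          push_cast
          exact hm2
        exact_mod_cast this
      have h2 : Z ^ 651 ≤ Z ^ 660 := Nat.pow_le_pow_right hZn (by norm_num)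
      have h3 : Z ^ 651 = Z * Z ^ 650 := pow_succ' Z 650
      have h4 : 2 * Z ^ 650 ≤ Z * Z ^ 650 := Nat.mul_le_mul_right _ hZ2
      omega
    have hup : ‖zw om (a, b)‖ ≤ K * (Z : ℝ) ^ 160 := by
      have h1 : ‖zw om (a, b)‖ ≤ a + b * ‖om‖ := by
        unfold zw
        refine le_trans (norm_add_le _ _) ?_
        rw [norm_mul]
        simp only [Complex.norm_intCast]
        rw [abs_of_nonneg (le_trans hXp.le hX1), abs_of_nonneg hb0]
      have h2 : (b : ℝ) * ‖om‖ ≤ (2 * (Z : ℝ) ^ 160) * ‖om‖ :=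
        mul_le_mul_of_nonneg_right (by linarith) homn.le
      have h3 : 0 ≤ ‖om‖ / om.im * (Z : ℝ) ^ 160 := by positivity
      rw [hK]
      linarith
    have hlo : (Z : ℝ) ^ 160 / K ≤ ‖zw om (a, b)‖ := by
      have h1 : (a : ℝ) * om.im ≤ ‖zw om (a, b)‖ * ‖om‖ := by
        have e : (zw om (a, b) * (starRingEnd ℂ) om).im = -((a : ℝ) * om.im) := by
          unfold zw
          simp
          ring
        have h2 := Complex.abs_im_le_norm (zw om (a, b) * (starRingEnd ℂ) om)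
        rw [e, norm_mul, Complex.norm_conj, abs_neg] at h2
        exact le_trans (le_abs_self _) h2
      rw [div_le_iff₀ hK0]
      have h3 : ‖zw om (a, b)‖ * (‖om‖ / om.im) ≤ ‖zw om (a, b)‖ * K := by
        apply mul_le_mul_of_nonneg_left _ (norm_nonneg _)
        rw [hK]
        have : 0 ≤ 2 * (1 + ‖om‖) := by positivity
        linarith
      refine le_trans ?_ h3
      rw [← mul_div_assoc, le_div_iff₀ hom]
      exact le_trans (mul_le_mul_of_nonneg_right hX1 hom.le) h1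
    have key := hZ0 Z (le_trans (le_max_right _ _) hZ) (2 * m.natAbs) hM1 hM2 a b hlo hup
    have e : ‖∑ w ∈ rect a (a + (Z : ℤ) ^ 158) b (b + (Z : ℤ) ^ 158),
        ph (2 * Real.pi * m * (al + (1 + ((sl w : ℝ) : ℂ) * om).arg / Real.pi))‖
        = ‖∑ w ∈ rect a (a + (Z : ℤ) ^ 158) b (b + (Z : ℤ) ^ 158),
          (zw om w / (‖zw om w‖ : ℂ)) ^ (2 * m.natAbs)‖ := by
      have e1 : ∑ w ∈ rect a (a + (Z : ℤ) ^ 158) b (b + (Z : ℤ) ^ 158),
          ph (2 * Real.pi * m * (al + (1 + ((sl w : ℝ) : ℂ) * om).arg / Real.pi))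
          = ph (2 * Real.pi * m * al) *
          ∑ w ∈ rect a (a + (Z : ℤ) ^ 158) b (b + (Z : ℤ) ^ 158),
            ph (2 * (m : ℝ) * (zw om w).arg) := by
        rw [Finset.mul_sum]
        apply Finset.sum_congr rfl
        intro w hw
        have hw0 := TX_pos (hab w hw)
        have hw0r : (0 : ℝ) < w.1 := by exact_mod_cast hw0
        rw [← ph_add, zw_eq_sl om hw0, Complex.arg_real_mul _ hw0r]
        congr 1
        field_simp
      rw [e1, norm_mul, norm_ph, one_mul]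
      rcases Int.natAbs_eq m with h | h
      · congr 1
        apply Finset.sum_congr rfl
        intro w hw
        rw [← ph_mul_arg _ _ (zw_ne_zero om hom (TX_pos (hab w hw)))]
        congr 1
        have : (m : ℝ) = (m.natAbs : ℝ) := by
          have h5 : ((m.natAbs : ℤ) : ℝ) = (m : ℝ) := by rw [← h]
          rw [← h5, Int.cast_natCast]
        rw [this]
        push_cast
        ring
      · rw [← Complex.norm_conj, map_sum]
        congr 1
        apply Finset.sum_congr rfl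
        intro w hw
        rw [conj_ph, ← ph_mul_arg _ _ (zw_ne_zero om hom (TX_pos (hab w hw)))]
        congr 1
        have : (m : ℝ) = -(m.natAbs : ℝ) := by
          have h5 : ((-(m.natAbs : ℤ) : ℤ) : ℝ) = (m : ℝ) := by rw [← h]
          rw [← h5, Int.cast_neg, Int.cast_natCast]
        rw [this]
        push_cast
        ring
    show ‖∑ w ∈ rect a (a + (Z : ℤ) ^ 158) b (b + (Z : ℤ) ^ 158),
        ph (2 * Real.pi * m * (al + (1 + ((sl w : ℝ) : ℂ) * om).arg / Real.pi))‖ ^ 16 * Z ≤ _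
    rw [e]
    exact le_trans key (mul_le_mul_of_nonneg_right (le_max_right _ _) (by positivity))

lemma gr_eq_sl (o : ℝ) {w : ℤ × ℤ} (hw : 0 < w.1) : gr o w = (w.1 : ℝ) * (1 + sl w * o) := by
  have hw0 : (w.1 : ℝ) ≠ 0 := by exact_mod_cast hw.ne'
  unfold gr sl
  field_simp

lemma seg_re (a1 a2 κ : ℝ) (h1 : 0 < a1) (h2 : a2 < 0) (h3 : -1 < a2) (hκ : 0 < κ) :
    ∃ (g' : ℝ → ℝ) (L : ℝ), Seg (fun t : ℝ => (Real.log (1 + t * a1) - Real.log (1 + t * a2))
      / (2 * κ)) g' L := by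
  have hpi := Real.pi_pos
  have hp2 : ∀ t : ℝ, 0 ≤ t → t ≤ 1 → 1 + a2 ≤ 1 + t * a2 := by
    intro t h0 h1
    nlinarith
  have hp1 : ∀ t : ℝ, 0 ≤ t → 1 ≤ 1 + t * a1 := by
    intro t h0
    nlinarith
  have hder : ∀ t : ℝ, 0 ≤ t → t ≤ 1 → HasDerivAt
      (fun t : ℝ => (Real.log (1 + t * a1) - Real.log (1 + t * a2)) / (2 * κ))
      (((a1 - a2) / (2 * κ)) / (1 + (a1 + a2) * t + (a1 * a2) * t ^ 2)) t := by
    intro t ht ht1
    have q1 : 0 < 1 + t * a1 := by linarith [hp1 t ht]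
    have q2 : 0 < 1 + t * a2 := by linarith [hp2 t ht ht1]
    have d : ∀ o : ℝ, HasDerivAt (fun t : ℝ => 1 + t * o) o t := by
      intro o
      have := ((hasDerivAt_id t).mul_const o).const_add 1
      simpa using this
    have d1 := (d a1).log q1.ne'
    have d2 := (d a2).log q2.ne'
    have d3 := (d1.sub d2).div_const (2 * κ)
    refine d3.congr_deriv ?_
    have e : 1 + (a1 + a2) * t + (a1 * a2) * t ^ 2 = (1 + t * a1) * (1 + t * a2) := by ring
    rw [e]
    field_simp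
    ring
  have hA : 0 ≤ (a1 - a2) / (2 * κ) := by
    apply div_nonneg _ (by linarith)
    linarith
  have hn0 : 0 < 1 + a2 := by linarith
  have hn : ∀ t : ℝ, 0 ≤ t → t ≤ 1 → 1 + a2 ≤ 1 + (a1 + a2) * t + (a1 * a2) * t ^ 2 := by
    intro t ht ht1
    have e : 1 + (a1 + a2) * t + (a1 * a2) * t ^ 2 = (1 + t * a1) * (1 + t * a2) := by ring
    rw [e]
    calc 1 + a2 = 1 * (1 + a2) := by ring
      _ ≤ (1 + t * a1) * (1 + t * a2) :=
        mul_le_mul (hp1 t ht) (hp2 t ht ht1) hn0.le (by linarith [hp1 t ht])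
  obtain ⟨L, hL1, hmv, hdnn, hdle, hdlip⟩ := seg_core ((a1 - a2) / (2 * κ)) (a1 + a2)
    (a1 * a2) (1 + a2) hA hn0 hn _ hder
  refine ⟨_, max L (Dw 4 7 4), ⟨le_trans hL1 (le_max_left _ _), hmv, hdnn, ?_, ?_, ?_⟩⟩
  · intro t h0 h1
    exact le_trans (hdle t h0 h1) (le_max_left _ _)
  · intro t t' h0 h1 h0' h1'
    exact le_trans (hdlip t t' h0 h1 h0' h1')
      (mul_le_mul_of_nonneg_right (le_max_left _ _) (abs_nonneg _))
  · obtain ⟨K, hK⟩ : ∃ K : ℝ, K = 2 * (1 + a1) + 1 / (1 + a2) := ⟨_, rfl⟩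
    have hK0 : 0 < K := by rw [hK]; positivity
    obtain ⟨Z0, hZ0⟩ := weyl_box_re a1 a2 (by linarith) K hK0
    refine ⟨max 2 (max Z0 (max ⌈κ⌉₊ ⌈4 / κ⌉₊)), ?_⟩
    intro Z hZ m hm1 hm2 a b hab
    have hZ2 : 2 ≤ Z := le_trans (le_max_left _ _) hZ
    have hZ' : max Z0 (max ⌈κ⌉₊ ⌈4 / κ⌉₊) ≤ Z := le_trans (le_max_right _ _) hZ
    have hZZ0 : Z0 ≤ Z := le_trans (le_max_left _ _) hZ'
    have hZ'' : max ⌈κ⌉₊ ⌈4 / κ⌉₊ ≤ Z := le_trans (le_max_right _ _) hZ'
    have hZk : κ ≤ Z := by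
      have h5 : ((⌈κ⌉₊ : ℕ) : ℝ) ≤ Z := by exact_mod_cast le_trans (le_max_left _ _) hZ''
      exact le_trans (Nat.le_ceil κ) h5
    have hZk2 : 4 / κ ≤ Z := by
      have h5 : ((⌈4 / κ⌉₊ : ℕ) : ℝ) ≤ Z := by exact_mod_cast le_trans (le_max_right _ _) hZ''
      exact le_trans (Nat.le_ceil (4 / κ)) h5
    have hZn : 0 < Z := by omega
    have hZ0r : (0 : ℝ) < Z := by exact_mod_cast hZn
    have hZ1r : (1 : ℝ) ≤ Z := by exact_mod_cast hZn
    have hsZ : (0 : ℤ) < (Z : ℤ) ^ 158 := by positivity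
    have hcorner : (a, b) ∈ rect a (a + (Z : ℤ) ^ 158) b (b + (Z : ℤ) ^ 158) := by
      rw [mem_rect]
      simp only
      omega
    have hcT := mem_TX.mp (hab _ hcorner)
    push_cast at hcT
    have hX1 : (Z : ℝ) ^ 160 ≤ a := by exact_mod_cast hcT.1.1.le
    have hX2 : (a : ℝ) ≤ 2 * (Z : ℝ) ^ 160 := by exact_mod_cast hcT.1.2
    have hb0 : (0 : ℝ) ≤ b := by exact_mod_cast hcT.2.1
    have hb1 : (b : ℝ) ≤ a := by exact_mod_cast hcT.2.2.le
    have hXp : (0 : ℝ) < (Z : ℝ) ^ 160 := by positivity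
    have hm1r : (Z : ℝ) ^ 151 ≤ |(m : ℝ)| := by exact_mod_cast hm1
    have hm2r : |(m : ℝ)| ≤ (Z : ℝ) ^ 650 := by exact_mod_cast hm2
    obtain ⟨tau, htau⟩ : ∃ tau : ℝ, tau = Real.pi * m / κ := ⟨_, rfl⟩
    have habs : |tau| = Real.pi * |(m : ℝ)| / κ := by
      rw [htau, abs_div, abs_mul, abs_of_pos hpi, abs_of_pos hκ]
    have ht1 : (Z : ℝ) ^ 150 ≤ |tau| := by
      rw [habs, le_div_iff₀ hκ]
      calc (Z : ℝ) ^ 150 * κ ≤ (Z : ℝ) ^ 150 * Z := mul_le_mul_of_nonneg_left hZk (by positivity)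
        _ = 1 * (Z : ℝ) ^ 151 := by ring
        _ ≤ Real.pi * |(m : ℝ)| := by
            apply mul_le_mul _ hm1r (by positivity) hpi.le
            linarith [Real.pi_gt_three]
    have ht2 : |tau| ≤ (Z : ℝ) ^ 660 := by
      rw [habs]
      calc Real.pi * |(m : ℝ)| / κ = (Real.pi / κ) * |(m : ℝ)| := by ring
        _ ≤ (Z : ℝ) * (Z : ℝ) ^ 650 := by
            apply mul_le_mul _ hm2r (abs_nonneg _) hZ0r.le
            refine le_trans ?_ hZk2
            exact div_le_div_of_nonneg_right Real.pi_le_four hκ.le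
        _ = (Z : ℝ) ^ 651 := (pow_succ' (Z : ℝ) 650).symm
        _ ≤ (Z : ℝ) ^ 660 := pow_le_pow_right₀ hZ1r (by norm_num)
    have hg1 : (Z : ℝ) ^ 160 / K ≤ gr a1 (a, b) := by
      rw [div_le_iff₀ hK0]
      have h5 : (a : ℝ) ≤ gr a1 (a, b) := by
        unfold gr
        simp only
        have := mul_nonneg hb0 h1.le
        linarith
      have h6 : 1 ≤ K := by
        rw [hK]
        have : 0 < 1 / (1 + a2) := by positivity
        linarith
      calc (Z : ℝ) ^ 160 ≤ a := hX1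
        _ = a * 1 := by ring
        _ ≤ gr a1 (a, b) * K := mul_le_mul h5 h6 (by norm_num) (by linarith)
    have hg2 : gr a1 (a, b) ≤ K * (Z : ℝ) ^ 160 := by
      have h5 : gr a1 (a, b) ≤ a * (1 + a1) := by
        unfold gr
        simp only
        have := mul_le_mul_of_nonneg_right hb1 h1.le
        linarith
      have h6 : (a : ℝ) * (1 + a1) ≤ 2 * (Z : ℝ) ^ 160 * (1 + a1) :=
        mul_le_mul_of_nonneg_right hX2 (by linarith)
      have h7 : 0 ≤ 1 / (1 + a2) * (Z : ℝ) ^ 160 := by positivity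
      rw [hK]
      linarith
    have hg3 : (Z : ℝ) ^ 160 / K ≤ gr a2 (a, b) := by
      rw [div_le_iff₀ hK0]
      have h5 : (a : ℝ) * (1 + a2) ≤ gr a2 (a, b) := by
        unfold gr
        simp only
        have := mul_le_mul_of_nonpos_right hb1 h2.le
        linarith
      have h6 : 1 / (1 + a2) ≤ K := by
        rw [hK]
        linarith
      have h7 : 0 ≤ (a : ℝ) * (1 + a2) := mul_nonneg (by linarith) hn0.le
      calc (Z : ℝ) ^ 160 ≤ a := hX1
        _ = (a * (1 + a2)) * (1 / (1 + a2)) := by field_simp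
        _ ≤ gr a2 (a, b) * K := mul_le_mul h5 h6 (by positivity) (by linarith)
    have hg4 : gr a2 (a, b) ≤ K * (Z : ℝ) ^ 160 := by
      have h5 : gr a2 (a, b) ≤ a := by
        unfold gr
        simp only
        have := mul_nonpos_of_nonneg_of_nonpos hb0 h2.le
        linarith
      have h7 : 0 ≤ 1 / (1 + a2) * (Z : ℝ) ^ 160 := by positivity
      have h8 : 0 ≤ 2 * a1 * (Z : ℝ) ^ 160 := by positivity
      rw [hK]
      linarith
    have key := hZ0 Z hZZ0 tau ht1 ht2 a b hg1 hg2 hg3 hg4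
    have e : ∑ w ∈ rect a (a + (Z : ℤ) ^ 158) b (b + (Z : ℤ) ^ 158),
        ph (2 * Real.pi * m * ((Real.log (1 + sl w * a1) - Real.log (1 + sl w * a2)) / (2 * κ)))
        = ∑ w ∈ rect a (a + (Z : ℤ) ^ 158) b (b + (Z : ℤ) ^ 158),
          ph (tau * (Real.log (gr a1 w) - Real.log (gr a2 w))) := by
      apply Finset.sum_congr rfl
      intro w hw
      have hwT := mem_TX.mp (hab w hw)
      have hw0 := TX_pos (hab w hw)
      have hw0r : (0 : ℝ) < w.1 := by exact_mod_cast hw0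
      have hs := sl_mem hw0 hwT.2.1 hwT.2.2.le
      have q1 : 0 < 1 + sl w * a1 := by linarith [hp1 _ hs.1]
      have q2 : 0 < 1 + sl w * a2 := by linarith [hp2 _ hs.1 hs.2]
      rw [gr_eq_sl _ hw0, gr_eq_sl _ hw0, Real.log_mul hw0r.ne' q1.ne',
        Real.log_mul hw0r.ne' q2.ne', htau]
      congr 1
      field_simp
      ring
    show ‖∑ w ∈ rect a (a + (Z : ℤ) ^ 158) b (b + (Z : ℤ) ^ 158),
        ph (2 * Real.pi * m * ((Real.log (1 + sl w * a1) - Real.log (1 + sl w * a2))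
          / (2 * κ)))‖ ^ 16 * Z ≤ _
    rw [e]
    exact le_trans key (mul_le_mul_of_nonneg_right (le_max_right _ _) (by positivity))

end Pool.Agent.Lib.MP_a17b09_nt.LG
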